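import Pool.Agent.W_eea520_L.GapE

/-!
# A basis of the real and imaginary parts of the orbit functions (MP_eea520_nt)
-/

set_option autoImplicit false

namespace Pool.Agent.EEAL

open Finset Pool.Agent.EEA520 Pool.Agent.EEAN Pool.Agent.EEAC

variable {n : ℕ} {ε : Prop}

/-- The real functions on the compact torus which are trigonometric polynomials without constant
term. -/
def trigSub (ε : Prop) (n : ℕ) : Submodule ℝ (XE ε n → ℝ) where
  carrier := {f | ∃ a : Wt n →₀ ℂ, (∀ v, a v ≠ 0 → ¬ TrivE ε v) ∧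
    ∀ q : XE ε n, (f q : ℂ) = a.sum fun v z => z * (q.1.ev v : ℂ)}
  zero_mem' := ⟨0, by simp, by simp⟩
  add_mem' := by
    rintro f g ⟨a, ha, hf⟩ ⟨b, hb, hg⟩
    refine ⟨a + b, fun v hv => ?_, fun q => ?_⟩
    · by_cases h : a v = 0
      · by_cases h' : b v = 0
        · rw [Finsupp.add_apply, h, h', add_zero] at hv
          exact absurd rfl hv
        · exact hb v h'
      · exact ha v h
    · rw [Finsupp.sum_add_index' (by simp) (by intro v x y; ring), ← hf, ← hg]
      simp
  smul_mem' := by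
    rintro c f ⟨a, ha, hf⟩
    refine ⟨(c : ℂ) • a, fun v hv => ha v fun h => ?_, fun q => ?_⟩
    · rw [Finsupp.smul_apply, h, smul_zero] at hv
      exact absurd rfl hv
    · rw [Finsupp.sum_smul_index' (by simp)]
      have h1 : (((c • f) q : ℝ) : ℂ) = (c : ℂ) * (f q : ℂ) := by
        simp
      rw [h1, hf]
      unfold Finsupp.sum
      rw [mul_sum]
      refine sum_congr rfl fun v _ => ?_
      simp only [smul_eq_mul]
      ring

theorem trig_zero {f : XE ε n → ℝ} (hf : f ∈ trigSub ε n) (h : ∀ q, 0 ≤ f q) : f = 0 := by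
  classical
  obtain ⟨a, ha, hf⟩ := hf
  funext r
  have h1 := nonneg_zero (ε := ε) a.support (fun v hv => ha v (Finsupp.mem_support_iff.1 hv)) a
    (fun q => if hq : IsPtE ε q then f ⟨q, hq⟩ else 0) (fun q hq => by
      rw [dif_pos hq]
      exact hf ⟨q, hq⟩) (fun q hq => by
      rw [dif_pos hq]
      exact h ⟨q, hq⟩) r.1 r.2
  rw [dif_pos r.2] at h1
  exact h1

theorem card_posE : (0 : ℝ) < Fintype.card (WG n) :=
  lt_of_le_of_ne (Nat.cast_nonneg _) (Ne.symm card_ne_zero')

/-- The real part of the normalized orbit function. -/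
noncomputable def reF (w : Wt n) (q : XE ε n) : ℝ := (orbC q.1 w).re / Fintype.card (WG n)

/-- The imaginary part of the normalized orbit function. -/
noncomputable def imF (w : Wt n) (q : XE ε n) : ℝ := (orbC q.1 w).im / Fintype.card (WG n)

theorem norm_orbC_le {q : Torus n} (hq : IsPtE ε q) (w : Wt n) :
    ‖orbC q w‖ ≤ Fintype.card (WG n) := by
  unfold orbC
  refine (norm_sum_le _ _).trans ?_
  rw [sum_congr rfl fun g _ => hq.norm_ev (EEA520.act g w)]
  simp

theorem reF_le (w : Wt n) (q : XE ε n) : |reF w q| ≤ 1 := by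
  unfold reF
  rw [abs_div, abs_of_pos card_posE, div_le_one card_posE]
  exact (Complex.abs_re_le_norm _).trans (norm_orbC_le q.2 w)

theorem imF_le (w : Wt n) (q : XE ε n) : |imF w q| ≤ 1 := by
  unfold imF
  rw [abs_div, abs_of_pos card_posE, div_le_one card_posE]
  exact (Complex.abs_im_le_norm _).trans (norm_orbC_le q.2 w)

theorem orbC_conj {q : Torus n} (hq : IsPtE ε q) (w : Wt n) :
    (starRingEnd ℂ) (orbC q w) = ∑ g : WG n, (q.ev (-EEA520.act g w) : ℂ) := by
  unfold orbC
  rw [map_sum]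
  refine sum_congr rfl fun g _ => ?_
  rw [ev_neg', Units.val_inv_eq_inv_val, Complex.inv_eq_conj (hq.norm_ev _)]

theorem trig_of (w : Wt n) (hw : ¬ TrivE ε w) (f : XE ε n → ℝ) (b c : ℂ)
    (hf : ∀ q, (f q : ℂ) = b * orbC q.1 w + c * (starRingEnd ℂ) (orbC q.1 w)) :
    f ∈ trigSub ε n := by
  classical
  refine ⟨∑ g : WG n, (Finsupp.single (EEA520.act g w) b + Finsupp.single (-EEA520.act g w) c),
    fun v hv ht => hv ?_, fun q => ?_⟩
  · rw [Finsupp.finsetSum_apply]
    refine sum_eq_zero fun g _ => ?_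
    rw [Finsupp.add_apply, Finsupp.single_apply, Finsupp.single_apply, if_neg, if_neg, add_zero]
    · rintro rfl
      have h1 := ht.neg
      rw [neg_neg] at h1
      exact hw h1.of_act
    · rintro rfl
      exact hw ht.of_act
  · rw [← Finsupp.sum_finsetSum_index (by simp) (by intro v x y; ring), hf, orbC_conj q.2]
    unfold orbC
    rw [mul_sum, mul_sum, ← sum_add_distrib]
    refine sum_congr rfl fun g _ => ?_
    rw [Finsupp.sum_add_index' (by simp) (by intro v x y; ring),
      Finsupp.sum_single_index (by simp), Finsupp.sum_single_index (by simp)]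

theorem reF_mem {w : Wt n} (hw : ¬ TrivE ε w) : (reF w : XE ε n → ℝ) ∈ trigSub ε n := by
  have hc := card_ne_zero' (n := n)
  have hc' : (((Fintype.card (WG n) : ℕ) : ℝ) : ℂ) ≠ 0 := by exact_mod_cast hc
  refine trig_of w hw _ (1 / (2 * (Fintype.card (WG n) : ℝ) : ℂ))
    (1 / (2 * (Fintype.card (WG n) : ℝ) : ℂ)) fun q => ?_
  unfold reF
  push_cast
  rw [← mul_add, Complex.add_conj]
  push_cast
  field_simp

theorem imF_mem {w : Wt n} (hw : ¬ TrivE ε w) : (imF w : XE ε n → ℝ) ∈ trigSub ε n := by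
  have hc := card_ne_zero' (n := n)
  have hc' : (((Fintype.card (WG n) : ℕ) : ℝ) : ℂ) ≠ 0 := by exact_mod_cast hc
  refine trig_of w hw _ (1 / (2 * (Fintype.card (WG n) : ℝ) * Complex.I : ℂ))
    (-(1 / (2 * (Fintype.card (WG n) : ℝ) * Complex.I : ℂ))) fun q => ?_
  unfold imF
  push_cast
  rw [neg_mul, ← sub_eq_add_neg, ← mul_sub, Complex.sub_conj]
  push_cast
  have hI := Complex.I_ne_zero
  field_simp

/-- The real and imaginary parts of the non-constant orbit functions. -/
def SX (ε : Prop) (n : ℕ) : Set (XE ε n → ℝ) :=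
  {f | ∃ w : Wt n, ¬ TrivE ε w ∧ (f = reF w ∨ f = imF w)}

theorem SX_sub : Submodule.span ℝ (SX ε n) ≤ trigSub ε n := by
  rw [Submodule.span_le]
  rintro f ⟨w, hw, rfl | rfl⟩
  · exact reF_mem hw
  · exact imF_mem hw

theorem SX_countable : (SX ε n).Countable := by
  have h1 : SX ε n ⊆ Set.range (reF (n := n) (ε := ε)) ∪ Set.range (imF (n := n) (ε := ε)) := by
    rintro f ⟨w, -, rfl | rfl⟩
    · exact Or.inl ⟨w, rfl⟩
    · exact Or.inr ⟨w, rfl⟩
  exact ((Set.countable_range _).union (Set.countable_range _)).mono h1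

/-- A maximal linearly independent set. -/
noncomputable def BX (ε : Prop) (n : ℕ) : Set (XE ε n → ℝ) :=
  (exists_linearIndependent ℝ (SX ε n)).choose

theorem BX_sub : BX ε n ⊆ SX ε n := (exists_linearIndependent ℝ (SX ε n)).choose_spec.1

theorem BX_span : Submodule.span ℝ (BX ε n) = Submodule.span ℝ (SX ε n) :=
  (exists_linearIndependent ℝ (SX ε n)).choose_spec.2.1

theorem BX_indep : LinearIndependent ℝ ((↑) : BX ε n → (XE ε n → ℝ)) :=
  (exists_linearIndependent ℝ (SX ε n)).choose_spec.2.2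

/-- The index set. -/
abbrev IE (ε : Prop) (n : ℕ) : Type := ↥(BX ε n)

instance : Countable (IE ε n) := (SX_countable.mono BX_sub).to_subtype

instance : Nonempty (XE ε n) := ⟨⟨⟨1, fun _ => 1⟩, isPtE_one⟩⟩

theorem IE_le (i : IE ε n) (q : XE ε n) : |i.1 q| ≤ 1 := by
  obtain ⟨w, -, h | h⟩ := BX_sub i.2
  · rw [h]
    exact reF_le w q
  · rw [h]
    exact imF_le w q

theorem IE_mem (i : IE ε n) : i.1 ∈ trigSub ε n :=
  SX_sub (Submodule.subset_span (BX_sub i.2))

/-- THE GAP: nonzero combinations take negative values, uniformly. -/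
theorem gapE (M : Finset (IE ε n)) : ∃ η : ℝ, 0 < η ∧ ∀ b : IE ε n → ℝ, ∃ x : XE ε n,
    ∑ i ∈ M, b i * i.1 x ≤ -η * ∑ i ∈ M, |b i| := by
  classical
  -- the value of a combination
  let E : (M → ℝ) → XE ε n → ℝ := fun b x => ∑ i : M, b i * i.1.1 x
  let S : Set (M → ℝ) := {b | ∑ i : M, |b i| = 1}
  have hSc : IsCompact S := by
    refine Metric.isCompact_of_isClosed_isBounded ?_ ?_
    · exact isClosed_eq (by fun_prop) continuous_const
    · refine (Metric.isBounded_closedBall (x := (0 : M → ℝ)) (r := 1)).subset fun b hb => ?_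
      rw [mem_closedBall_zero_iff, pi_norm_le_iff_of_nonneg zero_le_one]
      intro i
      have h1 : ∑ i : M, |b i| = 1 := hb
      rw [← h1, Real.norm_eq_abs]
      exact single_le_sum (f := fun i => |b i|) (fun i _ => abs_nonneg _) (mem_univ i)
  let U : ℕ → Set (M → ℝ) := fun k => {b | ∃ x, E b x < -(1 / ((k : ℝ) + 1))}
  have hU : ∀ k, IsOpen (U k) := by
    intro k
    have h1 : U k = ⋃ x, {b | E b x < -(1 / ((k : ℝ) + 1))} := by
      ext b
      simp [U]
    rw [h1]
    refine isOpen_iUnion fun x => ?_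
    exact isOpen_lt (by fun_prop) continuous_const
  have hcov : S ⊆ ⋃ k, U k := by
    intro b hb
    have hb1 : ∑ i : M, |b i| = 1 := hb
    have hex : ∃ x, E b x < 0 := by
      by_contra hcon
      push Not at hcon
      have h1 : (∑ i : M, b i • i.1.1) ∈ trigSub ε n :=
        Submodule.sum_mem _ fun i _ => Submodule.smul_mem _ _ (IE_mem i.1)
      have h2 : ∀ x, (∑ i : M, b i • i.1.1) x = E b x := by
        intro x
        simp [E]
      have h3 := trig_zero h1 fun q => by
        rw [h2]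
        exact hcon q
      have h4 : LinearIndependent ℝ fun i : M => (i.1.1 : XE ε n → ℝ) :=
        BX_indep.comp (fun i : M => i.1) Subtype.val_injective
      have h5 := Fintype.linearIndependent_iff.1 h4 b h3
      rw [sum_eq_zero fun i _ => by rw [h5 i, abs_zero]] at hb1
      norm_num at hb1
    obtain ⟨x, hx⟩ := hex
    obtain ⟨k, hk⟩ := exists_nat_one_div_lt (neg_pos.2 hx)
    refine Set.mem_iUnion.2 ⟨k, x, ?_⟩
    linarith
  have hdir : Directed (· ⊆ ·) U := by
    have hmono : Monotone U := by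
      intro j k hjk b hb
      obtain ⟨x, hx⟩ := hb
      refine ⟨x, hx.trans_le ?_⟩
      have h1 : 1 / ((k : ℝ) + 1) ≤ 1 / ((j : ℝ) + 1) :=
        one_div_le_one_div_of_le (by positivity) (by
          have : (j : ℝ) ≤ k := by exact_mod_cast hjk
          linarith)
      linarith
    exact hmono.directed_le
  obtain ⟨k, hk⟩ := hSc.elim_directed_cover U hU hcov hdir
  refine ⟨1 / ((k : ℝ) + 1), by positivity, fun b => ?_⟩
  have hB : ∑ i ∈ M, |b i| = ∑ i : M, |b i.1| := (sum_coe_sort M fun i => |b i|).symm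
  have hE : ∀ x, ∑ i ∈ M, b i * i.1 x = ∑ i : M, b i.1 * i.1.1 x := fun x =>
    (sum_coe_sort M fun i => b i * i.1 x).symm
  rw [hB]
  simp only [hE]
  set B : ℝ := ∑ i : M, |b i.1| with hBd
  have hB0 : 0 ≤ B := sum_nonneg fun i _ => abs_nonneg _
  rcases hB0.eq_or_lt with hB1 | hB1
  · obtain ⟨x⟩ : Nonempty (XE ε n) := inferInstance
    refine ⟨x, ?_⟩
    have h3 : ∀ i : M, b i.1 = 0 := by
      intro i
      have h4 := (sum_eq_zero_iff_of_nonneg fun (i : M) _ => abs_nonneg (b i.1)).1
        (hBd ▸ hB1.symm) i (mem_univ i)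
      exact abs_eq_zero.1 h4
    rw [← hB1, mul_zero, sum_eq_zero fun i _ => by rw [h3 i, zero_mul]]
  · have h1 : (fun i : M => b i.1 / B) ∈ S := by
      show ∑ i : M, |b i.1 / B| = 1
      have h2 : ∀ i : M, |b i.1 / B| = |b i.1| / B := fun i => by
        rw [abs_div, abs_of_pos hB1]
      rw [sum_congr rfl fun i _ => h2 i, ← sum_div, ← hBd, div_self hB1.ne']
    obtain ⟨x, hx⟩ := hk h1
    refine ⟨x, ?_⟩
    have h2 : E (fun i : M => b i.1 / B) x = (∑ i : M, b i.1 * i.1.1 x) / B := by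
      show ∑ i : M, b i.1 / B * i.1.1 x = _
      rw [sum_div]
      exact sum_congr rfl fun i _ => by ring
    rw [h2, div_lt_iff₀ hB1] at hx
    linarith

end Pool.Agent.EEAL
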