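import Pool.Agent.W_eea520_n.K1b
import Pool.Agent.W_eea520_n.K1c

/-!
# Integer valued positive definite functions (Cohen's theorem for positive definite functions)
-/

set_option autoImplicit false

namespace Pool.Agent.EEAL

open Filter Topology Pool.Agent.EEAG1
open scoped InnerProductSpace

variable {G : Type} [AddCommGroup G] {H : Type} [NormedAddCommGroup H] [InnerProductSpace ℝ H]
  [CompleteSpace H]

/-- The weak limit of the operators `U a` along an ultrafilter. The limit `B x y` of `⟪U a x, y⟫` exists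
(values in `[-‖x‖‖y‖, ‖x‖‖y‖]`, compact; `isCompact_Icc.ultrafilter_le_nhds`), is bilinear and
`|B x y| ≤ ‖x‖ ‖y‖`; `T` is the operator of this bounded bilinear form
(`LinearMap.mkContinuous₂`, `InnerProductSpace.continuousLinearMapOfBilin` or `InnerProductSpace.toDual`). -/
theorem exists_weak (U : G → (H ≃ₗᵢ[ℝ] H)) (V : Ultrafilter G) :
    ∃ T : H →L[ℝ] H, ‖T‖ ≤ 1 ∧
      ∀ x y : H, Tendsto (fun a => ⟪U a x, y⟫_ℝ) V (𝓝 ⟪T x, y⟫_ℝ) := by
  have hex : ∀ x y : H, ∃ z : ℝ, |z| ≤ ‖x‖ * ‖y‖ ∧ Tendsto (fun a => ⟪U a x, y⟫_ℝ) V (𝓝 z) := by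
    intro x y
    have hb : ∀ a, ⟪U a x, y⟫_ℝ ∈ Set.Icc (-(‖x‖ * ‖y‖)) (‖x‖ * ‖y‖) := by
      intro a
      have h := abs_real_inner_le_norm (U a x) y
      rw [LinearIsometryEquiv.norm_map] at h
      exact abs_le.mp h
    obtain ⟨z, hz, hl⟩ := (isCompact_Icc (a := -(‖x‖ * ‖y‖)) (b := ‖x‖ * ‖y‖)).ultrafilter_le_nhds
      (V.map (fun a => ⟪U a x, y⟫_ℝ)) (by
        rw [Filter.le_principal_iff]
        exact Filter.mem_map.mpr (Filter.Eventually.of_forall hb))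
    exact ⟨z, abs_le.mpr hz, hl⟩
  choose B hBn hB using hex
  have hadd : ∀ x y z, B x (y + z) = B x y + B x z := by
    intro x y z
    refine tendsto_nhds_unique (hB x (y + z)) ?_
    simpa [inner_add_right] using (hB x y).add (hB x z)
  have hsmul : ∀ x (c : ℝ) y, B x (c • y) = c * B x y := by
    intro x c y
    refine tendsto_nhds_unique (hB x (c • y)) ?_
    simpa [inner_smul_right] using (hB x y).const_mul c
  have hadd' : ∀ x y z, B (x + y) z = B x z + B y z := by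
    intro x y z
    refine tendsto_nhds_unique (hB (x + y) z) ?_
    simpa [inner_add_left] using (hB x z).add (hB y z)
  have hsmul' : ∀ (c : ℝ) x y, B (c • x) y = c * B x y := by
    intro c x y
    refine tendsto_nhds_unique (hB (c • x) y) ?_
    simpa [inner_smul_left] using (hB x y).const_mul c
  let φ : H → (H →L[ℝ] ℝ) := fun x => LinearMap.mkContinuous
    { toFun := B x, map_add' := hadd x, map_smul' := by intro c y; simpa using hsmul x c y } ‖x‖
    (by intro y; simpa [Real.norm_eq_abs] using hBn x y)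
  have hφ : ∀ x y, φ x y = B x y := fun x y => rfl
  let S : H → H := fun x => (InnerProductSpace.toDual ℝ H).symm (φ x)
  have hS : ∀ x y, ⟪S x, y⟫_ℝ = B x y := by
    intro x y
    have h := InnerProductSpace.toDual_symm_apply (𝕜 := ℝ) (x := y) (y := φ x)
    rw [hφ] at h
    exact h
  have hSn : ∀ x, ‖S x‖ ≤ 1 * ‖x‖ := by
    intro x
    rw [one_mul]
    have h : ‖S x‖ = ‖φ x‖ := LinearIsometryEquiv.norm_map _ _
    rw [h]
    exact LinearMap.mkContinuous_norm_le _ (norm_nonneg x) _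
  let T : H →L[ℝ] H := LinearMap.mkContinuous
    { toFun := S
      map_add' := by
        intro x y
        refine ext_inner_right ℝ (fun v => ?_)
        rw [inner_add_left, hS, hS, hS, hadd']
      map_smul' := by
        intro c x
        refine ext_inner_right ℝ (fun v => ?_)
        rw [hS, RingHom.id_apply, inner_smul_left, hS, hsmul']
        simp } 1 hSn
  refine ⟨T, LinearMap.mkContinuous_norm_le _ zero_le_one _, ?_⟩
  intro x y
  have h : ⟪T x, y⟫_ℝ = B x y := hS x y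
  rw [h]
  exact hB x y

theorem Co1_inner_neg {U : G → (H ≃ₗᵢ[ℝ] H)} (hU : ∀ a b x, U (a + b) x = U a (U b x))
    (h0 : ∀ x, U 0 x = x) (a : G) (x y : H) : ⟪U (-a) x, y⟫_ℝ = ⟪x, U a y⟫_ℝ := by
  rw [← LinearIsometryEquiv.inner_map_map (U a) (U (-a) x) y, ← hU, add_neg_cancel, h0]

/-- The adjoint: `⟪T† x, y⟫ = ⟪x, T y⟫ = lim ⟪x, U a y⟫ = lim ⟪U (-a) x, y⟫`. -/
theorem weak_adjoint {U : G → (H ≃ₗᵢ[ℝ] H)} (hU : ∀ a b x, U (a + b) x = U a (U b x))
    (h0 : ∀ x, U 0 x = x) {V : Ultrafilter G} {T : H →L[ℝ] H}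
    (hT : ∀ x y : H, Tendsto (fun a => ⟪U a x, y⟫_ℝ) V (𝓝 ⟪T x, y⟫_ℝ)) (x y : H) :
    Tendsto (fun a => ⟪U (-a) x, y⟫_ℝ) V (𝓝 ⟪ContinuousLinearMap.adjoint T x, y⟫_ℝ) := by
  rw [ContinuousLinearMap.adjoint_inner_left]
  have h : (fun a => ⟪U (-a) x, y⟫_ℝ) = fun a => ⟪U a y, x⟫_ℝ := by
    funext a
    rw [Co1_inner_neg hU h0, real_inner_comm]
  rw [h, real_inner_comm]
  exact hT y x

/-- `⟪T (U b x), y⟫ = lim ⟪U a (U b x), y⟫ = lim ⟪U a x, U (-b) y⟫ = ⟪T x, U (-b) y⟫ = ⟪U b (T x), y⟫`; the same for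
the adjoint. -/
theorem weak_comm {U : G → (H ≃ₗᵢ[ℝ] H)} (hU : ∀ a b x, U (a + b) x = U a (U b x))
    (h0 : ∀ x, U 0 x = x) {V : Ultrafilter G} {T : H →L[ℝ] H}
    (hT : ∀ x y : H, Tendsto (fun a => ⟪U a x, y⟫_ℝ) V (𝓝 ⟪T x, y⟫_ℝ)) (b : G) (x : H) :
    T (U b x) = U b (T x) ∧
      ContinuousLinearMap.adjoint T (U b x) = U b (ContinuousLinearMap.adjoint T x) := by
  have h1 : ∀ x, T (U b x) = U b (T x) := by
    intro x
    refine ext_inner_right ℝ (fun v => ?_)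
    have e1 := hT (U b x) v
    have e2 := hT x (U (-b) v)
    have h : (fun a => ⟪U a (U b x), v⟫_ℝ) = fun a => ⟪U a x, U (-b) v⟫_ℝ := by
      funext a
      rw [← hU, add_comm, hU, real_inner_comm (U (-b) v), Co1_inner_neg hU h0, real_inner_comm]
    rw [h] at e1
    have e3 := tendsto_nhds_unique e1 e2
    rw [e3, real_inner_comm, Co1_inner_neg hU h0, real_inner_comm]
  refine ⟨h1 x, ?_⟩
  refine ext_inner_right ℝ (fun v => ?_)
  have e1 := weak_adjoint hU h0 hT (U b x) v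
  have e2 := weak_adjoint hU h0 hT x (U (-b) v)
  have h : (fun a => ⟪U (-a) (U b x), v⟫_ℝ) = fun a => ⟪U (-a) x, U (-b) v⟫_ℝ := by
    funext a
    rw [← hU, add_comm, hU, real_inner_comm (U (-b) v), Co1_inner_neg hU h0, real_inner_comm]
  rw [h] at e1
  have e3 := tendsto_nhds_unique e1 e2
  rw [e3, real_inner_comm, Co1_inner_neg hU h0, real_inner_comm]

/-- If `⟪U x z, v⟫ ∈ ℤ` for all `x`, then `⟪U x (T z), v⟫ = ⟪T (U x z), v⟫ = lim ⟪U (a + x) z, v⟫ ∈ ℤ` (`int_limit` or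
closedness), and the same for the adjoint. -/
theorem weak_int {U : G → (H ≃ₗᵢ[ℝ] H)} (hU : ∀ a b x, U (a + b) x = U a (U b x))
    (h0 : ∀ x, U 0 x = x) {V : Ultrafilter G} {T : H →L[ℝ] H}
    (hT : ∀ x y : H, Tendsto (fun a => ⟪U a x, y⟫_ℝ) V (𝓝 ⟪T x, y⟫_ℝ)) {z v : H}
    (hz : ∀ x, ∃ k : ℤ, ⟪U x z, v⟫_ℝ = k) :
    (∀ x, ∃ k : ℤ, ⟪U x (T z), v⟫_ℝ = k) ∧
      ∀ x, ∃ k : ℤ, ⟪U x (ContinuousLinearMap.adjoint T z), v⟫_ℝ = k := by
  constructor
  · intro x
    rw [← (weak_comm hU h0 hT x z).1]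
    refine (Pool.Agent.EEAN.int_limit V (c := fun a => ⟪U a (U x z), v⟫_ℝ) (Filter.Eventually.of_forall fun a => ?_)
      (hT (U x z) v)).1
    obtain ⟨k, hk⟩ := hz (a + x)
    exact ⟨k, by rw [← hk, hU]⟩
  · intro x
    rw [← (weak_comm hU h0 hT x z).2]
    refine (Pool.Agent.EEAN.int_limit V (c := fun a => ⟪U (-a) (U x z), v⟫_ℝ)
      (Filter.Eventually.of_forall fun a => ?_) (weak_adjoint hU h0 hT (U x z) v)).1
    obtain ⟨k, hk⟩ := hz (-a + x)
    exact ⟨k, by rw [← hk, hU]⟩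

end Pool.Agent.EEAL
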