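import Pool.Agent.W_eea520_L.Co1

set_option autoImplicit false

namespace Pool.Agent.EEAL

open Filter Topology Pool.Agent.EEAG1
open scoped InnerProductSpace

variable {G : Type} [AddCommGroup G] {H : Type} [NormedAddCommGroup H] [InnerProductSpace ℝ H]
  [CompleteSpace H]

/-- THE FIXED VECTOR. Let `A = T† T` and `a k = ⟪A ^ k v, v⟫`. By `weak_int` (induction) `⟪U x (A ^ k v), v⟫ ∈ ℤ`.
`a (2 j) = ‖A ^ j v‖ ^ 2`, `a (2 j + 1) = ‖T (A ^ j v)‖ ^ 2` and `‖T‖ ≤ 1`, `‖T†‖ ≤ 1`, so `a` is decreasing and `≥ 0`;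
being integral it is constant from `2 j` on, for some `j`. `‖A ^ j v - A ^ (j + 1) v‖ ^ 2 = a (2 j) - 2 a (2 j + 1) +
a (2 j + 2) = 0`, so `w = A ^ j v` has `A w = w`. As `A` is self-adjoint and commutes with `U`,
`⟪U x w, w⟫ = ⟪U x (A ^ j v), A ^ j v⟫ = ⟪U x (A ^ j (A ^ j v)), v⟫ = ⟪U x w, v⟫`. If `w = 0`: `A ^ j v = 0` implies `A v = 0`
(`‖A ^ i v‖ ^ 2 = ⟪A ^ (2 i) v, v⟫`, descending induction), so `‖T v‖ ^ 2 = ⟪A v, v⟫ = 0`. If `w = v`, then
`‖T v‖ ^ 2 = ⟪A v, v⟫ = ‖v‖ ^ 2`. -/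
theorem fix_vec {U : G → (H ≃ₗᵢ[ℝ] H)} (hU : ∀ a b x, U (a + b) x = U a (U b x))
    (h0 : ∀ x, U 0 x = x) {v : H} (hint : ∀ x, ∃ k : ℤ, ⟪U x v, v⟫_ℝ = k) {V : Ultrafilter G}
    {T : H →L[ℝ] H} (hT1 : ‖T‖ ≤ 1)
    (hT : ∀ x y : H, Tendsto (fun a => ⟪U a x, y⟫_ℝ) V (𝓝 ⟪T x, y⟫_ℝ)) :
    ∃ w : H, (∀ x, ⟪U x w, w⟫_ℝ = ⟪U x w, v⟫_ℝ) ∧ (∀ x, ∃ k : ℤ, ⟪U x w, v⟫_ℝ = k) ∧
      (w = 0 → T v = 0) ∧ (w = v → ‖T v‖ = ‖v‖) := by
  set S : H →L[ℝ] H := ContinuousLinearMap.adjoint T with hS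
  have hAself : ∀ x y : H, ⟪S (T x), y⟫_ℝ = ⟪x, S (T y)⟫_ℝ := by
    intro x y
    rw [hS, ContinuousLinearMap.adjoint_inner_left, ContinuousLinearMap.adjoint_inner_right]
  have hAT : ∀ x : H, ⟪S (T x), x⟫_ℝ = ‖T x‖ ^ 2 := by
    intro x
    rw [hS, ContinuousLinearMap.adjoint_inner_left, real_inner_self_eq_norm_sq]
  have hSn : ‖S‖ ≤ 1 := by
    rw [hS, LinearIsometryEquiv.norm_map]
    exact hT1
  have hTle : ∀ x, ‖T x‖ ≤ ‖x‖ := fun x => by
    simpa using (T.le_opNorm x).trans (mul_le_mul_of_nonneg_right hT1 (norm_nonneg x))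
  have hSle : ∀ x, ‖S x‖ ≤ ‖x‖ := fun x => by
    simpa using (S.le_opNorm x).trans (mul_le_mul_of_nonneg_right hSn (norm_nonneg x))
  have hAU : ∀ b x, S (T (U b x)) = U b (S (T x)) := by
    intro b x
    rw [(weak_comm hU h0 hT b x).1, (weak_comm hU h0 hT b (T x)).2]
  set f : ℕ → H := fun k => (fun x => S (T x))^[k] v with hf
  have hf0 : f 0 = v := rfl
  have hfs : ∀ k, f (k + 1) = S (T (f k)) := by
    intro k
    rw [hf]
    exact Function.iterate_succ_apply' _ _ _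
  have hshift : ∀ k l, ⟪f (k + 1), f l⟫_ℝ = ⟪f k, f (l + 1)⟫_ℝ := by
    intro k l
    rw [hfs, hfs, hAself]
  have hfUint : ∀ k x, ∃ n : ℤ, ⟪U x (f k), v⟫_ℝ = n := by
    intro k
    induction k with
    | zero => intro x; rw [hf0]; exact hint x
    | succ k ih =>
      intro x
      rw [hfs]
      exact (weak_int hU h0 hT (weak_int hU h0 hT ih).1).2 x
  have hmove : ∀ k l, ⟪f k, f l⟫_ℝ = ⟪f (k + l), v⟫_ℝ := by
    intro k l
    induction l generalizing k with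
    | zero => rw [hf0, add_zero]
    | succ l ih => rw [← hshift, ih, add_right_comm, add_assoc]
  have hUmove : ∀ k x y, ⟪U x (f k), y⟫_ℝ = ⟪U x v, (fun z => S (T z))^[k] y⟫_ℝ := by
    intro k
    induction k with
    | zero => intro x y; rfl
    | succ k ih =>
      intro x y
      rw [hfs, ← hAU, hAself, ih, Function.iterate_succ_apply]
  have hint0 : ∀ k, ∃ n : ℤ, ⟪f k, v⟫_ℝ = n := by
    intro k
    obtain ⟨n, hn⟩ := hfUint k 0
    exact ⟨n, by rw [← hn, h0]⟩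
  have hnsq : ∀ k, ∃ n : ℕ, ‖f k‖ ^ 2 = n := by
    intro k
    obtain ⟨n, hn⟩ := hint0 (k + k)
    have h1 : ‖f k‖ ^ 2 = n := by rw [← real_inner_self_eq_norm_sq, hmove, hn]
    have h2 : (0 : ℤ) ≤ n := by
      have h3 : (0 : ℝ) ≤ n := by rw [← h1]; positivity
      exact_mod_cast h3
    exact ⟨n.toNat, by rw [h1]; exact_mod_cast (Int.toNat_of_nonneg h2).symm⟩
  choose b hb using hnsq
  obtain ⟨j, hj⟩ : ∃ j, ∀ i, b j ≤ b i := by
    exact ⟨Function.argmin b, fun i => Function.argmin_le b i⟩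
  have hle1 : ‖T (f j)‖ ^ 2 ≤ ‖f j‖ ^ 2 := pow_le_pow_left₀ (norm_nonneg _) (hTle _) 2
  have hle2 : ‖f (j + 1)‖ ^ 2 ≤ ‖T (f j)‖ ^ 2 := by
    rw [hfs]
    exact pow_le_pow_left₀ (norm_nonneg _) (hSle _) 2
  have hle3 : ‖f j‖ ^ 2 ≤ ‖f (j + 1)‖ ^ 2 := by
    rw [hb, hb]
    exact_mod_cast hj (j + 1)
  have hfix : S (T (f j)) = f j := by
    have h1 : ‖f j - S (T (f j))‖ ^ 2 = 0 := by
      rw [norm_sub_sq_real, real_inner_comm, hAT, ← hfs]
      linarith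
    exact (sub_eq_zero.1 (norm_eq_zero.1 (pow_eq_zero_iff two_ne_zero |>.1 h1))).symm
  have hiter : ∀ k, (fun z => S (T z))^[k] (f j) = f j := fun k =>
    Function.iterate_fixed hfix k
  refine ⟨f j, fun x => ?_, fun x => hfUint j x, fun hw => ?_, fun hw => ?_⟩
  · have h1 := hUmove j x (f j)
    have h2 : ⟪U x (f j), v⟫_ℝ = ⟪U x v, f j⟫_ℝ := hUmove j x v
    rw [h1, hiter, h2]
  · have hdesc : ∀ k, f k = 0 → S (T v) = 0 := by
      intro k
      induction k with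
      | zero => intro h; rw [hf0] at h; rw [h, map_zero, map_zero]
      | succ k ih =>
        intro h
        rcases k with _ | k
        · rw [hfs, hf0] at h
          exact h
        · refine ih ?_
          have h1 : ⟪f (k + 1), f (k + 1)⟫_ℝ = 0 := by
            rw [← hshift, h, inner_zero_left]
          exact inner_self_eq_zero.1 h1
    have h1 := hAT v
    rw [hdesc j hw, inner_zero_left] at h1
    exact norm_eq_zero.1 (pow_eq_zero_iff two_ne_zero |>.1 h1.symm)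
  · rw [hw] at hfix
    have h1 := hAT v
    rw [hfix, real_inner_self_eq_norm_sq] at h1
    exact ((sq_eq_sq₀ (norm_nonneg _) (norm_nonneg _)).1 h1).symm

/-- `fun x => ⟪U x w, w⟫` is positive definite. -/
theorem posDefG_inner {U : G → (H ≃ₗᵢ[ℝ] H)} (hU : ∀ a b x, U (a + b) x = U a (U b x))
    (h0 : ∀ x, U 0 x = x) (w : H) : PosDefG fun x => ⟪U x w, w⟫_ℝ := by
  refine ⟨fun k => ?_, fun x => ?_⟩
  · show ⟪U (-k) w, w⟫_ℝ = ⟪U k w, w⟫_ℝ
    rw [Co1_inner_neg hU h0, real_inner_comm]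
  · have h1 : ∀ i j, ⟪U (i - j) w, w⟫_ℝ = ⟪U i w, U j w⟫_ℝ := by
      intro i j
      rw [sub_eq_add_neg, add_comm, hU, Co1_inner_neg hU h0]
    have h2 : (x.sum fun i a => x.sum fun j b => a * b * ⟪U (i - j) w, w⟫_ℝ) =
        ⟪x.sum fun i a => a • U i w, x.sum fun i a => a • U i w⟫_ℝ := by
      simp only [Finsupp.sum, sum_inner, inner_sum, real_inner_smul_left, real_inner_smul_right]
      refine Finset.sum_congr rfl fun i _ => Finset.sum_congr rfl fun j _ => ?_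
      rw [h1, mul_assoc, real_inner_comm]
    rw [h2]
    exact real_inner_self_nonneg

end Pool.Agent.EEAL
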