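import Pool.Agent.W_eea520_n.Defs

/-!
# The laws of the edge: definitions (MP_eea520_nt)
-/

set_option autoImplicit false

namespace Pool.Agent.EEAL

open Filter Topology Pool.Agent.EEA520 Pool.Agent.EEAN

/-- The Weyl group of `GSpin_{2n+1}`: pairs of a permutation of the `x_i` and a set of reflections
`x_i ↦ x_i⁻¹`, `c ↦ c x_i`. -/
abbrev Weyl (n : ℕ) : Type := Equiv.Perm (Fin n) × Finset (Fin n)

/-- The action on the weights. -/
def wact {n : ℕ} (g : Weyl n) (w : Wt n) : Wt n :=
  (w.1, fun i => if i ∈ g.2 then w.1 - w.2 (g.1 i) else w.2 (g.1 i))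

/-- The orbit sum of a weight, with `2 ^ n * n !` terms. -/
noncomputable def orbitSum {n : ℕ} (w : Wt n) : Wt n →₀ ℤ :=
  ∑ g : Weyl n, Finsupp.single (wact g w) 1

/-- `c` is the function of the pole orders of `π` on `1 + i E`: at `1 + i t`, `t ∈ E`, the Euler product for a
virtual character `m` is meromorphic, and its pole order is the sum of the `m w * c (w, t)` divided by
`2 ^ n * n !`; for the orbit sum of any weight `w` the pole order is `c (w, t)`, and this is also the mean
value, in the sense of Dirichlet density, of the sum over `g` of the real parts of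
`(g w)(A_p) p ^ (-i t)`. -/
def Orders {n : ℕ} (π : GSys n) (E : AddSubgroup ℝ) (c : Wt n × ℝ → ℤ) : Prop :=
  (∀ m, IsCharacter m → ∀ t ∈ E, ∃ k : ℤ,
    (Fintype.card (Weyl n) : ℤ) * k = (m.sum fun w u => u * c (w, t)) ∧ PoleOrder π m (pt t) k) ∧
  ∀ w : Wt n, ∀ t ∈ E, PoleOrder π (orbitSum w) (pt t) (c (w, t)) ∧
    DirMean (fun p => ∑ g : Weyl n,
      (((π p).ev (wact g w) : ℂ) * ((p : ℕ) : ℂ) ^ (-(t * Complex.I))).re) (c (w, t))

/-- Positive definite functions with integer values on an abelian group. -/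
def PosDef {G : Type} [AddCommGroup G] (c : G → ℤ) : Prop :=
  (∀ x, c (-x) = c x) ∧
    ∀ a : G →₀ ℝ, 0 ≤ a.sum fun x u => a.sum fun y v => u * v * (c (x - y) : ℝ)

/-- `f` is periodic with respect to the subgroup `H` and it has finite support modulo `H`. -/
def FinMod {G : Type} [AddCommGroup G] (f : G → ℤ) (H : AddSubgroup G) : Prop :=
  (∀ x, ∀ h ∈ H, f (x + h) = f x) ∧ ∃ S : Finset G, ∀ x, f x ≠ 0 → ∃ y ∈ S, x - y ∈ H

/-- `c` is invariant under the Weyl group, divisible by the orders of the stabilizers, normalized, and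
periodic with respect to the similitude character `(2, (1, …, 1))` if `ε`. -/
structure Normal {n : ℕ} (ε : Prop) (c : Wt n × ℝ → ℤ) : Prop where
  inv : ∀ (g : Weyl n) w t, c (wact g w, t) = c (w, t)
  stab : ∀ w t, ((Finset.univ.filter fun g : Weyl n => wact g w = w).card : ℤ) ∣ c (w, t)
  zero : ∀ t, c (0, t) = if t = 0 then (Fintype.card (Weyl n) : ℤ) else 0
  per : ε → ∀ w t, c (w + (2, 1), t) = c (w, t)

end Pool.Agent.EEAL
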