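import Pool.Agent.W_eea520_L.Co2
import Pool.Agent.W_eea520_L.Stmt

set_option autoImplicit false

namespace Pool.Agent.EEAL

open Filter Topology Pool.Agent.EEAG1
open scoped InnerProductSpace

variable {G : Type} [AddCommGroup G]

/-- THE DECOMPOSITION. `exists_gnsG`, `exists_weak`, and `w` from `fix_vec`; `c₁ x = ⟪U x w, w⟫`,
`c₂ x = ⟪U x (v - w), v - w⟫ = c x - c₁ x` (`⟪U x v, w⟫ = ⟪U (-x) w, v⟫ = c₁ (-x) = c₁ x`). If `c₁ 0 = 0` then `w = 0`,
`T v = 0`, and `c a = ⟪U a v, v⟫ → 0` along `V`, so `c a = 0` on a set in `V` (`int_limit`), contradicting `h1`. If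
`c₂ 0 = 0` then `w = v`, `‖T v‖ = ‖v‖`; `⟪T v, T v⟫ = lim_a ⟪U a v, T v⟫` and `⟪U a v, T v⟫ = lim_b ⟪U a v, U b v⟫ = lim_b c (a - b)`
is an integer; so for some `a` it is `c 0`, and then `c (a - b) = c 0` for `b` in a set of `V`, contradicting `h2`. -/
theorem split {c : G → ℤ} (hc : PosDefG fun x => (c x : ℝ)) (V : Ultrafilter G)
    (h1 : {a | c a ≠ 0} ∈ V) (h2 : ∀ a, {b | c (a - b) = c 0} ∉ V) :
    ∃ c₁ c₂ : G → ℤ, PosDefG (fun x => (c₁ x : ℝ)) ∧ PosDefG (fun x => (c₂ x : ℝ)) ∧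
      (∀ x, c x = c₁ x + c₂ x) ∧ 0 < c₁ 0 ∧ 0 < c₂ 0 := by
  classical
  obtain ⟨H, i1, i2, i3, U, v, hU, hU0, hv⟩ := exists_gnsG hc
  obtain ⟨T, hT1, hT⟩ := exists_weak U V
  obtain ⟨w, hw1, hw2, hw3, hw4⟩ := fix_vec hU hU0 (fun x => ⟨c x, hv x⟩) hT1 hT
  choose k hk using hw2
  have hkw : ∀ x, ⟪U x w, w⟫_ℝ = k x := fun x => (hw1 x).trans (hk x)
  have hp1 : PosDefG fun x => (k x : ℝ) := by
    have h := posDefG_inner hU hU0 w
    simp only [hkw] at h
    exact h
  have hvw : ∀ x, ⟪U x v, w⟫_ℝ = k x := by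
    intro x
    rw [← hp1.symm x, ← hk (-x), Co1_inner_neg hU hU0, real_inner_comm]
  have hc2 : ∀ x, ⟪U x (v - w), v - w⟫_ℝ = ((c x - k x : ℤ) : ℝ) := by
    intro x
    rw [map_sub, inner_sub_left, inner_sub_right, inner_sub_right, hv, hvw, hk, hkw]
    push_cast
    ring
  have hp2 : PosDefG fun x => ((c x - k x : ℤ) : ℝ) := by
    have h := posDefG_inner hU hU0 (v - w)
    simp only [hc2] at h
    exact h
  refine ⟨k, fun x => c x - k x, hp1, hp2, fun x => by ring, ?_, ?_⟩
  · have h3 : ((k 0 : ℤ) : ℝ) = ‖w‖ ^ 2 := by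
      rw [← hkw 0, hU0, real_inner_self_eq_norm_sq]
    have h4 : 0 ≤ k 0 := by
      have : (0 : ℝ) ≤ k 0 := by
        rw [h3]
        positivity
      exact_mod_cast this
    refine lt_of_le_of_ne h4 fun h5 => ?_
    have h6 : w = 0 := by
      rw [← h5, Int.cast_zero] at h3
      exact norm_eq_zero.1 (pow_eq_zero_iff two_ne_zero |>.1 h3.symm)
    have h7 := hT v v
    rw [hw3 h6, inner_zero_left] at h7
    have h8 := (Pool.Agent.EEAN.int_limit V
      (Filter.Eventually.of_forall fun a => ⟨c a, hv a⟩) h7).2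
    have h9 : ∀ᶠ a in (V : Filter G), c a ≠ 0 := h1
    obtain ⟨a, ha, ha'⟩ := (h8.and h9).exists
    rw [hv] at ha
    exact ha' (by exact_mod_cast ha)
  · have h3 : ((c 0 - k 0 : ℤ) : ℝ) = ‖v - w‖ ^ 2 := by
      rw [← hc2 0, hU0, real_inner_self_eq_norm_sq]
    have h4 : 0 ≤ c 0 - k 0 := by
      have : (0 : ℝ) ≤ ((c 0 - k 0 : ℤ) : ℝ) := by
        rw [h3]
        positivity
      exact_mod_cast this
    refine lt_of_le_of_ne h4 fun h5 => ?_
    have h6 : w = v := by
      have h5' : c 0 - k 0 = 0 := h5.symm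
      rw [h5', Int.cast_zero] at h3
      exact (sub_eq_zero.1 (norm_eq_zero.1 (pow_eq_zero_iff two_ne_zero |>.1 h3.symm))).symm
    have h7 := hw4 h6
    have hc0 : (c 0 : ℝ) = ‖v‖ ^ 2 := by
      rw [← hv 0, hU0, real_inner_self_eq_norm_sq]
    -- the inner limits
    have hab : ∀ a b, ⟪U b v, U a v⟫_ℝ = c (a - b) := by
      intro a b
      rw [← hv, sub_eq_add_neg, add_comm, hU, Co1_inner_neg hU hU0, real_inner_comm]
    have hg : ∀ a, (∃ n : ℤ, ⟪T v, U a v⟫_ℝ = n) ∧
        ∀ᶠ b in (V : Filter G), ⟪U b v, U a v⟫_ℝ = ⟪T v, U a v⟫_ℝ := fun a =>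
      Pool.Agent.EEAN.int_limit V (Filter.Eventually.of_forall fun b => ⟨c (a - b), hab a b⟩)
        (hT v (U a v))
    have h8 := hT v (T v)
    have h9 := (Pool.Agent.EEAN.int_limit V (Filter.Eventually.of_forall fun a => by
      obtain ⟨n, hn⟩ := (hg a).1
      exact ⟨n, by rw [real_inner_comm]; exact hn⟩) h8).2
    obtain ⟨a, ha⟩ := h9.exists
    rw [real_inner_comm, real_inner_self_eq_norm_sq, h7, ← hc0] at ha
    refine h2 a ?_
    filter_upwards [(hg a).2] with b hb
    rw [hab, ha] at hb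
    exact_mod_cast hb

/-- The subgroup of the periods, `posDefG_shift` with `ε = 1`. -/
theorem exists_per {c : G → ℤ} (hc : PosDefG fun x => (c x : ℝ)) :
    ∃ H : AddSubgroup G, (∀ x, x ∈ H ↔ c x = c 0) ∧ ∀ x, ∀ h ∈ H, c (x + h) = c x := by
  have hsh : ∀ x h : G, c h = c 0 → c (x + h) = c x := by
    intro x h hh
    have h1 := Pool.Agent.EEAN.posDefG_shift hc (τ := h) (ε := 1) (by norm_num)
      (by rw [one_mul]; exact_mod_cast hh) x
    rw [one_mul] at h1
    exact_mod_cast h1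
  have hneg : ∀ x : G, c (-x) = c x := by
    intro x
    exact_mod_cast hc.symm x
  refine ⟨{ carrier := {x | c x = c 0}
            zero_mem' := rfl
            add_mem' := ?_
            neg_mem' := ?_ }, fun x => Iff.rfl, fun x h hh => hsh x h hh⟩
  · intro a b ha hb
    exact (hsh a b hb).trans ha
  · intro a ha
    exact (hneg a).trans ha

/-- COHEN'S THEOREM FOR POSITIVE DEFINITE FUNCTIONS. Induction on `c 0 ∈ ℕ` (`0 ≤ c 0`; `|c x| ≤ c 0`, so `c = 0` if
`c 0 = 0`: `r = 0`). Let `H` be the subgroup of `exists_per`. If `FinMod c H`, then `r = 1`. Otherwise the set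
`{c ≠ 0}` is not covered by finitely many cosets of `H`, so the set `{c ≠ 0}` and the complements of the
cosets `{b | a - b ∈ H}` generate a proper filter, and `split` applies to an ultrafilter `V` below it
(`Ultrafilter.of`). -/
theorem cohen_pd {c : G → ℤ} (hc : PosDefG fun x => (c x : ℝ)) :
    ∃ (r : ℕ) (f : Fin r → G → ℤ) (H : Fin r → AddSubgroup G),
      (∀ i, PosDefG (fun x => (f i x : ℝ)) ∧ FinMod (f i) (H i)) ∧ ∀ x, c x = ∑ i, f i x := by
  classical
  have key : ∀ (n : ℕ) (c : G → ℤ), PosDefG (fun x => (c x : ℝ)) → c 0 ≤ n →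
      ∃ (r : ℕ) (f : Fin r → G → ℤ) (H : Fin r → AddSubgroup G),
        (∀ i, PosDefG (fun x => (f i x : ℝ)) ∧ FinMod (f i) (H i)) ∧
          ∀ x, c x = ∑ i, f i x := by
    intro n
    induction n with
    | zero =>
      intro c hc h0
      refine ⟨0, Fin.elim0, Fin.elim0, fun i => i.elim0, fun x => ?_⟩
      have h1 := Pool.Agent.EEAN.posDefG_abs_le hc x
      have h2 : |c x| ≤ c 0 := by exact_mod_cast h1
      rw [Finset.univ_eq_empty, Finset.sum_empty]
      have h3 : |c x| ≤ 0 := h2.trans (by exact_mod_cast h0)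
      exact abs_nonpos_iff.1 h3
    | succ n ih =>
      intro c hc h0
      obtain ⟨H, hH1, hH2⟩ := exists_per hc
      by_cases hF : FinMod c H
      · exact ⟨1, fun _ => c, fun _ => H, fun _ => ⟨hc, hF⟩, fun x => by simp⟩
      · have hex : ∀ S : Finset G, ∃ b, c b ≠ 0 ∧ ∀ a ∈ S, a - b ∉ H := by
          intro S
          by_contra hcon
          push Not at hcon
          refine hF ⟨hH2, S, fun x hx => ?_⟩
          obtain ⟨a, ha, hab⟩ := hcon x hx
          refine ⟨a, ha, ?_⟩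
          have := H.neg_mem hab
          rwa [neg_sub] at this
        choose b hb1 hb2 using hex
        let V : Ultrafilter G := Ultrafilter.of (Filter.map b Filter.atTop)
        have hV : (V : Filter G) ≤ Filter.map b Filter.atTop := Ultrafilter.of_le _
        have hV1 : {a | c a ≠ 0} ∈ V := by
          refine hV (Filter.mem_map.2 (Filter.Eventually.of_forall fun S => ?_))
          exact hb1 S
        have hV2 : ∀ a, {x | c (a - x) = c 0} ∉ V := by
          intro a ha
          have h1 : {x | a - x ∉ H} ∈ V := by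
            refine hV (Filter.mem_map.2 ?_)
            filter_upwards [Filter.eventually_ge_atTop ({a} : Finset G)] with S hS
            exact hb2 S a (hS (Finset.mem_singleton_self a))
          have h2 : ∀ᶠ x in (V : Filter G), c (a - x) = c 0 := ha
          have h3 : ∀ᶠ x in (V : Filter G), a - x ∉ H := h1
          obtain ⟨x, hx, hx'⟩ := (h2.and h3).exists
          exact hx' ((hH1 _).2 hx)
        obtain ⟨c₁, c₂, hp1, hp2, hsum, h1, h2⟩ := split hc V hV1 hV2
        have h3 := hsum 0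
        push_cast at h0
        obtain ⟨r₁, f₁, H₁, hf₁, hs₁⟩ := ih c₁ hp1 (by omega)
        obtain ⟨r₂, f₂, H₂, hf₂, hs₂⟩ := ih c₂ hp2 (by omega)
        refine ⟨r₁ + r₂, Fin.append f₁ f₂, Fin.append H₁ H₂, fun i => ?_, fun x => ?_⟩
        · refine Fin.addCases (fun i => ?_) (fun i => ?_) i
          · simp only [Fin.append_left]
            exact hf₁ i
          · simp only [Fin.append_right]
            exact hf₂ i
        · rw [Fin.sum_univ_add]
          simp only [Fin.append_left, Fin.append_right]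
          rw [hsum, hs₁, hs₂]
  exact key (c 0).toNat c hc (Int.self_le_toNat _)

end Pool.Agent.EEAL
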