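import Pool.Agent.W_eea520_L.RealE

/-!
# Continuation to `ℂ` and pole orders on the whole line (MP_eea520_nt)
-/

set_option autoImplicit false

namespace Pool.Agent.EEAL

open Filter Topology Pool.Agent.EEA520 Pool.Agent.EEAN Pool.Agent.EEAG1 LSeries Pool.Agent.EEAC

variable {n : ℕ} {ε : Prop}

theorem mero_shift (t : ℝ) (s : ℂ) : MeromorphicAt (fun s : ℂ => riemannZeta (s - t * Complex.I)) s :=
  (zeta_mero (s - t * Complex.I)).comp_analyticAt (g := fun s : ℂ => s - t * Complex.I) (by fun_prop)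

theorem mero_shift' (t : ℝ) (s : ℂ) :
    MeromorphicAt (fun s : ℂ => riemannZeta (s - t * Complex.I + 1 / 4)) s :=
  (zeta_mero (s - t * Complex.I + 1 / 4)).comp_analyticAt
    (g := fun s : ℂ => s - t * Complex.I + 1 / 4) (by fun_prop)

theorem mero_zz (t : ℝ) (s : ℂ) : MeromorphicAt (zz t) s :=
  (mero_shift t s).div (mero_shift' t s)

theorem mero_q (s : ℂ) : MeromorphicAt (fun s : ℂ => riemannZeta (s + 1 / 4)) s :=
  (zeta_mero (s + 1 / 4)).comp_analyticAt (g := fun s : ℂ => s + 1 / 4) (by fun_prop)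

theorem zeta_analytic {s : ℂ} (hs : s ≠ 1) : AnalyticAt ℂ riemannZeta s := by
  refine DifferentiableOn.analyticAt (s := {1}ᶜ) ?_ (isOpen_compl_singleton.mem_nhds hs)
  intro z hz
  exact (differentiableAt_riemannZeta hz).differentiableWithinAt

theorem ord_zero_of {f : ℂ → ℂ} {s : ℂ} (hf : AnalyticAt ℂ f s) (h0 : f s ≠ 0) :
    meromorphicOrderAt f s = 0 := by
  rw [hf.meromorphicOrderAt_eq, hf.analyticOrderAt_eq_zero.2 h0]
  rfl

theorem pt_re (t : ℝ) : (pt t).re = 1 := by
  unfold pt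
  simp

theorem ord_q (τ : ℝ) :
    meromorphicOrderAt (fun s : ℂ => riemannZeta (s + 1 / 4)) (pt τ) = 0 := by
  have hre : (pt τ + 1 / 4).re = 5 / 4 := by
    rw [Complex.add_re, pt_re]
    norm_num
  have hne1 : pt τ + 1 / 4 ≠ 1 := by
    intro h
    rw [h, Complex.one_re] at hre
    norm_num at hre
  refine ord_zero_of ?_ (riemannZeta_ne_zero_of_one_le_re (by rw [hre]; norm_num))
  exact (zeta_analytic hne1).fun_comp (f := fun s : ℂ => s + 1 / 4) (by fun_prop)

/-- The order of one factor. -/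
theorem ord_zz (t τ : ℝ) : meromorphicOrderAt (zz t) (pt τ) =
    (((if t = τ then -1 else 0 : ℤ)) : WithTop ℤ) := by
  have h1 : meromorphicOrderAt (zz t) (pt τ) =
      meromorphicOrderAt (fun s : ℂ => riemannZeta (s - t * Complex.I)) (pt τ) +
      meromorphicOrderAt (fun s : ℂ => riemannZeta (s - t * Complex.I + 1 / 4))⁻¹ (pt τ) := by
    rw [← meromorphicOrderAt_mul (mero_shift t _) (mero_shift' t _).inv]
    congr 1
  have hsub : pt τ - t * Complex.I = pt (τ - t) := by
    unfold pt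
    push_cast
    ring
  have h2 : meromorphicOrderAt (fun s : ℂ => riemannZeta (s - t * Complex.I + 1 / 4)) (pt τ) = 0 := by
    have hre : (pt τ - t * Complex.I + 1 / 4).re = 5 / 4 := by
      rw [hsub, Complex.add_re, pt_re]
      norm_num
    have hne1 : pt τ - t * Complex.I + 1 / 4 ≠ 1 := by
      intro h
      rw [h, Complex.one_re] at hre
      norm_num at hre
    refine ord_zero_of ?_ (riemannZeta_ne_zero_of_one_le_re (by rw [hre]; norm_num))
    exact (zeta_analytic hne1).fun_comp (f := fun s : ℂ => s - t * Complex.I + 1 / 4) (by fun_prop)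
  rw [h1, meromorphicOrderAt_inv, h2, neg_zero, add_zero]
  by_cases ht : t = τ
  · subst ht
    rw [if_pos rfl]
    have h3 : meromorphicOrderAt (fun s : ℂ => riemannZeta (s - t * Complex.I)) (pt t) =
        meromorphicOrderAt riemannZeta 1 := by
      have h4 : (fun s : ℂ => riemannZeta (s - t * Complex.I)) =
          riemannZeta ∘ fun s : ℂ => s - t * Complex.I := rfl
      have h5 : pt t - t * Complex.I = 1 := by
        rw [hsub, sub_self, pt_zero']
      rw [h4, meromorphicOrderAt_comp_of_deriv_ne_zero (by fun_prop) (by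
        rw [deriv_sub_const, deriv_id'']
        exact one_ne_zero), h5]
    rw [h3]
    exact zeta_pole.2
  · rw [if_neg ht]
    have hne : τ - t ≠ 0 := fun h => ht (sub_eq_zero.1 h).symm
    refine ord_zero_of ?_ ?_
    · have h3 := zeta_analytic (pt_ne_one hne)
      rw [← hsub] at h3
      exact h3.fun_comp (f := fun s : ℂ => s - t * Complex.I) (by fun_prop)
    · rw [hsub]
      exact riemannZeta_ne_zero_of_one_le_re (by rw [pt_re])

/-- The orders of the product. -/
theorem ord_form (T : Finset ℝ) (a : ℝ → ℤ) (haT : ∀ t, t ∉ T → a t = 0) (Z : ℤ) {H : ℂ → ℂ}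
    (hH : Differentiable ℂ H) (τ : ℝ) :
    meromorphicOrderAt (fun s => (∏ t ∈ T, zz t s ^ a t) * riemannZeta (s + 1 / 4) ^ Z *
      Complex.exp (H s)) (pt τ) = ((-a τ : ℤ) : WithTop ℤ) := by
  classical
  have hE : AnalyticAt ℂ (fun s => Complex.exp (H s)) (pt τ) :=
    (hH.differentiableOn.analyticAt (s := Set.univ) Filter.univ_mem).cexp
  have hE0 := ord_zero_of hE (Complex.exp_ne_zero _)
  have hP : ∀ t ∈ T, MeromorphicAt (zz t ^ a t) (pt τ) := fun t _ => (mero_zz t _).zpow _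
  have hPm : MeromorphicAt (∏ t ∈ T, zz t ^ a t) (pt τ) := MeromorphicAt.prod hP
  have hQ := (mero_q (pt τ)).zpow Z
  have h1 : meromorphicOrderAt (fun s => (∏ t ∈ T, zz t s ^ a t) * riemannZeta (s + 1 / 4) ^ Z *
      Complex.exp (H s)) (pt τ) =
      meromorphicOrderAt (∏ t ∈ T, zz t ^ a t) (pt τ) +
        meromorphicOrderAt ((fun s : ℂ => riemannZeta (s + 1 / 4)) ^ Z) (pt τ) +
        meromorphicOrderAt (fun s => Complex.exp (H s)) (pt τ) := by
    rw [← meromorphicOrderAt_mul hPm hQ,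
      ← meromorphicOrderAt_mul (hPm.mul hQ) hE.meromorphicAt]
    congr 1
    funext s
    simp [Finset.prod_apply]
  rw [h1, hE0, add_zero, meromorphicOrderAt_zpow (mero_q _), ord_q, mul_zero, add_zero,
    meromorphicOrderAt_prod hP]
  have h2 : ∀ t ∈ T, meromorphicOrderAt (zz t ^ a t) (pt τ) =
      (((if t = τ then -a t else 0 : ℤ)) : WithTop ℤ) := by
    intro t _
    rw [meromorphicOrderAt_zpow (mero_zz t _), ord_zz, ← WithTop.coe_mul]
    congr 1
    split_ifs <;> ring
  rw [Finset.sum_congr rfl h2, ← WithTop.coe_sum]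
  congr 1
  rw [Finset.sum_ite_eq' T τ fun t => -a t]
  split_ifs with h
  · rfl
  · rw [haT τ h, neg_zero]

theorem mero_form (T : Finset ℝ) (a : ℝ → ℤ) (Z : ℤ) {H : ℂ → ℂ} (hH : Differentiable ℂ H) :
    Meromorphic fun s => (∏ t ∈ T, zz t s ^ a t) * riemannZeta (s + 1 / 4) ^ Z *
      Complex.exp (H s) := by
  intro s
  have hE : AnalyticAt ℂ (fun s => Complex.exp (H s)) s :=
    (hH.differentiableOn.analyticAt (s := Set.univ) Filter.univ_mem).cexp
  have hP : MeromorphicAt (fun s => ∏ t ∈ T, zz t s ^ a t) s :=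
    MeromorphicAt.fun_prod fun t _ => (mero_zz t _).fun_zpow _
  exact (hP.mul ((mero_q s).fun_zpow Z)).mul hE.meromorphicAt

/-- REALIZATION OF LAWS ON THE LINE. -/
theorem realize_law {c : Wt n → ℝ →₀ ℤ} (hM : ∀ N : ℕ, N ≠ 0 → HasMeas ε fun w => mcC c w N)
    (hconst : ∀ w, TrivE ε w → c w = Finsupp.single 0 (Fintype.card (WG n) : ℤ))
    (ha : ∀ m : Wt n →₀ ℤ, IsCharacter m → ∀ t : ℝ,
      ∃ a : ℤ, (Fintype.card (WG n) : ℤ) * a = m.sum fun w e => e * c w t) :
    ∃ π : GSys n, Tempered π ∧ (ε → ∀ p, (π p).c ^ 2 * ∏ i, (π p).x i = 1) ∧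
      (∀ m : Wt n →₀ ℤ, IsCharacter m → Continues π m) ∧
      ∀ m : Wt n →₀ ℤ, IsCharacter m → ∀ (t : ℝ) (a : ℤ),
        (Fintype.card (WG n) : ℤ) * a = (m.sum fun w e => e * c w t) →
          PoleOrder π m (pt t) a := by
  obtain ⟨π, h1, h2, h3⟩ := realize_E hM hconst ha
  refine ⟨π, h1, h2, fun m hm => ?_, fun m hm t a hat => ?_⟩
  · obtain ⟨T, a, Z, H, -, -, hH, hp⟩ := h3 m hm
    refine ⟨∅, 1, _, mero_form T a Z hH, fun s hs => ?_⟩
    exact ((Equiv.subtypeUnivEquiv fun p : Pr => Finset.notMem_empty p).hasProd_iff).2 (hp s hs)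
  · obtain ⟨T, a', Z, H, ha', haT, hH, hp⟩ := h3 m hm
    have hcz : ((Fintype.card (WG n) : ℕ) : ℤ) ≠ 0 := by
      have := card_ne_zero' (n := n)
      exact_mod_cast this
    have h4 : a' t = a := mul_left_cancel₀ hcz ((ha' t).trans hat.symm)
    refine ⟨_, mero_form T a' Z hH _, ?_, ?_⟩
    · rw [ord_form T a' haT Z hH t, h4]
    · unfold IsL
      filter_upwards [self_mem_nhdsWithin] with s hs
      exact hp s hs

end Pool.Agent.EEAL
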