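import Pool.Agent.W_eea520_c.L5

/-!
# The block step with targets which depend on the prime number (MP_eea520_nt)
-/

set_option autoImplicit false

namespace Pool.Agent.EEAL

open Filter Topology Pool.Agent.EEA520 Pool.Agent.EEAC

/-- THE BLOCK STEP. `K` test functions; the constant `c` is the one of `hL2`. Let `A i k` be the matrix of
`dualPoly` and for `k < K`, `p ∈ S`: `y k p = ∑_{l < J} Y k l * ∑_{i < J} A i l * v p ^ i`, so that
`∑_{p ∈ S} y k p * v p ^ j = Y k j` and `|y k p| ≤ J ^ 2 * D * 50 ^ (2 J) / N ≤ c * κ₀ ≤ c * κ p`. By `hL2` there is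
a probability measure `μ_p` with `μ_p (f k) = B k + y k p / κ p`, and with `ν` from `hL1` let
`lam p = (1 - κ p) ν + κ p μ_p`: a probability measure with `lam p (f k) = C k + κ p (B k - C k) + y k p`. Now
`rounding` with `κ = Fin K × Fin J`, `u p q (k, j) = f k q * v p ^ j` (at most `A₀` in absolute value). -/
theorem blockD {Q : Type} (f : ℕ → Q → ℝ) {A₀ : ℝ} (hA : 0 ≤ A₀) (hf : ∀ k q, |f k q| ≤ A₀)
    (C : ℕ → Pr → ℝ) (B : ℕ → ℝ) {K : ℕ} {c : ℝ} (hc : 0 < c)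
    (hL1 : ∀ p : Pr, ∃ ν : Q →₀ ℝ, IsProb ν ∧ ∀ k < K, (ν.sum fun q a => a * f k q) = C k p)
    (hL2 : ∀ y : ℕ → ℝ, (∀ k, |y k| ≤ c) →
      ∃ μ : Q →₀ ℝ, IsProb μ ∧ ∀ k < K, (μ.sum fun q a => a * f k q) = B k + y k)
    (S : Finset Pr) (v : Pr → ℝ) (hv : ∀ p ∈ S, 0 ≤ v p ∧ v p ≤ 1) {J N : ℕ} (hJ : 0 < J)
    (hN : 0 < N)
    (h : ∀ i : Fin J,
      N ≤ (S.filter fun p => |v p - ((i : ℕ) + 1 / 2) / J| ≤ 1 / (4 * J)).card)
    (κ : Pr → ℝ) {κ₀ : ℝ} (hκ₀ : 0 < κ₀) (hκ : ∀ p ∈ S, κ₀ ≤ κ p ∧ κ p ≤ 1)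
    (Y : ℕ → ℕ → ℝ) {D : ℝ} (hY : ∀ k < K, ∀ j < J, |Y k j| ≤ D)
    (hD : J ^ 2 * D * 50 ^ (2 * J) / N ≤ c * κ₀) :
    ∃ q : S → Q, ∀ k < K, ∀ j < J,
      |∑ p : S, (f k (q p) - C k p - κ p * (B k - C k p)) * v p ^ j - Y k j| ≤ 2 * (K * J) * A₀ := by
  classical
  obtain ⟨A, hA1, hA2⟩ := dualPoly S v hJ hN h
  choose ν hν using hL1
  have hNR : (0 : ℝ) < N := by exact_mod_cast hN
  set y : ℕ → Pr → ℝ := fun k p => ∑ l : Fin J, Y k l * ∑ i : Fin J, A i l * v p ^ (i : ℕ) with hy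
  -- the bound for `y`
  have hyb : ∀ k < K, ∀ p ∈ S, |y k p| ≤ c * κ p := by
    intro k hk p hp
    have hD0 : 0 ≤ D := (abs_nonneg _).trans (hY k hk 0 hJ)
    have h1 : ∀ l : Fin J, |Y k l * ∑ i : Fin J, A i l * v p ^ (i : ℕ)| ≤
        D * (J * (50 ^ (2 * J) / N)) := by
      intro l
      rw [abs_mul]
      refine mul_le_mul (hY k hk l l.2) ?_ (abs_nonneg _) hD0
      refine (Finset.abs_sum_le_sum_abs _ _).trans ?_
      have h2 : ∀ i : Fin J, |A i l * v p ^ (i : ℕ)| ≤ 50 ^ (2 * J) / N := by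
        intro i
        rw [abs_mul, abs_of_nonneg (pow_nonneg (hv p hp).1 _)]
        have h3 : v p ^ (i : ℕ) ≤ 1 := pow_le_one₀ (hv p hp).1 (hv p hp).2
        calc |A i l| * v p ^ (i : ℕ) ≤ |A i l| * 1 :=
              mul_le_mul_of_nonneg_left h3 (abs_nonneg _)
          _ = |A i l| := mul_one _
          _ ≤ _ := hA2 i l
      refine (Finset.sum_le_sum fun i _ => h2 i).trans ?_
      rw [Finset.sum_const, Finset.card_univ, Fintype.card_fin, nsmul_eq_mul]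
    have h4 : |y k p| ≤ J * (D * (J * (50 ^ (2 * J) / N))) := by
      rw [hy]
      refine (Finset.abs_sum_le_sum_abs _ _).trans ?_
      refine (Finset.sum_le_sum fun l _ => h1 l).trans ?_
      rw [Finset.sum_const, Finset.card_univ, Fintype.card_fin, nsmul_eq_mul]
    calc |y k p| ≤ J * (D * (J * (50 ^ (2 * J) / N))) := h4
      _ = J ^ 2 * D * 50 ^ (2 * J) / N := by ring
      _ ≤ c * κ₀ := hD
      _ ≤ c * κ p := mul_le_mul_of_nonneg_left (hκ p hp).1 hc.le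
  have hκp : ∀ p ∈ S, 0 < κ p := fun p hp => hκ₀.trans_le (hκ p hp).1
  -- the measures
  have hμ : ∀ p : Pr, ∃ μ : Q →₀ ℝ, p ∈ S → IsProb μ ∧
      ∀ k < K, (μ.sum fun q a => a * f k q) = B k + y k p / κ p := by
    intro p
    by_cases hp : p ∈ S
    · obtain ⟨μ, hμ1, hμ2⟩ := hL2 (fun k => if k < K then y k p / κ p else 0) (by
        intro k
        by_cases hk : k < K
        · simp only [hk, if_true]
          rw [abs_div, abs_of_pos (hκp p hp), div_le_iff₀ (hκp p hp)]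
          exact hyb k hk p hp
        · simp only [hk, if_false, abs_zero]
          exact hc.le)
      refine ⟨μ, fun _ => ⟨hμ1, fun k hk => ?_⟩⟩
      rw [hμ2 k hk]
      simp only [hk, if_true]
    · exact ⟨0, fun h' => absurd h' hp⟩
  choose μ hμ using hμ
  set lam : Pr → Q →₀ ℝ := fun p => (1 - κ p) • ν p + κ p • μ p with hlam
  have hlam1 : ∀ p ∈ S, IsProb (lam p) := by
    intro p hp
    have hμp := (hμ p hp).1
    refine ⟨fun q => ?_, ?_⟩
    · have h1 : 0 ≤ (1 - κ p) * ν p q := mul_nonneg (by linarith [(hκ p hp).2]) ((hν p).1.1 q)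
      have h2 : 0 ≤ κ p * μ p q := mul_nonneg (hκp p hp).le (hμp.1 q)
      simpa [hlam] using add_nonneg h1 h2
    · have h1 := (hν p).1.2
      have h2 := hμp.2
      rw [L5_sum_one] at h1 h2 ⊢
      rw [hlam]
      simp only
      rw [L5_sum_smul_add (ν p) (μ p) (1 - κ p) (κ p) (fun _ => 1), h1, h2]
      ring
  have hlam2 : ∀ p ∈ S, ∀ k < K, ((lam p).sum fun q a => a * f k q) =
      C k p + κ p * (B k - C k p) + y k p := by
    intro p hp k hk
    have h1 := L5_sum_smul_add (ν p) (μ p) (1 - κ p) (κ p) (f k)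
    rw [hlam]
    simp only
    rw [h1, (hν p).2 k hk, (hμ p hp).2 k hk]
    have h2 : κ p ≠ 0 := (hκp p hp).ne'
    field_simp
    ring
  obtain ⟨q, -, hq⟩ := rounding (κ := Fin K × Fin J) S lam hlam1
    (fun p x kj => f kj.1 x * v p ^ (kj.2 : ℕ)) hA (by
      intro p hp x _ kj
      rw [abs_mul, abs_of_nonneg (pow_nonneg (hv p hp).1 _)]
      have h3 : v p ^ (kj.2 : ℕ) ≤ 1 := pow_le_one₀ (hv p hp).1 (hv p hp).2
      calc |f kj.1 x| * v p ^ (kj.2 : ℕ) ≤ |f kj.1 x| * 1 :=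
            mul_le_mul_of_nonneg_left h3 (abs_nonneg _)
        _ = |f kj.1 x| := mul_one _
        _ ≤ A₀ := hf _ _)
  refine ⟨q, fun k hk j hj => ?_⟩
  have h1 := hq (⟨k, hk⟩, ⟨j, hj⟩)
  rw [Fintype.card_prod, Fintype.card_fin, Fintype.card_fin] at h1
  simp only at h1
  have h2 : ∑ p ∈ S, ((lam p).sum fun x a => a * (f k x * v p ^ j)) =
      ∑ p ∈ S, (C k p + κ p * (B k - C k p)) * v p ^ j + Y k j := by
    have h3 : ∑ p ∈ S, y k p * v p ^ j = Y k j := by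
      have h4 : ∀ p, y k p * v p ^ j =
          ∑ l : Fin J, Y k l * ((∑ i : Fin J, A i l * v p ^ (i : ℕ)) * v p ^ j) := by
        intro p
        rw [hy]
        simp only
        rw [Finset.sum_mul]
        exact Finset.sum_congr rfl fun l _ => by ring
      rw [Finset.sum_congr rfl fun p _ => h4 p, Finset.sum_comm]
      have h5 : ∀ l : Fin J, ∑ p ∈ S, Y k l * ((∑ i : Fin J, A i l * v p ^ (i : ℕ)) * v p ^ j) =
          Y k l * (if (⟨j, hj⟩ : Fin J) = l then 1 else 0) := by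
        intro l
        rw [← Finset.mul_sum, ← hA1 ⟨j, hj⟩ l]
      rw [Finset.sum_congr rfl fun l _ => h5 l]
      simp
    rw [← h3, ← Finset.sum_add_distrib]
    refine Finset.sum_congr rfl fun p hp => ?_
    rw [L5_sum_mul, hlam2 p hp k hk]
    ring
  have h6 : ∑ p : S, (f k (q p) - C k p - κ p * (B k - C k p)) * v p ^ j =
      ∑ p : S, f k (q p) * v p ^ j - ∑ p ∈ S, (C k p + κ p * (B k - C k p)) * v p ^ j := by
    rw [← Finset.sum_coe_sort S (fun p => (C k p + κ p * (B k - C k p)) * v p ^ j),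
      ← Finset.sum_sub_distrib]
    exact Finset.sum_congr rfl fun p _ => by ring
  rw [h6]
  rw [h2] at h1
  have h7 : ∑ p : S, f k (q p) * v p ^ j - ∑ p ∈ S, (C k p + κ p * (B k - C k p)) * v p ^ j - Y k j =
      ∑ p : S, f k (q p) * v p ^ j - (∑ p ∈ S, (C k p + κ p * (B k - C k p)) * v p ^ j + Y k j) := by
    ring
  rw [h7]
  refine h1.trans_eq ?_
  push_cast
  ring

end Pool.Agent.EEAL
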