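import Pool.Agent.W_eea520_c.L7
import Pool.Agent.W_eea520_L.D5

/-!
# The step with targets which depend on the prime number (MP_eea520_nt)
-/

set_option autoImplicit false

namespace Pool.Agent.EEAL

open Filter Topology Pool.Agent.EEA520 Pool.Agent.EEAC

/-- The coefficients, with targets `C k p` which depend on the prime number. -/
noncomputable def avD {Q : Type} (f : ℕ → Q → ℝ) (C : ℕ → Pr → ℝ) (B : ℕ → ℝ) (G : ℕ → ℕ → Q → ℝ)
    (q : Pr → Q) (k N : ℕ) : ℝ :=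
  if h : N.Prime then f k (q ⟨N, h⟩) - C k ⟨N, h⟩ - ((N : ℝ) ^ (-(1 / 4) : ℝ)) * (B k - C k ⟨N, h⟩)
  else if h : IsPrimePow N then G k N (q ⟨N.minFac, Nat.minFac_prime h.ne_one⟩) else 0

theorem D7_av_le {Q : Type} (f : ℕ → Q → ℝ) (C : ℕ → Pr → ℝ) (B : ℕ → ℝ) (G : ℕ → ℕ → Q → ℝ) {A : ℝ}
    (hG : ∀ k N q, |G k N q| ≤ A) (q : Pr → Q) (k N : ℕ) (h1 : IsPrimePow N) (h2 : ¬ N.Prime) :
    |avD f C B G q k N| ≤ A := by
  unfold avD
  rw [dif_neg h2, dif_pos h1]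
  exact hG _ _ _

theorem D7_av_congr {Q : Type} (f : ℕ → Q → ℝ) (C : ℕ → Pr → ℝ) (B : ℕ → ℝ) (G : ℕ → ℕ → Q → ℝ)
    (q q' : Pr → Q) (k N : ℕ) (h1 : IsPrimePow N) (h2 : ¬ N.Prime)
    (h : ∀ hp : N.minFac.Prime, q' ⟨N.minFac, hp⟩ = q ⟨N.minFac, hp⟩) :
    avD f C B G q' k N = avD f C B G q k N := by
  unfold avD
  rw [dif_neg h2, dif_pos h1, dif_neg h2, dif_pos h1, h]

theorem D7_sum {Q : Type} (f : ℕ → Q → ℝ) (C : ℕ → Pr → ℝ) (B : ℕ → ℝ) (G : ℕ → ℕ → Q → ℝ) (q : Pr → Q)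
    (k : ℕ) (s : Finset ℕ) (g : ℕ → ℝ) (S : Finset Pr) (hS : ∀ p : Pr, p ∈ S ↔ (p : ℕ) ∈ s) :
    ∑ N ∈ s, avD f C B G q k N * g N =
      ∑ p ∈ S, (f k (q p) - C k p - (((p : ℕ) : ℝ) ^ (-(1 / 4) : ℝ)) * (B k - C k p)) * g p +
        ∑ N ∈ s.filter (fun N => IsPrimePow N ∧ ¬ N.Prime), avD f C B G q k N * g N := by
  classical
  rw [← Finset.sum_filter_add_sum_filter_not s Nat.Prime]
  congr 1
  · symm
    refine Finset.sum_bij (fun p _ => (p : ℕ)) (fun p hp => ?_) (fun p _ p' _ h => ?_)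
      (fun N hN => ?_) fun p hp => ?_
    · rw [Finset.mem_filter]
      exact ⟨(hS p).1 hp, p.2⟩
    · exact Subtype.ext h
    · rw [Finset.mem_filter] at hN
      exact ⟨⟨N, hN.2⟩, (hS _).2 hN.1, rfl⟩
    · have h1 : avD f C B G q k (p : ℕ) =
          f k (q p) - C k p - (((p : ℕ) : ℝ) ^ (-(1 / 4) : ℝ)) * (B k - C k p) := by
        unfold avD
        rw [dif_pos p.2]
        rfl
      rw [h1]
  · symm
    refine Finset.sum_subset (fun N hN => ?_) fun N hN hN' => ?_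
    · rw [Finset.mem_filter] at hN ⊢
      exact ⟨hN.1, hN.2.2⟩
    · rw [Finset.mem_filter] at hN hN'
      have h1 : ¬ IsPrimePow N := fun h2 => hN' ⟨hN.1, h2, hN.2⟩
      have h3 : avD f C B G q k N = 0 := by
        unfold avD
        rw [dif_neg hN.2, dif_neg h1]
      rw [h3, zero_mul]

/-- THE STEP. `S` = the primes `p` with `u ≤ log p < u + δ`, `v p = (log p - u) / δ`, `κ p = p ^ (-1/4)`,
`κ₀ = exp (-(u + δ) / 4)`, `N = ⌈exp (0.9 u)⌉₊`. The `i`-th interval of `block` is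
`a ≤ log p ≤ a + hh m`, `a = u + δ (i + 1/4) / J ≥ u` (as `δ / (2 J) = hh m`), so `primes_short` for `h = hh m` gives
the hypothesis `h` of `block` for large `u`. Let `R k j` be the second sum in the conclusion and
`P k j = ∑ G k N (q (minFac N)) (log N - u) ^ j` over the proper prime powers `N` in the block; as `δ < u` their
prime `minFac N` has `log (minFac N) ≤ log N / 2 < u`. `Y k j = - (R k j + P k j) / δ ^ j`,
`|R k j| ≤ ∑ binom d ^ (j - i) ρ d ^ i = ρ (2 d) ^ j` so `|R k j| / δ ^ j ≤ ρ max (1, 2 d / δ) ^ J ≤ exp (u / 10)`, and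
`|P k j| / δ ^ j ≤ A * 10 (u + δ) exp ((u + δ) / 2)` by `primePows_le`. With `D` the sum of the two, `step_num` is the
hypothesis `hD` of `block`. Let `q'` be the `q` of `block` on `S` and the old `q` elsewhere. The sum over the
block is the sum over `S` and `P k j` (`q' = q` at the primes `minFac N`), so the expression in the conclusion is
`δ ^ j * (∑_S (…) v ^ j - Y k j)`, at most `δ ^ j * 2 * (m J) * A` in absolute value. -/
theorem stepD {Q : Type} (f : ℕ → Q → ℝ) {A : ℝ} (hA : 1 ≤ A) (hf : ∀ k q, |f k q| ≤ A)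
    (C : ℕ → Pr → ℝ) (B : ℕ → ℝ) (_hC : ∀ k p, |C k p| ≤ A) (hB : ∀ k, |B k| ≤ A) (G : ℕ → ℕ → Q → ℝ)
    (hG : ∀ k N q, |G k N q| ≤ A) {m : ℕ} (hm : 1000 ≤ m) {c : ℝ} (hc : 0 < c)
    (hL1 : ∀ p : Pr, ∃ ν : Q →₀ ℝ, IsProb ν ∧ ∀ k < m, (ν.sum fun q a => a * f k q) = C k p)
    (hL2 : ∀ y : ℕ → ℝ, (∀ k, |y k| ≤ c) →
      ∃ μ : Q →₀ ℝ, IsProb μ ∧ ∀ k < m, (μ.sum fun q a => a * f k q) = B k + y k) :
    ∃ U : ℝ, ∀ u : ℝ, U ≤ u → ∀ (q : Pr → Q) (d ρ : ℝ) (E : ℕ → ℕ → ℝ), 0 ≤ d → 0 ≤ ρ →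
      (∀ k j, |E k j| ≤ ρ * d ^ j) →
      ρ * (max 1 (2 * d / dl m u)) ^ Jf m u ≤ Real.exp (u / 10) →
      ∃ q' : Pr → Q, (∀ p : Pr, Real.log ((p : ℕ) : ℝ) < u → q' p = q p) ∧
        ∀ k < m, ∀ j < Jf m u,
          |∑ N ∈ bl u (u + dl m u), avD f C B G q' k N * (Real.log N - u) ^ j +
            ∑ i ∈ Finset.range (j + 1), (j.choose i : ℝ) * (-d) ^ (j - i) * E k i| ≤
          4 * A * (m * Jf m u) * dl m u ^ j := by
  classical
  obtain ⟨U₁, hU₁⟩ := step_num hm A hc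
  obtain ⟨a₀, ha₀⟩ := primes_short (hh m) (L7_hh_pos m)
  refine ⟨max (max U₁ a₀) 10000, fun u hu q d ρ E hd hρ hE hρd => ?_⟩
  have hu1 : U₁ ≤ u := ((le_max_left _ _).trans (le_max_left _ _)).trans hu
  have hu2 : a₀ ≤ u := ((le_max_right _ _).trans (le_max_left _ _)).trans hu
  have hu3 : 10000 ≤ u := (le_max_right _ _).trans hu
  obtain ⟨hu4, hdu, hJ0, hnum⟩ := hU₁ u hu1
  obtain ⟨hδ0, -⟩ := L7_dl hm hu3
  have hA0 : 0 ≤ A := by linarith
  obtain ⟨S, hSb⟩ : ∃ S : Finset Pr, ∀ p : Pr, p ∈ S ↔ (p : ℕ) ∈ bl u (u + dl m u) :=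
    ⟨(bl u (u + dl m u)).subtype Nat.Prime, fun p => Finset.mem_subtype⟩
  have hS : ∀ p : Pr, p ∈ S ↔ u ≤ Real.log ((p : ℕ) : ℝ) ∧
      Real.log ((p : ℕ) : ℝ) < u + dl m u := by
    intro p
    rw [hSb, mem_bl]
    exact ⟨fun h => h.2, fun h => ⟨p.2.pos, h⟩⟩
  have hcount := fun i => L7_h hm hu3 hu2 ha₀ S hS i
  obtain ⟨R, hR⟩ : ∃ R : ℕ → ℕ → ℝ, ∀ k j, R k j =
      ∑ i ∈ Finset.range (j + 1), (j.choose i : ℝ) * (-d) ^ (j - i) * E k i :=
    ⟨_, fun _ _ => rfl⟩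
  obtain ⟨F, hF⟩ : ∃ F : Finset ℕ, F = (bl u (u + dl m u)).filter
      (fun N => IsPrimePow N ∧ ¬ N.Prime) := ⟨_, rfl⟩
  obtain ⟨P, hP⟩ : ∃ P : ℕ → ℕ → ℝ, ∀ k j, P k j =
      ∑ N ∈ F, avD f C B G q k N * (Real.log N - u) ^ j := ⟨_, fun _ _ => rfl⟩
  have hFmem : ∀ N ∈ F, u ≤ Real.log N ∧ Real.log N < u + dl m u ∧ IsPrimePow N ∧
      ¬ N.Prime := by
    intro N hN
    rw [hF, Finset.mem_filter, mem_bl] at hN
    exact ⟨hN.1.2.1, hN.1.2.2, hN.2.1, hN.2.2⟩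
  have hFcard : (F.card : ℝ) ≤ 10 * (u + dl m u) * Real.exp ((u + dl m u) / 2) := by
    refine le_trans ?_ (primePows_le (u' := u + dl m u) (by linarith))
    have h1 : F ⊆ (Finset.range ⌈Real.exp (u + dl m u)⌉₊).filter
        fun N : ℕ => IsPrimePow N ∧ ¬ N.Prime := by
      intro N hN
      rw [hF, Finset.mem_filter] at hN
      rw [Finset.mem_filter, Finset.mem_range]
      refine ⟨?_, hN.2⟩
      have h2 := hN.1
      unfold bl at h2
      exact (Finset.mem_Ico.1 h2).2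
    exact_mod_cast Finset.card_le_card h1
  -- the bounds
  have hRb : ∀ k, ∀ j < Jf m u, |R k j| ≤ Real.exp (u / 10) * dl m u ^ j := by
    intro k j hj
    rw [hR]
    refine (L7_R d ρ hd (E k) (hE k) j).trans ?_
    have h1 : (2 * d) ^ j = (2 * d / dl m u) ^ j * dl m u ^ j := by
      rw [← mul_pow, div_mul_cancel₀ _ hδ0.ne']
    have h2 : (2 * d / dl m u) ^ j ≤ (max 1 (2 * d / dl m u)) ^ Jf m u :=
      (pow_le_pow_left₀ (by positivity) (le_max_right _ _) j).trans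
        (pow_le_pow_right₀ (le_max_left _ _) hj.le)
    have h3 : ρ * (2 * d / dl m u) ^ j ≤ Real.exp (u / 10) :=
      (mul_le_mul_of_nonneg_left h2 hρ).trans hρd
    rw [h1, ← mul_assoc]
    exact mul_le_mul_of_nonneg_right h3 (by positivity)
  have hPb : ∀ k j, |P k j| ≤ A * (10 * (u + dl m u) * Real.exp ((u + dl m u) / 2)) *
      dl m u ^ j := by
    intro k j
    rw [hP]
    refine (Finset.abs_sum_le_sum_abs _ _).trans ?_
    have h1 : ∀ N ∈ F, |avD f C B G q k N * (Real.log N - u) ^ j| ≤ A * dl m u ^ j := by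
      intro N hN
      obtain ⟨h2, h3, h4, h5⟩ := hFmem N hN
      rw [abs_mul, abs_pow]
      refine mul_le_mul (D7_av_le f C B G hG q k N h4 h5) ?_ (by positivity) hA0
      refine pow_le_pow_left₀ (abs_nonneg _) ?_ j
      rw [abs_of_nonneg (by linarith)]
      linarith
    refine (Finset.sum_le_sum h1).trans ?_
    rw [Finset.sum_const, nsmul_eq_mul]
    have h2 : (F.card : ℝ) * (A * dl m u ^ j) ≤
        (10 * (u + dl m u) * Real.exp ((u + dl m u) / 2)) * (A * dl m u ^ j) :=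
      mul_le_mul_of_nonneg_right hFcard (by positivity)
    linarith
  have hY : ∀ k < m, ∀ j < Jf m u, |-(R k j + P k j) / dl m u ^ j| ≤
      Real.exp (u / 10) + A * (10 * (u + dl m u) * Real.exp ((u + dl m u) / 2)) := by
    intro k _ j hj
    have hδj : 0 < dl m u ^ j := by positivity
    rw [abs_div, abs_neg, abs_of_pos hδj, div_le_iff₀ hδj]
    have h1 := abs_add_le (R k j) (P k j)
    have h2 := hRb k j hj
    have h3 := hPb k j
    linarith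
  have hN0 : 0 < ⌈Real.exp (9 / 10 * u)⌉₊ := Nat.ceil_pos.2 (Real.exp_pos _)
  have hκ : ∀ p ∈ S, Real.exp (-(u + dl m u) / 4) ≤ ((p : ℕ) : ℝ) ^ (-(1 / 4) : ℝ) ∧
      ((p : ℕ) : ℝ) ^ (-(1 / 4) : ℝ) ≤ 1 := by
    intro p hp
    obtain ⟨h1, h2⟩ := (hS p).1 hp
    have hp0 : (0 : ℝ) < ((p : ℕ) : ℝ) := by exact_mod_cast p.2.pos
    rw [Real.rpow_def_of_pos hp0]
    constructor
    · exact Real.exp_le_exp.2 (by linarith)
    · exact Real.exp_le_one_iff.2 (by linarith)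
  obtain ⟨q₁, hq₁⟩ := blockD f hA0 hf C B hc hL1 hL2 S
    (fun p => (Real.log ((p : ℕ) : ℝ) - u) / dl m u)
    (fun p hp => by
      obtain ⟨h1, h2⟩ := (hS p).1 hp
      exact ⟨div_nonneg (by linarith) hδ0.le, (div_le_one hδ0).2 (by linarith)⟩)
    hJ0 hN0 hcount (fun p => ((p : ℕ) : ℝ) ^ (-(1 / 4) : ℝ)) (Real.exp_pos _) hκ
    (fun k j => -(R k j + P k j) / dl m u ^ j) hY hnum
  refine ⟨fun p => if h : p ∈ S then q₁ ⟨p, h⟩ else q p, fun p hp => ?_, fun k hk j hj => ?_⟩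
  · have h1 : p ∉ S := fun h2 => by
      have h3 := ((hS p).1 h2).1
      linarith
    exact dif_neg h1
  · obtain ⟨q', hq'⟩ : ∃ q' : Pr → Q, q' = fun p => if h : p ∈ S then q₁ ⟨p, h⟩ else q p :=
      ⟨_, rfl⟩
    have hq'S : ∀ p : S, q' p = q₁ p := by
      intro p
      rw [hq']
      exact dif_pos p.2
    have hq'n : ∀ p : Pr, Real.log ((p : ℕ) : ℝ) < u → q' p = q p := by
      intro p hp
      have h1 : p ∉ S := fun h2 => by
        have h3 := ((hS p).1 h2).1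
        linarith
      rw [hq']
      exact dif_neg h1
    rw [← hq', D7_sum f C B G q' k (bl u (u + dl m u)) (fun N => (Real.log N - u) ^ j) S hSb,
      ← hF, ← hR]
    have h1 : ∑ N ∈ F, avD f C B G q' k N * (Real.log N - u) ^ j = P k j := by
      rw [hP]
      refine Finset.sum_congr rfl fun N hN => ?_
      obtain ⟨h2, h3, h4, h5⟩ := hFmem N hN
      rw [D7_av_congr f C B G q q' k N h4 h5 fun hp => hq'n _ ?_]
      have h6 : N.minFac ^ 2 ≤ N := Nat.minFac_sq_le_self h4.pos h5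
      have h7 : (0 : ℝ) < (N.minFac : ℝ) := by exact_mod_cast hp.pos
      have h8 : ((N.minFac : ℝ)) ^ 2 ≤ N := by exact_mod_cast h6
      have h9 := Real.log_le_log (by positivity) h8
      rw [Real.log_pow] at h9
      push_cast at h9
      show Real.log (N.minFac : ℝ) < u
      linarith
    have h2 := hq₁ k hk j hj
    have h3 : ∑ p ∈ S, (f k (q' p) - C k p - (((p : ℕ) : ℝ) ^ (-(1 / 4) : ℝ)) * (B k - C k p)) *
        (Real.log ((p : ℕ) : ℝ) - u) ^ j =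
        (∑ p : S, (f k (q₁ p) - C k p - (((p : Pr) : ℕ) : ℝ) ^ (-(1 / 4) : ℝ) * (B k - C k p)) *
          ((Real.log (((p : Pr) : ℕ) : ℝ) - u) / dl m u) ^ j) * dl m u ^ j := by
      rw [Finset.sum_mul, ← Finset.sum_coe_sort S]
      refine Finset.sum_congr rfl fun p _ => ?_
      rw [hq'S, div_pow, mul_assoc _ _ (dl m u ^ j), div_mul_cancel₀ _ (by positivity)]
    rw [h3, h1]
    obtain ⟨T, hT⟩ : ∃ T : ℝ, T = ∑ p : S, (f k (q₁ p) - C k p -
      (((p : Pr) : ℕ) : ℝ) ^ (-(1 / 4) : ℝ) * (B k - C k p)) *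
          ((Real.log (((p : Pr) : ℕ) : ℝ) - u) / dl m u) ^ j := ⟨_, rfl⟩
    rw [← hT] at h2 ⊢
    have hδj : 0 < dl m u ^ j := by positivity
    have h4 : T * dl m u ^ j + P k j + R k j =
        dl m u ^ j * (T - -(R k j + P k j) / dl m u ^ j) := by
      field_simp
      ring
    rw [h4, abs_mul, abs_of_pos hδj]
    have h5 : dl m u ^ j * |T - -(R k j + P k j) / dl m u ^ j| ≤
        dl m u ^ j * (2 * (m * Jf m u) * A) := mul_le_mul_of_nonneg_left h2 hδj.le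
    have h6 : 0 ≤ A * (m * Jf m u) * dl m u ^ j := by positivity
    linarith

end Pool.Agent.EEAL
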