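import Pool.Agent.W_eea520_c.Core
import Pool.Agent.W_eea520_L.D10

/-!
# The core with targets which depend on the prime number (MP_eea520_nt)
-/

set_option autoImplicit false

namespace Pool.Agent.EEAL

open Filter Topology Pool.Agent.EEA520 Pool.Agent.EEAC

/-- The coefficients `(F i (x_p ^ k) - (1 - N ^ (-1/4)) a i N) / k`, `N = p ^ k`. -/
noncomputable def rrD {X ι : Type} (pw : ℕ → X → X) (F : ι → X → ℝ) (a : ι → ℕ → ℝ) (x : Pr → X)
    (i : ι) (N : ℕ) : ℝ :=
  if h : IsPrimePow N then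
    (F i (pw (N.factorization N.minFac) (x ⟨N.minFac, Nat.minFac_prime h.ne_one⟩)) -
      (1 - (N : ℝ) ^ (-(1 / 4) : ℝ)) * a i N) / (N.factorization N.minFac : ℝ)
  else 0

/-- Let `e : ℕ ≃ ι` (`nonempty_denumerable`), `f k = F (e k)`, `C k = a (e k)`, `B = 0`, `A = 2`,
`G k N x = (F (e k) (pw j x) - (1 - N ^ (-1/4)) a (e k)) / j`, `j = N.factorization N.minFac`. `|a i| ≤ 1` by `hC`
for `M = {i}`. `hL1` is `hC` for the image of `range K`, `hL2` is `hull` for `Fin K` (`c = η / 2`). `construct`; at a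
prime `N` the coefficient `avD` is `F (x_N) - a - N ^ (-1/4) (0 - a)`, `N.factorization N.minFac = 1`. -/
theorem core_infD {X : Type} (pw : ℕ → X → X) (hpw : ∀ x, pw 1 x = x) {ι : Type} [Countable ι]
    [Infinite ι] (F : ι → X → ℝ) (hF : ∀ i x, |F i x| ≤ 1) (a : ι → ℕ → ℝ) (ha : ∀ i N, |a i N| ≤ 1)
    (hC : ∀ (M : Finset ι) (p : Pr), ∃ ν : X →₀ ℝ, IsProb ν ∧
      ∀ i ∈ M, (ν.sum fun x w => w * F i x) = a i p)
    (hgap : ∀ M : Finset ι, ∃ η : ℝ, 0 < η ∧ ∀ b : ι → ℝ, ∃ x,
      ∑ i ∈ M, b i * F i x ≤ -η * ∑ i ∈ M, |b i|) :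
    ∃ x : Pr → X, ∀ i, ∃ H : ℂ → ℂ, Differentiable ℂ H ∧
      ∀ s : ℂ, 1 < s.re → LSeries (fun N => (rrD pw F a x i N : ℂ)) s = H s := by
  classical
  obtain ⟨hden⟩ := nonempty_denumerable ι
  let e : ℕ ≃ ι := (Denumerable.eqv ι).symm
  let G : ℕ → ℕ → X → ℝ := fun k N x =>
    (F (e k) (pw (N.factorization N.minFac) x) - (1 - (N : ℝ) ^ (-(1 / 4) : ℝ)) * a (e k) N) /
      (N.factorization N.minFac : ℝ)
  obtain ⟨q, hq⟩ := constructD (A := 2) (fun k => F (e k)) (fun k x => (hF (e k) x).trans (by norm_num))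
    (fun k p => a (e k) p) (fun _ => 0) (fun k p => (ha (e k) p).trans (by norm_num))
    (fun _ => by norm_num) G (fun k N x => Core_factor _ (ha (e k) N) (hF _ _) N)
    (by
      intro K p
      obtain ⟨ν, hν, h⟩ := hC ((Finset.range K).image e) p
      exact ⟨ν, hν, fun k hk => h (e k) (Finset.mem_image_of_mem e (Finset.mem_range.2 hk))⟩)
    (by
      intro K
      obtain ⟨η, hη, h⟩ := hgap ((Finset.range K).image e)
      refine ⟨η / 2, by positivity, fun y hy => ?_⟩
      obtain ⟨μ, hμ, h'⟩ := hull (K := K) (fun i x => F (e i) x) hη (by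
        intro b
        let b' : ι → ℝ := fun i => if h : e.symm i < K then b ⟨e.symm i, h⟩ else 0
        have hb' : ∀ i : Fin K, b' (e i) = b i := by
          intro i
          show (if h : e.symm (e i) < K then b ⟨e.symm (e i), h⟩ else 0) = b i
          rw [dif_pos (by rw [Equiv.symm_apply_apply]; exact i.2)]
          congr 1
          apply Fin.ext
          exact Equiv.symm_apply_apply e i
        obtain ⟨x, hx⟩ := h b'
        refine ⟨x, ?_⟩
        rw [Finset.sum_image (fun _ _ _ _ h => e.injective h),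
          Finset.sum_image (fun _ _ _ _ h => e.injective h)] at hx
        rw [← Fin.sum_univ_eq_sum_range (fun k => b' (e k) * F (e k) x) K,
          ← Fin.sum_univ_eq_sum_range (fun k => |b' (e k)|) K] at hx
        simp only [hb'] at hx
        exact hx) (fun i => y i) (fun i => hy i)
      refine ⟨μ, hμ, fun k hk => ?_⟩
      rw [zero_add]
      exact h' ⟨k, hk⟩)
  refine ⟨q, fun i => ?_⟩
  obtain ⟨H, hH, hH'⟩ := hq (e.symm i)
  refine ⟨H, hH, fun s hs => ?_⟩
  rw [← hH' s hs]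
  congr 1
  funext N
  congr 1
  unfold rrD avD
  have hei : e (e.symm i) = i := Equiv.apply_symm_apply e i
  by_cases h1 : N.Prime
  · rw [dif_pos h1.isPrimePow, dif_pos h1]
    have hm : N.minFac = N := h1.minFac_eq
    have hfa : N.factorization N.minFac = 1 := by rw [hm]; exact h1.factorization_self
    have hqq : q ⟨N.minFac, Nat.minFac_prime h1.isPrimePow.ne_one⟩ = q ⟨N, h1⟩ := by
      congr 1
      exact Subtype.ext hm
    rw [hfa, hqq, hpw]
    simp only [Nat.cast_one, div_one, hei]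
    ring
  · rw [dif_neg h1]
    by_cases h2 : IsPrimePow N
    · rw [dif_pos h2, dif_pos h2]
      show _ = (F (e (e.symm i)) _ - _ * a (e (e.symm i)) N) / _
      rw [hei]
    · rw [dif_neg h2, dif_neg h2]

/-- THE CORE. `core_inf` for `X' = X × (ℕ → Bool)`, `ι' = ι ⊕ ℕ`, `pw' k (x, ε) = (pw k x, ε)`,
`F' (inl i) (x, ε) = F i x`, `F' (inr j) (x, ε) = 1` if `ε j` and `-1` otherwise, `a' (inl i) = a i`, `a' (inr j) = 1`.
`hC`: the image of `ν` under `x ↦ (x, true)`. `hgap`: `min η 1`, with `ε j = (b (inr j) < 0)` and the `x` of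
`hgap`. -/
theorem coreD {X : Type} (pw : ℕ → X → X) (hpw : ∀ x, pw 1 x = x) {ι : Type} [Countable ι]
    (F : ι → X → ℝ) (hF : ∀ i x, |F i x| ≤ 1) (a : ι → ℕ → ℝ) (ha : ∀ i N, |a i N| ≤ 1)
    (hC : ∀ (M : Finset ι) (p : Pr), ∃ ν : X →₀ ℝ, IsProb ν ∧
      ∀ i ∈ M, (ν.sum fun x w => w * F i x) = a i p)
    (hgap : ∀ M : Finset ι, ∃ η : ℝ, 0 < η ∧ ∀ b : ι → ℝ, ∃ x,
      ∑ i ∈ M, b i * F i x ≤ -η * ∑ i ∈ M, |b i|) :
    ∃ x : Pr → X, ∀ i, ∃ H : ℂ → ℂ, Differentiable ℂ H ∧
      ∀ s : ℂ, 1 < s.re → LSeries (fun N => (rrD pw F a x i N : ℂ)) s = H s := by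
  classical
  let F' : ι ⊕ ℕ → X × (ℕ → Bool) → ℝ := fun i x =>
    Sum.elim (fun i => F i x.1) (fun j => if x.2 j = true then (1 : ℝ) else -1) i
  let a' : ι ⊕ ℕ → ℕ → ℝ := Sum.elim a fun _ _ => 1
  let pw' : ℕ → X × (ℕ → Bool) → X × (ℕ → Bool) := fun k x => (pw k x.1, x.2)
  have hF' : ∀ i x, |F' i x| ≤ 1 := by
    rintro (i | j) x
    · exact hF i x.1
    · show |(if x.2 j = true then (1 : ℝ) else -1)| ≤ 1
      split_ifs <;> norm_num
  obtain ⟨x, hx⟩ := core_infD pw' (fun x => by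
      show (pw 1 x.1, x.2) = x
      rw [hpw]) F' hF' a' (by
      rintro (i | j) N
      · exact ha i N
      · show |(1 : ℝ)| ≤ 1
        norm_num) (by
      intro M p
      obtain ⟨ν, ⟨hν1, hν2⟩, h⟩ := hC M.toLeft p
      let g : X → X × (ℕ → Bool) := fun x => (x, fun _ => true)
      have hg : Function.Injective g := fun x y h => congrArg Prod.fst h
      have hsum : ∀ φ : X × (ℕ → Bool) → ℝ,
          ((ν.mapDomain g).sum fun x w => w * φ x) = ν.sum fun x w => w * φ (g x) := fun φ =>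
        Finsupp.sum_mapDomain_index (fun _ => zero_mul _) fun _ _ _ => add_mul _ _ _
      refine ⟨ν.mapDomain g, ⟨fun y => ?_, ?_⟩, ?_⟩
      · by_cases hy : y ∈ Set.range g
        · obtain ⟨x, rfl⟩ := hy
          rw [Finsupp.mapDomain_apply hg]
          exact hν1 x
        · rw [Finsupp.mapDomain_of_notMem_range _ _ hy]
      · rw [← hν2]
        exact Finsupp.sum_mapDomain_index (fun _ => rfl) fun _ _ _ => rfl
      · rintro (i | j) hi
        · rw [hsum]
          exact h i (Finset.mem_toLeft.2 hi)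
        · rw [hsum]
          have h7 : (ν.sum fun x w => w * F' (Sum.inr j) (g x)) = ν.sum fun _ w => w := by
            refine Finsupp.sum_congr fun x _ => ?_
            show ν x * (if true = true then (1 : ℝ) else -1) = ν x
            simp
          rw [h7, hν2]
          rfl)
    (by
      intro M
      obtain ⟨η, hη, h⟩ := hgap M.toLeft
      refine ⟨min η 1, lt_min hη one_pos, fun b => ?_⟩
      obtain ⟨x, hx⟩ := h fun i => b (Sum.inl i)
      refine ⟨(x, fun j => decide (b (Sum.inr j) < 0)), ?_⟩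
      rw [← Finset.toLeft_disjSum_toRight (u := M), Finset.sum_disjSum, Finset.sum_disjSum]
      have h1 : ∑ j ∈ M.toRight, b (Sum.inr j) *
          F' (Sum.inr j) (x, fun j => decide (b (Sum.inr j) < 0)) =
            -∑ j ∈ M.toRight, |b (Sum.inr j)| := by
        rw [← Finset.sum_neg_distrib]
        refine Finset.sum_congr rfl fun j _ => ?_
        show b (Sum.inr j) * (if decide (b (Sum.inr j) < 0) = true then (1 : ℝ) else -1) = _
        by_cases hb : b (Sum.inr j) < 0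
        · rw [if_pos (by simpa using hb), abs_of_neg hb]
          ring
        · rw [if_neg (by simpa using hb), abs_of_nonneg (not_lt.1 hb)]
          ring
      rw [h1]
      have h2 : 0 ≤ ∑ j ∈ M.toRight, |b (Sum.inr j)| := Finset.sum_nonneg fun _ _ => abs_nonneg _
      have h3 : 0 ≤ ∑ i ∈ M.toLeft, |b (Sum.inl i)| := Finset.sum_nonneg fun _ _ => abs_nonneg _
      have h4 : min η 1 * ∑ i ∈ M.toLeft, |b (Sum.inl i)| ≤ η * ∑ i ∈ M.toLeft, |b (Sum.inl i)| :=
        mul_le_mul_of_nonneg_right (min_le_left _ _) h3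
      have h5 : min η 1 * ∑ j ∈ M.toRight, |b (Sum.inr j)| ≤ 1 * ∑ j ∈ M.toRight, |b (Sum.inr j)| :=
        mul_le_mul_of_nonneg_right (min_le_right _ _) h2
      have h6 : ∑ i ∈ M.toLeft, b (Sum.inl i) *
          F' (Sum.inl i) (x, fun j => decide (b (Sum.inr j) < 0)) ≤
            -η * ∑ i ∈ M.toLeft, |b (Sum.inl i)| := hx
      linarith)
  refine ⟨fun p => (x p).1, fun i => ?_⟩
  exact hx (Sum.inl i)

end Pool.Agent.EEAL
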