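import Pool.Agent.W_eea520_c.Gap
import Pool.Agent.W_eea520_G.D

/-!
# The compact torus with or without the condition on the central character (MP_eea520_nt)
-/

set_option autoImplicit false

namespace Pool.Agent.EEAL

open Finset Pool.Agent.EEA520 Pool.Agent.EEAN Pool.Agent.EEAC

variable {n : ℕ}

/-- The points of the compact torus; with trivial central character if `ε`. -/
def IsPtE (ε : Prop) (q : Torus n) : Prop :=
  (‖(q.c : ℂ)‖ = 1 ∧ ∀ i, ‖(q.x i : ℂ)‖ = 1) ∧ (ε → q.c ^ 2 * ∏ i, q.x i = 1)

/-- The points of the compact torus; with trivial central character if `ε`. -/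
abbrev XE (ε : Prop) (n : ℕ) : Type := {q : Torus n // IsPtE ε q}

/-- The sum over the orbit of a weight. -/
noncomputable def orbC (q : Torus n) (w : Wt n) : ℂ := ∑ g : WG n, (q.ev (act g w) : ℂ)

/-- Positive definite complex valued functions on an abelian group. -/
def PosDefC {G : Type} [AddCommGroup G] (M : G → ℂ) : Prop :=
  (∀ g, M (-g) = (starRingEnd ℂ) (M g)) ∧
    ∀ (S : Finset G) (y : G → ℂ),
      0 ≤ (∑ i ∈ S, ∑ j ∈ S, y i * (starRingEnd ℂ) (y j) * M (i - j)).re

end Pool.Agent.EEAL
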