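import Pool.Agent.W_eea520_L.Tw99

/-!
# The laws of the edge for twists: finitely generated support (MP_eea520_nt)
-/

set_option autoImplicit false

namespace Pool.Agent.EEAL

open Filter Topology Pool.Agent.EEA520 Pool.Agent.EEAG1 Pool.Agent.EEAN

/-- The form of a positive definite function on a finite set. -/
theorem PosDef.sum_nonneg {G : Type} [AddCommGroup G] {f : G → ℤ} (hf : PosDef f) (T : Finset G) :
    0 ≤ ∑ x ∈ T, ∑ y ∈ T, f (x - y) := by
  classical
  have h1 := hf.2 (Finsupp.indicator T fun _ _ => (1 : ℝ))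
  have h2 : ∀ h : G → ℝ → ℝ, (∀ x, h x 0 = 0) →
      (Finsupp.indicator T fun _ _ => (1 : ℝ)).sum h = ∑ x ∈ T, h x 1 := by
    intro h h0
    rw [Finsupp.sum_of_support_subset _ (Finsupp.support_indicator_subset T _) _ fun x _ => h0 x]
    refine Finset.sum_congr rfl fun x hx => ?_
    rw [Finsupp.indicator_of_mem hx]
  rw [h2 _ (fun x => by simp [Finsupp.sum])] at h1
  have h3 : ∀ x ∈ T, ((Finsupp.indicator T fun _ _ => (1 : ℝ)).sum fun y v =>
      1 * v * (f (x - y) : ℝ)) = ∑ y ∈ T, (f (x - y) : ℝ) := by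
    intro x _
    rw [h2 _ (fun y => by simp)]
    simp
  rw [Finset.sum_congr rfl h3] at h1
  exact_mod_cast h1

theorem PosDef.zero_nonneg {G : Type} [AddCommGroup G] {f : G → ℤ} (hf : PosDef f) : 0 ≤ f 0 := by
  classical
  have h := hf.sum_nonneg {0}
  simpa using h

/-- A positive definite function with the value `0` at `0` is zero. -/
theorem PosDef.eq_zero {G : Type} [AddCommGroup G] {f : G → ℤ} (hf : PosDef f) (h0 : f 0 = 0)
    (x : G) : f x = 0 := by
  classical
  by_cases hx : x = 0
  · rw [hx, h0]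
  · have h1 := hf.2 (Finsupp.single 0 1 + Finsupp.single x 1)
    have h2 := hf.2 (Finsupp.single 0 1 + Finsupp.single x (-1))
    have hadd : ∀ (g : G → ℝ → ℝ), (∀ a, g a 0 = 0) → (∀ a b c, g a (b + c) = g a b + g a c) →
        ∀ r : ℝ, (Finsupp.single 0 1 + Finsupp.single x r : G →₀ ℝ).sum g = g 0 1 + g x r := by
      intro g g0 gadd r
      rw [Finsupp.sum_add_index' g0 gadd, Finsupp.sum_single_index (g0 0),
        Finsupp.sum_single_index (g0 x)]
    have key : ∀ r : ℝ, ((Finsupp.single 0 1 + Finsupp.single x r : G →₀ ℝ).sum fun a u =>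
        (Finsupp.single 0 1 + Finsupp.single x r : G →₀ ℝ).sum fun b v =>
          u * v * (f (a - b) : ℝ)) = 2 * r * f x := by
      intro r
      rw [hadd _ (fun a => by simp [Finsupp.sum]) (fun a b c => by
        simp only [Finsupp.sum, add_mul, Finset.sum_add_distrib])]
      rw [hadd _ (fun a => by simp) (fun a b c => by ring),
        hadd _ (fun a => by simp) (fun a b c => by ring)]
      have e1 : f (0 - x) = f x := by rw [zero_sub, hf.1]
      simp only [sub_self, sub_zero, e1, h0, Int.cast_zero, mul_zero, zero_add, add_zero, one_mul,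
        mul_one]
      ring
    rw [key] at h1 h2
    have h3 : (f x : ℝ) = 0 := by linarith
    exact_mod_cast h3

variable {n : ℕ} {X : Type} [AddCommGroup X]

/-- If the function `c` of the pole orders is zero at the nontrivial twists of the trivial representation,
then it lives on a finitely generated group of twists. -/
theorem fg_support {c : Wt n × X → ℤ} (h0 : ∀ a : X, a ≠ 0 → c (0, a) = 0)
    (hdec : ∃ (r : ℕ) (f : Fin r → Wt n × X → ℤ) (H : Fin r → AddSubgroup (Wt n × X)),
      (∀ i, PosDef (f i) ∧ FinMod (f i) (H i)) ∧ ∀ x, c x = ∑ i, f i x) :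
    ∃ X₀ : AddSubgroup X, X₀.FG ∧ ∀ w a, c (w, a) ≠ 0 → a ∈ X₀ := by
  classical
  obtain ⟨r, f, H, hf, hc⟩ := hdec
  -- the kernels are finite
  have hK : ∀ i, f i 0 ≠ 0 → {a : X | ((0, a) : Wt n × X) ∈ H i}.Finite := by
    intro i hi
    by_contra hinf
    have hinf' : {a : X | ((0, a) : Wt n × X) ∈ H i}.Infinite := hinf
    obtain ⟨T, hT, hTc⟩ := hinf'.exists_subset_card_eq ((c 0).toNat + 1)
    have hinj : Function.Injective fun a : X => ((0, a) : Wt n × X) := fun a b h =>
      congrArg (fun x : Wt n × X => x.2) h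
    obtain ⟨T', hT'⟩ : ∃ T' : Finset (Wt n × X), T' = T.image fun a : X => ((0, a) : Wt n × X) :=
      ⟨_, rfl⟩
    have hcard : T'.card = (c 0).toNat + 1 := by
      rw [hT', Finset.card_image_of_injective _ hinj, hTc]
    have hmem : ∀ x ∈ T', x ∈ H i ∧ x.1 = 0 := by
      intro x hx
      rw [hT'] at hx
      obtain ⟨a, ha, rfl⟩ := Finset.mem_image.1 hx
      exact ⟨hT ha, rfl⟩
    -- the form of `c`
    have hcs : ∑ x ∈ T', ∑ y ∈ T', c (x - y) = T'.card * c 0 := by
      rw [Finset.sum_congr rfl fun x hx => (Finset.sum_eq_single x (fun y hy hne => ?_) ?_)]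
      · simp only [sub_self, Finset.sum_const, nsmul_eq_mul]
      · have h1 : x - y = ((0 : Wt n), (x - y).2) := by
          refine Prod.ext ?_ rfl
          show x.1 - y.1 = 0
          rw [(hmem x hx).2, (hmem y hy).2, sub_zero]
        rw [h1]
        refine h0 _ fun h2 => hne ?_
        have h3 : x - y = 0 := by
          rw [h1, h2]
          rfl
        exact (sub_eq_zero.1 h3).symm
      · intro hx'
        exact absurd hx hx'
    have hfs : ∑ x ∈ T', ∑ y ∈ T', f i (x - y) = T'.card * (T'.card * f i 0) := by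
      rw [Finset.sum_congr rfl fun x hx => Finset.sum_congr rfl fun y hy => (?_ : f i (x - y) = f i 0)]
      · simp only [Finset.sum_const, nsmul_eq_mul]
      · have h1 : x - y ∈ H i := (H i).sub_mem (hmem x hx).1 (hmem y hy).1
        have h2 := (hf i).2.1 0 (x - y) h1
        rwa [zero_add] at h2
    have hsum : ∑ x ∈ T', ∑ y ∈ T', c (x - y) = ∑ j, ∑ x ∈ T', ∑ y ∈ T', f j (x - y) := by
      simp only [hc]
      rw [Finset.sum_congr rfl fun x _ => Finset.sum_comm, Finset.sum_comm]
    have hle : ∑ x ∈ T', ∑ y ∈ T', f i (x - y) ≤ ∑ j, ∑ x ∈ T', ∑ y ∈ T', f j (x - y) :=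
      Finset.single_le_sum (f := fun j => ∑ x ∈ T', ∑ y ∈ T', f j (x - y))
        (fun j _ => (hf j).1.sum_nonneg T') (Finset.mem_univ i)
    rw [← hsum, hcs, hfs] at hle
    have hpos : (0 : ℤ) < T'.card := by
      rw [hcard]
      exact_mod_cast Nat.succ_pos _
    have h4 : (T'.card : ℤ) * f i 0 ≤ c 0 := le_of_mul_le_mul_left hle hpos
    have h5 : 1 ≤ f i 0 := by
      have := (hf i).1.zero_nonneg
      omega
    have h6 : (T'.card : ℤ) = (c 0).toNat + 1 := by
      rw [hcard]
      push_cast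
      rfl
    have h7 : c 0 ≤ (c 0).toNat := Int.self_le_toNat _
    nlinarith
  -- the groups are finitely generated
  have hfg : ∀ i, f i 0 ≠ 0 → ((AddSubgroup.toIntSubmodule (H i)).map (LinearMap.snd ℤ (Wt n) X)).FG := by
    intro i hi
    refine Submodule.FG.map _ ?_
    refine Submodule.fg_of_fg_map_of_fg_inf_ker (LinearMap.fst ℤ (Wt n) X) ?_ ?_
    · exact IsNoetherian.noetherian _
    · have hfin : ((AddSubgroup.toIntSubmodule (H i) ⊓ LinearMap.ker (LinearMap.fst ℤ (Wt n) X) :
          Submodule ℤ (Wt n × X)) : Set (Wt n × X)).Finite := by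
        refine ((hK i hi).image fun a : X => ((0, a) : Wt n × X)).subset ?_
        rintro x ⟨hx1, hx2⟩
        have h1 : x.1 = 0 := hx2
        have h2 : x = (0, x.2) := Prod.ext h1 rfl
        refine ⟨x.2, ?_, h2.symm⟩
        show ((0, x.2) : Wt n × X) ∈ H i
        rw [← h2]
        exact hx1
      exact Submodule.fg_def.2 ⟨_, hfin, Submodule.span_eq _⟩
  have hS : ∀ i, ∃ S : Finset (Wt n × X), ∀ x, f i x ≠ 0 → ∃ y ∈ S, x - y ∈ H i := fun i =>
    (hf i).2.2
  choose S hS using hS
  obtain ⟨N, hN⟩ : ∃ N : Fin r → Submodule ℤ X, N = fun i =>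
      if f i 0 = 0 then ⊥ else (AddSubgroup.toIntSubmodule (H i)).map (LinearMap.snd ℤ (Wt n) X) ⊔
        Submodule.span ℤ (((S i).image fun x => x.2 : Finset X) : Set X) := ⟨_, rfl⟩
  have hNfg : ∀ i, (N i).FG := by
    intro i
    rw [hN]
    by_cases hi : f i 0 = 0
    · simp only [hi, if_true]
      exact Submodule.fg_bot
    · simp only [hi, if_false]
      exact (hfg i hi).sup (Submodule.fg_span (Finset.finite_toSet _))
  refine ⟨(⨆ i, N i).toAddSubgroup, ?_, fun w a hwa => ?_⟩
  · rw [← Submodule.fg_iff_addSubgroup_fg]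
    exact Submodule.fg_iSup _ hNfg
  · have h1 : ∃ i, f i (w, a) ≠ 0 := by
      by_contra hno
      push Not at hno
      refine hwa ?_
      rw [hc]
      exact Finset.sum_eq_zero fun i _ => hno i
    obtain ⟨i, hi⟩ := h1
    have hi0 : f i 0 ≠ 0 := fun h => hi ((hf i).1.eq_zero h _)
    obtain ⟨y, hy, hxy⟩ := hS i _ hi
    have h2 : a ∈ N i := by
      rw [hN]
      simp only [hi0, if_false]
      have h3 : a = ((w, a) - y : Wt n × X).2 + y.2 := by
        show a = (a - y.2) + y.2
        abel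
      rw [h3]
      refine Submodule.add_mem_sup ⟨(w, a) - y, hxy, rfl⟩ (Submodule.subset_span ?_)
      exact Finset.mem_coe.2 (Finset.mem_image_of_mem _ hy)
    exact (le_iSup N i) h2

end Pool.Agent.EEAL
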