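import Pool.Agent.W_eea520_G.D

/-!
# Positive definite functions on `G × ℝ`: the fibres over a character of `ℝ` (MP_eea520_nt)
-/

set_option autoImplicit false

namespace Pool.Agent.EEAL

open Filter Topology Pool.Agent.EEAG1

/-- Almost invariant probability measures of finite support. -/
theorem reiter (D : Finset ℝ) {ε : ℝ} (hε : 0 < ε) : ∃ m : ℝ →₀ ℝ, (∀ v, 0 ≤ m v) ∧
    (m.sum fun _ z => z) = 1 ∧ ∀ d ∈ D, ∀ V : Finset ℝ, ∑ v ∈ V, |m v - m (v - d)| ≤ ε := by
  classical
  induction D using Finset.induction_on with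
  | empty =>
    refine ⟨Finsupp.single 0 1, fun v => ?_, by simp, fun d hd => absurd hd (Finset.notMem_empty _)⟩
    rw [Finsupp.single_apply]
    split_ifs <;> norm_num
  | insert d₀ D hd₀ ih =>
    obtain ⟨m, h0, h1, h2⟩ := ih
    have hsum : ∀ (W : Finset ℝ), ∑ v ∈ W, m v ≤ 1 := by
      intro W
      rw [← h1]
      unfold Finsupp.sum
      calc ∑ v ∈ W, m v ≤ ∑ v ∈ W ∪ m.support, m v :=
            Finset.sum_le_sum_of_subset_of_nonneg Finset.subset_union_left fun v _ _ => h0 v
        _ = ∑ v ∈ m.support, m v := by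
            symm
            refine Finset.sum_subset Finset.subset_union_right fun v _ hv => ?_
            exact Finsupp.notMem_support_iff.1 hv
    have hshift : ∀ (W : Finset ℝ) (a : ℝ), ∑ v ∈ W, m (v - a) ≤ 1 := by
      intro W a
      have h3 := hsum (W.image fun v => v - a)
      rwa [Finset.sum_image fun x _ y _ h => sub_left_injective h] at h3
    obtain ⟨N, hN⟩ := exists_nat_gt (2 / ε)
    have hN0 : (0 : ℝ) < N := lt_trans (by positivity) hN
    set m' : ℝ →₀ ℝ := (1 / (N : ℝ)) • ∑ k ∈ Finset.range N,
      m.mapDomain (fun v => v + k * d₀) with hm'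
    have hinj : ∀ k : ℕ, Function.Injective fun v : ℝ => v + k * d₀ := fun k =>
      add_left_injective _
    have hval : ∀ v, m' v = (1 / (N : ℝ)) * ∑ k ∈ Finset.range N, m (v - k * d₀) := by
      intro v
      rw [hm', Finsupp.smul_apply, Finsupp.finsetSum_apply, smul_eq_mul]
      congr 1
      refine Finset.sum_congr rfl fun k _ => ?_
      have h3 := Finsupp.mapDomain_apply (hinj k) m (v - k * d₀)
      simp only [sub_add_cancel] at h3
      exact h3
    refine ⟨m', fun v => ?_, ?_, fun d hd V => ?_⟩
    · rw [hval]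
      exact mul_nonneg (by positivity) (Finset.sum_nonneg fun k _ => h0 _)
    · rw [hm', Finsupp.sum_smul_index (by simp),
        ← Finsupp.sum_finsetSum_index (by simp) (by intro a b c; ring)]
      have h3 : ∀ k ∈ Finset.range N, ((m.mapDomain fun v : ℝ => v + k * d₀).sum
          fun _ z => 1 / (N : ℝ) * z) = 1 / (N : ℝ) := by
        intro k _
        rw [Finsupp.sum_mapDomain_index (by simp) (by intro a b c; ring), ← Finsupp.mul_sum, h1,
          mul_one]
      rw [Finset.sum_congr rfl h3, Finset.sum_const, Finset.card_range, nsmul_eq_mul,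
        mul_one_div_cancel hN0.ne']
    · rcases Finset.mem_insert.1 hd with rfl | hd
      · have h3 : ∀ v, m' v - m' (v - d) = (1 / (N : ℝ)) * (m v - m (v - N * d)) := by
          intro v
          rw [hval, hval, ← mul_sub]
          congr 1
          have h4 := Finset.sum_range_sub' (fun k : ℕ => m (v - k * d)) N
          simp only [Nat.cast_zero, zero_mul, sub_zero] at h4
          rw [← h4, Finset.sum_sub_distrib]
          congr 1
          refine Finset.sum_congr rfl fun k _ => ?_
          congr 1
          push_cast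
          ring
        have h5 : ∀ v ∈ V, |m' v - m' (v - d)| ≤ (1 / (N : ℝ)) * (m v + m (v - N * d)) := by
          intro v _
          rw [h3, abs_mul, abs_of_nonneg (by positivity)]
          refine mul_le_mul_of_nonneg_left ?_ (by positivity)
          rw [abs_le]
          constructor <;> linarith [h0 v, h0 (v - N * d)]
        refine (Finset.sum_le_sum h5).trans ?_
        rw [← Finset.mul_sum, Finset.sum_add_distrib]
        have h6 := hsum V
        have h7 := hshift V (N * d)
        have h8 : 1 / (N : ℝ) * 2 ≤ ε := by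
          rw [one_div, inv_mul_le_iff₀ hN0]
          rw [div_lt_iff₀ hε] at hN
          linarith
        refine le_trans (mul_le_mul_of_nonneg_left ?_ (by positivity)) h8
        linarith
      · have h3 : ∀ v ∈ V, |m' v - m' (v - d)| ≤
            (1 / (N : ℝ)) * ∑ k ∈ Finset.range N, |m (v - k * d₀) - m (v - k * d₀ - d)| := by
          intro v _
          rw [hval, hval, ← mul_sub, abs_mul, abs_of_nonneg (by positivity), ← Finset.sum_sub_distrib]
          refine mul_le_mul_of_nonneg_left ?_ (by positivity)
          refine (Finset.abs_sum_le_sum_abs _ _).trans (le_of_eq ?_)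
          refine Finset.sum_congr rfl fun k _ => ?_
          congr 3
          ring
        refine (Finset.sum_le_sum h3).trans ?_
        rw [← Finset.mul_sum, Finset.sum_comm]
        have h4 : ∀ k ∈ Finset.range N, ∑ v ∈ V, |m (v - k * d₀) - m (v - k * d₀ - d)| ≤ ε := by
          intro k _
          have h5 := h2 d hd (V.image fun v => v - k * d₀)
          rwa [Finset.sum_image fun x _ y _ h => sub_left_injective h] at h5
        have h5 := Finset.sum_le_card_nsmul _ _ _ h4
        rw [Finset.card_range, nsmul_eq_mul] at h5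
        rw [one_div, inv_mul_le_iff₀ hN0]
        exact h5

theorem posDef_finset {G : Type} [AddCommGroup G] {c : G → ℝ} (hc : PosDefG c) (S : Finset G)
    (y : G → ℝ) : 0 ≤ ∑ i ∈ S, ∑ j ∈ S, y i * y j * c (i - j) := by
  classical
  have h := hc.nonneg (∑ i ∈ S, Finsupp.single i (y i))
  have h1 : ∀ g : G → ℝ → ℝ, (∀ i, g i 0 = 0) → (∀ i a b, g i (a + b) = g i a + g i b) →
      ((∑ i ∈ S, Finsupp.single i (y i)).sum g) = ∑ i ∈ S, g i (y i) := by
    intro g hg0 hga
    rw [← Finsupp.sum_finsetSum_index hg0 hga]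
    exact Finset.sum_congr rfl fun i _ => Finsupp.sum_single_index (hg0 i)
  rw [h1 _ (fun i => by simp) (fun i a b => by
    rw [← Finsupp.sum_add]
    exact Finsupp.sum_congr fun j _ => by ring)] at h
  refine h.trans (le_of_eq ?_)
  refine Finset.sum_congr rfl fun i _ => ?_
  rw [h1 _ (fun j => by simp) (fun j a b => by ring)]

/-- The fibre over the character `t ↦ exp (i θ t)` of `ℝ`. -/
theorem posDef_fiber {G : Type} [AddCommGroup G] {c : G × ℝ → ℝ} (hc : PosDefG c)
    (hs : ∀ g t, c (-g, t) = c (g, t)) (T : G → Finset ℝ) (hT : ∀ g t, t ∉ T g → c (g, t) = 0)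
    (hTn : ∀ g, T (-g) = T g) (θ : ℝ) :
    PosDefG fun g => ∑ t ∈ T g, c (g, t) * Real.cos (θ * t) := by
  classical
  refine ⟨fun g => ?_, fun x => ?_⟩
  · rw [hTn]
    exact Finset.sum_congr rfl fun t _ => by rw [hs]
  · unfold Finsupp.sum
    set S := x.support with hS
    set D : Finset ℝ := (S ×ˢ S).biUnion fun p => T (p.1 - p.2) with hD
    -- the form is a limit of nonnegative numbers
    set M : ℝ := ∑ i ∈ S, ∑ j ∈ S, |x i * x j| * ∑ d ∈ D, |c (i - j, d)| with hM
    have hM0 : 0 ≤ M := Finset.sum_nonneg fun i _ => Finset.sum_nonneg fun j _ =>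
      mul_nonneg (abs_nonneg _) (Finset.sum_nonneg fun d _ => abs_nonneg _)
    have hTD : ∀ i ∈ S, ∀ j ∈ S, ∑ t ∈ T (i - j), c (i - j, t) * Real.cos (θ * t) =
        ∑ d ∈ D, c (i - j, d) * Real.cos (θ * d) := by
      intro i hi j hj
      refine Finset.sum_subset (fun t ht => ?_) fun t _ ht => ?_
      · rw [hD, Finset.mem_biUnion]
        exact ⟨(i, j), Finset.mem_product.2 ⟨hi, hj⟩, ht⟩
      · rw [hT _ _ ht, zero_mul]
    have key : ∀ ε : ℝ, 0 < ε →
        -(M * ε) ≤ ∑ i ∈ S, ∑ j ∈ S, x i * x j * ∑ t ∈ T (i - j), c (i - j, t) * Real.cos (θ * t) := by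
      intro ε hε
      obtain ⟨m, h0, h1, h2⟩ := reiter D (ε := 2 * ε) (by positivity)
      set V := m.support with hV
      set w : ℝ → ℝ := fun v => Real.sqrt (m v) with hw
      have hw0 : ∀ v, 0 ≤ w v := fun v => Real.sqrt_nonneg _
      have hw2 : ∀ v, w v ^ 2 = m v := fun v => Real.sq_sqrt (h0 v)
      have hwV : ∀ v, v ∉ V → w v = 0 := by
        intro v hv
        rw [hw]
        simp only
        rw [Finsupp.notMem_support_iff.1 hv, Real.sqrt_zero]
      have hm1 : ∑ v ∈ V, m v = 1 := h1
      set ρ : ℝ → ℝ := fun d => ∑ v ∈ V, w v * w (v - d) with hρ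
      have hρ1 : ∀ d ∈ D, |1 - ρ d| ≤ ε := by
        intro d hd
        set V' : Finset ℝ := V ∪ V.image (fun v => v + d) with hV'
        have e1 : ∑ v ∈ V', w v ^ 2 = 1 := by
          have e0 : ∑ v ∈ V, m v = ∑ v ∈ V', m v :=
            Finset.sum_subset Finset.subset_union_left fun v _ hv => Finsupp.notMem_support_iff.1 hv
          rw [← hm1, e0]
          exact Finset.sum_congr rfl fun v _ => hw2 v
        have e2 : ∑ v ∈ V', w (v - d) ^ 2 = 1 := by
          have e3 : ∑ v ∈ V.image (fun v => v + d), w (v - d) ^ 2 = ∑ v ∈ V, m v := by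
            rw [Finset.sum_image fun x _ y _ h => add_left_injective d h]
            exact Finset.sum_congr rfl fun v _ => by rw [add_sub_cancel_right, hw2]
          rw [← hm1, ← e3]
          symm
          refine Finset.sum_subset Finset.subset_union_right fun v _ hv => ?_
          have h5 : v - d ∉ V := fun h => hv (Finset.mem_image.2 ⟨v - d, h, sub_add_cancel v d⟩)
          rw [hwV _ h5]
          ring
        have e3 : ∑ v ∈ V', w v * w (v - d) = ρ d := by
          symm
          refine Finset.sum_subset Finset.subset_union_left fun v _ hv => ?_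
          rw [hwV v hv, zero_mul]
        have e4 : ∑ v ∈ V', (w v - w (v - d)) ^ 2 = 2 * (1 - ρ d) := by
          rw [← e3]
          have e5 : ∀ v, (w v - w (v - d)) ^ 2 = w v ^ 2 + w (v - d) ^ 2 - 2 * (w v * w (v - d)) :=
            fun v => by ring
          simp only [e5]
          rw [Finset.sum_sub_distrib, Finset.sum_add_distrib, e1, e2, ← Finset.mul_sum]
          ring
        have e5 : ∑ v ∈ V', (w v - w (v - d)) ^ 2 ≤ ∑ v ∈ V', |m v - m (v - d)| := by
          refine Finset.sum_le_sum fun v _ => ?_
          rw [← hw2 v, ← hw2 (v - d)]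
          have h5 : w v ^ 2 - w (v - d) ^ 2 = (w v - w (v - d)) * (w v + w (v - d)) := by ring
          rw [h5, abs_mul, abs_of_nonneg (add_nonneg (hw0 v) (hw0 (v - d))), ← sq_abs (w v - w (v - d)),
            sq]
          refine mul_le_mul_of_nonneg_left ?_ (abs_nonneg _)
          rw [abs_le]
          constructor <;> linarith [hw0 v, hw0 (v - d)]
        have e6 := h2 d hd V'
        have e7 : 0 ≤ ∑ v ∈ V', (w v - w (v - d)) ^ 2 := Finset.sum_nonneg fun v _ => sq_nonneg _
        rw [e4] at e5 e7
        rw [abs_of_nonneg (by linarith)]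
        linarith
      -- the two vectors
      have h5 := posDef_finset hc (S ×ˢ V) fun p => x p.1 * Real.cos (θ * p.2) * w p.2
      have h6 := posDef_finset hc (S ×ˢ V) fun p => x p.1 * Real.sin (θ * p.2) * w p.2
      have h7 : (∑ p ∈ S ×ˢ V, ∑ r ∈ S ×ˢ V, (x p.1 * Real.cos (θ * p.2) * w p.2) *
            (x r.1 * Real.cos (θ * r.2) * w r.2) * c (p - r)) +
          (∑ p ∈ S ×ˢ V, ∑ r ∈ S ×ˢ V, (x p.1 * Real.sin (θ * p.2) * w p.2) *
            (x r.1 * Real.sin (θ * r.2) * w r.2) * c (p - r)) =
          ∑ i ∈ S, ∑ j ∈ S, x i * x j * ∑ d ∈ D, c (i - j, d) * Real.cos (θ * d) * ρ d := by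
        rw [← Finset.sum_add_distrib]
        have h8 : ∀ p ∈ S ×ˢ V, (∑ r ∈ S ×ˢ V, (x p.1 * Real.cos (θ * p.2) * w p.2) *
            (x r.1 * Real.cos (θ * r.2) * w r.2) * c (p - r)) +
          (∑ r ∈ S ×ˢ V, (x p.1 * Real.sin (θ * p.2) * w p.2) *
            (x r.1 * Real.sin (θ * r.2) * w r.2) * c (p - r)) =
            ∑ j ∈ S, x p.1 * x j * (w p.2 * ∑ v' ∈ V,
              c (p.1 - j, p.2 - v') * Real.cos (θ * (p.2 - v')) * w v') := by
          intro p _
          rw [← Finset.sum_add_distrib, Finset.sum_product]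
          refine Finset.sum_congr rfl fun j _ => ?_
          rw [Finset.mul_sum, Finset.mul_sum]
          refine Finset.sum_congr rfl fun v' _ => ?_
          have h9 : Real.cos (θ * (p.2 - v')) =
              Real.cos (θ * p.2) * Real.cos (θ * v') + Real.sin (θ * p.2) * Real.sin (θ * v') := by
            rw [mul_sub, Real.cos_sub]
          have h10 : p - (j, v') = (p.1 - j, p.2 - v') := rfl
          rw [h9, h10]
          ring
        rw [Finset.sum_congr rfl h8, Finset.sum_product]
        refine Finset.sum_congr rfl fun i hi => ?_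
        rw [Finset.sum_comm]
        refine Finset.sum_congr rfl fun j hj => ?_
        simp only
        rw [← Finset.mul_sum]
        congr 1
        have h9 : ∀ v, ∑ v' ∈ V, c (i - j, v - v') * Real.cos (θ * (v - v')) * w v' =
            ∑ d ∈ D, c (i - j, d) * Real.cos (θ * d) * w (v - d) := by
          intro v
          have h10 : ∑ v' ∈ V, c (i - j, v - v') * Real.cos (θ * (v - v')) * w v' =
              ∑ d ∈ V.image (fun v' => v - v'), c (i - j, d) * Real.cos (θ * d) * w (v - d) := by
            rw [Finset.sum_image fun a _ b _ h => sub_right_injective h]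
            exact Finset.sum_congr rfl fun v' _ => by rw [sub_sub_cancel]
          rw [h10]
          have h11 : ∑ d ∈ V.image (fun v' => v - v'), c (i - j, d) * Real.cos (θ * d) * w (v - d) =
              ∑ d ∈ V.image (fun v' => v - v') ∪ D,
                c (i - j, d) * Real.cos (θ * d) * w (v - d) := by
            refine Finset.sum_subset Finset.subset_union_left fun d _ hd => ?_
            have h12 : v - d ∉ V := fun h => hd (Finset.mem_image.2 ⟨v - d, h, sub_sub_cancel v d⟩)
            rw [hwV _ h12, mul_zero]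
          have h13 : ∑ d ∈ D, c (i - j, d) * Real.cos (θ * d) * w (v - d) =
              ∑ d ∈ V.image (fun v' => v - v') ∪ D,
                c (i - j, d) * Real.cos (θ * d) * w (v - d) := by
            refine Finset.sum_subset Finset.subset_union_right fun d _ hd => ?_
            have h12 : d ∉ T (i - j) := fun h => hd (by
              rw [hD, Finset.mem_biUnion]
              exact ⟨(i, j), Finset.mem_product.2 ⟨hi, hj⟩, h⟩)
            rw [hT _ _ h12, zero_mul, zero_mul]
          rw [h11, h13]
        simp only [h9]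
        rw [Finset.sum_congr rfl fun v _ => Finset.mul_sum _ _ _, Finset.sum_comm]
        refine Finset.sum_congr rfl fun d _ => ?_
        rw [hρ]
        simp only
        rw [Finset.mul_sum]
        exact Finset.sum_congr rfl fun v _ => by ring
      have h8 : 0 ≤ ∑ i ∈ S, ∑ j ∈ S, x i * x j * ∑ d ∈ D, c (i - j, d) * Real.cos (θ * d) * ρ d := by
        rw [← h7]
        exact add_nonneg h5 h6
      have h9 : ∑ i ∈ S, ∑ j ∈ S, x i * x j * ∑ t ∈ T (i - j), c (i - j, t) * Real.cos (θ * t) =
          (∑ i ∈ S, ∑ j ∈ S, x i * x j * ∑ d ∈ D, c (i - j, d) * Real.cos (θ * d) * ρ d) +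
          ∑ i ∈ S, ∑ j ∈ S, x i * x j * ∑ d ∈ D, c (i - j, d) * Real.cos (θ * d) * (1 - ρ d) := by
        rw [← Finset.sum_add_distrib]
        refine Finset.sum_congr rfl fun i hi => ?_
        rw [← Finset.sum_add_distrib]
        refine Finset.sum_congr rfl fun j hj => ?_
        rw [hTD i hi j hj, ← mul_add, ← Finset.sum_add_distrib]
        congr 1
        exact Finset.sum_congr rfl fun d _ => by ring
      have h10 : |∑ i ∈ S, ∑ j ∈ S, x i * x j * ∑ d ∈ D, c (i - j, d) * Real.cos (θ * d) *
          (1 - ρ d)| ≤ M * ε := by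
        rw [hM, Finset.sum_mul]
        refine (Finset.abs_sum_le_sum_abs _ _).trans (Finset.sum_le_sum fun i _ => ?_)
        rw [Finset.sum_mul]
        refine (Finset.abs_sum_le_sum_abs _ _).trans (Finset.sum_le_sum fun j _ => ?_)
        rw [abs_mul, mul_assoc]
        refine mul_le_mul_of_nonneg_left ?_ (abs_nonneg _)
        rw [Finset.sum_mul]
        refine (Finset.abs_sum_le_sum_abs _ _).trans (Finset.sum_le_sum fun d hd => ?_)
        rw [abs_mul, abs_mul]
        have h11 := Real.abs_cos_le_one (θ * d)
        calc |c (i - j, d)| * |Real.cos (θ * d)| * |1 - ρ d| ≤ |c (i - j, d)| * 1 * ε :=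
              mul_le_mul (mul_le_mul_of_nonneg_left h11 (abs_nonneg _)) (hρ1 d hd) (abs_nonneg _)
                (by positivity)
          _ = |c (i - j, d)| * ε := by ring
      rw [h9]
      linarith [(abs_le.1 h10).1]
    have h3 : ∀ ε : ℝ, 0 < ε → 0 ≤ (∑ i ∈ S, ∑ j ∈ S, x i * x j *
        ∑ t ∈ T (i - j), c (i - j, t) * Real.cos (θ * t)) + ε := by
      intro ε hε
      have h4 := key (ε / (M + 1)) (by positivity)
      have h5 : M * (ε / (M + 1)) ≤ ε := by
        rw [mul_div_assoc', div_le_iff₀ (by positivity)]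
        nlinarith
      linarith
    exact le_of_forall_pos_le_add h3

end Pool.Agent.EEAL
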