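import Pool.Agent.W_eea520_c.Cont
import Pool.Agent.W_eea520_L.DCore
import Pool.Agent.W_eea520_L.BasE

/-!
# Tempered systems with prescribed orders on the whole line: the targets (MP_eea520_nt)
-/

set_option autoImplicit false

namespace Pool.Agent.EEAL

open Filter Topology Pool.Agent.EEA520 Pool.Agent.EEAN Pool.Agent.EEAG1 LSeries Pool.Agent.EEAC

variable {n : ℕ} {ε : Prop}

/-- The mean value of the orbit function at the number `N`. -/
noncomputable def mcC (c : Wt n → ℝ →₀ ℤ) (w : Wt n) (N : ℕ) : ℂ :=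
  (c w).sum fun t z => (z : ℂ) * (N : ℂ) ^ ((t : ℂ) * Complex.I)

/-- `M` is given by probability measures of finite support. -/
def HasMeas (ε : Prop) (M : Wt n → ℂ) : Prop :=
  ∀ F : Finset (Wt n), ∃ ν : XE ε n →₀ ℝ, IsProb ν ∧
    ∀ w ∈ F, (ν.sum fun q z => (z : ℂ) * orbC q.1 w) = M w

/-- The twisted series. -/
theorem LSeries_it (s : ℂ) (t : ℝ) :
    LSeries (fun N => (N : ℂ) ^ ((t : ℂ) * Complex.I) * (pc N : ℂ)) s =
      LSeries (fun N => (pc N : ℂ)) (s - t * Complex.I) := by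
  unfold LSeries
  refine tsum_congr fun N => ?_
  by_cases hN : N = 0
  · rw [hN, term_zero, term_zero]
  · have hN' : (N : ℂ) ≠ 0 := by exact_mod_cast hN
    rw [term_of_ne_zero hN, term_of_ne_zero hN, Complex.cpow_sub _ _ hN']
    have h1 : (N : ℂ) ^ ((t : ℂ) * Complex.I) ≠ 0 := by
      rw [Ne, Complex.cpow_eq_zero_iff]
      tauto
    have h2 : (N : ℂ) ^ s ≠ 0 := by
      rw [Ne, Complex.cpow_eq_zero_iff]
      tauto
    field_simp

theorem norm_it {N : ℕ} (hN : N ≠ 0) (t : ℝ) : ‖(N : ℂ) ^ ((t : ℂ) * Complex.I)‖ = 1 := by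
  have h1 : (0 : ℝ) < N := by exact_mod_cast Nat.pos_of_ne_zero hN
  have h2 := Complex.norm_cpow_eq_rpow_re_of_pos h1 ((t : ℂ) * Complex.I)
  rw [Complex.ofReal_natCast] at h2
  rw [h2]
  simp

theorem it_summable {s : ℂ} (hs : 1 < s.re) (t : ℝ) :
    LSeriesSummable (fun N => (N : ℂ) ^ ((t : ℂ) * Complex.I) * (pc N : ℂ)) s :=
  LSeriesSummable_of_bounded_of_one_lt_re (m := 1) (fun N hN => by
    rw [norm_mul, norm_it hN, one_mul, Complex.norm_real, Real.norm_of_nonneg (pc_nonneg N)]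
    exact pc_le_one N) hs

/-- The twisted and shifted series. -/
theorem LSeries_itq (s : ℂ) (t : ℝ) :
    LSeries (fun N => (N : ℂ) ^ ((t : ℂ) * Complex.I) *
      ((((N : ℝ) ^ (-(1 / 4) : ℝ) * pc N : ℝ)) : ℂ)) s =
      LSeries (fun N => (pc N : ℂ)) (s - t * Complex.I + 1 / 4) := by
  rw [← LSeries_shift]
  unfold LSeries
  refine tsum_congr fun N => ?_
  by_cases hN : N = 0
  · rw [hN, term_zero, term_zero]
  · have hN' : (N : ℂ) ≠ 0 := by exact_mod_cast hN
    rw [term_of_ne_zero hN, term_of_ne_zero hN, Complex.cpow_sub _ _ hN']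
    have h1 : (N : ℂ) ^ ((t : ℂ) * Complex.I) ≠ 0 := by
      rw [Ne, Complex.cpow_eq_zero_iff]
      tauto
    have h2 : (N : ℂ) ^ s ≠ 0 := by
      rw [Ne, Complex.cpow_eq_zero_iff]
      tauto
    field_simp

theorem itq_summable {s : ℂ} (hs : 1 < s.re) (t : ℝ) :
    LSeriesSummable (fun N => (N : ℂ) ^ ((t : ℂ) * Complex.I) *
      ((((N : ℝ) ^ (-(1 / 4) : ℝ) * pc N : ℝ)) : ℂ)) s :=
  LSeriesSummable_of_bounded_of_one_lt_re (m := 1) (fun N hN => by
    rw [norm_mul, norm_it hN, one_mul, Complex.norm_real, Real.norm_eq_abs, abs_mul,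
      abs_of_nonneg (pc_nonneg N), abs_of_nonneg (by positivity)]
    refine mul_le_one₀ ?_ (pc_nonneg N) (pc_le_one N)
    exact Real.rpow_le_one_of_one_le_of_nonpos
      (by exact_mod_cast Nat.one_le_iff_ne_zero.2 hN) (by norm_num)) hs

/-- The principal part for one weight. -/
theorem main_hasSum (c : Wt n → ℝ →₀ ℤ) (w : Wt n) {s : ℂ} (hs : 1 < s.re) :
    LSeriesHasSum (fun N => (1 - (((N : ℝ) ^ (-(1 / 4) : ℝ) : ℝ) : ℂ)) * (pc N : ℂ) *
      (mcC c w N / (Fintype.card (WG n) : ℂ))) s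
      ((c w).sum fun t z => (z : ℂ) / (Fintype.card (WG n) : ℂ) *
        (LSeries (fun N => (pc N : ℂ)) (s - t * Complex.I) -
          LSeries (fun N => (pc N : ℂ)) (s - t * Complex.I + 1 / 4))) := by
  have h1 : ∀ t ∈ (c w).support, LSeriesHasSum (fun N => ((c w t : ℤ) : ℂ) / (Fintype.card (WG n) : ℂ) *
      ((N : ℂ) ^ ((t : ℂ) * Complex.I) * (pc N : ℂ) - (N : ℂ) ^ ((t : ℂ) * Complex.I) *
      ((((N : ℝ) ^ (-(1 / 4) : ℝ) * pc N : ℝ)) : ℂ))) s
      (((c w t : ℤ) : ℂ) / (Fintype.card (WG n) : ℂ) *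
        (LSeries (fun N => (pc N : ℂ)) (s - t * Complex.I) -
          LSeries (fun N => (pc N : ℂ)) (s - t * Complex.I + 1 / 4))) := by
    intro t _
    have h2 := (it_summable hs t).LSeriesHasSum.sub (itq_summable hs t).LSeriesHasSum
    rw [LSeries_it, LSeries_itq] at h2
    exact h2.smul (((c w t : ℤ) : ℂ) / (Fintype.card (WG n) : ℂ))
  have h2 := hasSum_sum h1
  unfold LSeriesHasSum
  refine h2.congr_fun fun N => ?_
  by_cases hN : N = 0
  · rw [hN, term_zero]
    refine (Finset.sum_eq_zero fun t _ => ?_).symm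
    rw [term_zero]
  · rw [term_of_ne_zero hN]
    unfold mcC Finsupp.sum
    rw [Finset.sum_div, Finset.mul_sum, Finset.sum_div]
    refine Finset.sum_congr rfl fun t _ => ?_
    rw [term_of_ne_zero hN]
    push_cast
    ring

/-- The powers. -/
def pwE (k : ℕ) (q : XE ε n) : XE ε n := ⟨powT k q.1, isPtE_powT k q.2⟩

theorem pwE_one (q : XE ε n) : pwE 1 q = q := by
  apply Subtype.ext
  show powT 1 q.1 = q.1
  unfold powT
  ext i <;> simp

/-- A weight for an element of the basis. -/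
noncomputable def wtE (i : IE ε n) : Wt n := (BX_sub i.2).choose

theorem wtE_spec (i : IE ε n) : ¬ TrivE ε (wtE i) ∧ (i.1 = reF (wtE i) ∨ i.1 = imF (wtE i)) :=
  (BX_sub i.2).choose_spec

open Classical in
/-- The mean value of an element of the basis. -/
noncomputable def tg (M : Wt n → ℂ) (i : IE ε n) : ℝ :=
  if i.1 = reF (wtE i) then (M (wtE i)).re / Fintype.card (WG n)
  else (M (wtE i)).im / Fintype.card (WG n)

theorem meas_re {M : Wt n → ℂ} {ν : XE ε n →₀ ℝ} {w : Wt n}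
    (h : (ν.sum fun q z => (z : ℂ) * orbC q.1 w) = M w) :
    (ν.sum fun q z => z * reF w q) = (M w).re / Fintype.card (WG n) := by
  rw [← h]
  unfold Finsupp.sum
  rw [Complex.re_sum, Finset.sum_div]
  refine Finset.sum_congr rfl fun q _ => ?_
  rw [Complex.re_ofReal_mul]
  unfold reF
  ring

theorem meas_im {M : Wt n → ℂ} {ν : XE ε n →₀ ℝ} {w : Wt n}
    (h : (ν.sum fun q z => (z : ℂ) * orbC q.1 w) = M w) :
    (ν.sum fun q z => z * imF w q) = (M w).im / Fintype.card (WG n) := by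
  rw [← h]
  unfold Finsupp.sum
  rw [Complex.im_sum, Finset.sum_div]
  refine Finset.sum_congr rfl fun q _ => ?_
  rw [Complex.im_ofReal_mul]
  unfold imF
  ring

theorem tg_meas {M : Wt n → ℂ} {ν : XE ε n →₀ ℝ} {i : IE ε n}
    (h : (ν.sum fun q z => (z : ℂ) * orbC q.1 (wtE i)) = M (wtE i)) :
    (ν.sum fun q z => z * i.1 q) = tg M i := by
  unfold tg
  by_cases h1 : i.1 = reF (wtE i)
  · rw [if_pos h1]
    nth_rewrite 1 [h1]
    exact meas_re h
  · rw [if_neg h1]
    have h2 := (wtE_spec i).2.resolve_left h1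
    nth_rewrite 1 [h2]
    exact meas_im h

theorem tg_le {M : Wt n → ℂ} (hM : HasMeas ε M) (i : IE ε n) : |tg M i| ≤ 1 := by
  obtain ⟨ν, hν, h⟩ := hM {wtE i}
  exact Core_abs_le (fun x => IE_le i x) hν (tg_meas (h _ (by simp)))

/-- Compatibility with linear relations. -/
theorem tg_comb {M : Wt n → ℂ} (hM : HasMeas ε M) (w : Wt n) (α : IE ε n →₀ ℝ)
    (f : XE ε n → ℝ) (hα : ∀ q, (α.sum fun i z => z * i.1 q) = f q) (y : ℝ)
    (hy : ∀ ν : XE ε n →₀ ℝ, (ν.sum fun q z => (z : ℂ) * orbC q.1 w) = M w →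
      (ν.sum fun q z => z * f q) = y) :
    (α.sum fun i z => z * tg M i) = y := by
  classical
  obtain ⟨ν, hν, h⟩ := hM (insert w (α.support.image wtE))
  rw [← hy ν (h w (Finset.mem_insert_self _ _))]
  have h1 : (α.sum fun i z => z * tg M i) = α.sum fun i z => z * (ν.sum fun q z => z * i.1 q) := by
    refine Finsupp.sum_congr fun i hi => ?_
    rw [tg_meas (h _ (Finset.mem_insert_of_mem (Finset.mem_image_of_mem _ hi)))]
  rw [h1]
  unfold Finsupp.sum at hα ⊢
  simp only [Finset.mul_sum]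
  rw [Finset.sum_comm]
  refine Finset.sum_congr rfl fun q _ => ?_
  rw [← hα q, Finset.mul_sum]
  exact Finset.sum_congr rfl fun i _ => by ring

/-- Expansion of the elements of the span. -/
theorem exists_exp {f : XE ε n → ℝ} (hf : f ∈ SX ε n) :
    ∃ α : IE ε n →₀ ℝ, ∀ q, (α.sum fun i z => z * i.1 q) = f q := by
  have h1 : f ∈ Submodule.span ℝ (BX ε n) := by
    rw [BX_span]
    exact Submodule.subset_span hf
  obtain ⟨l, hl⟩ := (Finsupp.mem_span_iff_linearCombination _ _ _).1 h1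
  refine ⟨l, fun q => ?_⟩
  rw [← hl, Finsupp.linearCombination_apply]
  unfold Finsupp.sum
  rw [Finset.sum_apply]
  rfl

end Pool.Agent.EEAL
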