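import Pool.Agent.W_eea520_L.Fib
import Pool.Agent.W_eea520_L.GrpE

/-!
# Positive definite functions on `G × ℝ`: the complex fibres over a character of `ℝ` (MP_eea520_nt)
-/

set_option autoImplicit false

namespace Pool.Agent.EEAL

open Filter Topology Pool.Agent.EEAG1

/-- The fibre over the character `t ↦ exp (i θ t)` of `ℝ`. -/
theorem posDef_fiberC {G : Type} [AddCommGroup G] {c : G × ℝ → ℝ} (hc : PosDefG c)
    (T : G → Finset ℝ) (hT : ∀ g t, t ∉ T g → c (g, t) = 0) (θ : ℝ) (S : Finset G) (y : G → ℂ) :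
    0 ≤ (∑ i ∈ S, ∑ j ∈ S, y i * (starRingEnd ℂ) (y j) *
      ∑ t ∈ T (i - j), (c (i - j, t) : ℂ) * Complex.exp ((θ * t : ℝ) * Complex.I)).re := by
  classical
  set D : Finset ℝ := (S ×ˢ S).biUnion fun p => T (p.1 - p.2) with hD
  -- the form is a limit of nonnegative numbers
  set M : ℝ := ∑ i ∈ S, ∑ j ∈ S, ‖y i * (starRingEnd ℂ) (y j)‖ * ∑ d ∈ D, |c (i - j, d)| with hM
  have hM0 : 0 ≤ M := Finset.sum_nonneg fun i _ => Finset.sum_nonneg fun j _ =>
    mul_nonneg (norm_nonneg _) (Finset.sum_nonneg fun d _ => abs_nonneg _)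
  set ex : ℝ → ℂ := fun d => Complex.exp ((θ * d : ℝ) * Complex.I) with hex
  have hexn : ∀ d, ‖ex d‖ = 1 := fun d => Complex.norm_exp_ofReal_mul_I _
  have hexs : ∀ v v', ex (v - v') = ex v * (starRingEnd ℂ) (ex v') := by
    intro v v'
    rw [hex]
    simp only
    rw [← Complex.exp_conj, ← Complex.exp_add, map_mul, Complex.conj_ofReal, Complex.conj_I]
    congr 1
    push_cast
    ring
  have hTD : ∀ i ∈ S, ∀ j ∈ S, ∑ t ∈ T (i - j), (c (i - j, t) : ℂ) * ex t =
      ∑ d ∈ D, (c (i - j, d) : ℂ) * ex d := by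
    intro i hi j hj
    refine Finset.sum_subset (fun t ht => ?_) fun t _ ht => ?_
    · rw [hD, Finset.mem_biUnion]
      exact ⟨(i, j), Finset.mem_product.2 ⟨hi, hj⟩, ht⟩
    · rw [hT _ _ ht, Complex.ofReal_zero, zero_mul]
  have key : ∀ ε : ℝ, 0 < ε →
      -(M * ε) ≤ (∑ i ∈ S, ∑ j ∈ S, y i * (starRingEnd ℂ) (y j) *
        ∑ t ∈ T (i - j), (c (i - j, t) : ℂ) * ex t).re := by
    intro ε hε
    obtain ⟨m, h0, h1, h2⟩ := reiter D (ε := 2 * ε) (by positivity)
    set V := m.support with hV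
    set w : ℝ → ℝ := fun v => Real.sqrt (m v) with hw
    have hw0 : ∀ v, 0 ≤ w v := fun v => Real.sqrt_nonneg _
    have hw2 : ∀ v, w v ^ 2 = m v := fun v => Real.sq_sqrt (h0 v)
    have hwV : ∀ v, v ∉ V → w v = 0 := by
      intro v hv
      rw [hw]
      simp only
      rw [Finsupp.notMem_support_iff.1 hv, Real.sqrt_zero]
    have hm1 : ∑ v ∈ V, m v = 1 := h1
    set ρ : ℝ → ℝ := fun d => ∑ v ∈ V, w v * w (v - d) with hρ
    have hρ1 : ∀ d ∈ D, |1 - ρ d| ≤ ε := by
      intro d hd
      set V' : Finset ℝ := V ∪ V.image (fun v => v + d) with hV'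
      have e1 : ∑ v ∈ V', w v ^ 2 = 1 := by
        have e0 : ∑ v ∈ V, m v = ∑ v ∈ V', m v :=
          Finset.sum_subset Finset.subset_union_left fun v _ hv => Finsupp.notMem_support_iff.1 hv
        rw [← hm1, e0]
        exact Finset.sum_congr rfl fun v _ => hw2 v
      have e2 : ∑ v ∈ V', w (v - d) ^ 2 = 1 := by
        have e3 : ∑ v ∈ V.image (fun v => v + d), w (v - d) ^ 2 = ∑ v ∈ V, m v := by
          rw [Finset.sum_image fun x _ y _ h => add_left_injective d h]
          exact Finset.sum_congr rfl fun v _ => by rw [add_sub_cancel_right, hw2]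
        rw [← hm1, ← e3]
        symm
        refine Finset.sum_subset Finset.subset_union_right fun v _ hv => ?_
        have h5 : v - d ∉ V := fun h => hv (Finset.mem_image.2 ⟨v - d, h, sub_add_cancel v d⟩)
        rw [hwV _ h5]
        ring
      have e3 : ∑ v ∈ V', w v * w (v - d) = ρ d := by
        symm
        refine Finset.sum_subset Finset.subset_union_left fun v _ hv => ?_
        rw [hwV v hv, zero_mul]
      have e4 : ∑ v ∈ V', (w v - w (v - d)) ^ 2 = 2 * (1 - ρ d) := by
        rw [← e3]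
        have e5 : ∀ v, (w v - w (v - d)) ^ 2 = w v ^ 2 + w (v - d) ^ 2 - 2 * (w v * w (v - d)) :=
          fun v => by ring
        simp only [e5]
        rw [Finset.sum_sub_distrib, Finset.sum_add_distrib, e1, e2, ← Finset.mul_sum]
        ring
      have e5 : ∑ v ∈ V', (w v - w (v - d)) ^ 2 ≤ ∑ v ∈ V', |m v - m (v - d)| := by
        refine Finset.sum_le_sum fun v _ => ?_
        rw [← hw2 v, ← hw2 (v - d)]
        have h5 : w v ^ 2 - w (v - d) ^ 2 = (w v - w (v - d)) * (w v + w (v - d)) := by ring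
        rw [h5, abs_mul, abs_of_nonneg (add_nonneg (hw0 v) (hw0 (v - d))), ← sq_abs (w v - w (v - d)),
          sq]
        refine mul_le_mul_of_nonneg_left ?_ (abs_nonneg _)
        rw [abs_le]
        constructor <;> linarith [hw0 v, hw0 (v - d)]
      have e6 := h2 d hd V'
      have e7 : 0 ≤ ∑ v ∈ V', (w v - w (v - d)) ^ 2 := Finset.sum_nonneg fun v _ => sq_nonneg _
      rw [e4] at e5 e7
      rw [abs_of_nonneg (by linarith)]
      linarith
    -- the two vectors
    set Y : G × ℝ → ℂ := fun p => y p.1 * ex p.2 * w p.2 with hY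
    have h5 := posDef_finset hc (S ×ˢ V) fun p => (Y p).re
    have h6 := posDef_finset hc (S ×ˢ V) fun p => (Y p).im
    have h7 : (∑ p ∈ S ×ˢ V, ∑ r ∈ S ×ˢ V, (Y p).re * (Y r).re * c (p - r)) +
        (∑ p ∈ S ×ˢ V, ∑ r ∈ S ×ˢ V, (Y p).im * (Y r).im * c (p - r)) =
        (∑ i ∈ S, ∑ j ∈ S, y i * (starRingEnd ℂ) (y j) *
          ∑ d ∈ D, (c (i - j, d) : ℂ) * ex d * ρ d).re := by
      have h8 : (∑ p ∈ S ×ˢ V, ∑ r ∈ S ×ˢ V, (Y p).re * (Y r).re * c (p - r)) +
          (∑ p ∈ S ×ˢ V, ∑ r ∈ S ×ˢ V, (Y p).im * (Y r).im * c (p - r)) =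
          (∑ p ∈ S ×ˢ V, ∑ r ∈ S ×ˢ V, Y p * (starRingEnd ℂ) (Y r) * (c (p - r) : ℂ)).re := by
        rw [← Finset.sum_add_distrib, Complex.re_sum]
        refine Finset.sum_congr rfl fun p _ => ?_
        rw [← Finset.sum_add_distrib, Complex.re_sum]
        refine Finset.sum_congr rfl fun r _ => ?_
        have hz : ∀ (a b : ℂ) (r : ℝ), a.re * b.re * r + a.im * b.im * r =
            (a * (starRingEnd ℂ) b * (r : ℂ)).re := by
          intro a b r
          rw [Complex.re_mul_ofReal, Complex.mul_re, Complex.conj_re, Complex.conj_im]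
          ring
        exact hz (Y p) (Y r) (c (p - r))
      rw [h8]
      congr 1
      rw [Finset.sum_product]
      refine Finset.sum_congr rfl fun i hi => ?_
      have h9 : ∀ v ∈ V, ∑ r ∈ S ×ˢ V, Y (i, v) * (starRingEnd ℂ) (Y r) * (c ((i, v) - r) : ℂ) =
          ∑ j ∈ S, y i * (starRingEnd ℂ) (y j) * (w v * ∑ d ∈ D,
            (c (i - j, d) : ℂ) * ex d * w (v - d)) := by
        intro v _
        rw [Finset.sum_product]
        refine Finset.sum_congr rfl fun j hj => ?_
        have h10 : ∑ v' ∈ V, (c (i - j, v - v') : ℂ) * ex (v - v') * w v' =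
            ∑ d ∈ D, (c (i - j, d) : ℂ) * ex d * w (v - d) := by
          have h10 : ∑ v' ∈ V, (c (i - j, v - v') : ℂ) * ex (v - v') * w v' =
              ∑ d ∈ V.image (fun v' => v - v'), (c (i - j, d) : ℂ) * ex d * w (v - d) := by
            rw [Finset.sum_image fun a _ b _ h => sub_right_injective h]
            exact Finset.sum_congr rfl fun v' _ => by rw [sub_sub_cancel]
          rw [h10]
          have h11 : ∑ d ∈ V.image (fun v' => v - v'), (c (i - j, d) : ℂ) * ex d * w (v - d) =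
              ∑ d ∈ V.image (fun v' => v - v') ∪ D, (c (i - j, d) : ℂ) * ex d * w (v - d) := by
            refine Finset.sum_subset Finset.subset_union_left fun d _ hd => ?_
            have h12 : v - d ∉ V := fun h => hd (Finset.mem_image.2 ⟨v - d, h, sub_sub_cancel v d⟩)
            rw [hwV _ h12, Complex.ofReal_zero, mul_zero]
          have h13 : ∑ d ∈ D, (c (i - j, d) : ℂ) * ex d * w (v - d) =
              ∑ d ∈ V.image (fun v' => v - v') ∪ D, (c (i - j, d) : ℂ) * ex d * w (v - d) := by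
            refine Finset.sum_subset Finset.subset_union_right fun d _ hd => ?_
            have h12 : d ∉ T (i - j) := fun h => hd (by
              rw [hD, Finset.mem_biUnion]
              exact ⟨(i, j), Finset.mem_product.2 ⟨hi, hj⟩, h⟩)
            rw [hT _ _ h12, Complex.ofReal_zero, zero_mul, zero_mul]
          rw [h11, h13]
        rw [← h10, Finset.mul_sum, Finset.mul_sum]
        refine Finset.sum_congr rfl fun v' _ => ?_
        have h11 : ((i, v) : G × ℝ) - (j, v') = (i - j, v - v') := rfl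
        rw [h11, hexs, hY]
        simp only [map_mul, Complex.conj_ofReal]
        ring
      rw [Finset.sum_congr rfl h9, Finset.sum_comm]
      refine Finset.sum_congr rfl fun j hj => ?_
      rw [← Finset.mul_sum]
      congr 1
      rw [Finset.sum_congr rfl fun v _ => Finset.mul_sum _ _ _, Finset.sum_comm]
      refine Finset.sum_congr rfl fun d _ => ?_
      rw [hρ]
      simp only
      push_cast
      rw [Finset.mul_sum]
      exact Finset.sum_congr rfl fun v _ => by ring
    have h8 : 0 ≤ (∑ i ∈ S, ∑ j ∈ S, y i * (starRingEnd ℂ) (y j) *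
        ∑ d ∈ D, (c (i - j, d) : ℂ) * ex d * ρ d).re := by
      rw [← h7]
      exact add_nonneg h5 h6
    have h9 : ∑ i ∈ S, ∑ j ∈ S, y i * (starRingEnd ℂ) (y j) *
        ∑ t ∈ T (i - j), (c (i - j, t) : ℂ) * ex t =
        (∑ i ∈ S, ∑ j ∈ S, y i * (starRingEnd ℂ) (y j) *
          ∑ d ∈ D, (c (i - j, d) : ℂ) * ex d * ρ d) +
        ∑ i ∈ S, ∑ j ∈ S, y i * (starRingEnd ℂ) (y j) *
          ∑ d ∈ D, (c (i - j, d) : ℂ) * ex d * ((1 - ρ d : ℝ) : ℂ) := by
      rw [← Finset.sum_add_distrib]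
      refine Finset.sum_congr rfl fun i hi => ?_
      rw [← Finset.sum_add_distrib]
      refine Finset.sum_congr rfl fun j hj => ?_
      rw [hTD i hi j hj, ← mul_add, ← Finset.sum_add_distrib]
      congr 1
      refine Finset.sum_congr rfl fun d _ => ?_
      push_cast
      ring
    have h10 : ‖∑ i ∈ S, ∑ j ∈ S, y i * (starRingEnd ℂ) (y j) *
          ∑ d ∈ D, (c (i - j, d) : ℂ) * ex d * ((1 - ρ d : ℝ) : ℂ)‖ ≤ M * ε := by
      rw [hM, Finset.sum_mul]
      refine (norm_sum_le _ _).trans (Finset.sum_le_sum fun i _ => ?_)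
      rw [Finset.sum_mul]
      refine (norm_sum_le _ _).trans (Finset.sum_le_sum fun j _ => ?_)
      rw [norm_mul, mul_assoc]
      refine mul_le_mul_of_nonneg_left ?_ (norm_nonneg _)
      rw [Finset.sum_mul]
      refine (norm_sum_le _ _).trans (Finset.sum_le_sum fun d hd => ?_)
      rw [norm_mul, norm_mul, hexn, mul_one, Complex.norm_real, Complex.norm_real,
        Real.norm_eq_abs, Real.norm_eq_abs]
      exact mul_le_mul_of_nonneg_left (hρ1 d hd) (abs_nonneg _)
    rw [h9, Complex.add_re]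
    have h11 := (abs_le.1 ((Complex.abs_re_le_norm _).trans h10)).1
    linarith
  have h3 : ∀ ε : ℝ, 0 < ε → 0 ≤ (∑ i ∈ S, ∑ j ∈ S, y i * (starRingEnd ℂ) (y j) *
        ∑ t ∈ T (i - j), (c (i - j, t) : ℂ) * ex t).re + ε := by
    intro ε hε
    have h4 := key (ε / (M + 1)) (by positivity)
    have h5 : M * (ε / (M + 1)) ≤ ε := by
      rw [mul_div_assoc', div_le_iff₀ (by positivity)]
      nlinarith
    linarith
  exact le_of_forall_pos_le_add h3

end Pool.Agent.EEAL
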