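import Pool.Agent.W_eea520_L.Fg99

/-!
# The laws of the edge: finitely many Euler products at one point (MP_eea520_nt)
-/

set_option autoImplicit false

namespace Pool.Agent.EEAL

open Filter Topology Pool.Agent.EEA520 Pool.Agent.EEAG1 Pool.Agent.EEAN Pool.Agent.EEAC

variable {n : ℕ}

namespace F99

theorem exists_lim_fin (U : Ultrafilter ℕ) {K : ℕ → ℤ → Prop} (s : Finset ℤ)
    (h : ∀ᶠ R in (U : Filter ℕ), ∃ k ∈ s, K R k) : ∃ k : ℤ, ∀ᶠ R in (U : Filter ℕ), K R k := by
  classical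
  induction s using Finset.induction_on with
  | empty =>
    obtain ⟨R, hR⟩ := h.exists
    obtain ⟨k, hk, _⟩ := hR
    exact absurd hk (Finset.notMem_empty k)
  | insert a s ha ih =>
    have h1 : ∀ᶠ R in (U : Filter ℕ), K R a ∨ ∃ k ∈ s, K R k := by
      filter_upwards [h] with R hR
      obtain ⟨k, hk, hk'⟩ := hR
      rcases Finset.mem_insert.1 hk with rfl | hk2
      · exact Or.inl hk'
      · exact Or.inr ⟨k, hk2, hk'⟩
    rcases Ultrafilter.eventually_or.1 h1 with h2 | h2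
    · exact ⟨a, h2⟩
    · exact ih h2

theorem mean_abs_le {f : Pr → ℝ} {L C : ℝ} (h : MeanP f L) (hf : ∀ p, |f p| ≤ C) : |L| ≤ C := by
  have hb : BdP f := ⟨C, hf⟩
  have h1 : BdP fun _ : Pr => (1 : ℝ) := ⟨1, fun _ => by simp⟩
  have h2 := MeanP.add (h1.const_mul C) hb (MeanP.one.const_mul C) h
  have h3 := MeanP.add (h1.const_mul C) (hb.const_mul (-1)) (MeanP.one.const_mul C)
    (h.const_mul (-1))
  have h4 := h2.nonneg fun p => by
    have := (abs_le.1 (hf p)).1
    linarith
  have h5 := h3.nonneg fun p => by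
    have := (abs_le.1 (hf p)).2
    linarith
  rw [abs_le]
  constructor <;> linarith

theorem size_finite (M : ℕ) : {w : Wt n | |w.1| ≤ M ∧ ∀ i, |w.2 i| ≤ M}.Finite := by
  refine ((Set.finite_Icc (-(M : ℤ)) M).prod (Set.Finite.pi' fun _ : Fin n =>
    Set.finite_Icc (-(M : ℤ)) M)).subset ?_
  rintro w ⟨h1, h2⟩
  exact ⟨Set.mem_Icc.2 (abs_le.1 h1), fun i => Set.mem_Icc.2 (abs_le.1 (h2 i))⟩

theorem mean_orb {π : GSys n} (hπ : Tempered π) {w : Wt n} {k : ℤ}
    (h : PoleOrder π (orb w) (pt 0) k) :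
    MeanP (fun p => ∑ g : WG n, zre π (act g w) 0 p) k := by
  have h1 := mean_of_poleOrder hπ h
  have h2 : tre π (orb w) 0 = fun p => ∑ g : WG n, zre π (act g w) 0 p := by
    funext p
    exact tre_orb π w 0 p
  rwa [h2] at h1

theorem order_le {π : GSys n} (hπ : Tempered π) {w : Wt n} {k : ℤ}
    (h : PoleOrder π (orb w) (pt 0) k) : |(k : ℝ)| ≤ Fintype.card (WG n) := by
  refine mean_abs_le (mean_orb hπ h) fun p => ?_
  refine (Finset.abs_sum_le_sum_abs _ _).trans ?_
  refine (Finset.sum_le_card_nsmul _ _ 1 fun g _ => zre_le hπ _ _ _).trans ?_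
  rw [Finset.card_univ, nsmul_eq_mul, mul_one]

/-- Positivity from finitely many orders. -/
theorem pos_fin {π : GSys n} (hπ : Tempered π) {c : Wt n → ℤ} (a : Wt n →₀ ℝ)
    (hc : ∀ y ∈ a.support ×ˢ a.support, PoleOrder π (orb (y.1 - y.2)) (pt 0) (c (y.1 - y.2))) :
    0 ≤ a.sum fun i b => a.sum fun j b' => b * b' * (c (i - j) : ℝ) := by
  classical
  have h1 : MeanP (fun p => ∑ y ∈ a.support ×ˢ a.support,
      a y.1 * a y.2 * ∑ g : WG n, zre π (act g (y.1 - y.2)) 0 p)
      (∑ y ∈ a.support ×ˢ a.support, a y.1 * a y.2 * c (y.1 - y.2)) :=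
    MeanP.sum _ (fun y _ => (bdP_orb hπ _ _).const_mul _)
      (fun y hy => (mean_orb hπ (hc y hy)).const_mul _)
  have h2 : a.sum (fun i b => a.sum fun j b' => b * b' * (c (i - j) : ℝ)) =
      ∑ y ∈ a.support ×ˢ a.support, a y.1 * a y.2 * c (y.1 - y.2) := by
    rw [Finset.sum_product]
    rfl
  rw [h2]
  refine MeanP.nonneg h1 fun p => ?_
  have h3 : ∀ g : WG n, ∑ y ∈ a.support ×ˢ a.support,
      a y.1 * a y.2 * zre π (act g (y.1 - y.2)) 0 p =
      Complex.normSq (∑ y ∈ a.support, (a y : ℂ) * zcx π (act g y) 0 p) := by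
    intro g
    have h4 : ((Complex.normSq (∑ y ∈ a.support, (a y : ℂ) * zcx π (act g y) 0 p) : ℝ) : ℂ) =
        ∑ y ∈ a.support ×ˢ a.support,
          ((a y.1 * a y.2 : ℝ) : ℂ) * zcx π (act g (y.1 - y.2)) 0 p := by
      rw [← Complex.mul_conj, map_sum, Finset.sum_mul_sum, Finset.sum_product]
      refine Finset.sum_congr rfl fun i _ => Finset.sum_congr rfl fun j _ => ?_
      have h6 := zcx_sub hπ (act g i) (act g j) 0 0 p
      rw [sub_zero] at h6
      rw [map_mul, Complex.conj_ofReal, map_sub, h6]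
      push_cast
      ring
    rw [← Complex.ofReal_re (Complex.normSq _), h4, Complex.re_sum]
    refine Finset.sum_congr rfl fun y _ => ?_
    rw [Complex.re_ofReal_mul, zre_eq]
  have h5 : ∑ y ∈ a.support ×ˢ a.support,
      a y.1 * a y.2 * ∑ g : WG n, zre π (act g (y.1 - y.2)) 0 p =
      ∑ g : WG n, ∑ y ∈ a.support ×ˢ a.support,
        a y.1 * a y.2 * zre π (act g (y.1 - y.2)) 0 p := by
    rw [Finset.sum_comm]
    refine Finset.sum_congr rfl fun y _ => ?_
    rw [Finset.mul_sum]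
  rw [h5]
  refine Finset.sum_nonneg fun g _ => ?_
  rw [h3]
  exact Complex.normSq_nonneg _

/-- The order formula from the orders of the finitely many orbit sums. -/
theorem order_fin {π : GSys n} (hπ : Tempered π) {c : Wt n → ℤ} {m : Wt n →₀ ℤ}
    (hm : IsCharacter m) (hc : ∀ w ∈ m.support, PoleOrder π (orb w) (pt 0) (c w)) {k : ℤ}
    (hk : PoleOrder π m (pt 0) k) :
    (Fintype.card (WG n) : ℤ) * k = m.sum fun w e => e * c w := by
  classical
  have h1 := (mean_of_poleOrder hπ hk).const_mul (Fintype.card (WG n))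
  have h2 : MeanP (fun p => ∑ w ∈ m.support, (m w : ℝ) * tre π (orb w) 0 p)
      (∑ w ∈ m.support, (m w : ℝ) * c w) :=
    MeanP.sum _ (fun w _ => (bdP_tre hπ _ _).const_mul _)
      (fun w hw => (mean_of_poleOrder hπ (hc w hw)).const_mul _)
  have h3 : (fun p => ∑ w ∈ m.support, (m w : ℝ) * tre π (orb w) 0 p) =
      fun p => (Fintype.card (WG n) : ℝ) * tre π m 0 p := by
    funext p
    exact sum_tre_orb hm π 0 p
  rw [h3] at h2
  have h4 := MeanP.unique h1 h2
  unfold Finsupp.sum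
  exact_mod_cast h4

end F99

open F99

/-- All the virtual characters with weights of size at most `R` are meromorphic at `1`. -/
def MeroUp (π : GSys n) (R : ℕ) : Prop :=
  ∀ m : Wt n →₀ ℤ, IsCharacter m → (∀ w, m w ≠ 0 → |w.1| ≤ R ∧ ∀ i, |w.2 i| ≤ R) → MeroAt π m 1

theorem fin_uniform (n : ℕ) (ε : Prop) (M : ℕ) : ∃ R : ℕ, ∀ π : GSys n, Tempered π →
    (ε → ∀ p, (π p).c ^ 2 * ∏ i, (π p).x i = 1) → MeroUp π R →
    ∃ π' : GSys n, Tempered π' ∧ (ε → ∀ p, (π' p).c ^ 2 * ∏ i, (π' p).x i = 1) ∧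
      (∀ m, IsCharacter m → Continues π' m) ∧
      (∀ m, IsCharacter m → ∀ t : ℝ, t ≠ 0 → PoleOrder π' m (pt t) 0) ∧
      ∀ m : Wt n →₀ ℤ, IsCharacter m → (∀ w, m w ≠ 0 → |w.1| ≤ M ∧ ∀ i, |w.2 i| ≤ M) →
        ∃ k : ℤ, PoleOrder π m 1 k ∧ PoleOrder π' m 1 k := by
  classical
  by_contra hcon
  push Not at hcon
  choose P hT hE hM hbad using hcon
  let U : Ultrafilter ℕ := hyperfilter ℕ
  have hU : (U : Filter ℕ) ≤ atTop := Nat.hyperfilter_le_atTop
  -- eventually everything is meromorphic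
  have hmero : ∀ m : Wt n →₀ ℤ, IsCharacter m → ∀ᶠ R in (U : Filter ℕ), MeroAt (P R) m (pt 0) := by
    intro m hm
    obtain ⟨N, hN⟩ : ∃ N : ℕ, ∀ w ∈ m.support, |w.1| ≤ (N : ℤ) ∧ ∀ i, |w.2 i| ≤ (N : ℤ) := by
      refine ⟨∑ w ∈ m.support, (w.1.natAbs + ∑ i, (w.2 i).natAbs), fun w hw => ?_⟩
      have h1 : w.1.natAbs + ∑ i, (w.2 i).natAbs ≤
          ∑ w ∈ m.support, (w.1.natAbs + ∑ i, (w.2 i).natAbs) :=
        Finset.single_le_sum (f := fun w : Wt n => w.1.natAbs + ∑ i, (w.2 i).natAbs)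
          (fun _ _ => Nat.zero_le _) hw
      refine ⟨?_, fun i => ?_⟩
      · rw [Int.abs_eq_natAbs]
        exact_mod_cast (Nat.le_add_right _ _).trans h1
      · rw [Int.abs_eq_natAbs]
        have h2 : (w.2 i).natAbs ≤ ∑ i, (w.2 i).natAbs :=
          Finset.single_le_sum (f := fun i => (w.2 i).natAbs) (fun _ _ => Nat.zero_le _)
            (Finset.mem_univ i)
        exact_mod_cast (h2.trans (Nat.le_add_left _ _)).trans h1
    refine hU (eventually_atTop.2 ⟨N, fun R hR => ?_⟩)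
    rw [pt_zero]
    refine hM R m hm fun w hw => ?_
    have h1 := hN w (Finsupp.mem_support_iff.2 hw)
    have h2 : (N : ℤ) ≤ R := by exact_mod_cast hR
    exact ⟨h1.1.trans h2, fun i => (h1.2 i).trans h2⟩
  -- the limit law
  have hlim : ∀ w : Wt n, ∃ k : ℤ, ∀ᶠ R in (U : Filter ℕ), PoleOrder (P R) (orb w) (pt 0) k := by
    intro w
    refine exists_lim_fin U (Finset.Icc (-(Fintype.card (WG n) : ℤ)) (Fintype.card (WG n))) ?_
    filter_upwards [hmero _ (orb_isCharacter w)] with R hR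
    obtain ⟨k, hk⟩ := exists_poleOrder (hT R) hR
    refine ⟨k, ?_, hk⟩
    have h1 := abs_le.1 (order_le (hT R) hk)
    rw [Finset.mem_Icc]
    exact ⟨by exact_mod_cast h1.1, by exact_mod_cast h1.2⟩
  choose c hc using hlim
  have hpd : PosDefG fun x => (c x : ℝ) := by
    refine ⟨fun w => ?_, fun a => ?_⟩
    · obtain ⟨R, h1, h2⟩ := ((hc (-w)).and (hc w)).exists
      refine MeanP.unique ?_ (mean_orb (hT R) h2)
      have h3 := mean_orb (hT R) h1
      have h4 : (fun p => ∑ g : WG n, zre (P R) (act g (-w)) 0 p) =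
          fun p => ∑ g : WG n, zre (P R) (act g w) 0 p := by
        funext p
        refine Finset.sum_congr rfl fun g _ => ?_
        rw [zre_eq, zre_eq, map_neg]
        have h5 := zcx_sub (hT R) 0 (act g w) 0 0 p
        rw [zero_sub, sub_zero] at h5
        have h6 : zcx (P R) (0 : Wt n) 0 p = 1 := by
          unfold zcx Torus.ev
          simp
        rw [h6, one_mul] at h5
        rw [h5, Complex.conj_re]
      rw [h4] at h3
      exact h3
    · have h1 : ∀ᶠ R in (U : Filter ℕ), ∀ y ∈ a.support ×ˢ a.support,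
          PoleOrder (P R) (orb (y.1 - y.2)) (pt 0) (c (y.1 - y.2)) :=
        (Finset.eventually_all _).2 fun y _ => hc _
      obtain ⟨R, hR⟩ := h1.exists
      exact pos_fin (hT R) a hR
  have hinv : ∀ (g : WG n) (w : Wt n), c (act g w) = c w := by
    intro g w
    obtain ⟨R, h1, h2⟩ := ((hc (act g w)).and (hc w)).exists
    rw [orb_act] at h1
    exact_mod_cast MeanP.unique (mean_of_poleOrder (hT R) h1) (mean_of_poleOrder (hT R) h2)
  have hzero : c 0 = (Fintype.card (WG n) : ℤ) := by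
    obtain ⟨R, hR⟩ := (hc 0).exists
    have h1 := mean_orb (hT R) hR
    have h2 := MeanP.one.const_mul (Fintype.card (WG n) : ℝ)
    have h3 : (fun p => ∑ g : WG n, zre (P R) (act g 0) 0 p) =
        fun _ => (Fintype.card (WG n) : ℝ) * 1 := by
      funext p
      have h4 : ∀ g ∈ (Finset.univ : Finset (WG n)), zre (P R) (act g 0) 0 p = 1 := by
        intro g _
        rw [map_zero]
        unfold zre Torus.ev
        simp
      rw [Finset.sum_congr rfl h4, Finset.sum_const, Finset.card_univ, nsmul_eq_mul]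
    rw [h3] at h1
    have h5 := MeanP.unique h1 h2
    rw [mul_one] at h5
    exact_mod_cast h5
  have hper : ε → ∀ w, c (w + (2, 1)) = c w := by
    intro hε w
    obtain ⟨R, h1, h2⟩ := ((hc (w + (2, 1))).and (hc w)).exists
    have h3 := mean_orb (hT R) h1
    have h4 : (fun p => ∑ g : WG n, zre (P R) (act g (w + (2, 1))) 0 p) =
        fun p => ∑ g : WG n, zre (P R) (act g w) 0 p := by
      funext p
      refine Finset.sum_congr rfl fun g _ => ?_
      have h5 : act g ((2, 1) : Wt n) = (2, 1) := by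
        rw [act_apply]
        refine Prod.ext rfl ?_
        funext i
        show (if i ∈ g.2 then (2 : ℤ) - 1 else 1) = 1
        split_ifs <;> norm_num
      have h6 : (P R p).ev (act g (w + (2, 1))) = (P R p).ev (act g w) := by
        rw [map_add, h5, ev_add']
        have h7 : (P R p).ev ((2, 1) : Wt n) = 1 := by
          rw [← hE R hε p]
          unfold Torus.ev
          simp only [Pi.one_apply, zpow_one]
          rfl
        rw [h7, mul_one]
      unfold zre
      rw [h6]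
    rw [h4] at h3
    exact_mod_cast MeanP.unique h3 (mean_orb (hT R) h2)
  have hord : ∀ m, IsCharacter m → (Fintype.card (WG n) : ℤ) ∣ m.sum fun w e => e * c w := by
    intro m hm
    have h1 : ∀ᶠ R in (U : Filter ℕ), ∀ w ∈ m.support, PoleOrder (P R) (orb w) (pt 0) (c w) :=
      (Finset.eventually_all _).2 fun w _ => hc w
    obtain ⟨R, h2, h3⟩ := (h1.and (hmero m hm)).exists
    obtain ⟨k, hk⟩ := exists_poleOrder (hT R) h3
    exact ⟨k, (order_fin (hT R) hm h2 hk).symm⟩
  -- the system with this law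
  let c' : Wt n × ℝ → ℤ := fun x => if x.2 = 0 then c x.1 else 0
  have hc'0 : ∀ w, c' (w, 0) = c w := fun w => if_pos rfl
  have hc't : ∀ w, ∀ t : ℝ, t ≠ 0 → c' (w, t) = 0 := fun w t ht => if_neg ht
  have hpd' : PosDefG fun x => (c' x : ℝ) := by
    let K : AddSubgroup (Wt n × ℝ) := (⊥ : AddSubgroup ℝ).comap (AddMonoidHom.snd (Wt n) ℝ)
    refine posDefG_ext K ?_ fun x hx => ?_
    · have h1 := posDefG_comp hpd ((AddMonoidHom.fst (Wt n) ℝ).comp K.subtype)
      have h2 : (fun x : K => (c' x : ℝ)) =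
          fun x : K => (c (((AddMonoidHom.fst (Wt n) ℝ).comp K.subtype) x) : ℝ) := by
        funext x
        have hx : (x : Wt n × ℝ).2 = 0 := x.2
        show (c' x : ℝ) = (c (x : Wt n × ℝ).1 : ℝ)
        have h3 : c' (x : Wt n × ℝ) = c (x : Wt n × ℝ).1 := if_pos hx
        rw [h3]
      rw [h2]
      exact h1
    · obtain ⟨w, t⟩ := x
      have h1 : t ≠ 0 := fun ht => hx ht
      show (c' (w, t) : ℝ) = 0
      rw [hc't w t h1, Int.cast_zero]
  obtain ⟨π', hπ', hε', hcont, hpo⟩ := realize_allE' (ε := ε) hpd'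
    (fun g w t => by
      by_cases ht : t = 0
      · subst ht
        rw [hc'0, hc'0, hinv]
      · rw [hc't _ _ ht, hc't _ _ ht])
    (fun hε w t => by
      by_cases ht : t = 0
      · subst ht
        rw [hc'0, hc'0, hper hε]
      · rw [hc't _ _ ht, hc't _ _ ht])
    (fun t => by
      by_cases ht : t = 0
      · subst ht
        rw [hc'0, hzero, if_pos rfl]
      · rw [hc't _ _ ht, if_neg ht])
    (fun m hm t => by
      by_cases ht : t = 0
      · subst ht
        simp only [hc'0]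
        exact hord m hm
      · simp only [hc't _ _ ht, mul_zero]
        unfold Finsupp.sum
        simp)
  have hmero' : ∀ m, IsCharacter m → ∀ t : ℝ, MeroAt π' m (pt t) := fun m hm t =>
    mero_of_continues hπ' (hcont m hm) t
  have hOrd : IsOrd π' ⊤ fun x => c' (x.1, (x.2 : ℝ)) := fun w t => hpo w t
  have hform : ∀ m, IsCharacter m → ∀ t : ℝ, ∃ k : ℤ, PoleOrder π' m (pt t) k ∧
      (Fintype.card (WG n) : ℤ) * k = m.sum fun w e => e * c' (w, t) := by
    intro m hm t
    obtain ⟨k, hk⟩ := exists_poleOrder hπ' (hmero' m hm t)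
    exact ⟨k, hk, order_formula hπ' hOrd hm ⟨t, AddSubgroup.mem_top t⟩ hk⟩
  have hcard : (Fintype.card (WG n) : ℤ) ≠ 0 := by
    have := Fintype.card_pos (α := WG n)
    exact_mod_cast this.ne'
  -- a good index
  have hsz : ∀ᶠ R in (U : Filter ℕ), ∀ w ∈ (size_finite (n := n) M).toFinset,
      PoleOrder (P R) (orb w) (pt 0) (c w) := (Finset.eventually_all _).2 fun w _ => hc w
  have hMR : ∀ᶠ R in (U : Filter ℕ), M ≤ R := hU (eventually_ge_atTop M)
  obtain ⟨R, h1, h2⟩ := (hsz.and hMR).exists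
  obtain ⟨m, hm, hmM, hno⟩ := hbad R π' hπ' hε' hcont fun m hm t ht => by
    obtain ⟨k, hk, hk2⟩ := hform m hm t
    have h3 : (m.sum fun w e => e * c' (w, t)) = 0 := by
      simp only [hc't _ _ ht, mul_zero]
      unfold Finsupp.sum
      simp
    rw [h3] at hk2
    have h4 : k = 0 := (mul_eq_zero.1 hk2).resolve_left hcard
    rwa [h4] at hk
  have hmer : MeroAt (P R) m (pt 0) := by
    rw [pt_zero]
    refine hM R m hm fun w hw => ?_
    have h3 : (M : ℤ) ≤ R := by exact_mod_cast h2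
    exact ⟨(hmM w hw).1.trans h3, fun i => ((hmM w hw).2 i).trans h3⟩
  obtain ⟨k, hk⟩ := exists_poleOrder (hT R) hmer
  obtain ⟨k', hk', hk2'⟩ := hform m hm 0
  have h5 := order_fin (hT R) hm (c := c) (fun w hw => h1 w (by
    rw [Set.Finite.mem_toFinset]
    exact hmM w (Finsupp.mem_support_iff.1 hw))) hk
  simp only [hc'0] at hk2'
  have h6 : k = k' := mul_left_cancel₀ hcard (h5.trans hk2'.symm)
  subst h6
  rw [pt_zero] at hk hk'
  exact hno k hk hk'

end Pool.Agent.EEAL
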