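import Pool.Agent.W_eea520_L.Fin99

/-!
# The laws of the edge: finitely many Euler products at finitely many points (MP_eea520_nt)
-/

set_option autoImplicit false

namespace Pool.Agent.EEAL

open Filter Topology Pool.Agent.EEA520 Pool.Agent.EEAG1 Pool.Agent.EEAN Pool.Agent.EEAC

variable {n : ℕ}

namespace Fp99

theorem exists_lim_fin {ι : Type} (U : Ultrafilter ι) {K : ι → ℤ → Prop} (s : Finset ℤ)
    (h : ∀ᶠ R in (U : Filter ι), ∃ k ∈ s, K R k) : ∃ k : ℤ, ∀ᶠ R in (U : Filter ι), K R k := by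
  classical
  induction s using Finset.induction_on with
  | empty =>
    obtain ⟨R, hR⟩ := h.exists
    obtain ⟨k, hk, _⟩ := hR
    exact absurd hk (Finset.notMem_empty k)
  | insert a s ha ih =>
    have h1 : ∀ᶠ R in (U : Filter ι), K R a ∨ ∃ k ∈ s, K R k := by
      filter_upwards [h] with R hR
      obtain ⟨k, hk, hk'⟩ := hR
      rcases Finset.mem_insert.1 hk with rfl | hk2
      · exact Or.inl hk'
      · exact Or.inr ⟨k, hk2, hk'⟩
    rcases Ultrafilter.eventually_or.1 h1 with h2 | h2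
    · exact ⟨a, h2⟩
    · exact ih h2

theorem mean_orb {π : GSys n} (hπ : Tempered π) {w : Wt n} {t : ℝ} {k : ℤ}
    (h : PoleOrder π (orb w) (pt t) k) :
    MeanP (fun p => ∑ g : WG n, zre π (act g w) t p) k := by
  have h1 := mean_of_poleOrder hπ h
  have h2 : tre π (orb w) t = fun p => ∑ g : WG n, zre π (act g w) t p := by
    funext p
    exact tre_orb π w t p
  rwa [h2] at h1

theorem order_le {π : GSys n} (hπ : Tempered π) {w : Wt n} {t : ℝ} {k : ℤ}
    (h : PoleOrder π (orb w) (pt t) k) : |(k : ℝ)| ≤ Fintype.card (WG n) := by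
  refine F99.mean_abs_le (mean_orb hπ h) fun p => ?_
  refine (Finset.abs_sum_le_sum_abs _ _).trans ?_
  refine (Finset.sum_le_card_nsmul _ _ 1 fun g _ => zre_le hπ _ _ _).trans ?_
  rw [Finset.card_univ, nsmul_eq_mul, mul_one]

/-- Positivity from finitely many orders. -/
theorem pos_fin {π : GSys n} (hπ : Tempered π) {E : AddSubgroup ℝ} {c : Wt n × E → ℤ}
    (a : (Wt n × E) →₀ ℝ)
    (hc : ∀ y ∈ a.support ×ˢ a.support,
      PoleOrder π (orb (y.1 - y.2).1) (pt (y.1 - y.2).2) (c (y.1 - y.2))) :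
    0 ≤ a.sum fun i b => a.sum fun j b' => b * b' * (c (i - j) : ℝ) := by
  classical
  have h1 : MeanP (fun p => ∑ y ∈ a.support ×ˢ a.support,
      a y.1 * a y.2 * ∑ g : WG n, zre π (act g (y.1 - y.2).1) (y.1 - y.2).2 p)
      (∑ y ∈ a.support ×ˢ a.support, a y.1 * a y.2 * c (y.1 - y.2)) :=
    MeanP.sum _ (fun y _ => (bdP_orb hπ _ _).const_mul _)
      (fun y hy => (mean_orb hπ (hc y hy)).const_mul _)
  have h2 : a.sum (fun i b => a.sum fun j b' => b * b' * (c (i - j) : ℝ)) =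
      ∑ y ∈ a.support ×ˢ a.support, a y.1 * a y.2 * c (y.1 - y.2) := by
    rw [Finset.sum_product]
    rfl
  rw [h2]
  refine MeanP.nonneg h1 fun p => ?_
  have h3 : ∀ g : WG n, ∑ y ∈ a.support ×ˢ a.support,
      a y.1 * a y.2 * zre π (act g (y.1 - y.2).1) (y.1 - y.2).2 p =
      Complex.normSq (∑ y ∈ a.support, (a y : ℂ) * zcx π (act g y.1) y.2 p) := by
    intro g
    have h4 : ((Complex.normSq (∑ y ∈ a.support, (a y : ℂ) * zcx π (act g y.1) y.2 p) : ℝ) : ℂ) =
        ∑ y ∈ a.support ×ˢ a.support,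
          ((a y.1 * a y.2 : ℝ) : ℂ) * zcx π (act g (y.1 - y.2).1) (y.1 - y.2).2 p := by
      rw [← Complex.mul_conj, map_sum, Finset.sum_mul_sum, Finset.sum_product]
      refine Finset.sum_congr rfl fun i _ => Finset.sum_congr rfl fun j _ => ?_
      rw [map_mul, Complex.conj_ofReal, Prod.fst_sub, Prod.snd_sub, map_sub,
        AddSubgroup.coe_sub, zcx_sub hπ]
      push_cast
      ring
    rw [← Complex.ofReal_re (Complex.normSq _), h4, Complex.re_sum]
    refine Finset.sum_congr rfl fun y _ => ?_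
    rw [Complex.re_ofReal_mul, zre_eq]
  have h5 : ∑ y ∈ a.support ×ˢ a.support,
      a y.1 * a y.2 * ∑ g : WG n, zre π (act g (y.1 - y.2).1) (y.1 - y.2).2 p =
      ∑ g : WG n, ∑ y ∈ a.support ×ˢ a.support,
        a y.1 * a y.2 * zre π (act g (y.1 - y.2).1) (y.1 - y.2).2 p := by
    rw [Finset.sum_comm]
    refine Finset.sum_congr rfl fun y _ => ?_
    rw [Finset.mul_sum]
  rw [h5]
  refine Finset.sum_nonneg fun g _ => ?_
  rw [h3]
  exact Complex.normSq_nonneg _

/-- The order formula from the orders of the finitely many orbit sums. -/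
theorem order_fin {π : GSys n} (hπ : Tempered π) {t : ℝ} {c : Wt n → ℤ} {m : Wt n →₀ ℤ}
    (hm : IsCharacter m) (hc : ∀ w ∈ m.support, PoleOrder π (orb w) (pt t) (c w)) {k : ℤ}
    (hk : PoleOrder π m (pt t) k) :
    (Fintype.card (WG n) : ℤ) * k = m.sum fun w e => e * c w := by
  classical
  have h1 := (mean_of_poleOrder hπ hk).const_mul (Fintype.card (WG n))
  have h2 : MeanP (fun p => ∑ w ∈ m.support, (m w : ℝ) * tre π (orb w) t p)
      (∑ w ∈ m.support, (m w : ℝ) * c w) :=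
    MeanP.sum _ (fun w _ => (bdP_tre hπ _ _).const_mul _)
      (fun w hw => (mean_of_poleOrder hπ (hc w hw)).const_mul _)
  have h3 : (fun p => ∑ w ∈ m.support, (m w : ℝ) * tre π (orb w) t p) =
      fun p => (Fintype.card (WG n) : ℝ) * tre π m t p := by
    funext p
    exact sum_tre_orb hm π t p
  rw [h3] at h2
  have h4 := MeanP.unique h1 h2
  unfold Finsupp.sum
  exact_mod_cast h4

end Fp99

open Fp99

/-- Finitely many Euler products at finitely many points of the line `Re s = 1`. -/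
theorem fin_points (n : ℕ) (ε : Prop) (M : ℕ) (T : Finset ℝ) : ∃ (R : ℕ) (S : Finset ℝ),
    (∀ t ∈ S, t ∈ AddSubgroup.closure (T : Set ℝ)) ∧ ∀ π : GSys n, Tempered π →
      (ε → ∀ p, (π p).c ^ 2 * ∏ i, (π p).x i = 1) →
      (∀ m : Wt n →₀ ℤ, IsCharacter m → (∀ w, m w ≠ 0 → |w.1| ≤ R ∧ ∀ i, |w.2 i| ≤ R) →
        ∀ t ∈ S, MeroAt π m (pt t)) →
      ∃ π' : GSys n, Tempered π' ∧ (ε → ∀ p, (π' p).c ^ 2 * ∏ i, (π' p).x i = 1) ∧
        (∀ m, IsCharacter m → Continues π' m) ∧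
        (∀ m, IsCharacter m → ∀ t : ℝ, t ∉ AddSubgroup.closure (T : Set ℝ) →
          PoleOrder π' m (pt t) 0) ∧
        ∀ m : Wt n →₀ ℤ, IsCharacter m → (∀ w, m w ≠ 0 → |w.1| ≤ M ∧ ∀ i, |w.2 i| ≤ M) →
          ∀ t ∈ T, ∃ k : ℤ, PoleOrder π m (pt t) k ∧ PoleOrder π' m (pt t) k := by
  classical
  by_contra hcon
  push Not at hcon
  set E : AddSubgroup ℝ := AddSubgroup.closure (T : Set ℝ) with hEdef
  have hcon' : ∀ R : ℕ × Finset E, ∃ π : GSys n, Tempered π ∧
      (ε → ∀ p, (π p).c ^ 2 * ∏ i, (π p).x i = 1) ∧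
      (∀ m : Wt n →₀ ℤ, IsCharacter m →
        (∀ w, m w ≠ 0 → |w.1| ≤ (R.1 : ℤ) ∧ ∀ i, |w.2 i| ≤ (R.1 : ℤ)) →
        ∀ t ∈ R.2, MeroAt π m (pt (t : ℝ))) ∧
      ∀ π' : GSys n, Tempered π' → (ε → ∀ p, (π' p).c ^ 2 * ∏ i, (π' p).x i = 1) →
        (∀ m, IsCharacter m → Continues π' m) →
        (∀ m, IsCharacter m → ∀ t : ℝ, t ∉ E → PoleOrder π' m (pt t) 0) →
        ∃ m : Wt n →₀ ℤ, IsCharacter m ∧ (∀ w, m w ≠ 0 → |w.1| ≤ M ∧ ∀ i, |w.2 i| ≤ M) ∧
          ∃ t ∈ T, ∀ k : ℤ, PoleOrder π m (pt t) k → ¬ PoleOrder π' m (pt t) k := by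
    intro R
    obtain ⟨π, h1, h2, h3, h4⟩ := hcon R.1 (R.2.image Subtype.val) (fun t ht => by
      obtain ⟨s, -, rfl⟩ := Finset.mem_image.1 ht
      exact s.2)
    exact ⟨π, h1, h2, fun m hm hs t ht => h3 m hm hs _ (Finset.mem_image_of_mem _ ht), h4⟩
  choose P hT hE hM hbad using hcon'
  let U : Ultrafilter (ℕ × Finset E) := Ultrafilter.of atTop
  have hU : (U : Filter (ℕ × Finset E)) ≤ atTop := Ultrafilter.of_le _
  -- eventually everything is meromorphic
  have hmero : ∀ m : Wt n →₀ ℤ, IsCharacter m → ∀ t : E,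
      ∀ᶠ R in (U : Filter (ℕ × Finset E)), MeroAt (P R) m (pt (t : ℝ)) := by
    intro m hm t
    obtain ⟨N, hN⟩ : ∃ N : ℕ, ∀ w ∈ m.support, |w.1| ≤ (N : ℤ) ∧ ∀ i, |w.2 i| ≤ (N : ℤ) := by
      refine ⟨∑ w ∈ m.support, (w.1.natAbs + ∑ i, (w.2 i).natAbs), fun w hw => ?_⟩
      have h1 : w.1.natAbs + ∑ i, (w.2 i).natAbs ≤
          ∑ w ∈ m.support, (w.1.natAbs + ∑ i, (w.2 i).natAbs) :=
        Finset.single_le_sum (f := fun w : Wt n => w.1.natAbs + ∑ i, (w.2 i).natAbs)
          (fun _ _ => Nat.zero_le _) hw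
      refine ⟨?_, fun i => ?_⟩
      · rw [Int.abs_eq_natAbs]
        exact_mod_cast (Nat.le_add_right _ _).trans h1
      · rw [Int.abs_eq_natAbs]
        have h2 : (w.2 i).natAbs ≤ ∑ i, (w.2 i).natAbs :=
          Finset.single_le_sum (f := fun i => (w.2 i).natAbs) (fun _ _ => Nat.zero_le _)
            (Finset.mem_univ i)
        exact_mod_cast (h2.trans (Nat.le_add_left _ _)).trans h1
    refine hU (eventually_atTop.2 ⟨(N, {t}), fun R hR => ?_⟩)
    refine hM R m hm (fun w hw => ?_) t (hR.2 (Finset.mem_singleton_self t))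
    have h1 := hN w (Finsupp.mem_support_iff.2 hw)
    have h2 : (N : ℤ) ≤ R.1 := by exact_mod_cast hR.1
    exact ⟨h1.1.trans h2, fun i => (h1.2 i).trans h2⟩
  -- the limit law
  have hlim : ∀ x : Wt n × E, ∃ k : ℤ, ∀ᶠ R in (U : Filter (ℕ × Finset E)),
      PoleOrder (P R) (orb x.1) (pt (x.2 : ℝ)) k := by
    intro x
    refine exists_lim_fin U (Finset.Icc (-(Fintype.card (WG n) : ℤ)) (Fintype.card (WG n))) ?_
    filter_upwards [hmero _ (orb_isCharacter x.1) x.2] with R hR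
    obtain ⟨k, hk⟩ := exists_poleOrder (hT R) hR
    refine ⟨k, ?_, hk⟩
    have h1 := abs_le.1 (order_le (hT R) hk)
    rw [Finset.mem_Icc]
    exact ⟨by exact_mod_cast h1.1, by exact_mod_cast h1.2⟩
  choose c hc using hlim
  have hpd : PosDefG fun x => (c x : ℝ) := by
    refine ⟨fun x => ?_, fun a => ?_⟩
    · obtain ⟨R, h1, h2⟩ := ((hc (-x)).and (hc x)).exists
      refine MeanP.unique ?_ (mean_orb (hT R) h2)
      have h3 := mean_orb (hT R) h1
      have h4 : (fun p => ∑ g : WG n, zre (P R) (act g (-x).1) ((-x).2 : ℝ) p) =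
          fun p => ∑ g : WG n, zre (P R) (act g x.1) (x.2 : ℝ) p := by
        funext p
        refine Finset.sum_congr rfl fun g _ => ?_
        rw [zre_eq, zre_eq, Prod.fst_neg, Prod.snd_neg, map_neg]
        have h5 := zcx_sub (hT R) 0 (act g x.1) 0 (x.2 : ℝ) p
        rw [zero_sub, zero_sub] at h5
        have h6 : zcx (P R) (0 : Wt n) 0 p = 1 := by
          unfold zcx Torus.ev
          simp
        rw [h6, one_mul] at h5
        rw [AddSubgroup.coe_neg, h5, Complex.conj_re]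
      rw [h4] at h3
      exact h3
    · have h1 : ∀ᶠ R in (U : Filter (ℕ × Finset E)), ∀ y ∈ a.support ×ˢ a.support,
          PoleOrder (P R) (orb (y.1 - y.2).1) (pt ((y.1 - y.2).2 : ℝ)) (c (y.1 - y.2)) :=
        (Finset.eventually_all _).2 fun y _ => hc _
      obtain ⟨R, hR⟩ := h1.exists
      exact pos_fin (hT R) a hR
  have hinv : ∀ (g : WG n) (w : Wt n) (t : E), c (act g w, t) = c (w, t) := by
    intro g w t
    obtain ⟨R, h1, h2⟩ := ((hc (act g w, t)).and (hc (w, t))).exists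
    have h1' : PoleOrder (P R) (orb (act g w)) (pt (t : ℝ)) (c (act g w, t)) := h1
    rw [orb_act] at h1'
    exact_mod_cast MeanP.unique (mean_of_poleOrder (hT R) h1') (mean_of_poleOrder (hT R) h2)
  have hzero : ∀ t : E, c (0, t) = if (t : ℝ) = 0 then (Fintype.card (WG n) : ℤ) else 0 := by
    intro t
    obtain ⟨R, hR⟩ := (hc (0, t)).exists
    have h1 := mean_orb (hT R) hR
    have h2 := (mean_pit (t : ℝ)).const_mul (Fintype.card (WG n) : ℝ)
    have h3 : (fun p => ∑ g : WG n, zre (P R) (act g ((0, t) : Wt n × E).1)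
        (((0, t) : Wt n × E).2 : ℝ) p) =
        fun p : Pr => (Fintype.card (WG n) : ℝ) *
          (((p : ℕ) : ℂ) ^ (-(((t : ℝ) : ℂ) * Complex.I))).re := by
      funext p
      have h4 : ∀ g ∈ (Finset.univ : Finset (WG n)), zre (P R) (act g (0 : Wt n)) (t : ℝ) p =
          (((p : ℕ) : ℂ) ^ (-(((t : ℝ) : ℂ) * Complex.I))).re := by
        intro g _
        rw [map_zero]
        unfold zre Torus.ev
        simp
      show ∑ g : WG n, zre (P R) (act g (0 : Wt n)) (t : ℝ) p = _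
      rw [Finset.sum_congr rfl h4, Finset.sum_const, Finset.card_univ, nsmul_eq_mul]
    rw [h3] at h1
    have h5 := MeanP.unique h1 h2
    by_cases ht : (t : ℝ) = 0
    · rw [if_pos ht, mul_one] at h5
      rw [if_pos ht]
      exact_mod_cast h5
    · rw [if_neg ht, mul_zero] at h5
      rw [if_neg ht]
      exact_mod_cast h5
  have hper : ε → ∀ (w : Wt n) (t : E), c (w + (2, 1), t) = c (w, t) := by
    intro hε w t
    obtain ⟨R, h1, h2⟩ := ((hc (w + (2, 1), t)).and (hc (w, t))).exists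
    have h3 := mean_orb (hT R) h1
    have h4 : (fun p => ∑ g : WG n, zre (P R) (act g (w + (2, 1))) (t : ℝ) p) =
        fun p => ∑ g : WG n, zre (P R) (act g w) (t : ℝ) p := by
      funext p
      refine Finset.sum_congr rfl fun g _ => ?_
      have h5 : act g ((2, 1) : Wt n) = (2, 1) := by
        rw [act_apply]
        refine Prod.ext rfl ?_
        funext i
        show (if i ∈ g.2 then (2 : ℤ) - 1 else 1) = 1
        split_ifs <;> norm_num
      have h6 : (P R p).ev (act g (w + (2, 1))) = (P R p).ev (act g w) := by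
        rw [map_add, h5, ev_add']
        have h7 : (P R p).ev ((2, 1) : Wt n) = 1 := by
          rw [← hE R hε p]
          unfold Torus.ev
          simp only [Pi.one_apply, zpow_one]
          rfl
        rw [h7, mul_one]
      unfold zre
      rw [h6]
    have h3' : MeanP (fun p => ∑ g : WG n, zre (P R) (act g (w + (2, 1))) (t : ℝ) p)
      (c (w + (2, 1), t)) := h3
    rw [h4] at h3'
    exact_mod_cast MeanP.unique h3' (mean_orb (hT R) h2)
  have hord : ∀ m, IsCharacter m → ∀ t : E,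
      (Fintype.card (WG n) : ℤ) ∣ m.sum fun w e => e * c (w, t) := by
    intro m hm t
    have h1 : ∀ᶠ R in (U : Filter (ℕ × Finset E)), ∀ w ∈ m.support,
        PoleOrder (P R) (orb w) (pt (t : ℝ)) (c (w, t)) :=
      (Finset.eventually_all _).2 fun w _ => hc (w, t)
    obtain ⟨R, h2, h3⟩ := (h1.and (hmero m hm t)).exists
    obtain ⟨k, hk⟩ := exists_poleOrder (hT R) h3
    exact ⟨k, (order_fin (hT R) (c := fun w => c (w, t)) hm h2 hk).symm⟩
  -- the system with this law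
  let c' : Wt n × ℝ → ℤ := fun x => if h : x.2 ∈ E then c (x.1, ⟨x.2, h⟩) else 0
  have hc'E : ∀ w, ∀ t : E, c' (w, (t : ℝ)) = c (w, t) := fun w t => dif_pos t.2
  have hc't : ∀ w, ∀ t : ℝ, t ∉ E → c' (w, t) = 0 := fun w t ht => dif_neg ht
  have hpd' : PosDefG fun x => (c' x : ℝ) := by
    let K : AddSubgroup (Wt n × ℝ) := E.comap (AddMonoidHom.snd (Wt n) ℝ)
    refine posDefG_ext K ?_ fun x hx => ?_
    · let φ : K →+ Wt n × E := AddMonoidHom.prod ((AddMonoidHom.fst (Wt n) ℝ).comp K.subtype)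
        (((AddMonoidHom.snd (Wt n) ℝ).comp K.subtype).codRestrict E fun x => x.2)
      have h1 := posDefG_comp hpd φ
      have h2 : (fun x : K => (c' x : ℝ)) = fun x : K => (c (φ x) : ℝ) := by
        funext x
        have h3 : c' (x : Wt n × ℝ) = c (φ x) := dif_pos x.2
        rw [h3]
      rw [h2]
      exact h1
    · obtain ⟨w, t⟩ := x
      have h1 : t ∉ E := fun ht => hx ht
      show (c' (w, t) : ℝ) = 0
      rw [hc't w t h1, Int.cast_zero]
  have hcase : ∀ t : ℝ, (∃ s : E, (s : ℝ) = t) ∨ t ∉ E := fun t => by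
    by_cases h : t ∈ E
    · exact Or.inl ⟨⟨t, h⟩, rfl⟩
    · exact Or.inr h
  obtain ⟨π', hπ', hε', hcont, hpo⟩ := realize_allE' (ε := ε) hpd'
    (fun g w t => by
      rcases hcase t with ⟨t, rfl⟩ | ht
      · rw [hc'E, hc'E, hinv]
      · rw [hc't _ _ ht, hc't _ _ ht])
    (fun hε w t => by
      rcases hcase t with ⟨t, rfl⟩ | ht
      · rw [hc'E, hc'E, hper hε]
      · rw [hc't _ _ ht, hc't _ _ ht])
    (fun t => by
      rcases hcase t with ⟨t, rfl⟩ | ht
      · rw [hc'E, hzero]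
      · rw [hc't _ _ ht, if_neg fun h => ht (by rw [h]; exact E.zero_mem)])
    (fun m hm t => by
      rcases hcase t with ⟨t, rfl⟩ | ht
      · simp only [hc'E]
        exact hord m hm t
      · simp only [hc't _ _ ht, mul_zero]
        unfold Finsupp.sum
        simp)
  have hmero' : ∀ m, IsCharacter m → ∀ t : ℝ, MeroAt π' m (pt t) := fun m hm t =>
    mero_of_continues hπ' (hcont m hm) t
  have hOrd : IsOrd π' ⊤ fun x => c' (x.1, (x.2 : ℝ)) := fun w t => hpo w t
  have hform : ∀ m, IsCharacter m → ∀ t : ℝ, ∃ k : ℤ, PoleOrder π' m (pt t) k ∧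
      (Fintype.card (WG n) : ℤ) * k = m.sum fun w e => e * c' (w, t) := by
    intro m hm t
    obtain ⟨k, hk⟩ := exists_poleOrder hπ' (hmero' m hm t)
    exact ⟨k, hk, order_formula hπ' hOrd hm ⟨t, AddSubgroup.mem_top t⟩ hk⟩
  have hcard : (Fintype.card (WG n) : ℤ) ≠ 0 := by
    have := Fintype.card_pos (α := WG n)
    exact_mod_cast this.ne'
  -- a good index
  have hTE : ∀ t ∈ T, t ∈ E := fun t ht => AddSubgroup.subset_closure ht
  let T' : Finset E := T.attach.image fun t => ⟨t.1, hTE t.1 t.2⟩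
  have hsz : ∀ᶠ R in (U : Filter (ℕ × Finset E)), ∀ w ∈ (F99.size_finite (n := n) M).toFinset,
      ∀ t ∈ T', PoleOrder (P R) (orb w) (pt ((t : E) : ℝ)) (c (w, t)) :=
    (Finset.eventually_all _).2 fun w _ => (Finset.eventually_all _).2 fun t _ => hc (w, t)
  have hMR : ∀ᶠ R in (U : Filter (ℕ × Finset E)), (M, T') ≤ R := hU (eventually_ge_atTop _)
  obtain ⟨R, h1, h2⟩ := (hsz.and hMR).exists
  obtain ⟨m, hm, hmM, t, htT, hno⟩ := hbad R π' hπ' hε' hcont fun m hm t ht => by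
    obtain ⟨k, hk, hk2⟩ := hform m hm t
    have h3 : (m.sum fun w e => e * c' (w, t)) = 0 := by
      simp only [hc't _ _ ht, mul_zero]
      unfold Finsupp.sum
      simp
    rw [h3] at hk2
    have h4 : k = 0 := (mul_eq_zero.1 hk2).resolve_left hcard
    rwa [h4] at hk
  have htT' : (⟨t, hTE t htT⟩ : E) ∈ T' :=
    Finset.mem_image.2 ⟨⟨t, htT⟩, Finset.mem_attach _ _, rfl⟩
  have hmer : MeroAt (P R) m (pt t) := by
    refine hM R m hm (fun w hw => ?_) ⟨t, hTE t htT⟩ (h2.2 htT')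
    have h3 : (M : ℤ) ≤ R.1 := by exact_mod_cast h2.1
    exact ⟨(hmM w hw).1.trans h3, fun i => ((hmM w hw).2 i).trans h3⟩
  obtain ⟨k, hk⟩ := exists_poleOrder (hT R) hmer
  obtain ⟨k', hk', hk2'⟩ := hform m hm t
  have h5 := order_fin (hT R) hm (c := fun w => c (w, ⟨t, hTE t htT⟩)) (fun w hw => h1 w (by
    rw [Set.Finite.mem_toFinset]
    exact hmM w (Finsupp.mem_support_iff.1 hw)) _ htT') hk
  have h7 : ∀ w, c' (w, t) = c (w, ⟨t, hTE t htT⟩) := fun w => hc'E w ⟨t, hTE t htT⟩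
  simp only [h7] at hk2'
  have h6 : k = k' := mul_left_cancel₀ hcard (h5.trans hk2'.symm)
  subst h6
  exact hno k hk hk'

end Pool.Agent.EEAL
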