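import Pool.Agent.W_eea520_L.DefE

/-!
# Nonnegative trigonometric polynomials without constant term on the compact torus (MP_eea520_nt)
-/

set_option autoImplicit false

namespace Pool.Agent.EEAL

open Finset Pool.Agent.EEA520 Pool.Agent.EEAN Pool.Agent.EEAC

variable {n : ℕ} {ε : Prop}

theorem IsPtE.norm_ev {q : Torus n} (hq : IsPtE ε q) (w : Wt n) : ‖(q.ev w : ℂ)‖ = 1 := by
  unfold Torus.ev
  rw [Units.val_mul, Units.val_zpow_eq_zpow_val, Units.coe_prod, norm_mul, _root_.norm_zpow,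
    hq.1.1, one_zpow, one_mul, norm_prod]
  refine Finset.prod_eq_one fun i _ => ?_
  rw [Units.val_zpow_eq_zpow_val, _root_.norm_zpow, hq.1.2, one_zpow]

theorem isPtE_mulT {q r : Torus n} (hq : IsPtE ε q) (hr : IsPtE ε r) : IsPtE ε (mulT q r) := by
  refine ⟨⟨?_, fun i => ?_⟩, fun h => ?_⟩
  · show ‖((q.c * r.c : ℂˣ) : ℂ)‖ = 1
    rw [Units.val_mul, norm_mul, hq.1.1, hr.1.1, one_mul]
  · show ‖((q.x i * r.x i : ℂˣ) : ℂ)‖ = 1
    rw [Units.val_mul, norm_mul, hq.1.2, hr.1.2, one_mul]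
  · show (q.c * r.c) ^ 2 * ∏ i, q.x i * r.x i = 1
    rw [mul_pow, prod_mul_distrib, mul_mul_mul_comm, hq.2 h, hr.2 h, one_mul]

theorem isPtE_powT (k : ℕ) {q : Torus n} (hq : IsPtE ε q) : IsPtE ε (powT k q) := by
  refine ⟨⟨?_, fun i => ?_⟩, fun h => ?_⟩
  · show ‖((q.c ^ k : ℂˣ) : ℂ)‖ = 1
    rw [Units.val_pow_eq_pow_val, norm_pow, hq.1.1, one_pow]
  · show ‖((q.x i ^ k : ℂˣ) : ℂ)‖ = 1
    rw [Units.val_pow_eq_pow_val, norm_pow, hq.1.2, one_pow]
  · show (q.c ^ k) ^ 2 * ∏ i, q.x i ^ k = 1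
    rw [prod_pow, ← pow_mul, mul_comm k 2, pow_mul, ← mul_pow, hq.2 h, one_pow]

theorem isPtE_one : IsPtE ε (⟨1, fun _ => 1⟩ : Torus n) := by
  refine ⟨⟨by simp, fun i => by simp⟩, fun _ => by simp⟩

theorem isPtE_actT (g : WG n) {q : Torus n} (hq : IsPtE ε q) : IsPtE ε (actT g q) := by
  classical
  obtain ⟨σ, I⟩ := g
  refine ⟨⟨?_, fun i => ?_⟩, fun h => ?_⟩
  · show ‖((q.c * ∏ i ∈ I, q.x i : ℂˣ) : ℂ)‖ = 1
    rw [Units.val_mul, Units.coe_prod, norm_mul, hq.1.1, one_mul, norm_prod]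
    exact prod_eq_one fun i _ => hq.1.2 i
  · show ‖((if σ.symm i ∈ I then (q.x (σ.symm i))⁻¹ else q.x (σ.symm i) : ℂˣ) : ℂ)‖ = 1
    split_ifs
    · rw [Units.val_inv_eq_inv_val, norm_inv, hq.1.2, inv_one]
    · exact hq.1.2 _
  · exact (isPt_actT (σ, I) (q := q) ⟨hq.1, hq.2 h⟩).2

/-- A weight which is trivial on the compact torus. -/
def TrivE (ε : Prop) (w : Wt n) : Prop := ∀ q : Torus n, IsPtE ε q → q.ev w = 1

theorem TrivE.act {w : Wt n} (hw : TrivE ε w) (g : WG n) : TrivE ε (act g w) := fun q hq => by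
  rw [← ev_actT]
  exact hw _ (isPtE_actT g hq)

theorem TrivE.neg {w : Wt n} (hw : TrivE ε w) : TrivE ε (-w) := fun q hq => by
  rw [ev_neg', hw q hq, inv_one]

theorem TrivE.add {v w : Wt n} (hv : TrivE ε v) (hw : TrivE ε w) : TrivE ε (v + w) := fun q hq => by
  rw [ev_add', hv q hq, hw q hq, one_mul]

theorem act_inv (g : WG n) : ∃ h : WG n, ∀ w : Wt n, EEA520.act h (EEA520.act g w) = w := by
  refine ⟨(g.1⁻¹, g.2.map g.1.toEmbedding), fun w => ?_⟩
  rw [A1_act_comp]
  have h1 : A1_comp ((g.1⁻¹, g.2.map g.1.toEmbedding) : WG n) g = (1, ∅) := by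
    unfold A1_comp
    simp only
    have h2 : (Equiv.symm (g.1⁻¹ : Equiv.Perm (Fin n))) = g.1 := rfl
    rw [h2, mul_inv_cancel, symmDiff_self]
    rfl
  rw [h1, act_apply]
  ext i
  · rfl
  · simp

theorem TrivE.of_act {w : Wt n} {g : WG n} (hw : TrivE ε (EEA520.act g w)) : TrivE ε w := by
  obtain ⟨h, hh⟩ := act_inv g
  have h1 := TrivE.act hw h
  rwa [hh] at h1

/-- Finitely many nontrivial weights have small mean values over a suitable finite family of points. -/
theorem exists_familyE (W : Finset (Wt n)) (hW : ∀ w ∈ W, ¬ TrivE ε w) {δ : ℝ} (hδ : 0 < δ) :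
    ∃ (κ : Type) (_ : Fintype κ) (_ : Nonempty κ) (q : κ → Torus n), (∀ k, IsPtE ε (q k)) ∧
      ∀ w ∈ W, ‖∑ k, ((q k).ev w : ℂ)‖ ≤ δ * Fintype.card κ := by
  classical
  induction W using Finset.induction_on with
  | empty =>
    exact ⟨Unit, inferInstance, inferInstance, fun _ => ⟨1, fun _ => 1⟩, fun _ => isPtE_one,
      fun w hw => absurd hw (notMem_empty _)⟩
  | insert w₀ W hw₀ ih =>
    obtain ⟨κ, i1, i2, q, hq, hqW⟩ := ih fun w hw => hW w (mem_insert_of_mem hw)
    have h1 := hW w₀ (mem_insert_self _ _)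
    unfold TrivE at h1
    push Not at h1
    obtain ⟨g, hg, hg1⟩ := h1
    set z : ℂ := (g.ev w₀ : ℂ) with hz
    have hz1 : z ≠ 1 := by
      intro h
      apply hg1
      apply Units.ext
      exact h
    have hzn : ‖z‖ = 1 := hg.norm_ev w₀
    have hpos : 0 < ‖z - 1‖ := norm_pos_iff.2 (sub_ne_zero.2 hz1)
    obtain ⟨N, hN⟩ := exists_nat_gt (2 / (δ * ‖z - 1‖))
    have hNpos : (0 : ℝ) < N := lt_trans (by positivity) hN
    have hN0 : 0 < N := by exact_mod_cast hNpos
    have : Nonempty (Fin N) := ⟨⟨0, hN0⟩⟩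
    have hsum : ∀ w : Wt n, ∑ k : κ × Fin N, (((mulT (q k.1) (powT k.2 g)).ev w : ℂˣ) : ℂ) =
        (∑ k, ((q k).ev w : ℂ)) * ∑ j ∈ range N, (g.ev w : ℂ) ^ j := by
      intro w
      rw [Fintype.sum_prod_type, sum_mul]
      refine sum_congr rfl fun k _ => ?_
      rw [mul_sum, ← Fin.sum_univ_eq_sum_range (fun j => ((q k).ev w : ℂ) * (g.ev w : ℂ) ^ j)]
      refine sum_congr rfl fun j _ => ?_
      rw [ev_mulT, ev_powT, Units.val_mul, Units.val_pow_eq_pow_val]
    refine ⟨κ × Fin N, inferInstance, inferInstance, fun k => mulT (q k.1) (powT k.2 g),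
      fun k => isPtE_mulT (hq _) (isPtE_powT _ hg), fun w hw => ?_⟩
    rw [hsum, norm_mul, Fintype.card_prod, Fintype.card_fin]
    push_cast
    rcases mem_insert.1 hw with rfl | hw
    · have h2 : ‖∑ k, ((q k).ev w : ℂ)‖ ≤ Fintype.card κ := by
        refine (norm_sum_le _ _).trans ?_
        rw [sum_congr rfl fun k _ => (hq k).norm_ev w]
        simp
      have h3 : ‖∑ j ∈ range N, (g.ev w : ℂ) ^ j‖ ≤ 2 / ‖z - 1‖ := by
        rw [← hz, geom_sum_eq hz1, norm_div]
        refine div_le_div_of_nonneg_right ?_ hpos.le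
        refine (norm_sub_le _ _).trans ?_
        rw [norm_pow, hzn, one_pow, norm_one]
        norm_num
      have h4 : 2 / ‖z - 1‖ ≤ δ * N := by
        have h5 := hN.le
        rw [div_le_iff₀ (by positivity)] at h5
        rw [div_le_iff₀ hpos]
        linarith
      calc ‖∑ k, ((q k).ev w : ℂ)‖ * ‖∑ j ∈ range N, (g.ev w : ℂ) ^ j‖
          ≤ Fintype.card κ * (δ * N) :=
            mul_le_mul h2 (h3.trans h4) (norm_nonneg _) (Nat.cast_nonneg _)
        _ = δ * (Fintype.card κ * N) := by ring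
    · have h2 := hqW w hw
      have h3 : ‖∑ j ∈ range N, (g.ev w : ℂ) ^ j‖ ≤ N := by
        refine (norm_sum_le _ _).trans ?_
        have h5 : ∀ j ∈ range N, ‖(g.ev w : ℂ) ^ j‖ = 1 := fun j _ => by
          rw [norm_pow, hg.norm_ev, one_pow]
        rw [sum_congr rfl h5]
        simp
      calc ‖∑ k, ((q k).ev w : ℂ)‖ * ‖∑ j ∈ range N, (g.ev w : ℂ) ^ j‖
          ≤ (δ * Fintype.card κ) * N :=
            mul_le_mul h2 h3 (norm_nonneg _) (by positivity)
        _ = δ * (Fintype.card κ * N) := by ring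

/-- A trigonometric polynomial without constant term which is nonnegative on the compact torus is zero
there. -/
theorem nonneg_zero (V : Finset (Wt n)) (hV : ∀ v ∈ V, ¬ TrivE ε v) (a : Wt n → ℂ)
    (f : Torus n → ℝ) (hf : ∀ q : Torus n, IsPtE ε q → (f q : ℂ) = ∑ v ∈ V, a v * (q.ev v : ℂ))
    (h0 : ∀ q, IsPtE ε q → 0 ≤ f q) (r : Torus n) (hr : IsPtE ε r) : f r = 0 := by
  classical
  set A : ℝ := ∑ v ∈ V, ‖a v‖ with hA
  have hA0 : 0 ≤ A := sum_nonneg fun v _ => norm_nonneg _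
  set c : ℝ := (V.card : ℝ) with hc
  have hc0 : 0 ≤ c := Nat.cast_nonneg _
  let nn : Wt n → ℝ := fun u => ((V.filter fun u' => TrivE ε (u - u')).card : ℝ)
  have htr : TrivE ε (0 : Wt n) := fun q _ => by
    unfold Torus.ev
    simp
  have hnn : ∀ u ∈ V, 1 ≤ nn u := by
    intro u hu
    have h1 : 1 ≤ (V.filter fun u' => TrivE ε (u - u')).card := by
      rw [Nat.one_le_iff_ne_zero, ← Nat.pos_iff_ne_zero, card_pos]
      exact ⟨u, mem_filter.2 ⟨hu, by rw [sub_self]; exact htr⟩⟩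
    show (1 : ℝ) ≤ ((V.filter fun u' => TrivE ε (u - u')).card : ℝ)
    exact_mod_cast h1
  have hnn2 : ∀ v ∈ V, ∑ u ∈ V, (if TrivE ε (v - u) then (nn u)⁻¹ else 0) = 1 := by
    intro v hv
    have h1 : ∀ u ∈ V, (if TrivE ε (v - u) then (nn u)⁻¹ else 0) =
        if TrivE ε (v - u) then (nn v)⁻¹ else 0 := by
      intro u _
      split_ifs with h
      · have h2 : (V.filter fun u' => TrivE ε (u - u')) = V.filter fun u' => TrivE ε (v - u') := by
          refine filter_congr fun u' _ => ⟨fun h3 => ?_, fun h3 => ?_⟩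
          · have h4 := h.add h3
            rwa [sub_add_sub_cancel] at h4
          · have h4 := h.neg.add h3
            rwa [neg_sub, sub_add_sub_cancel] at h4
        show ((((V.filter fun u' => TrivE ε (u - u')).card : ℝ))⁻¹ : ℝ) =
          (((V.filter fun u' => TrivE ε (v - u')).card : ℝ))⁻¹
        rw [h2]
      · rfl
    rw [sum_congr rfl h1, ← sum_filter, sum_const, nsmul_eq_mul]
    exact mul_inv_cancel₀ (by linarith [hnn v hv] : (nn v) ≠ 0)
  have key : ∀ δ : ℝ, 0 < δ → |f r| ≤ 2 * c * A * δ := by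
    intro δ hδ
    set D : Finset (Wt n) := (V ∪ (V ×ˢ V).image fun p => p.1 - p.2).filter fun u => ¬ TrivE ε u
      with hD
    obtain ⟨κ, i1, i2, q, hq, hqD⟩ := exists_familyE D (fun w hw => (mem_filter.1 hw).2) hδ
    set R : ℝ := (Fintype.card κ : ℝ) with hR
    have hR0 : 0 < R := by
      rw [hR]
      exact_mod_cast Fintype.card_pos
    -- the kernel
    let K : κ → ℂ := fun k => ∑ u ∈ V, ((nn u)⁻¹ : ℝ) * ((r.ev u : ℂ) * ((q k).ev u : ℂ)⁻¹)
    have hK : ∀ k, ‖K k‖ ≤ c := by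
      intro k
      refine (norm_sum_le _ _).trans ((sum_le_card_nsmul _ _ 1 fun u hu => ?_).trans ?_)
      · rw [norm_mul, norm_mul, norm_inv, hr.norm_ev, (hq k).norm_ev, inv_one, mul_one, mul_one,
          Complex.norm_real, Real.norm_of_nonneg (by positivity)]
        exact inv_le_one_of_one_le₀ (hnn u hu)
      · rw [nsmul_eq_mul, mul_one]
    have hsum1 : ∑ k, (f (q k) : ℂ) * K k =
        ∑ v ∈ V, ∑ u ∈ V, a v * (((nn u)⁻¹ : ℝ) * (r.ev u : ℂ)) * ∑ k, ((q k).ev (v - u) : ℂ) := by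
      have h1 : ∀ k, (f (q k) : ℂ) * K k = ∑ v ∈ V, ∑ u ∈ V,
          a v * (((nn u)⁻¹ : ℝ) * (r.ev u : ℂ)) * ((q k).ev (v - u) : ℂ) := by
        intro k
        rw [hf _ (hq k), sum_mul_sum]
        refine sum_congr rfl fun v _ => sum_congr rfl fun u _ => ?_
        rw [sub_eq_add_neg, ev_add', ev_neg', Units.val_mul, Units.val_inv_eq_inv_val]
        ring
      rw [sum_congr rfl fun k _ => h1 k, sum_comm]
      refine sum_congr rfl fun v _ => ?_
      rw [sum_comm]
      refine sum_congr rfl fun u _ => ?_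
      rw [mul_sum]
    have hsum2 : ‖∑ k, (f (q k) : ℂ) * K k - R * f r‖ ≤ c * A * (δ * R) := by
      have h1 : ((R : ℝ) : ℂ) * (f r : ℂ) = ∑ v ∈ V, ∑ u ∈ V,
          a v * (((nn u)⁻¹ : ℝ) * (r.ev u : ℂ)) * (if TrivE ε (v - u) then (R : ℂ) else 0) := by
        rw [hf r hr, mul_sum]
        refine sum_congr rfl fun v hv => ?_
        have h2 : ∀ u ∈ V, a v * (((nn u)⁻¹ : ℝ) * (r.ev u : ℂ)) *
            (if TrivE ε (v - u) then (R : ℂ) else 0) =
            R * (a v * (r.ev v : ℂ)) * (((if TrivE ε (v - u) then (nn u)⁻¹ else 0 : ℝ)) : ℂ) := by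
          intro u _
          split_ifs with h
          · have h3 := h r hr
            rw [sub_eq_add_neg, ev_add', ev_neg', mul_inv_eq_one] at h3
            rw [h3]
            ring
          · simp
        rw [sum_congr rfl h2, ← mul_sum, ← Complex.ofReal_sum, hnn2 v hv]
        simp
      rw [hsum1, h1, ← sum_sub_distrib]
      refine (norm_sum_le _ _).trans ?_
      rw [hA, mul_sum, sum_mul]
      refine sum_le_sum fun v hv => ?_
      rw [← sum_sub_distrib]
      refine (norm_sum_le _ _).trans ((sum_le_card_nsmul _ _ (‖a v‖ * (δ * R)) fun u hu => ?_).trans ?_)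
      · rw [← mul_sub, norm_mul, norm_mul, norm_mul, hr.norm_ev, mul_one, Complex.norm_real,
          Real.norm_of_nonneg (by positivity)]
        have h3 : ‖∑ k, ((q k).ev (v - u) : ℂ) - (if TrivE ε (v - u) then (R : ℂ) else 0)‖ ≤
            δ * R := by
          by_cases ht : TrivE ε (v - u)
          · rw [if_pos ht, sum_congr rfl fun k _ => by rw [ht (q k) (hq k)], sum_const, card_univ,
              nsmul_eq_mul, Units.val_one, mul_one, hR, Complex.ofReal_natCast, sub_self, norm_zero]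
            positivity
          · rw [if_neg ht, sub_zero]
            refine hqD _ (mem_filter.2 ⟨mem_union_right _ (mem_image.2 ⟨(v, u), ?_, rfl⟩), ht⟩)
            exact mem_product.2 ⟨hv, hu⟩
        calc ‖a v‖ * (nn u)⁻¹ * ‖∑ k, ((q k).ev (v - u) : ℂ) -
              (if TrivE ε (v - u) then (R : ℂ) else 0)‖ ≤ ‖a v‖ * 1 * (δ * R) :=
            mul_le_mul (mul_le_mul_of_nonneg_left (inv_le_one_of_one_le₀ (hnn u hu))
              (norm_nonneg _)) h3 (norm_nonneg _) (by positivity)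
          _ = ‖a v‖ * (δ * R) := by ring
      · rw [nsmul_eq_mul, ← hc]
        exact le_of_eq (by ring)
    have hsum3 : ‖∑ k, (f (q k) : ℂ) * K k‖ ≤ c * A * (δ * R) := by
      have h1 : ∑ k, f (q k) ≤ A * (δ * R) := by
        have h2 : ((∑ k, f (q k) : ℝ) : ℂ) = ∑ v ∈ V, a v * ∑ k, ((q k).ev v : ℂ) := by
          push_cast
          rw [sum_congr rfl fun k _ => hf _ (hq k), sum_comm]
          exact sum_congr rfl fun v _ => by rw [mul_sum]
        have h3 : ∑ k, f (q k) ≤ ‖((∑ k, f (q k) : ℝ) : ℂ)‖ := by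
          rw [Complex.norm_real]
          exact le_abs_self _
        refine h3.trans ?_
        rw [h2, hA, sum_mul]
        refine (norm_sum_le _ _).trans (sum_le_sum fun v hv => ?_)
        rw [norm_mul]
        refine mul_le_mul_of_nonneg_left ?_ (norm_nonneg _)
        exact hqD v (mem_filter.2 ⟨mem_union_left _ hv, hV v hv⟩)
      refine (norm_sum_le _ _).trans ?_
      calc ∑ k, ‖(f (q k) : ℂ) * K k‖ ≤ ∑ k, f (q k) * c := by
            refine sum_le_sum fun k _ => ?_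
            rw [norm_mul, Complex.norm_real, Real.norm_of_nonneg (h0 _ (hq k))]
            exact mul_le_mul_of_nonneg_left (hK k) (h0 _ (hq k))
        _ = c * ∑ k, f (q k) := by rw [← sum_mul, mul_comm]
        _ ≤ c * (A * (δ * R)) := mul_le_mul_of_nonneg_left h1 hc0
        _ = c * A * (δ * R) := by ring
    have h1 : ‖((R : ℝ) : ℂ) * (f r : ℂ)‖ ≤ c * A * (δ * R) + c * A * (δ * R) := by
      have h2 : ((R : ℝ) : ℂ) * (f r : ℂ) = ∑ k, (f (q k) : ℂ) * K k -
          (∑ k, (f (q k) : ℂ) * K k - R * f r) := by ring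
      rw [h2]
      exact (norm_sub_le _ _).trans (add_le_add hsum3 hsum2)
    rw [norm_mul, Complex.norm_real, Complex.norm_real, Real.norm_of_nonneg hR0.le,
      Real.norm_eq_abs] at h1
    have h2 : R * |f r| ≤ R * (2 * c * A * δ) := by
      refine h1.trans (le_of_eq ?_)
      ring
    exact le_of_mul_le_mul_left h2 hR0
  by_contra hne
  have hpos : 0 < |f r| := abs_pos.2 hne
  have h1 := key (|f r| / (2 * (2 * c * A + 1))) (by positivity)
  have h2 : 2 * c * A * (|f r| / (2 * (2 * c * A + 1))) ≤ |f r| / 2 := by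
    have h3 : 2 * c * A ≤ 2 * c * A + 1 := by linarith
    have h4 : 0 < 2 * c * A + 1 := by positivity
    calc 2 * c * A * (|f r| / (2 * (2 * c * A + 1))) ≤
          (2 * c * A + 1) * (|f r| / (2 * (2 * c * A + 1))) :=
          mul_le_mul_of_nonneg_right h3 (by positivity)
      _ = |f r| / 2 := by
          field_simp
  linarith

end Pool.Agent.EEAL
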