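import Pool.Agent.W_eea520_G.N3

set_option autoImplicit false

namespace Pool.Agent.EEAL

open Filter Topology Pool.Agent.EEA520 Pool.Agent.EEAG1 LSeries

variable {n : ℕ}

/-- The Euler product in the half plane of convergence. -/
noncomputable def La_L (π : GSys n) (m : Wt n →₀ ℤ) (s : ℂ) : ℂ :=
  Complex.exp (LSeries (chn π m) s + hol π m s)

theorem La_L_analytic {π : GSys n} (hπ : Tempered π) (m : Wt n →₀ ℤ) {s : ℂ} (hs : 1 < s.re) :
    AnalyticAt ℂ (La_L π m) s := by
  have h1 : AnalyticAt ℂ (LSeries (chn π m)) s :=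
    LSeries_analyticOnNhd (chn π m) s (chn_abscissa hπ m hs)
  have h2 : AnalyticAt ℂ (hol π m) s := by
    have h3 := (hol_differentiable hπ m).analyticOnNhd
      (isOpen_lt continuous_const Complex.continuous_re)
    refine h3 s ?_
    have : (3 : ℝ) / 4 < s.re := by linarith
    exact this
  exact (h1.add h2).cexp'

theorem La_factor_mero (t : Torus n) (m : Wt n →₀ ℤ) (p : Pr) (s : ℂ) :
    MeromorphicAt (fun s : ℂ => t.factor m (((p : ℕ) : ℂ) ^ (-s))) s := by
  have hp0 : ((p : ℕ) : ℂ) ≠ 0 := by exact_mod_cast p.2.ne_zero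
  have hq : AnalyticAt ℂ (fun s : ℂ => ((p : ℕ) : ℂ) ^ (-s)) s := by
    have h1 : Differentiable ℂ (fun s : ℂ => ((p : ℕ) : ℂ) ^ (-s)) := fun s =>
      DifferentiableAt.const_cpow differentiableAt_id.neg (Or.inl hp0)
    exact h1.analyticAt s
  unfold Torus.factor Finsupp.prod
  refine MeromorphicAt.fun_prod fun w _ => ?_
  have h2 : AnalyticAt ℂ (fun s : ℂ => 1 - (t.ev w : ℂ) * ((p : ℕ) : ℂ) ^ (-s)) s :=
    analyticAt_const.sub (analyticAt_const.mul hq)
  exact h2.meromorphicAt.fun_zpow _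

/-- For a tempered system the Euler product is `L s = exp (LSeries (chn π m) s + hol π m s)` for `Re s > 1`
(`factor_hasProd`), holomorphic and non-zero (`hol_diff`, or a locally uniform limit). Let `g`, `S`, `b` be as in
`Continues`, and `G s = g s * ∏_{p ∈ S} (π p).factor m (p ^ (-s))`, a meromorphic function on `ℂ` (`factor` is a finite product of
powers of `1 - a p ^ (-s)`). For `Re s > max b 1`: `G s = L s` (`HasProd` over the complement of `S` times the finite
product; `HasProd.unique`). By the identity theorem for meromorphic functions on the connected set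
`{1 < re}` (`MeromorphicOn.exists_meromorphicOrderAt_ne_top_iff_forall` or so, for `G - L`) `G = L` in a punctured
neighbourhood of every point with `Re s > 1`. Near `pt t` (`Re (pt t) = 1`), in a punctured neighbourhood `G` is
analytic (`MeromorphicAt.eventually_analyticAt`), so there `G s = L s` for `Re s > 1` by continuity. -/
theorem mero_of_continues {π : GSys n} (hπ : Tempered π) {m : Wt n →₀ ℤ} (h : Continues π m)
    (t : ℝ) : MeroAt π m (pt t) := by
  classical
  obtain ⟨S, b, g, hg, hL⟩ := h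
  let G : ℂ → ℂ := fun s => g s * ∏ p ∈ S, (π p).factor m (((p : ℕ) : ℂ) ^ (-s))
  have hG : ∀ s, MeromorphicAt G s := fun s =>
    (hg s).fun_mul (MeromorphicAt.fun_prod fun p _ => La_factor_mero (π p) m p s)
  -- far to the right
  have hfar : ∀ s : ℂ, b < s.re → 1 < s.re → G s = La_L π m s := by
    intro s hb h1
    have h2 := factor_hasProd hπ m h1
    have h3 : HasProd (fun p : Pr => (π p).factor m (((p : ℕ) : ℂ) ^ (-s)))
        ((∏ p ∈ S, (π p).factor m (((p : ℕ) : ℂ) ^ (-s))) * g s) :=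
      HasProd.mul_compl (s := (S : Set Pr))
        (S.hasProd fun p : Pr => (π p).factor m (((p : ℕ) : ℂ) ^ (-s))) (hL s hb)
    have h4 := h3.unique h2
    change g s * _ = _
    rw [mul_comm, h4]
    rfl
  -- the difference
  let D : ℂ → ℂ := fun s => G s - La_L π m s
  have hU : IsConnected {s : ℂ | 1 < s.re} := by
    refine ⟨⟨2, ?_⟩, (convex_halfSpace_re_gt 1).isPreconnected⟩
    change (1 : ℝ) < (2 : ℂ).re
    norm_num
  have hD : MeromorphicOn D {s : ℂ | 1 < s.re} := fun s hs =>
    (hG s).fun_sub (La_L_analytic hπ m hs).meromorphicAt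
  obtain ⟨s₁, hs₁⟩ : ∃ s₁ : ℂ, s₁ = ((max b 1 + 1 : ℝ) : ℂ) := ⟨_, rfl⟩
  have hs₁re : s₁.re = max b 1 + 1 := by rw [hs₁, Complex.ofReal_re]
  have hopen : IsOpen {s : ℂ | max b 1 < s.re} := isOpen_lt continuous_const Complex.continuous_re
  have htop₁ : meromorphicOrderAt D s₁ = ⊤ := by
    rw [meromorphicOrderAt_eq_top_iff]
    have h1 : ∀ᶠ z in 𝓝 s₁, max b 1 < z.re := by
      refine hopen.mem_nhds ?_
      change max b 1 < s₁.re
      rw [hs₁re]
      linarith
    refine (h1.filter_mono nhdsWithin_le_nhds).mono fun z hz => ?_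
    change G z - La_L π m z = 0
    rw [hfar z ((le_max_left _ _).trans_lt hz) ((le_max_right _ _).trans_lt hz), sub_self]
  have htop : ∀ s : ℂ, 1 < s.re → meromorphicOrderAt D s = ⊤ := by
    intro s hs
    by_contra hne
    refine hD.meromorphicOrderAt_ne_top_of_isPreconnected hU.isPreconnected
      (x := s) (y := s₁) hs ?_ hne htop₁
    change (1 : ℝ) < s₁.re
    rw [hs₁re]
    have := le_max_right b 1
    linarith
  refine ⟨G, hG _, ?_⟩
  have hmono : 𝓝[{s : ℂ | 1 < s.re}] (pt t) ≤ 𝓝[≠] (pt t) := by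
    refine nhdsWithin_mono _ fun s hs => ?_
    intro h
    have h1 : s = pt t := h
    have h2 : (1 : ℝ) < s.re := hs
    rw [h1] at h2
    simp [pt] at h2
  have han := ((hG (pt t)).eventually_analyticAt).filter_mono hmono
  have hmem : ∀ᶠ s in 𝓝[{s : ℂ | 1 < s.re}] (pt t), 1 < s.re := eventually_mem_nhdsWithin
  filter_upwards [han, hmem] with s h1 h2
  have h3 := (meromorphicOrderAt_eq_top_iff).1 (htop s h2)
  have h4 : G =ᶠ[𝓝[≠] s] La_L π m := h3.mono fun z hz => sub_eq_zero.1 hz
  have h5 : Tendsto G (𝓝[≠] s) (𝓝 (G s)) := h1.continuousAt.tendsto.mono_left nhdsWithin_le_nhds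
  have h6 : Tendsto (La_L π m) (𝓝[≠] s) (𝓝 (La_L π m s)) :=
    (La_L_analytic hπ m h2).continuousAt.tendsto.mono_left nhdsWithin_le_nhds
  have h7 : G s = La_L π m s := tendsto_nhds_unique_of_eventuallyEq h5 h6 h4
  rw [h7]
  exact factor_hasProd hπ m h2

end Pool.Agent.EEAL
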