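import Pool.Agent.W_eea520_G.E
import Pool.Agent.W_eea520_n.E1

set_option autoImplicit false

namespace Pool.Agent.EEAL

open Filter Topology Pool.Agent.EEA520 Pool.Agent.EEAG1 Pool.Agent.EEAN

/-- Extension by zero of a positive definite function on a subgroup `K`. Symmetry: clear. For a finitely
supported `a` the sum `∑ a i a j c (i - j)` is over the pairs in the same coset of `K`; for a coset with the
representative `g` it is the form of `fun x : K => c x` at `k ↦ a (g + k)`, so it is nonnegative. -/
theorem posDefG_ext {G : Type} [AddCommGroup G] (K : AddSubgroup G) {c : G → ℝ}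
    (h : PosDefG fun x : K => c x) (h0 : ∀ x, x ∉ K → c x = 0) : PosDefG c := by
  classical
  have hmem : ∀ x : G, ((x : G ⧸ K) = 0) ↔ x ∈ K := fun x => QuotientAddGroup.eq_zero_iff x
  have hsub : ∀ i j : G, i - j ∈ K ↔ (i : G ⧸ K) = (j : G ⧸ K) := by
    intro i j
    rw [← hmem, QuotientAddGroup.mk_sub, sub_eq_zero]
  refine ⟨fun k => ?_, fun a => ?_⟩
  · by_cases hk : k ∈ K
    · exact h.symm ⟨k, hk⟩
    · rw [h0 k hk, h0 (-k) fun h1 => hk (by simpa using K.neg_mem h1)]
  · have h1 : (a.sum fun i b => a.sum fun j b' => b * b' * c (i - j)) =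
        ∑ Q ∈ a.support.image (fun i : G => (QuotientAddGroup.mk (s := K) i)),
          ((a.filter fun i : G => (QuotientAddGroup.mk (s := K) i) = Q).sum fun i b =>
            (a.filter fun i : G => (QuotientAddGroup.mk (s := K) i) = Q).sum fun j b' => b * b' * c (i - j)) := by
      unfold Finsupp.sum
      rw [← Finset.sum_fiberwise_of_maps_to (s := a.support)
        (t := a.support.image (fun i : G => (QuotientAddGroup.mk (s := K) i))) (g := fun i : G => (QuotientAddGroup.mk (s := K) i))
        (fun i hi => Finset.mem_image_of_mem _ hi)]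
      refine Finset.sum_congr rfl fun Q _ => ?_
      rw [Finsupp.support_filter]
      refine Finset.sum_congr rfl fun i hi => ?_
      have hi2 := (Finset.mem_filter.1 hi).2
      beta_reduce
      rw [Finset.sum_filter]
      refine Finset.sum_congr rfl fun j _ => ?_
      have e1 : (a.filter fun i : G => (QuotientAddGroup.mk (s := K) i) = Q) i = a i :=
        Finsupp.filter_apply_pos _ _ hi2
      rw [e1]
      by_cases hj : (j : G ⧸ K) = Q
      · have e2 : (a.filter fun i : G => (QuotientAddGroup.mk (s := K) i) = Q) j = a j :=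
          Finsupp.filter_apply_pos _ _ hj
        rw [if_pos hj, e2]
      · rw [if_neg hj, h0 (i - j) fun h1 => hj ((hi2.symm.trans ((hsub i j).1 h1)).symm), mul_zero]
    rw [h1]
    refine Finset.sum_nonneg fun Q hQ => ?_
    obtain ⟨g, -, hg⟩ := Finset.mem_image.1 hQ
    set l := a.filter fun i : G => (QuotientAddGroup.mk (s := K) i) = Q with hl
    have hsupp : ∀ i ∈ l.support, (i : G ⧸ K) = Q := by
      intro i hi
      rw [hl, Finsupp.support_filter] at hi
      exact (Finset.mem_filter.1 hi).2
    let f : K → G := fun k => g + k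
    have hf : Set.BijOn f (f ⁻¹' ↑l.support) ↑l.support := by
      refine ⟨fun x hx => hx, fun x _ y _ hxy => ?_, fun y hy => ?_⟩
      · exact Subtype.ext (add_left_cancel hxy)
      · have h2 : y - g ∈ K := (hsub y g).2 ((hsupp y hy).trans hg.symm)
        refine ⟨⟨y - g, h2⟩, ?_, ?_⟩
        · show g + (y - g) ∈ (↑l.support : Set G)
          rw [add_sub_cancel]
          exact hy
        · show g + (y - g) = y
          rw [add_sub_cancel]
    have h3 := h.nonneg (Finsupp.comapDomain f l hf.injOn)
    have h4 : ((Finsupp.comapDomain f l hf.injOn).sum fun i b =>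
        (Finsupp.comapDomain f l hf.injOn).sum fun j b' => b * b' * c ((i - j : K) : G)) =
        l.sum fun i b => l.sum fun j b' => b * b' * c (i - j) := by
      rw [← Finsupp.sum_comapDomain f l (fun i b => l.sum fun j b' => b * b' * c (i - j)) hf]
      refine Finsupp.sum_congr fun i _ => ?_
      show _ = l.sum fun j b' => (Finsupp.comapDomain f l hf.injOn) i * b' * c (f i - j)
      rw [← Finsupp.sum_comapDomain f l
        (fun j b' => (Finsupp.comapDomain f l hf.injOn) i * b' * c (f i - j)) hf]
      refine Finsupp.sum_congr fun j _ => ?_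
      show _ = _ * _ * c ((g + (i : G)) - (g + (j : G)))
      rw [add_sub_add_left_eq_sub, AddSubgroup.coe_sub]
    rw [← h4]
    exact h3

variable {n : ℕ}

/-- `c' (w, t) = c (w, t)` on `Wt n × E` has `IsOrd π E c'`. `posDefG_ord`, and `posDefG_ext` for the subgroup
`{x | x.2 ∈ E}` of `Wt n × ℝ` (`posDefG_comp` for the obvious homomorphism to `Wt n × E`). Invariance: `E1_inv`; at `0`:
`ord_zero`; integrality: `exists_poleOrder`, `order_formula` (for `t ∉ E` the sum is `0`). If `c ^ 2 ∏ x_i = 1`, then
`(π p).ev (w + (2, 1)) = (π p).ev w`; also `act g (w + (2, 1)) = act g w + (2, 1)`; so the orbit sums have the same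
mean values (`IsOrd.mean`, `MeanP.unique`). -/
theorem law_of_sys {π : GSys n} (hπ : Tempered π) {E : AddSubgroup ℝ}
    (h : ∀ m, IsCharacter m → ∀ t ∈ E, MeroAt π m (pt t)) {c : Wt n × ℝ → ℤ}
    (hE : ∀ w, ∀ t, t ∉ E → c (w, t) = 0)
    (hc : ∀ w, ∀ t ∈ E, PoleOrder π (orb w) (pt t) (c (w, t))) :
    PosDefG (fun x => (c x : ℝ)) ∧ (∀ g w t, c (act g w, t) = c (w, t)) ∧
      ((∀ p, (π p).c ^ 2 * ∏ i, (π p).x i = 1) → ∀ w t, c (w + (2, 1), t) = c (w, t)) ∧
      (∀ t, c (0, t) = if t = 0 then (Fintype.card (WG n) : ℤ) else 0) ∧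
      ∀ m, IsCharacter m → ∀ t, (Fintype.card (WG n) : ℤ) ∣ m.sum fun w e => e * c (w, t) := by
  classical
  let c' : Wt n × E → ℤ := fun x => c (x.1, (x.2 : ℝ))
  have hc' : IsOrd π E c' := fun w t => hc w t t.2
  refine ⟨?_, ?_, ?_, ?_, ?_⟩
  · let K : AddSubgroup (Wt n × ℝ) := E.comap (AddMonoidHom.snd (Wt n) ℝ)
    let f : K →+ Wt n × E :=
      { toFun := fun x => (x.1.1, ⟨x.1.2, x.2⟩)
        map_zero' := rfl
        map_add' := fun x y => rfl }
    refine posDefG_ext K ?_ fun x hx => ?_
    · exact posDefG_comp (posDefG_ord hπ hc') f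
    · obtain ⟨w, t⟩ := x
      have h1 : c (w, t) = 0 := hE w t fun ht => hx ht
      show (c (w, t) : ℝ) = 0
      rw [h1, Int.cast_zero]
  · intro g w t
    by_cases ht : t ∈ E
    · exact E1_inv hπ hc' g w ⟨t, ht⟩
    · rw [hE _ t ht, hE _ t ht]
  · intro hνν w t
    by_cases ht : t ∈ E
    · have h1 := hc'.mean hπ (w + (2, 1), ⟨t, ht⟩)
      have h2 := hc'.mean hπ (w, ⟨t, ht⟩)
      have h3 : (fun p => ∑ g : WG n, zre π (act g (w + (2, 1))) t p) =
          fun p => ∑ g : WG n, zre π (act g w) t p := by
        funext p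
        refine Finset.sum_congr rfl fun g _ => ?_
        have h4 : act g ((2, 1) : Wt n) = (2, 1) := by
          rw [act_apply]
          refine Prod.ext rfl ?_
          funext i
          show (if i ∈ g.2 then (2 : ℤ) - 1 else 1) = 1
          split_ifs <;> norm_num
        have h5 : (π p).ev (act g (w + (2, 1))) = (π p).ev (act g w) := by
          rw [map_add, h4]
          have h6 : (π p).ev (act g w + (2, 1)) = (π p).ev (act g w) * (π p).ev (2, 1) := by
            unfold Torus.ev
            simp only [Prod.fst_add, Prod.snd_add, Pi.add_apply, zpow_add, Finset.prod_mul_distrib]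
            rw [mul_mul_mul_comm]
          have h7 : (π p).ev ((2, 1) : Wt n) = 1 := by
            rw [← hνν p]
            unfold Torus.ev
            simp only [Pi.one_apply, zpow_one]
            rfl
          rw [h6, h7, mul_one]
        unfold zre
        rw [h5]
      have h8 : MeanP (fun p => ∑ g : WG n, zre π (act g w) t p) (c' (w + (2, 1), ⟨t, ht⟩)) := by
        rw [← h3]
        exact h1
      have h9 := MeanP.unique h8 h2
      exact_mod_cast h9
    · rw [hE _ t ht, hE _ t ht]
  · intro t
    by_cases ht : t ∈ E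
    · have h1 := ord_zero hπ hc' ⟨t, ht⟩
      have h2 : ((⟨t, ht⟩ : E) = 0) ↔ t = 0 := by
        rw [Subtype.ext_iff]
        rfl
      simp only [h2] at h1
      exact h1
    · rw [hE _ t ht, if_neg]
      rintro rfl
      exact ht E.zero_mem
  · intro m hm t
    by_cases ht : t ∈ E
    · obtain ⟨k, hk⟩ := exists_poleOrder hπ (h m hm t ht)
      have h1 := order_formula hπ hc' hm ⟨t, ht⟩ hk
      exact ⟨k, h1.symm⟩
    · have h1 : (m.sum fun w e => e * c (w, t)) = 0 := by
        unfold Finsupp.sum
        refine Finset.sum_eq_zero fun w _ => ?_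
        show m w * c (w, t) = 0
        rw [hE w t ht, mul_zero]
      rw [h1]
      exact dvd_zero _

/-- `mean_of_poleOrder`, `tre_orb`; `DirMean` is `MeanP` up to the name. -/
theorem dirMean_orb {π : GSys n} (hπ : Tempered π) {w : Wt n} {t : ℝ} {k : ℤ}
    (h : PoleOrder π (orb w) (pt t) k) :
    DirMean (fun p => ∑ g : WG n,
      (((π p).ev (act g w) : ℂ) * ((p : ℕ) : ℂ) ^ (-(t * Complex.I))).re) k := by
  have h1 := mean_of_poleOrder hπ h
  have h2 : tre π (orb w) t = fun p => ∑ g : WG n, zre π (act g w) t p := by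
    funext p
    exact tre_orb π w t p
  rw [h2] at h1
  exact h1

end Pool.Agent.EEAL
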