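import Pool.Agent.W_eea520_n.A1

set_option autoImplicit false

namespace Pool.Agent.EEAL

open Filter Topology Pool.Agent.EEA520 Pool.Agent.EEAG1 Pool.Agent.EEAN

variable {n : ℕ}

theorem Lc_one (w : Wt n) : act ((1 : Equiv.Perm (Fin n)), (∅ : Finset (Fin n))) w = w := by
  rw [act_apply]
  ext i
  · rfl
  · simp

/-- The orbit of `w`. -/
noncomputable def Lc_O (w : Wt n) : Finset (Wt n) := Finset.univ.image fun g : WG n => act g w

theorem Lc_mem (w : Wt n) : w ∈ Lc_O w :=
  Finset.mem_image.2 ⟨((1 : Equiv.Perm (Fin n)), (∅ : Finset (Fin n))), Finset.mem_univ _, Lc_one w⟩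

theorem Lc_orb (w u : Wt n) :
    orb w u = ((Finset.univ.filter fun g : WG n => act g w = u).card : ℤ) := by
  rw [orb_apply, Finset.sum_boole]

theorem Lc_orb_mem {w u : Wt n} (hu : u ∈ Lc_O w) :
    orb w u = ((Finset.univ.filter fun g : WG n => act g w = w).card : ℤ) := by
  obtain ⟨g, _, rfl⟩ := Finset.mem_image.1 hu
  rw [(orb_isCharacter w).act g w, Lc_orb]

theorem Lc_orb_not {w u : Wt n} (hu : u ∉ Lc_O w) : orb w u = 0 := by
  rw [Lc_orb, Finset.card_eq_zero.2, Nat.cast_zero]
  rw [Finset.filter_eq_empty_iff]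
  intro g _ hg
  exact hu (Finset.mem_image.2 ⟨g, Finset.mem_univ _, hg⟩)

theorem Lc_s_pos (w : Wt n) :
    (0 : ℤ) < ((Finset.univ.filter fun g : WG n => act g w = w).card : ℤ) := by
  have h : 0 < (Finset.univ.filter fun g : WG n => act g w = w).card := by
    rw [Finset.card_pos]
    exact ⟨((1 : Equiv.Perm (Fin n)), (∅ : Finset (Fin n))),
      Finset.mem_filter.2 ⟨Finset.mem_univ _, Lc_one w⟩⟩
  exact_mod_cast h

theorem Lc_card (w : Wt n) : (Fintype.card (WG n) : ℤ) =
    ((Lc_O w).card : ℤ) * ((Finset.univ.filter fun g : WG n => act g w = w).card : ℤ) := by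
  have h := Finset.card_eq_sum_card_image (fun g : WG n => act g w) Finset.univ
  rw [Finset.card_univ] at h
  rw [h]
  push_cast
  have h1 : ∀ u ∈ Lc_O w, ((Finset.univ.filter fun g : WG n => act g w = u).card : ℤ) =
      ((Finset.univ.filter fun g : WG n => act g w = w).card : ℤ) := by
    intro u hu
    rw [← Lc_orb, Lc_orb_mem hu]
  have h2 := Finset.sum_congr rfl h1
  rw [Finset.sum_const, nsmul_eq_mul] at h2
  exact h2

/-- The indicator function of the orbit. -/
noncomputable def Lc_chi (w : Wt n) : Wt n →₀ ℤ := ∑ u ∈ Lc_O w, Finsupp.single u 1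

theorem Lc_chi_apply (w v : Wt n) : Lc_chi w v = if v ∈ Lc_O w then 1 else 0 := by
  unfold Lc_chi
  rw [Finsupp.finsetSum_apply]
  simp only [Finsupp.single_apply]
  rw [Finset.sum_ite_eq']

theorem Lc_chi_orb (w v : Wt n) :
    orb w v = ((Finset.univ.filter fun g : WG n => act g w = w).card : ℤ) * Lc_chi w v := by
  rw [Lc_chi_apply]
  by_cases h : v ∈ Lc_O w
  · rw [if_pos h, Lc_orb_mem h, mul_one]
  · rw [if_neg h, Lc_orb_not h, mul_zero]

theorem Lc_chi_char (w : Wt n) : IsCharacter (Lc_chi w) := by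
  have h := orb_isCharacter w
  have hs := (Lc_s_pos w).ne'
  constructor
  · intro σ k μ
    have h1 := h.1 σ k μ
    rw [Lc_chi_orb, Lc_chi_orb] at h1
    exact mul_left_cancel₀ hs h1
  · intro i k μ
    have h1 := h.2 i k μ
    rw [Lc_chi_orb, Lc_chi_orb] at h1
    exact mul_left_cancel₀ hs h1

theorem Lc_chi_sum {c : Wt n → ℤ} (hinv : ∀ g w, c (act g w) = c w) (w : Wt n) :
    Finsupp.linearCombination ℤ c (Lc_chi w) = ((Lc_O w).card : ℤ) * c w := by
  unfold Lc_chi
  rw [map_sum]
  have h1 : ∀ u ∈ Lc_O w, Finsupp.linearCombination ℤ c (Finsupp.single u 1) = c w := by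
    intro u hu
    obtain ⟨g, _, rfl⟩ := Finset.mem_image.1 hu
    rw [Finsupp.linearCombination_single, one_smul, hinv]
  rw [Finset.sum_congr rfl h1, Finset.sum_const, nsmul_eq_mul]

theorem Lc_sum (c : Wt n → ℤ) (m : Wt n →₀ ℤ) :
    (m.sum fun w e => e * c w) = Finsupp.linearCombination ℤ c m := by
  rw [Finsupp.linearCombination_apply]
  rfl

theorem Lc_back {c : Wt n → ℤ} (hinv : ∀ g w, c (act g w) = c w)
    (h : ∀ w, ((Finset.univ.filter fun g : WG n => act g w = w).card : ℤ) ∣ c w) (k : ℕ) :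
    ∀ m : Wt n →₀ ℤ, IsCharacter m → m.support.card ≤ k →
      (Fintype.card (WG n) : ℤ) ∣ Finsupp.linearCombination ℤ c m := by
  induction k with
  | zero =>
    intro m _ hk
    have h0 : m = 0 := by
      rw [← Finsupp.support_eq_empty, ← Finset.card_eq_zero]
      omega
    rw [h0, map_zero]
    exact dvd_zero _
  | succ k ih =>
    intro m hm hk
    by_cases h0 : m = 0
    · rw [h0, map_zero]
      exact dvd_zero _
    obtain ⟨w, hw⟩ := Finsupp.support_nonempty_iff.2 h0
    have hw' : m w ≠ 0 := Finsupp.mem_support_iff.1 hw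
    obtain ⟨m', hm'⟩ : ∃ m' : Wt n →₀ ℤ, m' = m - m w • Lc_chi w := ⟨_, rfl⟩
    have hval : ∀ u, m' u = m u - m w * Lc_chi w u := by
      intro u
      rw [hm', Finsupp.sub_apply, Finsupp.smul_apply, smul_eq_mul]
    have hchar : IsCharacter m' := by
      have hc := Lc_chi_char w
      constructor
      · intro σ k μ
        rw [hval, hval, hm.1, hc.1]
      · intro i k μ
        rw [hval, hval, hm.2, hc.2]
    have hin : ∀ u ∈ Lc_O w, m' u = 0 := by
      intro u hu
      rw [hval, Lc_chi_apply, if_pos hu, mul_one]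
      obtain ⟨g, _, rfl⟩ := Finset.mem_image.1 hu
      rw [hm.act g w, sub_self]
    have hsub : m'.support ⊆ m.support.erase w := by
      intro u hu
      have hu' : m' u ≠ 0 := Finsupp.mem_support_iff.1 hu
      have hnot : u ∉ Lc_O w := fun h1 => hu' (hin u h1)
      rw [Finset.mem_erase]
      refine ⟨fun h1 => hnot (h1 ▸ Lc_mem w), ?_⟩
      rw [Finsupp.mem_support_iff]
      rw [hval, Lc_chi_apply, if_neg hnot, mul_zero, sub_zero] at hu'
      exact hu'
    have hcard : m'.support.card ≤ k := by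
      have h1 := Finset.card_le_card hsub
      rw [Finset.card_erase_of_mem hw] at h1
      omega
    have h1 := ih m' hchar hcard
    have h2 : m = m' + m w • Lc_chi w := by
      rw [hm', sub_add_cancel]
    rw [h2, map_add, map_smul, Lc_chi_sum hinv, smul_eq_mul]
    refine dvd_add h1 (Dvd.dvd.mul_left ?_ _)
    rw [Lc_card w]
    exact mul_dvd_mul_left _ (h w)

/-- Let `O` be the set of the `act g w` (the orbit, a finite set) and `s = orb w w`, the number of the `g` with
`act g w = w`. As `orb w` is invariant (`orb_isCharacter`), `orb w u = s` for `u ∈ O` and `0` otherwise; so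
`card = ∑_u orb w u = |O| * s`. (→) Apply the hypothesis to the indicator function of `O` (a character):
`|O| * s ∣ |O| * c w`. (←) The sum is the sum over the orbits `O` in the support of `m` of `|O| * m(O) * c(O)`, and
`|O| * c(O)` is divisible by `|O| * s = card` (induction on the number of elements of the support: subtract
`m w` times the indicator function of the orbit of `w`). -/
theorem int_iff {c : Wt n → ℤ} (hinv : ∀ g w, c (act g w) = c w) :
    (∀ m, IsCharacter m → (Fintype.card (WG n) : ℤ) ∣ m.sum fun w e => e * c w) ↔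
      ∀ w, ((Finset.univ.filter fun g : WG n => act g w = w).card : ℤ) ∣ c w := by
  constructor
  · intro h w
    have h1 := h (Lc_chi w) (Lc_chi_char w)
    rw [Lc_sum, Lc_chi_sum hinv, Lc_card w] at h1
    refine Int.dvd_of_mul_dvd_mul_left ?_ h1
    have h2 : 0 < (Lc_O w).card := Finset.card_pos.2 ⟨w, Lc_mem w⟩
    exact_mod_cast h2.ne'
  · intro h m hm
    rw [Lc_sum]
    exact Lc_back hinv h _ m hm le_rfl

end Pool.Agent.EEAL
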