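import Pool.Agent.W_eea520_n.E3

set_option autoImplicit false

namespace Pool.Agent.EEAL

open Filter Topology Pool.Agent.EEA520 Pool.Agent.EEAG1 Pool.Agent.EEAN

variable {n : ℕ}

theorem natMean_orb {π : GSys n} (hπ : Tempered π) {w : Wt n} {a : ℤ}
    (h0 : PoleOrder π (orb w) (pt 0) a) (h : ∀ t : ℝ, t ≠ 0 → PoleOrder π (orb w) (pt t) 0) :
    NatMean (fun p => ∑ g : WG n, ((π p).ev (act g w) : ℂ).re) a := by
  have h1 := natMean_of hπ h0 h
  have h2 : (fun p => (trc π (orb w) p).re) =
      fun p => ∑ g : WG n, ((π p).ev (act g w) : ℂ).re := by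
    funext p
    unfold trc orb
    rw [← Finsupp.sum_finsetSum_index (by intro a; simp) (by intro a b c; push_cast; ring),
      Complex.re_sum]
    refine Finset.sum_congr rfl fun g _ => ?_
    rw [Finsupp.sum_single_index (by simp)]
    simp
  rw [h2] at h1
  exact h1

end Pool.Agent.EEAL
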