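import Pool.Agent.W_eea520_L.LawR

/-!
# Finiteness of the supports, and the wrapper (MP_eea520_nt)
-/

set_option autoImplicit false

namespace Pool.Agent.EEAL

open Filter Topology Pool.Agent.EEA520 Pool.Agent.EEAN Pool.Agent.EEAG1 LSeries Pool.Agent.EEAC

variable {n : ℕ} {ε : Prop}

/-- Bessel's inequality. -/
theorem bessel {G : Type} [AddCommGroup G] {c : G × ℝ → ℝ} (hc : PosDefG c) {K : ℝ} (hK : 0 < K)
    (h0 : ∀ t, c (0, t) = if t = 0 then K else 0) {w : G} (hw : w ≠ 0) (T : Finset ℝ) :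
    ∑ t ∈ T, c (w, t) ^ 2 ≤ K ^ 2 := by
  classical
  set y : G × ℝ → ℝ := fun p => if p.1 = 0 then -(c (w, -p.2)) else K with hy
  set S : Finset (G × ℝ) := T.image fun t => (0, -t) with hS
  have hinj : ∀ a ∈ T, ∀ b ∈ T, ((0, -a) : G × ℝ) = (0, -b) → a = b := by
    intro a _ b _ h
    have h1 := congrArg Prod.snd h
    simpa using h1
  have hnot : ((w, 0) : G × ℝ) ∉ S := by
    rw [hS, Finset.mem_image]
    rintro ⟨t, -, h⟩
    exact hw (congrArg Prod.fst h).symm
  have h1 := posDef_finset hc (insert (w, 0) S) y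
  rw [Finset.sum_insert hnot, Finset.sum_insert hnot] at h1
  have hy1 : y (w, 0) = K := by
    rw [hy]
    simp only
    rw [if_neg hw]
  have hy2 : ∀ t, y (0, -t) = -c (w, t) := by
    intro t
    rw [hy]
    simp
  have hsym : ∀ t, c ((0, -t) - (w, 0)) = c (w, t) := by
    intro t
    have h2 : ((0, -t) : G × ℝ) - (w, 0) = -(w, t) := by
      ext
      · simp
      · simp
    rw [h2, hc.symm]
  have e1 : ∑ j ∈ S, y (w, 0) * y j * c ((w, 0) - j) = -K * ∑ t ∈ T, c (w, t) ^ 2 := by
    rw [hS, Finset.sum_image hinj, Finset.mul_sum]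
    refine Finset.sum_congr rfl fun t _ => ?_
    have h2 : ((w, 0) : G × ℝ) - (0, -t) = (w, t) := by
      ext
      · simp
      · simp
    rw [hy1, hy2, h2]
    ring
  have e2 : ∑ i ∈ S, ∑ j ∈ insert (w, 0) S, y i * y j * c (i - j) =
      -K * (∑ t ∈ T, c (w, t) ^ 2) + K * ∑ t ∈ T, c (w, t) ^ 2 := by
    have e3 : ∀ i ∈ S, ∑ j ∈ insert (w, 0) S, y i * y j * c (i - j) =
        y i * y (w, 0) * c (i - (w, 0)) + ∑ j ∈ S, y i * y j * c (i - j) := fun i _ =>
      Finset.sum_insert hnot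
    rw [Finset.sum_congr rfl e3, Finset.sum_add_distrib]
    congr 1
    · rw [hS, Finset.sum_image hinj, Finset.mul_sum]
      refine Finset.sum_congr rfl fun t _ => ?_
      rw [hy1, hy2, hsym]
      ring
    · rw [hS, Finset.sum_image hinj, Finset.mul_sum]
      refine Finset.sum_congr rfl fun t ht => ?_
      rw [Finset.sum_image hinj]
      have e4 : ∀ s ∈ T, y (0, -t) * y (0, -s) * c ((0, -t) - (0, -s)) =
          if s = t then K * c (w, t) ^ 2 else 0 := by
        intro s _
        have h2 : ((0, -t) : G × ℝ) - (0, -s) = (0, s - t) := by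
          ext
          · simp
          · simp only [Prod.snd_sub]
            ring
        rw [hy2, hy2, h2, h0]
        by_cases h3 : s = t
        · subst h3
          rw [if_pos rfl, if_pos (sub_self _)]
          ring
        · rw [if_neg h3, if_neg fun h4 => h3 (sub_eq_zero.1 h4), mul_zero]
      rw [Finset.sum_congr rfl e4, Finset.sum_ite_eq' T t, if_pos ht]
  rw [e1, e2, hy1, sub_self] at h1
  have h2 : c (0 : G × ℝ) = K := by
    have := h0 0
    rw [if_pos rfl] at this
    exact this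
  rw [h2] at h1
  have h3 : 0 ≤ K * (K ^ 2 - ∑ t ∈ T, c (w, t) ^ 2) := by
    refine h1.trans (le_of_eq ?_)
    ring
  have h4 := nonneg_of_mul_nonneg_right h3 hK
  linarith

theorem fin_supp {c : Wt n × ℝ → ℤ} (h1 : PosDefG (fun x => (c x : ℝ)))
    (h4 : ∀ t, c (0, t) = if t = 0 then (Fintype.card (WG n) : ℤ) else 0) (w : Wt n) :
    {t | c (w, t) ≠ 0}.Finite := by
  by_cases hw : w = 0
  · refine (Set.finite_singleton (0 : ℝ)).subset fun t ht => ?_
    by_contra h
    apply ht
    rw [hw, h4, if_neg (fun h' => h (Set.mem_singleton_iff.2 h'))]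
  · by_contra hinf
    obtain ⟨T, hT, hcard⟩ := Set.Infinite.exists_subset_card_eq hinf
      (Fintype.card (WG n) ^ 2 + 1)
    have h2 := bessel h1 (K := Fintype.card (WG n)) card_posE (fun t => by
      show ((c (0, t) : ℤ) : ℝ) = _
      rw [h4]
      split_ifs
      · rw [Int.cast_natCast]
      · rw [Int.cast_zero]) hw T
    have h3 : ((Fintype.card (WG n) ^ 2 + 1 : ℕ) : ℝ) ≤ ∑ t ∈ T, ((c (w, t) : ℤ) : ℝ) ^ 2 := by
      rw [← hcard, Finset.card_eq_sum_ones]
      push_cast
      refine Finset.sum_le_sum fun t ht => ?_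
      have h5 : c (w, t) ≠ 0 := hT ht
      have h6 : (1 : ℤ) ≤ c (w, t) ^ 2 := by
        have := sq_pos_of_ne_zero h5
        omega
      exact_mod_cast h6
    have h5 := h3.trans h2
    push_cast at h5
    linarith

/-- The condition on the measures. -/
def MeasCond (ε : Prop) (n : ℕ) : Prop := ∀ M : Wt n → ℂ, PosDefC M →
  (∀ g w, M (EEA520.act g w) = M w) → (ε → ∀ w, M (w + (2, fun _ => 1)) = M w) →
    M 0 = Fintype.card (WG n) → HasMeas ε M

theorem realize_allE_of (hmeas : MeasCond ε n) {c : Wt n × ℝ → ℤ}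
    (h1 : PosDefG (fun x => (c x : ℝ)))
    (h2 : ∀ g w t, c (EEA520.act g w, t) = c (w, t))
    (h3 : ε → ∀ w t, c (w + (2, 1), t) = c (w, t))
    (h4 : ∀ t, c (0, t) = if t = 0 then (Fintype.card (WG n) : ℤ) else 0)
    (h5 : ∀ m, IsCharacter m → ∀ t,
      (Fintype.card (WG n) : ℤ) ∣ m.sum fun w e => e * c (w, t)) :
    ∃ π : GSys n, Tempered π ∧ (ε → ∀ p, (π p).c ^ 2 * ∏ i, (π p).x i = 1) ∧
      (∀ m, IsCharacter m → Continues π m) ∧
      ∀ w t, PoleOrder π (orb w) (pt t) (c (w, t)) := by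
  classical
  set c' : Wt n → ℝ →₀ ℤ := fun w => Finsupp.onFinset (fin_supp h1 h4 w).toFinset
    (fun t => c (w, t)) (fun t ht => (fin_supp h1 h4 w).mem_toFinset.2 ht) with hc'
  have hcc : ∀ w t, c' w t = c (w, t) := fun w t => rfl
  obtain ⟨π, k1, k2, k3, k4⟩ := law_realize_of (c := c') hmeas h1
    (fun g w => Finsupp.ext fun t => by rw [hcc, hcc, h2])
    (fun h w => Finsupp.ext fun t => by
      rw [hcc, hcc]
      exact h3 h w t)
    (Finsupp.ext fun t => by
      rw [hcc, h4, Finsupp.single_apply]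
      by_cases h : t = 0
      · rw [if_pos h, if_pos h.symm]
      · rw [if_neg h, if_neg fun h' => h h'.symm])
    (fun m hm t => by
      obtain ⟨a, ha⟩ := h5 m hm t
      exact ⟨a, ha.symm⟩)
  refine ⟨π, k1, k2, k3, fun w t => k4 (orb w) (orb_isCharacter w) t (c (w, t)) ?_⟩
  have h6 : ((orb w).sum fun u e => e * c' u t) = ∑ g : WG n, c (EEA520.act g w, t) := by
    unfold orb
    rw [← Finsupp.sum_finsetSum_index (by intro a; simp) (by intro a b c; ring)]
    refine Finset.sum_congr rfl fun g _ => ?_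
    rw [Finsupp.sum_single_index (by simp), hcc, one_mul]
  rw [h6]
  simp only [h2]
  rw [Finset.sum_const, Finset.card_univ, nsmul_eq_mul]

end Pool.Agent.EEAL
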