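import Pool.Agent.W_eea520_L.Pd4
import Pool.Agent.W_eea520_L.Wrap

/-!
# Complex positive definite functions on the weights are moments of measures (Herglotz)
-/

set_option autoImplicit false

namespace Pool.Agent.EEAL

open Filter Topology Pool.Agent.EEA520 Pool.Agent.EEAN Pool.Agent.EEAG1 Pool.Agent.EEAC

variable {n : ℕ} {ε : Prop}

/-- Fejer sums are nonnegative. -/
theorem pdC_fejer {M : Wt n → ℂ} (hM : PosDefC M) {q : Torus n} (hq : UT q) (B : Finset (Wt n)) :
    ∃ S : ℝ, 0 ≤ S ∧ ∑ x ∈ B, ∑ y ∈ B, M (x - y) * (q.ev (-(x - y)) : ℂ) = (S : ℂ) := by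
  set Z : ℂ := ∑ x ∈ B, ∑ y ∈ B, M (x - y) * (q.ev (-(x - y)) : ℂ) with hZ
  have h1 := hM.2 B fun x => (q.ev (-x) : ℂ)
  have h2 : (∑ i ∈ B, ∑ j ∈ B, (q.ev (-i) : ℂ) * (starRingEnd ℂ) (q.ev (-j) : ℂ) * M (i - j)) =
      Z := by
    rw [hZ]
    refine Finset.sum_congr rfl fun i _ => Finset.sum_congr rfl fun j _ => ?_
    rw [← hq.ev_neg (-j), neg_neg, ← Units.val_mul, ← ev_add', neg_add_eq_sub, neg_sub]
    ring
  have h3 : (starRingEnd ℂ) Z = Z := by
    rw [hZ, map_sum]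
    simp only [map_sum, map_mul]
    rw [Finset.sum_comm]
    refine Finset.sum_congr rfl fun i _ => Finset.sum_congr rfl fun j _ => ?_
    rw [← hM.1, ← hq.ev_neg, neg_neg, neg_sub, neg_sub]
  rw [h2] at h1
  exact ⟨Z.re, h1, (Complex.conj_eq_iff_re.1 h3).symm⟩

theorem pdC_moment {M : Wt n → ℂ} {J : Type} [Fintype J] {q : J → Torus n} {B : Finset (Wt n)}
    {w : Wt n}
    (h : ∀ x ∈ B, ∀ y ∈ B, ∀ v : Wt n, (v = x - y + w ∨ v = x - y - w) → v ≠ 0 →
      ∑ a, ((q a).ev v : ℂ) = 0) :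
    ∑ a, (∑ x ∈ B, ∑ y ∈ B, M (x - y) * ((q a).ev (-(x - y)) : ℂ)) * ((q a).ev w : ℂ) =
      Fintype.card J * (M w * rB B w) := by
  classical
  have hs : ∀ x ∈ B, ∀ y ∈ B, ∑ a, ((q a).ev (-(x - y) + w) : ℂ) =
      if x = y + w then (Fintype.card J : ℂ) else 0 := by
    intro x hx y hy
    split_ifs with h0
    · subst h0
      have h1 : ∀ a, (((q a).ev (-(y + w - y) + w) : ℂˣ) : ℂ) = 1 := by
        intro a
        have h2 : -(y + w - y) + w = 0 := by abel
        rw [h2]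
        unfold Torus.ev
        simp
      rw [Finset.sum_congr rfl fun a _ => h1 a, Finset.sum_const, Finset.card_univ, nsmul_eq_mul,
        mul_one]
    · refine h y hy x hx _ (Or.inl ?_) fun h1 => h0 ?_
      · abel
      · have h2 : x = y + w - (-(x - y) + w) := by abel
        rw [h2, h1, sub_zero]
  have h1 : ∑ a, (∑ x ∈ B, ∑ y ∈ B, M (x - y) * ((q a).ev (-(x - y)) : ℂ)) *
      ((q a).ev w : ℂ) =
      ∑ y ∈ B, ∑ x ∈ B, M (x - y) * (if x = y + w then (Fintype.card J : ℂ) else 0) := by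
    simp only [Finset.sum_mul]
    rw [Finset.sum_comm, Finset.sum_comm (s := B) (t := B)]
    refine Finset.sum_congr rfl fun x hx => ?_
    rw [Finset.sum_comm]
    refine Finset.sum_congr rfl fun y hy => ?_
    rw [← hs x hx y hy, Finset.mul_sum]
    refine Finset.sum_congr rfl fun a _ => ?_
    rw [ev_add', Units.val_mul, mul_assoc]
  have e1 : ∀ y ∈ B, ∑ x ∈ B, M (x - y) * (if x = y + w then (Fintype.card J : ℂ) else 0) =
      if y + w ∈ B then (Fintype.card J : ℂ) * M w else 0 := by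
    intro y hy
    have e2 : ∀ x ∈ B, M (x - y) * (if x = y + w then (Fintype.card J : ℂ) else 0) =
        if x = y + w then (Fintype.card J : ℂ) * M w else 0 := by
      intro x hx
      by_cases e3 : x = y + w
      · subst e3
        rw [if_pos rfl, if_pos rfl, show y + w - y = w by abel]
        ring
      · rw [if_neg e3, if_neg e3, mul_zero]
    rw [Finset.sum_congr rfl e2, Finset.sum_ite_eq']
  rw [h1, Finset.sum_congr rfl e1, ← Finset.sum_filter, Finset.sum_const, nsmul_eq_mul]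
  unfold rB
  ring

/-- The vectors of the values of the weights. -/
def KsetC (n : ℕ) (F : Finset (Wt n)) : Set (F → ℂ) :=
  {y | ∃ q : Torus n, UT q ∧ y = fun w => (q.ev w.1 : ℂ)}

theorem isCompact_KsetC (F : Finset (Wt n)) : IsCompact (KsetC n F) := by
  have h1 : KsetC n F = Set.range fun z : Circle × (Fin n → Circle) =>
      (fun w : F => ((cev z w.1 : Circle) : ℂ)) := by
    ext y
    constructor
    · rintro ⟨q, hq, rfl⟩
      refine ⟨(⟨q.c, mem_sphere_zero_iff_norm.2 hq.1⟩,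
        fun i => ⟨q.x i, mem_sphere_zero_iff_norm.2 (hq.2 i)⟩), ?_⟩
      funext w
      simp only [cev_coe]
      unfold Torus.ev
      push_cast
      rfl
    · rintro ⟨z, rfl⟩
      refine ⟨⟨Circle.toUnits z.1, fun i => Circle.toUnits (z.2 i)⟩, ⟨?_, fun i => ?_⟩, ?_⟩
      · simp
      · simp
      · funext w
        simp only [cev_coe]
        unfold Torus.ev
        push_cast
        rfl
  rw [h1]
  refine isCompact_range (continuous_pi fun w => continuous_subtype_val.comp ?_)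
  unfold cev
  fun_prop

theorem pdC_hull {M : Wt n → ℂ} (hM : PosDefC M) {K : ℝ} (hK : 0 < K) (h0 : M 0 = K)
    (F : Finset (Wt n)) : (fun w : F => M w.1 / K) ∈ convexHull ℝ (KsetC n F) := by
  classical
  have hcl : IsClosed (convexHull ℝ (KsetC n F)) :=
    (W_bbc525_h89.isCompact_hull (isCompact_KsetC F)).isClosed
  have hlim : Tendsto (fun N : ℕ => fun w : F =>
      M w.1 / K * (((rB (bx n N) w.1 : ℝ) / (bx n N).card : ℝ) : ℂ)) atTop
      (𝓝 fun w : F => M w.1 / K) := by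
    refine tendsto_pi_nhds.2 fun w => ?_
    have h1 := ((Complex.continuous_ofReal.tendsto 1).comp (bx_tendsto w.1)).const_mul (M w.1 / K)
    rwa [Complex.ofReal_one, mul_one] at h1
  refine hcl.mem_of_tendsto hlim ?_
  filter_upwards [eventually_gt_atTop 0] with N hN
  obtain ⟨L, hL0, hL⟩ := pd_bound N F hN
  obtain ⟨q, hq, hsum⟩ := pd_points (n := n) hL0
  have hpart : ∀ w : Wt n, (w ∈ F ∨ w = 0) →
      ∑ a, (∑ x ∈ bx n N, ∑ y ∈ bx n N, M (x - y) * ((q a).ev (-(x - y)) : ℂ)) *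
        ((q a).ev w : ℂ) =
      Fintype.card (Fin L × (Fin n → Fin L)) * (M w * rB (bx n N) w) := by
    intro w hw
    refine pdC_moment fun x hx y hy v hv hv0 => ?_
    have h1 := hL w hw x hx y hy v hv
    exact hsum v h1.1 h1.2 hv0
  have hcard : (0 : ℝ) < Fintype.card (Fin L × (Fin n → Fin L)) := by
    have : Nonempty (Fin L) := ⟨⟨0, hL0⟩⟩
    exact_mod_cast Fintype.card_pos
  have hB : (0 : ℝ) < (bx n N).card := by
    rw [card_bx]
    positivity
  have hr0 : rB (bx n N) 0 = (bx n N).card := by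
    unfold rB
    congr 1
    refine Finset.filter_true_of_mem fun y hy => ?_
    rwa [add_zero]
  set T : ℝ := Fintype.card (Fin L × (Fin n → Fin L)) * (K * (bx n N).card) with hT
  have hTpos : 0 < T := by positivity
  choose S hS0 hS using fun a => pdC_fejer hM (hq a) (bx n N)
  simp only [hS] at hpart
  have hmass : ∑ a, S a / T = 1 := by
    rw [← Finset.sum_div, div_eq_one_iff_eq hTpos.ne']
    have h1 := hpart 0 (Or.inr rfl)
    have h2 : ∀ a, (((q a).ev (0 : Wt n) : ℂˣ) : ℂ) = 1 := by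
      intro a
      unfold Torus.ev
      simp
    simp only [h2, mul_one, hr0, h0] at h1
    rw [hT]
    exact_mod_cast h1
  have hmem : ∑ a, (S a / T) • (fun w : F => ((q a).ev w.1 : ℂ)) ∈
      convexHull ℝ (KsetC n F) :=
    (convex_convexHull ℝ (KsetC n F)).sum_mem
      (fun a _ => div_nonneg (hS0 a) hTpos.le) hmass
      fun a _ => subset_convexHull ℝ _ ⟨q a, hq a, rfl⟩
  convert hmem using 1
  funext w
  rw [Finset.sum_apply]
  simp only [Pi.smul_apply, Complex.real_smul]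
  have h1 := hpart w.1 (Or.inl w.2)
  have h2 : ∑ a, ((S a / T : ℝ) : ℂ) * ((q a).ev w.1 : ℂ) =
      (∑ a, (S a : ℂ) * ((q a).ev w.1 : ℂ)) / (T : ℂ) := by
    rw [Finset.sum_div]
    refine Finset.sum_congr rfl fun a _ => ?_
    push_cast
    ring
  have hc' : ((Fintype.card (Fin L × (Fin n → Fin L)) : ℝ) : ℂ) ≠ 0 := by
    exact_mod_cast hcard.ne'
  have hK' : (K : ℂ) ≠ 0 := by exact_mod_cast hK.ne'
  have hB' : (((bx n N).card : ℝ) : ℂ) ≠ 0 := by exact_mod_cast hB.ne'
  rw [h2, h1, hT]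
  push_cast at hc' hB' ⊢
  field_simp

/-- A positive definite function: moments of a finitely supported measure on the compact torus. -/
theorem pdC_measure0 {M : Wt n → ℂ} (hM : PosDefC M) {K : ℝ} (hK : 0 < K) (h0 : M 0 = K)
    (F : Finset (Wt n)) :
    ∃ ν : {q : Torus n // UT q} →₀ ℝ, IsProb ν ∧
      ∀ w ∈ F, (ν.sum fun q z => (z : ℂ) * (q.1.ev w : ℂ)) = M w / K := by
  classical
  obtain ⟨ι, _, u, z, hu, hu1, hz, hzs⟩ :=
    mem_convexHull_iff_exists_fintype.1 (pdC_hull hM hK h0 F)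
  choose q hq hqz using hz
  let ν : {q : Torus n // UT q} →₀ ℝ := ∑ i, Finsupp.single ⟨q i, hq i⟩ (u i)
  have hsum : ∀ g : {q : Torus n // UT q} → ℂ, (ν.sum fun q z => (z : ℂ) * g q) =
      ∑ i, (u i : ℂ) * g ⟨q i, hq i⟩ := by
    intro g
    have h1 : (ν.sum fun q z => (z : ℂ) * g q) =
        ∑ i, ((Finsupp.single ⟨q i, hq i⟩ (u i) : {q : Torus n // UT q} →₀ ℝ).sum
          fun q z => (z : ℂ) * g q) :=
      (Finsupp.sum_finsetSum_index (by simp) (by intro a b c; push_cast; ring)).symm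
    rw [h1]
    refine Finset.sum_congr rfl fun i _ => ?_
    rw [Finsupp.sum_single_index (by simp)]
  refine ⟨ν, ⟨fun r => ?_, ?_⟩, fun w hw => ?_⟩
  · show 0 ≤ (∑ i, Finsupp.single (⟨q i, hq i⟩ : {q : Torus n // UT q}) (u i)) r
    rw [Finsupp.finsetSum_apply]
    refine Finset.sum_nonneg fun i _ => ?_
    rw [Finsupp.single_apply]
    split_ifs
    · exact hu i
    · exact le_rfl
  · have h1 : (ν.sum fun _ a => a) =
        ∑ i, ((Finsupp.single ⟨q i, hq i⟩ (u i) : {q : Torus n // UT q} →₀ ℝ).sum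
          fun _ a => a) :=
      (Finsupp.sum_finsetSum_index (by simp) (by intro a b c; rfl)).symm
    rw [h1, ← hu1]
    refine Finset.sum_congr rfl fun i _ => ?_
    rw [Finsupp.sum_single_index rfl]
  · rw [hsum fun q => (q.1.ev w : ℂ)]
    have h1 := congrFun hzs ⟨w, hw⟩
    simp only at h1
    rw [← h1, Finset.sum_apply]
    refine Finset.sum_congr rfl fun i _ => ?_
    rw [Pi.smul_apply, Complex.real_smul, hqz i]

theorem pdC_support {M : Wt n → ℂ} {K : ℝ} (hK : 0 < K) (hper : M (2, 1) = K)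
    {ν : {q : Torus n // UT q} →₀ ℝ} (hν : IsProb ν)
    (h : (ν.sum fun q z => (z : ℂ) * (q.1.ev (2, 1) : ℂ)) = M (2, 1) / K) :
    ∀ q ∈ ν.support, q.1.c ^ 2 * ∏ i, q.1.x i = 1 := by
  refine pd_support (C := fun _ => 1) one_pos rfl hν ?_
  rw [hper, div_self (by exact_mod_cast hK.ne')] at h
  have h1 := congrArg Complex.re h
  unfold Finsupp.sum at h1 ⊢
  rw [Complex.re_sum, Complex.one_re] at h1
  rw [div_one, ← h1]
  refine Finset.sum_congr rfl fun q _ => ?_
  rw [Complex.re_ofReal_mul]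

/-- MEASURES. -/
theorem measCond (ε : Prop) (n : ℕ) : MeasCond ε n := by
  classical
  intro M hM hinv hper h0 F
  have hK := card_posE (n := n)
  have h0' : M 0 = ((Fintype.card (WG n) : ℝ) : ℂ) := by
    rw [h0]
    simp
  obtain ⟨ν₀, hν₀, hm⟩ := pdC_measure0 hM hK h0'
    (insert (2, 1) (F.biUnion fun w => Finset.univ.image fun g : WG n => EEA520.act g w))
  have hP : ∀ q ∈ ν₀.support, (ε → q.1.c ^ 2 * ∏ i, q.1.x i = 1) := by
    intro q hq hε
    refine pdC_support hK ?_ hν₀ (hm _ (Finset.mem_insert_self _ _)) q hq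
    have h1 := hper hε 0
    rw [zero_add] at h1
    rw [← h0']
    exact h1
  obtain ⟨μ, hμ, hs⟩ := pd_restrict (P := fun q : {q : Torus n // UT q} =>
      (ε → q.1.c ^ 2 * ∏ i, q.1.x i = 1))
    (fun r : XE ε n => (⟨r.1, r.2.1⟩ : {q : Torus n // UT q}))
    (fun a b h => Subtype.ext (congrArg (fun r : {q : Torus n // UT q} => r.1) h)) hν₀ hP
    fun q hq => ⟨⟨q.1, q.2, hq⟩, rfl⟩
  have hsC : ∀ g : {q : Torus n // UT q} → ℂ, (μ.sum fun r z => (z : ℂ) * g ⟨r.1, r.2.1⟩) =
      ν₀.sum fun q z => (z : ℂ) * g q := by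
    intro g
    apply Complex.ext
    · have h1 := hs fun q => (g q).re
      unfold Finsupp.sum at h1 ⊢
      rw [Complex.re_sum, Complex.re_sum]
      simpa using h1
    · have h1 := hs fun q => (g q).im
      unfold Finsupp.sum at h1 ⊢
      rw [Complex.im_sum, Complex.im_sum]
      simpa using h1
  refine ⟨μ, hμ, fun w hw => ?_⟩
  have h1 := hsC fun q => orbC q.1 w
  refine h1.trans ?_
  have h2 : (ν₀.sum fun q z => (z : ℂ) * orbC q.1 w) =
      ∑ g : WG n, ν₀.sum fun q z => (z : ℂ) * (q.1.ev (EEA520.act g w) : ℂ) := by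
    unfold Finsupp.sum orbC
    rw [Finset.sum_comm]
    exact Finset.sum_congr rfl fun q _ => Finset.mul_sum _ _ _
  have h3 : ∀ g : WG n, (ν₀.sum fun q z => (z : ℂ) * (q.1.ev (EEA520.act g w) : ℂ)) =
      M w / ((Fintype.card (WG n) : ℝ) : ℂ) := by
    intro g
    rw [hm (EEA520.act g w) (Finset.mem_insert_of_mem (Finset.mem_biUnion.2 ⟨w, hw,
      Finset.mem_image_of_mem _ (Finset.mem_univ g)⟩)), hinv]
  have hc : ((Fintype.card (WG n) : ℝ) : ℂ) ≠ 0 := by exact_mod_cast hK.ne'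
  rw [h2, Finset.sum_congr rfl fun g _ => h3 g, Finset.sum_const, Finset.card_univ,
    nsmul_eq_mul, ← Complex.ofReal_natCast, mul_div_cancel₀ _ hc]

/-- REALIZATION, final form. -/
theorem realize_allE' {c : Wt n × ℝ → ℤ} (h1 : PosDefG (fun x => (c x : ℝ)))
    (h2 : ∀ g w t, c (EEA520.act g w, t) = c (w, t))
    (h3 : ε → ∀ w t, c (w + (2, 1), t) = c (w, t))
    (h4 : ∀ t, c (0, t) = if t = 0 then (Fintype.card (WG n) : ℤ) else 0)
    (h5 : ∀ m, IsCharacter m → ∀ t,
      (Fintype.card (WG n) : ℤ) ∣ m.sum fun w e => e * c (w, t)) :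
    ∃ π : GSys n, Tempered π ∧ (ε → ∀ p, (π p).c ^ 2 * ∏ i, (π p).x i = 1) ∧
      (∀ m, IsCharacter m → Continues π m) ∧
      ∀ w t, PoleOrder π (orb w) (pt t) (c (w, t)) :=
  realize_allE_of (measCond ε n) h1 h2 h3 h4 h5

end Pool.Agent.EEAL
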