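import Pool.Agent.W_eea520_L.Co3
import Pool.Agent.W_eea520_L.La
import Pool.Agent.W_eea520_L.Lb
import Pool.Agent.W_eea520_L.Lc
import Pool.Agent.W_eea520_L.Ld
import Pool.Agent.W_eea520_L.PdC

set_option autoImplicit false

namespace Pool.Agent.EEAL

open Filter Topology Pool.Agent.EEA520 Pool.Agent.EEAG1 Pool.Agent.EEAN

theorem posDefG_sum {G : Type} [AddCommGroup G] {c : G → ℤ} {r : ℕ} {f : Fin r → G → ℤ}
    (h1 : ∀ i, PosDefG (fun x => (f i x : ℝ))) (h2 : ∀ x, c x = ∑ i, f i x) :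
    PosDefG (fun x => (c x : ℝ)) := by
  refine ⟨fun x => ?_, fun a => ?_⟩
  · rw [h2, h2]
    push_cast
    exact Finset.sum_congr rfl fun i _ => (h1 i).symm x
  · have h3 : (a.sum fun i b => a.sum fun j d => b * d * ((c (i - j) : ℤ) : ℝ)) =
        ∑ k, a.sum fun i b => a.sum fun j d => b * d * ((f k (i - j) : ℤ) : ℝ) := by
      simp only [h2, Finsupp.sum]
      push_cast
      simp only [Finset.mul_sum]
      rw [Finset.sum_congr rfl fun i _ => Finset.sum_comm, Finset.sum_comm]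
    rw [h3]
    exact Finset.sum_nonneg fun k _ => (h1 k).nonneg a

theorem lawF (n : ℕ) (ε : Prop) (E : AddSubgroup ℝ) (c : Wt n × ℝ → ℤ)
    (hE : ∀ w, ∀ t, t ∉ E → c (w, t) = 0) : List.TFAE [
      ∃ π : GSys n, Tempered π ∧ (ε → ∀ p, (π p).c ^ 2 * ∏ i, (π p).x i = 1) ∧
        (∀ m, IsCharacter m → ∀ t ∈ E, MeroAt π m (pt t)) ∧
        ∀ w, ∀ t ∈ E, PoleOrder π (orb w) (pt t) (c (w, t)) ∧
          DirMean (fun p => ∑ g : WG n,
            (((π p).ev (act g w) : ℂ) * ((p : ℕ) : ℂ) ^ (-(t * Complex.I))).re) (c (w, t)),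
      ∃ π : GSys n, Tempered π ∧ (ε → ∀ p, (π p).c ^ 2 * ∏ i, (π p).x i = 1) ∧
        (∀ m, IsCharacter m → Continues π m) ∧
        (∀ w, ∀ t : ℝ, PoleOrder π (orb w) (pt t) (c (w, t)) ∧
          DirMean (fun p => ∑ g : WG n,
            (((π p).ev (act g w) : ℂ) * ((p : ℕ) : ℂ) ^ (-(t * Complex.I))).re) (c (w, t))) ∧
        ∀ w, (∀ t : ℝ, t ≠ 0 → c (w, t) = 0) →
          NatMean (fun p => ∑ g : WG n, ((π p).ev (act g w) : ℂ).re) (c (w, 0)),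
      PosDefG (fun x => (c x : ℝ)) ∧ (∀ g w t, c (act g w, t) = c (w, t)) ∧
        (ε → ∀ w t, c (w + (2, 1), t) = c (w, t)) ∧
        (∀ t, c (0, t) = if t = 0 then (Fintype.card (WG n) : ℤ) else 0) ∧
        ∀ w t, ((Finset.univ.filter fun g : WG n => act g w = w).card : ℤ) ∣ c (w, t),
      (∃ (r : ℕ) (f : Fin r → Wt n × ℝ → ℤ) (H : Fin r → AddSubgroup (Wt n × ℝ)),
        (∀ i, PosDefG (fun x => (f i x : ℝ)) ∧ FinMod (f i) (H i)) ∧ ∀ x, c x = ∑ i, f i x) ∧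
        (∀ g w t, c (act g w, t) = c (w, t)) ∧
        (ε → ∀ w t, c (w + (2, 1), t) = c (w, t)) ∧
        (∀ t, c (0, t) = if t = 0 then (Fintype.card (WG n) : ℤ) else 0) ∧
        ∀ w t, ((Finset.univ.filter fun g : WG n => act g w = w).card : ℤ) ∣ c (w, t)] := by
  tfae_have 1 → 3 := by
    rintro ⟨π, hπ, h1, h2, h3⟩
    obtain ⟨k1, k2, k3, k4, k5⟩ := law_of_sys hπ h2 hE fun w t ht => (h3 w t ht).1
    exact ⟨k1, k2, fun hε => k3 (h1 hε), k4, fun w t =>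
      (int_iff (c := fun w => c (w, t)) fun g w => k2 g w t).1 (fun m hm => k5 m hm t) w⟩
  tfae_have 3 → 2 := by
    rintro ⟨k1, k2, k3, k4, k5⟩
    obtain ⟨π, hπ, h1, h2, h3⟩ := realize_allE' k1 k2 k3 k4 fun m hm t =>
      (int_iff (c := fun w => c (w, t)) fun g w => k2 g w t).2 (fun w => k5 w t) m hm
    refine ⟨π, hπ, h1, h2, fun w t => ⟨h3 w t, dirMean_orb hπ (h3 w t)⟩, fun w hw => ?_⟩
    exact natMean_orb hπ (h3 w 0) fun t ht => by
      have := h3 w t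
      rw [hw t ht] at this
      exact this
  tfae_have 2 → 1 := by
    rintro ⟨π, hπ, h1, h2, h3, -⟩
    exact ⟨π, hπ, h1, fun m hm t _ => mero_of_continues hπ (h2 m hm) t, fun w t _ => h3 w t⟩
  tfae_have 3 → 4 := by
    rintro ⟨k1, k2, k3, k4, k5⟩
    exact ⟨cohen_pd k1, k2, k3, k4, k5⟩
  tfae_have 4 → 3 := by
    rintro ⟨⟨r, f, H, h1, h2⟩, k2, k3, k4, k5⟩
    exact ⟨posDefG_sum (fun i => (h1 i).1) h2, k2, k3, k4, k5⟩
  tfae_finish

end Pool.Agent.EEAL
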