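import Pool.Agent.W_eea520_L.LawF

set_option autoImplicit false

namespace Pool.Agent.EEAL

open Filter Topology Pool.Agent.EEA520 Pool.Agent.EEAG1 Pool.Agent.EEAN

theorem posDef_iff {G : Type} [AddCommGroup G] {c : G → ℤ} :
    PosDef c ↔ PosDefG (fun x => (c x : ℝ)) := by
  constructor
  · rintro ⟨h1, h2⟩
    exact ⟨fun x => by rw [h1], h2⟩
  · rintro ⟨h1, h2⟩
    exact ⟨fun x => by exact_mod_cast h1 x, h2⟩

theorem wact_eq {n : ℕ} (g : WG n) (w : Wt n) : wact g w = act g w := rfl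

theorem orbitSum_eq {n : ℕ} (w : Wt n) : orbitSum w = orb w := rfl

theorem orders_of {n : ℕ} {π : GSys n} (hπ : Tempered π) {E : AddSubgroup ℝ}
    (h : ∀ m, IsCharacter m → ∀ t ∈ E, MeroAt π m (pt t)) {c : Wt n × ℝ → ℤ}
    (hc : ∀ w, ∀ t ∈ E, PoleOrder π (orb w) (pt t) (c (w, t))) : Orders π E c := by
  refine ⟨fun m hm t ht => ?_, fun w t ht => ⟨hc w t ht, dirMean_orb hπ (hc w t ht)⟩⟩
  obtain ⟨k, hk⟩ := exists_poleOrder hπ (h m hm t ht)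
  refine ⟨k, ?_, hk⟩
  have hIs : IsOrd π E (fun x => c (x.1, (x.2 : ℝ))) := fun w t => hc w t t.2
  exact order_formula hπ hIs hm ⟨t, ht⟩ hk

theorem mero_of_orders {n : ℕ} {π : GSys n} {E : AddSubgroup ℝ} {c : Wt n × ℝ → ℤ}
    (h : Orders π E c) : ∀ m, IsCharacter m → ∀ t ∈ E, MeroAt π m (pt t) := by
  intro m hm t ht
  obtain ⟨k, -, g, hg, -, hL⟩ := h.1 m hm t ht
  exact ⟨g, hg, hL⟩

theorem exists_orders {n : ℕ} {π : GSys n} (hπ : Tempered π) {E : AddSubgroup ℝ}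
    (h : ∀ m, IsCharacter m → ∀ t ∈ E, MeroAt π m (pt t)) :
    ∃ c : Wt n × ℝ → ℤ, (∀ w, ∀ t, t ∉ E → c (w, t) = 0) ∧ Orders π E c := by
  classical
  obtain ⟨c', hc'⟩ := exists_isOrd hπ h
  refine ⟨fun x => if ht : x.2 ∈ E then c' (x.1, ⟨x.2, ht⟩) else 0, fun w t ht => ?_, ?_⟩
  · simp only
    rw [dif_neg ht]
  · refine orders_of hπ h fun w t ht => ?_
    simp only
    rw [dif_pos ht]
    exact hc' w ⟨t, ht⟩

theorem lawG (n : ℕ) (ε : Prop) (E : AddSubgroup ℝ) (c : Wt n × ℝ → ℤ)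
    (hE : ∀ w, ∀ t, t ∉ E → c (w, t) = 0) : List.TFAE [
      ∃ π : GSys n, Tempered π ∧ (ε → ∀ p, (π p).c ^ 2 * ∏ i, (π p).x i = 1) ∧ Orders π E c,
      ∃ π : GSys n, Tempered π ∧ (ε → ∀ p, (π p).c ^ 2 * ∏ i, (π p).x i = 1) ∧
        (∀ m, IsCharacter m → Continues π m) ∧ Orders π ⊤ c ∧
        ∀ w, (∀ t : ℝ, t ≠ 0 → c (w, t) = 0) →
          NatMean (fun p => ∑ g : Weyl n, ((π p).ev (wact g w) : ℂ).re) (c (w, 0)),
      PosDef c ∧ Normal ε c,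
      (∃ (r : ℕ) (f : Fin r → Wt n × ℝ → ℤ) (H : Fin r → AddSubgroup (Wt n × ℝ)),
        (∀ i, PosDef (f i) ∧ FinMod (f i) (H i)) ∧ ∀ x, c x = ∑ i, f i x) ∧ Normal ε c] := by
  have h := lawF n ε E c hE
  tfae_have 1 → 3 := by
    rintro ⟨π, h1, h2, h3⟩
    obtain ⟨k1, k2, k3, k4, k5⟩ := (h.out 0 2).1 (by exact ⟨π, h1, h2, mero_of_orders h3, h3.2⟩)
    exact ⟨posDef_iff.2 k1, ⟨k2, k5, k4, k3⟩⟩
  tfae_have 3 → 2 := by
    rintro ⟨k1, k⟩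
    have hk := (h.out 2 1).1 (by exact ⟨posDef_iff.1 k1, k.inv, k.per, k.zero, k.stab⟩)
    obtain ⟨π, h1, h2, h3, h4, h5⟩ := hk
    exact ⟨π, h1, h2, h3, orders_of h1 (fun m hm t _ => mero_of_continues h1 (h3 m hm) t)
      fun w t _ => (h4 w t).1, h5⟩
  tfae_have 2 → 1 := by
    rintro ⟨π, h1, h2, h3, h4, -⟩
    exact ⟨π, h1, h2, fun m hm t _ => h4.1 m hm t (AddSubgroup.mem_top t),
      fun w t _ => h4.2 w t (AddSubgroup.mem_top t)⟩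
  tfae_have 3 → 4 := by
    rintro ⟨k1, k⟩
    obtain ⟨r, f, H, h1, h2⟩ := cohen_pd (posDef_iff.1 k1)
    exact ⟨⟨r, f, H, fun i => ⟨posDef_iff.2 (h1 i).1, (h1 i).2⟩, h2⟩, k⟩
  tfae_have 4 → 3 := by
    rintro ⟨⟨r, f, H, h1, h2⟩, k⟩
    exact ⟨posDef_iff.2 (posDefG_sum (fun i => posDef_iff.1 (h1 i).1) h2), k⟩
  tfae_finish

end Pool.Agent.EEAL
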