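import Pool.Agent.W_eea520_L.FibC
import Pool.Agent.W_eea520_L.ContE

/-!
# Realization of positive definite laws (MP_eea520_nt)
-/

set_option autoImplicit false

namespace Pool.Agent.EEAL

open Filter Topology Pool.Agent.EEA520 Pool.Agent.EEAN Pool.Agent.EEAG1 LSeries Pool.Agent.EEAC

variable {n : ℕ} {ε : Prop}

theorem exists_unit {m : ℤ} (hm : m ≠ 0) : ∃ v : ℂˣ, ‖(v : ℂ)‖ = 1 ∧ v ^ m ≠ 1 := by
  refine ⟨Units.mk0 (Complex.exp ((Real.pi / m : ℝ) * Complex.I)) (Complex.exp_ne_zero _),
    Complex.norm_exp_ofReal_mul_I _, fun h => ?_⟩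
  have h1 := congrArg (fun u : ℂˣ => (u : ℂ)) h
  simp only [Units.val_zpow_eq_zpow_val, Units.val_mk0, Units.val_one] at h1
  rw [← Complex.exp_int_mul] at h1
  have hm' : (m : ℂ) ≠ 0 := by exact_mod_cast hm
  have h2 : (m : ℂ) * (((Real.pi / m : ℝ) : ℂ) * Complex.I) = Real.pi * Complex.I := by
    push_cast
    field_simp
  rw [h2, Complex.exp_pi_mul_I] at h1
  norm_num at h1

theorem ev_update (u v : ℂˣ) (i : Fin n) (w : Wt n) :
    (⟨u, Function.update (fun _ => 1) i v⟩ : Torus n).ev w = u ^ w.1 * v ^ w.2 i := by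
  unfold Torus.ev
  simp only
  congr 1
  rw [Finset.prod_eq_single i (fun j _ hj => by rw [Function.update_of_ne hj, one_zpow])
    (fun h => absurd (Finset.mem_univ i) h), Function.update_self]

theorem prod_update (v : ℂˣ) (i : Fin n) :
    ∏ j, (Function.update (fun _ => 1) i v : Fin n → ℂˣ) j = v := by
  rw [Finset.prod_eq_single i (fun j _ hj => by rw [Function.update_of_ne hj])
    (fun h => absurd (Finset.mem_univ i) h), Function.update_self]

theorem norm_update {v : ℂˣ} (hv : ‖(v : ℂ)‖ = 1) (i j : Fin n) :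
    ‖(((Function.update (fun _ => 1) i v : Fin n → ℂˣ) j : ℂˣ) : ℂ)‖ = 1 := by
  by_cases hj : j = i
  · rw [hj, Function.update_self, hv]
  · rw [Function.update_of_ne hj]
    simp

/-- The weights which are trivial on the compact torus. -/
theorem TrivE.eq {w : Wt n} (hw : TrivE ε w) :
    ∃ j : ℤ, w = j • (((2 : ℤ), fun _ => (1 : ℤ)) : Wt n) ∧ (¬ ε → j = 0) := by
  by_cases hε : ε
  · -- `c = -1`
    have h1 := hw ⟨-1, fun _ => 1⟩ ⟨⟨by simp, fun i => by simp⟩, fun _ => by simp⟩
    have h2 : Even w.1 := by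
      unfold Torus.ev at h1
      simp only [one_zpow, Finset.prod_const_one, mul_one] at h1
      rcases Int.even_or_odd w.1 with h | h
      · exact h
      · exfalso
        rw [h.neg_one_zpow] at h1
        have h3 := congrArg (fun u : ℂˣ => (u : ℂ)) h1
        simp only [Units.val_neg, Units.val_one] at h3
        norm_num at h3
    obtain ⟨j, hj⟩ := h2
    refine ⟨j, ?_, fun h => absurd hε h⟩
    ext i
    · simp only [Prod.smul_fst, smul_eq_mul]
      omega
    · have h3 : w.2 i = j := by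
        by_contra hne
        have hm : 2 * w.2 i - w.1 ≠ 0 := by omega
        obtain ⟨v, hv, hv1⟩ := exists_unit hm
        have h4 := hw ⟨v⁻¹, Function.update (fun _ => 1) i (v ^ 2)⟩
          ⟨⟨by rw [Units.val_inv_eq_inv_val, norm_inv, hv, inv_one], fun k => norm_update (by
            rw [Units.val_pow_eq_pow_val, norm_pow, hv, one_pow]) i k⟩, fun _ => by
            simp only
            rw [prod_update, inv_pow, inv_mul_cancel]⟩
        rw [ev_update] at h4
        apply hv1
        rw [← h4, inv_zpow, ← zpow_natCast, ← zpow_mul, ← zpow_neg, ← zpow_add]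
        congr 1
        push_cast
        ring
      rw [h3]
      simp
  · have h1 : w.1 = 0 := by
      by_contra hne
      obtain ⟨v, hv, hv1⟩ := exists_unit hne
      have h4 := hw ⟨v, fun _ => 1⟩ ⟨⟨hv, fun i => by simp⟩, fun h => absurd h hε⟩
      unfold Torus.ev at h4
      simp only [one_zpow, Finset.prod_const_one, mul_one] at h4
      exact hv1 h4
    have h2 : ∀ i, w.2 i = 0 := by
      intro i
      by_contra hne
      obtain ⟨v, hv, hv1⟩ := exists_unit hne
      have h4 := hw ⟨1, Function.update (fun _ => 1) i v⟩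
        ⟨⟨by simp, fun k => norm_update hv i k⟩, fun h => absurd h hε⟩
      rw [ev_update, one_zpow, one_mul] at h4
      exact hv1 h4
    refine ⟨0, ?_, fun _ => rfl⟩
    rw [zero_smul]
    ext i
    · exact h1
    · exact h2 i

theorem per_zsmul {X : Type} {f : Wt n → X} {d : Wt n} (hf : ∀ w, f (w + d) = f w) (j : ℤ)
    (w : Wt n) : f (w + j • d) = f w := by
  induction j using Int.induction_on with
  | zero => rw [zero_smul, add_zero]
  | succ i ih => rw [add_smul, one_smul, ← add_assoc, hf, ih]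
  | pred i ih =>
    rw [← ih, ← hf (w + (-(i : ℤ) - 1) • d), add_assoc, sub_smul, one_smul, sub_add_cancel]

/-- The mean values at a number are positive definite. -/
theorem posDefC_mcC {c : Wt n → ℝ →₀ ℤ} (hpd : PosDefG fun x : Wt n × ℝ => (c x.1 x.2 : ℝ)) {N : ℕ}
    (hN : N ≠ 0) : PosDefC fun w => mcC c w N := by
  have hpow : ∀ t : ℝ, ((N : ℂ) ^ ((t : ℂ) * Complex.I)) =
      Complex.exp ((Real.log N * t : ℝ) * Complex.I) := by
    intro t
    rw [Complex.cpow_def_of_ne_zero (by exact_mod_cast hN), ← Complex.natCast_log]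
    congr 1
    push_cast
    ring
  have hneg : ∀ w t, c (-w) (-t) = c w t := by
    intro w t
    have h1 := hpd.symm (w, t)
    have h2 : -((w, t) : Wt n × ℝ) = (-w, -t) := rfl
    rw [h2] at h1
    exact_mod_cast h1
  refine ⟨fun w => ?_, fun S y => ?_⟩
  · unfold mcC Finsupp.sum
    rw [map_sum]
    refine Finset.sum_bij (fun t _ => -t) (fun t ht => ?_) (fun a _ b _ h => neg_injective h)
      (fun t ht => ⟨-t, ?_, neg_neg t⟩) (fun t _ => ?_)
    · rw [Finsupp.mem_support_iff, ← hneg, neg_neg]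
      exact Finsupp.mem_support_iff.1 ht
    · rw [Finsupp.mem_support_iff, hneg]
      exact Finsupp.mem_support_iff.1 ht
    · simp only
      rw [← hneg w (-t), neg_neg, map_mul, hpow, hpow, ← Complex.exp_conj, map_mul,
        Complex.conj_ofReal, Complex.conj_I]
      congr 1
      · simp
      · congr 1
        push_cast
        ring
  · have h1 := posDef_fiberC hpd (fun w => (c w).support) (fun w t ht => by
      have h2 : c w t = 0 := Finsupp.notMem_support_iff.1 ht
      show ((c w t : ℤ) : ℝ) = 0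
      rw [h2, Int.cast_zero]) (Real.log N) S y
    refine h1.trans (le_of_eq ?_)
    congr 1
    refine Finset.sum_congr rfl fun i _ => Finset.sum_congr rfl fun j _ => ?_
    congr 1
    unfold mcC Finsupp.sum
    refine Finset.sum_congr rfl fun t _ => ?_
    simp only
    rw [hpow]
    congr 1

/-- REALIZATION OF POSITIVE DEFINITE LAWS. -/
theorem law_realize_of {c : Wt n → ℝ →₀ ℤ} (hmeas : ∀ M : Wt n → ℂ, PosDefC M →
      (∀ g w, M (EEA520.act g w) = M w) → (ε → ∀ w, M (w + (2, fun _ => 1)) = M w) →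
      M 0 = Fintype.card (WG n) → HasMeas ε M)
    (hpd : PosDefG fun x : Wt n × ℝ => (c x.1 x.2 : ℝ))
    (hinv : ∀ g w, c (EEA520.act g w) = c w) (hper : ε → ∀ w, c (w + (2, fun _ => 1)) = c w)
    (h0 : c 0 = Finsupp.single 0 (Fintype.card (WG n) : ℤ))
    (ha : ∀ m : Wt n →₀ ℤ, IsCharacter m → ∀ t : ℝ,
      ∃ a : ℤ, (Fintype.card (WG n) : ℤ) * a = m.sum fun w e => e * c w t) :
    ∃ π : GSys n, Tempered π ∧ (ε → ∀ p, (π p).c ^ 2 * ∏ i, (π p).x i = 1) ∧
      (∀ m : Wt n →₀ ℤ, IsCharacter m → Continues π m) ∧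
      ∀ m : Wt n →₀ ℤ, IsCharacter m → ∀ (t : ℝ) (a : ℤ),
        (Fintype.card (WG n) : ℤ) * a = (m.sum fun w e => e * c w t) →
          PoleOrder π m (pt t) a := by
  refine realize_law (fun N hN => hmeas _ (posDefC_mcC hpd hN) (fun g w => ?_)
    (fun h w => ?_) ?_) (fun w hw => ?_) ha
  · unfold mcC
    rw [hinv]
  · unfold mcC
    rw [hper h]
  · unfold mcC
    rw [h0, Finsupp.sum_single_index (by simp)]
    simp
  · obtain ⟨j, rfl, hj⟩ := hw.eq
    by_cases hε : ε
    · have h1 := per_zsmul (hper hε) j 0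
      rw [zero_add] at h1
      rw [h1, h0]
    · rw [hj hε, zero_smul, h0]

end Pool.Agent.EEAL
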