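import Pool.Agent.W_eea520_c.Gap

/-!
# Positive definite functions on the weights: positivity and finite subgroups of the torus
-/

set_option autoImplicit false

namespace Pool.Agent.EEAL

open Filter Topology Pool.Agent.EEA520 Pool.Agent.EEAN Pool.Agent.EEAG1 Pool.Agent.EEAC

variable {n : ℕ}

/-- The compact torus. -/
def UT (q : Torus n) : Prop := ‖(q.c : ℂ)‖ = 1 ∧ ∀ i, ‖(q.x i : ℂ)‖ = 1

theorem UT.norm_ev {q : Torus n} (hq : UT q) (w : Wt n) : ‖(q.ev w : ℂ)‖ = 1 := by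
  unfold Torus.ev
  rw [Units.val_mul, Units.val_zpow_eq_zpow_val, Units.coe_prod, norm_mul, _root_.norm_zpow,
    hq.1, one_zpow, one_mul, norm_prod]
  refine Finset.prod_eq_one fun i _ => ?_
  rw [Units.val_zpow_eq_zpow_val, _root_.norm_zpow, hq.2, one_zpow]

theorem UT.ev_neg {q : Torus n} (hq : UT q) (w : Wt n) :
    (q.ev (-w) : ℂ) = (starRingEnd ℂ) (q.ev w) := by
  rw [ev_neg', Units.val_inv_eq_inv_val, Complex.inv_def, Complex.normSq_eq_norm_sq, hq.norm_ev]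
  simp

theorem UT.re_neg {q : Torus n} (hq : UT q) (w : Wt n) :
    (q.ev (-w) : ℂ).re = (q.ev w : ℂ).re := by
  rw [hq.ev_neg, Complex.conj_re]

theorem UT.re_sub {q : Torus n} (hq : UT q) (v w : Wt n) :
    (q.ev (v - w) : ℂ).re =
      (q.ev v : ℂ).re * (q.ev w : ℂ).re + (q.ev v : ℂ).im * (q.ev w : ℂ).im := by
  rw [sub_eq_add_neg, ev_add', Units.val_mul, hq.ev_neg, Complex.mul_re, Complex.conj_re,
    Complex.conj_im]
  ring

theorem UT.re_mul {q : Torus n} (hq : UT q) (v w : Wt n) :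
    (q.ev v : ℂ).re * (q.ev w : ℂ).re =
      ((q.ev (v + w) : ℂ).re + (q.ev (v - w) : ℂ).re) / 2 := by
  rw [hq.re_sub, ev_add', Units.val_mul, Complex.mul_re]
  ring

theorem pd_sum_nonneg {G : Type} [AddCommGroup G] {c : G → ℝ} (hc : PosDefG c) (B : Finset G)
    (a : G → ℝ) : 0 ≤ ∑ x ∈ B, ∑ y ∈ B, a x * a y * c (x - y) := by
  classical
  let f : G →₀ ℝ := Finsupp.onFinset B (fun x => if x ∈ B then a x else 0) (by
    intro x hx
    by_contra h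
    exact hx (if_neg h))
  have h := hc.nonneg f
  have h1 : (f.sum fun i a' => f.sum fun j b => a' * b * c (i - j)) =
      ∑ x ∈ B, ∑ y ∈ B, a x * a y * c (x - y) := by
    rw [Finsupp.onFinset_sum _ (by intro x; simp)]
    refine Finset.sum_congr rfl fun x hx => ?_
    rw [Finsupp.onFinset_sum _ (by intro y; simp)]
    refine Finset.sum_congr rfl fun y hy => ?_
    rw [if_pos hx, if_pos hy]
  rwa [h1] at h

/-- Fejer sums are nonnegative. -/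
theorem pd_fejer_nonneg {C : Wt n → ℝ} (hC : PosDefG C) {q : Torus n} (hq : UT q)
    (B : Finset (Wt n)) : 0 ≤ ∑ x ∈ B, ∑ y ∈ B, C (x - y) * (q.ev (x - y) : ℂ).re := by
  have h1 := pd_sum_nonneg hC B fun x => (q.ev x : ℂ).re
  have h2 := pd_sum_nonneg hC B fun x => (q.ev x : ℂ).im
  have h3 := add_nonneg h1 h2
  rw [← Finset.sum_add_distrib] at h3
  refine h3.trans (le_of_eq (Finset.sum_congr rfl fun x _ => ?_))
  rw [← Finset.sum_add_distrib]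
  refine Finset.sum_congr rfl fun y _ => ?_
  rw [hq.re_sub]
  ring

/-- Sums of powers of a root of unity. -/
theorem pd_geom {M : ℕ} {ζ : ℂˣ} (hζ : IsPrimitiveRoot ζ M) {v : ℤ} (hv : v ≠ 0)
    (hvM : |v| < M) : ∑ a : Fin M, ((ζ ^ ((a : ℕ) * v) : ℂˣ) : ℂ) = 0 := by
  have h1 : ζ ^ v ≠ 1 := by
    intro h
    have h2 := (hζ.zpow_eq_one_iff_dvd v).1 h
    exact hv (Int.eq_zero_of_abs_lt_dvd h2 hvM)
  have h2 : ∀ a : ℕ, ((ζ ^ ((a : ℕ) * v) : ℂˣ) : ℂ) = ((ζ ^ v : ℂˣ) : ℂ) ^ a := by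
    intro a
    rw [mul_comm, zpow_mul, zpow_natCast, Units.val_pow_eq_pow_val]
  have h3 : ∑ a : Fin M, ((ζ ^ ((a : ℕ) * v) : ℂˣ) : ℂ) =
      ∑ a ∈ Finset.range M, ((ζ ^ v : ℂˣ) : ℂ) ^ a := by
    rw [Finset.sum_congr rfl fun (a : Fin M) _ => h2 a]
    exact Fin.sum_univ_eq_sum_range (fun a => ((ζ ^ v : ℂˣ) : ℂ) ^ a) M
  have h4 : ((ζ ^ v : ℂˣ) : ℂ) ≠ 1 := by
    intro h
    exact h1 (Units.ext h)
  have h5 : ((ζ ^ v : ℂˣ) : ℂ) ^ M = 1 := by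
    rw [← Units.val_pow_eq_pow_val, ← zpow_natCast, ← zpow_mul, mul_comm, zpow_mul,
      zpow_natCast, hζ.pow_eq_one, one_zpow, Units.val_one]
  rw [h3, geom_sum_eq h4, h5, sub_self, zero_div]

/-- The points of order `M`. -/
theorem pd_points {M : ℕ} (hM : 0 < M) : ∃ q : Fin M × (Fin n → Fin M) → Torus n,
    (∀ a, UT (q a)) ∧ ∀ v : Wt n, |v.1| < M → (∀ i, |v.2 i| < M) → v ≠ 0 →
      ∑ a, ((q a).ev v : ℂ) = 0 := by
  set z : ℂ := Complex.exp (2 * Real.pi * Complex.I / M) with hz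
  have hz1 : IsPrimitiveRoot z M := Complex.isPrimitiveRoot_exp M hM.ne'
  let ζ : ℂˣ := Units.mk0 z (Complex.exp_ne_zero _)
  have hζ : IsPrimitiveRoot ζ M := by
    rw [← IsPrimitiveRoot.coe_units_iff]
    exact hz1
  have hn : ‖(ζ : ℂ)‖ = 1 := hz1.norm'_eq_one hM.ne'
  refine ⟨fun a => ⟨ζ ^ (a.1 : ℕ), fun i => ζ ^ (a.2 i : ℕ)⟩, fun a => ⟨?_, fun i => ?_⟩,
    fun v h1 h2 hv => ?_⟩
  · show ‖((ζ ^ (a.1 : ℕ) : ℂˣ) : ℂ)‖ = 1
    rw [Units.val_pow_eq_pow_val, norm_pow, hn, one_pow]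
  · show ‖((ζ ^ (a.2 i : ℕ) : ℂˣ) : ℂ)‖ = 1
    rw [Units.val_pow_eq_pow_val, norm_pow, hn, one_pow]
  · have h3 : ∀ a : Fin M × (Fin n → Fin M),
        (((⟨ζ ^ (a.1 : ℕ), fun i => ζ ^ (a.2 i : ℕ)⟩ : Torus n).ev v : ℂˣ) : ℂ) =
        ((ζ ^ (((a.1 : ℕ) : ℤ) * v.1) : ℂˣ) : ℂ) *
          ∏ i, ((ζ ^ (((a.2 i : ℕ) : ℤ) * v.2 i) : ℂˣ) : ℂ) := by
      intro a
      unfold Torus.ev
      rw [Units.val_mul, Units.coe_prod]
      simp only [zpow_mul, zpow_natCast]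
    rw [Finset.sum_congr rfl fun a _ => h3 a, Fintype.sum_prod_type]
    have h4 : ∑ a : Fin n → Fin M, ∏ i, ((ζ ^ (((a i : ℕ) : ℤ) * v.2 i) : ℂˣ) : ℂ) =
        ∏ i, ∑ b : Fin M, ((ζ ^ (((b : ℕ) : ℤ) * v.2 i) : ℂˣ) : ℂ) := by
      rw [Finset.prod_univ_sum, Fintype.piFinset_univ]
    simp only [← Finset.mul_sum, h4]
    rw [← Finset.sum_mul]
    by_cases h5 : v.1 = 0
    · have h6 : ∃ i, v.2 i ≠ 0 := by
        by_contra h
        push Not at h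
        exact hv (Prod.ext h5 (funext h))
      obtain ⟨i, hi⟩ := h6
      rw [Finset.prod_eq_zero (Finset.mem_univ i) (pd_geom hζ hi (h2 i)), mul_zero]
    · rw [pd_geom hζ h5 h1, zero_mul]

end Pool.Agent.EEAL
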