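import Pool.Agent.W_eea520_L.Pd1

/-!
# Fejer means of a positive definite function on the weights
-/

set_option autoImplicit false

namespace Pool.Agent.EEAL

open Filter Topology Pool.Agent.EEA520 Pool.Agent.EEAN Pool.Agent.EEAG1 Pool.Agent.EEAC

variable {n : ℕ}

/-- The number of the pairs with difference `w`. -/
def rB (B : Finset (Wt n)) (w : Wt n) : ℕ := (B.filter fun y => y + w ∈ B).card

theorem pd_moment {C : Wt n → ℝ} (hC : PosDefG C) {J : Type} [Fintype J] {q : J → Torus n}
    (hq : ∀ a, UT (q a)) {B : Finset (Wt n)} {w : Wt n}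
    (h : ∀ x ∈ B, ∀ y ∈ B, ∀ v : Wt n, (v = x - y + w ∨ v = x - y - w) → v ≠ 0 →
      ∑ a, ((q a).ev v : ℂ) = 0) :
    ∑ a, (∑ x ∈ B, ∑ y ∈ B, C (x - y) * ((q a).ev (x - y) : ℂ).re) * ((q a).ev w : ℂ).re =
      Fintype.card J * (C w * rB B w) := by
  classical
  have hs : ∀ x ∈ B, ∀ y ∈ B, ∀ v : Wt n, (v = x - y + w ∨ v = x - y - w) →
      ∑ a, ((q a).ev v : ℂ).re = if v = 0 then (Fintype.card J : ℝ) else 0 := by
    intro x hx y hy v hv
    split_ifs with h0
    · subst h0
      have h1 : ∀ a, ((q a).ev (0 : Wt n) : ℂ).re = 1 := by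
        intro a
        unfold Torus.ev
        simp
      rw [Finset.sum_congr rfl fun a _ => h1 a, Finset.sum_const, Finset.card_univ, nsmul_eq_mul,
        mul_one]
    · rw [← Complex.re_sum, h x hx y hy v hv h0, Complex.zero_re]
  have h1 : ∑ a, (∑ x ∈ B, ∑ y ∈ B, C (x - y) * ((q a).ev (x - y) : ℂ).re) *
      ((q a).ev w : ℂ).re =
      ∑ x ∈ B, ∑ y ∈ B, C (x - y) * (((if x - y + w = 0 then (Fintype.card J : ℝ) else 0) +
        (if x - y - w = 0 then (Fintype.card J : ℝ) else 0)) / 2) := by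
    simp only [Finset.sum_mul]
    rw [Finset.sum_comm]
    refine Finset.sum_congr rfl fun x hx => ?_
    rw [Finset.sum_comm]
    refine Finset.sum_congr rfl fun y hy => ?_
    rw [← hs x hx y hy _ (Or.inl rfl), ← hs x hx y hy _ (Or.inr rfl), ← Finset.sum_add_distrib,
      Finset.sum_div, Finset.mul_sum]
    refine Finset.sum_congr rfl fun a _ => ?_
    rw [mul_assoc, (hq a).re_mul]
  have h2 : ∑ x ∈ B, ∑ y ∈ B, C (x - y) * (if x - y + w = 0 then (Fintype.card J : ℝ) else 0) =
      Fintype.card J * (C w * rB B w) := by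
    have e1 : ∀ x ∈ B, ∑ y ∈ B, C (x - y) *
        (if x - y + w = 0 then (Fintype.card J : ℝ) else 0) =
        if x + w ∈ B then (Fintype.card J : ℝ) * C w else 0 := by
      intro x hx
      have e2 : ∀ y ∈ B, C (x - y) * (if x - y + w = 0 then (Fintype.card J : ℝ) else 0) =
          if y = x + w then (Fintype.card J : ℝ) * C w else 0 := by
        intro y hy
        by_cases e3 : y = x + w
        · subst e3
          rw [if_pos (by abel), if_pos rfl, show x - (x + w) = -w by abel, hC.symm]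
          ring
        · rw [if_neg e3, if_neg, mul_zero]
          intro e4
          apply e3
          have e5 : x - y + w + y = y := by rw [e4, zero_add]
          rw [← e5]
          abel
      rw [Finset.sum_congr rfl e2, Finset.sum_ite_eq']
    rw [Finset.sum_congr rfl e1, ← Finset.sum_filter, Finset.sum_const, nsmul_eq_mul]
    unfold rB
    ring
  have h3 : ∑ x ∈ B, ∑ y ∈ B, C (x - y) * (if x - y - w = 0 then (Fintype.card J : ℝ) else 0) =
      Fintype.card J * (C w * rB B w) := by
    rw [Finset.sum_comm]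
    have e1 : ∀ y ∈ B, ∑ x ∈ B, C (x - y) *
        (if x - y - w = 0 then (Fintype.card J : ℝ) else 0) =
        if y + w ∈ B then (Fintype.card J : ℝ) * C w else 0 := by
      intro y hy
      have e2 : ∀ x ∈ B, C (x - y) * (if x - y - w = 0 then (Fintype.card J : ℝ) else 0) =
          if x = y + w then (Fintype.card J : ℝ) * C w else 0 := by
        intro x hx
        by_cases e3 : x = y + w
        · subst e3
          rw [if_pos (by abel), if_pos rfl, show y + w - y = w by abel]
          ring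
        · rw [if_neg e3, if_neg, mul_zero]
          intro e4
          apply e3
          have e5 : x - y - w + (y + w) = y + w := by rw [e4, zero_add]
          rw [← e5]
          abel
      rw [Finset.sum_congr rfl e2, Finset.sum_ite_eq']
    rw [Finset.sum_congr rfl e1, ← Finset.sum_filter, Finset.sum_const, nsmul_eq_mul]
    unfold rB
    ring
  rw [h1]
  have h4 : ∑ x ∈ B, ∑ y ∈ B, C (x - y) * (((if x - y + w = 0 then (Fintype.card J : ℝ) else 0) +
        (if x - y - w = 0 then (Fintype.card J : ℝ) else 0)) / 2) =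
      ((∑ x ∈ B, ∑ y ∈ B, C (x - y) * (if x - y + w = 0 then (Fintype.card J : ℝ) else 0)) +
      ∑ x ∈ B, ∑ y ∈ B, C (x - y) * (if x - y - w = 0 then (Fintype.card J : ℝ) else 0)) / 2 := by
    rw [← Finset.sum_add_distrib, Finset.sum_div]
    refine Finset.sum_congr rfl fun x _ => ?_
    rw [← Finset.sum_add_distrib, Finset.sum_div]
    refine Finset.sum_congr rfl fun y _ => ?_
    ring
  rw [h4, h2, h3]
  ring

/-- The boxes. -/
noncomputable def bx (n N : ℕ) : Finset (Wt n) :=
  Finset.Ico (0 : ℤ) N ×ˢ Fintype.piFinset fun _ : Fin n => Finset.Ico (0 : ℤ) N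

/-- The one-dimensional count. -/
noncomputable def r1 (N : ℕ) (k : ℤ) : ℕ := ((Finset.Ico (0 : ℤ) N).filter fun t => t + k ∈ Finset.Ico (0 : ℤ) N).card

theorem r1_eq {N : ℕ} {k : ℤ} (h : |k| ≤ N) : (r1 N k : ℝ) = N - |(k : ℝ)| := by
  have h1 : ((Finset.Ico (0 : ℤ) N).filter fun t => t + k ∈ Finset.Ico (0 : ℤ) N) =
      Finset.Ico (max 0 (-k)) (min N (N - k)) := by
    ext t
    simp only [Finset.mem_filter, Finset.mem_Ico, max_le_iff, lt_min_iff]
    constructor
    · rintro ⟨⟨a, b⟩, c, d⟩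
      exact ⟨⟨a, by linarith⟩, b, by linarith⟩
    · rintro ⟨⟨a, b⟩, c, d⟩
      exact ⟨⟨a, c⟩, by linarith, by linarith⟩
  have h2 : (r1 N k : ℤ) = N - |k| := by
    unfold r1
    rw [h1, Int.card_Ico]
    rcases le_total 0 k with hk | hk
    · rw [abs_of_nonneg hk] at h ⊢
      rw [max_eq_left (by linarith), min_eq_right (by linarith), sub_zero]
      exact Int.toNat_of_nonneg (by linarith)
    · rw [abs_of_nonpos hk] at h ⊢
      rw [max_eq_right (by linarith), min_eq_left (by linarith)]
      exact Int.toNat_of_nonneg (by linarith)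
  have h3 : ((r1 N k : ℤ) : ℝ) = ((N - |k| : ℤ) : ℝ) := by rw [h2]
  push_cast at h3
  exact h3

theorem r1_tendsto (k : ℤ) : Tendsto (fun N : ℕ => (r1 N k : ℝ) / N) atTop (𝓝 1) := by
  have h1 : Tendsto (fun N : ℕ => 1 - |(k : ℝ)| / N) atTop (𝓝 (1 - 0)) :=
    tendsto_const_nhds.sub (tendsto_const_div_atTop_nhds_zero_nat _)
  rw [sub_zero] at h1
  refine h1.congr' ?_
  filter_upwards [eventually_gt_atTop 0, eventually_ge_atTop |k|.toNat] with N h2 h3
  have h4 : |k| ≤ N := by
    have := Int.toNat_of_nonneg (abs_nonneg k)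
    omega
  have h5 : (N : ℝ) ≠ 0 := by exact_mod_cast h2.ne'
  rw [r1_eq h4]
  field_simp

theorem rB_bx (N : ℕ) (w : Wt n) : rB (bx n N) w = r1 N w.1 * ∏ i, r1 N (w.2 i) := by
  unfold rB
  have h1 : ((bx n N).filter fun y => y + w ∈ bx n N) =
      ((Finset.Ico (0 : ℤ) N).filter fun t => t + w.1 ∈ Finset.Ico (0 : ℤ) N) ×ˢ
      Fintype.piFinset fun i : Fin n => ((Finset.Ico (0 : ℤ) N).filter fun t =>
        t + w.2 i ∈ Finset.Ico (0 : ℤ) N) := by
    ext y
    unfold bx
    simp only [Finset.mem_filter, Finset.mem_product, Fintype.mem_piFinset, Prod.fst_add,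
      Prod.snd_add, Pi.add_apply, forall_and]
    tauto
  rw [h1, Finset.card_product, Fintype.card_piFinset]
  rfl

theorem card_bx (n N : ℕ) : (bx n N).card = N * N ^ n := by
  unfold bx
  rw [Finset.card_product, Fintype.card_piFinset]
  simp

/-- The Folner property of the boxes. -/
theorem bx_tendsto (w : Wt n) :
    Tendsto (fun N : ℕ => (rB (bx n N) w : ℝ) / (bx n N).card) atTop (𝓝 1) := by
  have h1 : Tendsto (fun N : ℕ => (r1 N w.1 : ℝ) / N * ∏ i, (r1 N (w.2 i) : ℝ) / N) atTop
      (𝓝 (1 * ∏ _i : Fin n, 1)) :=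
    (r1_tendsto _).mul (tendsto_finsetProd _ fun i _ => r1_tendsto _)
  rw [Finset.prod_const_one, mul_one] at h1
  refine h1.congr fun N => ?_
  rw [rB_bx, card_bx]
  push_cast
  rw [Finset.prod_div_distrib, Finset.prod_const, Finset.card_univ, Fintype.card_fin,
    div_mul_div_comm]

end Pool.Agent.EEAL
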