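import Pool.Agent.W_eea520_L.Pd2
import Pool.Agent.W_eea520_c.C0
import Pool.Agent.W_bbc525_h89.Hull

/-!
# Positive definite functions on the weights are moments of measures (Herglotz)
-/

set_option autoImplicit false

namespace Pool.Agent.EEAL

open Filter Topology Pool.Agent.EEA520 Pool.Agent.EEAN Pool.Agent.EEAG1 Pool.Agent.EEAC

variable {n : ℕ}

/-- The vectors of the values of the weights. -/
def Kset (n : ℕ) (F : Finset (Wt n)) : Set (F → ℝ) :=
  {y | ∃ q : Torus n, UT q ∧ y = fun w => (q.ev w.1 : ℂ).re}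

/-- The value of a weight at a point of the product of circles. -/
noncomputable def cev (z : Circle × (Fin n → Circle)) (w : Wt n) : Circle :=
  z.1 ^ w.1 * ∏ i, z.2 i ^ w.2 i

theorem cev_coe (z : Circle × (Fin n → Circle)) (w : Wt n) :
    ((cev z w : Circle) : ℂ) = (z.1 : ℂ) ^ w.1 * ∏ i, (z.2 i : ℂ) ^ w.2 i := by
  unfold cev
  rw [Circle.coe_mul, Circle.coe_zpow]
  congr 1
  have h := map_prod Circle.coeHom (fun i => z.2 i ^ w.2 i) Finset.univ
  refine h.trans (Finset.prod_congr rfl fun i _ => ?_)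
  exact Circle.coe_zpow _ _

theorem isCompact_Kset (F : Finset (Wt n)) : IsCompact (Kset n F) := by
  have h1 : Kset n F = Set.range fun z : Circle × (Fin n → Circle) =>
      (fun w : F => ((cev z w.1 : Circle) : ℂ).re) := by
    ext y
    constructor
    · rintro ⟨q, hq, rfl⟩
      refine ⟨(⟨q.c, mem_sphere_zero_iff_norm.2 hq.1⟩,
        fun i => ⟨q.x i, mem_sphere_zero_iff_norm.2 (hq.2 i)⟩), ?_⟩
      funext w
      simp only [cev_coe]
      unfold Torus.ev
      push_cast
      rfl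
    · rintro ⟨z, rfl⟩
      refine ⟨⟨Circle.toUnits z.1, fun i => Circle.toUnits (z.2 i)⟩, ⟨?_, fun i => ?_⟩, ?_⟩
      · simp
      · simp
      · funext w
        simp only [cev_coe]
        unfold Torus.ev
        push_cast
        rfl
  rw [h1]
  refine isCompact_range (continuous_pi fun w => Complex.continuous_re.comp
    (continuous_subtype_val.comp ?_))
  unfold cev
  fun_prop

theorem pd_bound (N : ℕ) (F : Finset (Wt n)) (hN : 0 < N) :
    ∃ M : ℕ, 0 < M ∧ ∀ w : Wt n, (w ∈ F ∨ w = 0) →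
      ∀ x ∈ bx n N, ∀ y ∈ bx n N, ∀ v : Wt n, (v = x - y + w ∨ v = x - y - w) →
        |v.1| < M ∧ ∀ i, |v.2 i| < M := by
  obtain ⟨M, hM0, hM⟩ : ∃ M : ℕ, 0 < M ∧ ∀ w : Wt n, (w ∈ F ∨ w = 0) → (N : ℤ) + |w.1| ≤ M ∧
      ∀ i, (N : ℤ) + |w.2 i| ≤ M := by
    refine ⟨N + ∑ w ∈ F, ((w.1).natAbs + ∑ i, (w.2 i).natAbs), by omega, fun w hw => ?_⟩
    rcases hw with hw | rfl
    swap
    · refine ⟨?_, fun i => ?_⟩
      · rw [Prod.fst_zero, abs_zero, add_zero]
        exact_mod_cast Nat.le_add_right _ _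
      · rw [Prod.snd_zero, Pi.zero_apply, abs_zero, add_zero]
        exact_mod_cast Nat.le_add_right _ _
    have h1 := Finset.single_le_sum (f := fun w : Wt n => (w.1).natAbs + ∑ i, (w.2 i).natAbs)
      (fun _ _ => Nat.zero_le _) hw
    refine ⟨?_, fun i => ?_⟩
    · rw [Int.abs_eq_natAbs]
      exact_mod_cast Nat.add_le_add_left ((Nat.le_add_right _ _).trans h1) N
    · have h2 := Finset.single_le_sum (f := fun i => (w.2 i).natAbs)
        (fun _ _ => Nat.zero_le _) (Finset.mem_univ i)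
      rw [Int.abs_eq_natAbs]
      exact_mod_cast Nat.add_le_add_left ((h2.trans (Nat.le_add_left _ _)).trans h1) N
  have key : ∀ a b k l : ℤ, a ∈ Finset.Ico (0 : ℤ) N → b ∈ Finset.Ico (0 : ℤ) N →
      (N : ℤ) + |k| ≤ M → (l = a - b + k ∨ l = a - b - k) → |l| < M := by
    intro a b k l ha hb hk hl
    rw [Finset.mem_Ico] at ha hb
    have h1 : |a - b| < N := by
      rw [abs_lt]
      constructor <;> linarith
    rcases hl with rfl | rfl
    · have h2 := abs_add_le (a - b) k
      linarith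
    · have h2 := abs_sub (a - b) k
      linarith
  refine ⟨M, hM0, fun w hw x hx y hy v hv => ?_⟩
  unfold bx at hx hy
  rw [Finset.mem_product, Fintype.mem_piFinset] at hx hy
  refine ⟨key x.1 y.1 w.1 v.1 hx.1 hy.1 (hM w hw).1 ?_, fun i =>
    key (x.2 i) (y.2 i) (w.2 i) (v.2 i) (hx.2 i) (hy.2 i) ((hM w hw).2 i) ?_⟩
  · rcases hv with rfl | rfl
    · left
      rfl
    · right
      rfl
  · rcases hv with rfl | rfl
    · left
      rfl
    · right
      rfl

theorem pd_hull {C : Wt n → ℝ} (hC : PosDefG C) (h0 : 0 < C 0) (F : Finset (Wt n)) :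
    (fun w : F => C w.1 / C 0) ∈ convexHull ℝ (Kset n F) := by
  classical
  have hcl : IsClosed (convexHull ℝ (Kset n F)) :=
    (W_bbc525_h89.isCompact_hull (isCompact_Kset F)).isClosed
  have hlim : Tendsto (fun N : ℕ => fun w : F =>
      C w.1 / C 0 * ((rB (bx n N) w.1 : ℝ) / (bx n N).card)) atTop
      (𝓝 fun w : F => C w.1 / C 0) := by
    refine tendsto_pi_nhds.2 fun w => ?_
    have h1 := (bx_tendsto w.1).const_mul (C w.1 / C 0)
    rwa [mul_one] at h1
  refine hcl.mem_of_tendsto hlim ?_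
  filter_upwards [eventually_gt_atTop 0] with N hN
  obtain ⟨M, hM0, hM⟩ := pd_bound N F hN
  obtain ⟨q, hq, hsum⟩ := pd_points (n := n) hM0
  have hpart : ∀ w : Wt n, (w ∈ F ∨ w = 0) →
      ∑ a, (∑ x ∈ bx n N, ∑ y ∈ bx n N, C (x - y) * ((q a).ev (x - y) : ℂ).re) *
        ((q a).ev w : ℂ).re =
      Fintype.card (Fin M × (Fin n → Fin M)) * (C w * rB (bx n N) w) := by
    intro w hw
    refine pd_moment hC hq fun x hx y hy v hv hv0 => ?_
    have h1 := hM w hw x hx y hy v hv
    exact hsum v h1.1 h1.2 hv0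
  have hcard : (0 : ℝ) < Fintype.card (Fin M × (Fin n → Fin M)) := by
    have : Nonempty (Fin M) := ⟨⟨0, hM0⟩⟩
    exact_mod_cast Fintype.card_pos
  have hB : (0 : ℝ) < (bx n N).card := by
    rw [card_bx]
    positivity
  have hr0 : rB (bx n N) 0 = (bx n N).card := by
    unfold rB
    congr 1
    refine Finset.filter_true_of_mem fun y hy => ?_
    rwa [add_zero]
  set T : ℝ := Fintype.card (Fin M × (Fin n → Fin M)) * (C 0 * (bx n N).card) with hT
  have hTpos : 0 < T := by positivity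
  set S : Fin M × (Fin n → Fin M) → ℝ := fun a =>
    ∑ x ∈ bx n N, ∑ y ∈ bx n N, C (x - y) * ((q a).ev (x - y) : ℂ).re with hS
  have hmass : ∑ a, S a / T = 1 := by
    rw [← Finset.sum_div, div_eq_one_iff_eq hTpos.ne']
    have h1 := hpart 0 (Or.inr rfl)
    have h2 : ∀ a, ((q a).ev (0 : Wt n) : ℂ).re = 1 := by
      intro a
      unfold Torus.ev
      simp
    simp only [h2, mul_one, hr0] at h1
    exact h1
  have hmem : ∑ a, (S a / T) • (fun w : F => ((q a).ev w.1 : ℂ).re) ∈
      convexHull ℝ (Kset n F) :=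
    (convex_convexHull ℝ (Kset n F)).sum_mem
      (fun a _ => div_nonneg (pd_fejer_nonneg hC (hq a) _) hTpos.le) hmass
      fun a _ => subset_convexHull ℝ _ ⟨q a, hq a, rfl⟩
  convert hmem using 1
  funext w
  rw [Finset.sum_apply]
  simp only [Pi.smul_apply, smul_eq_mul]
  have h1 := hpart w.1 (Or.inl w.2)
  have h2 : ∑ a, S a / T * ((q a).ev w.1 : ℂ).re = (∑ a, S a * ((q a).ev w.1 : ℂ).re) / T := by
    rw [Finset.sum_div]
    refine Finset.sum_congr rfl fun a _ => ?_
    ring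
  rw [h2, h1, hT]
  field_simp

/-- A positive definite function: moments of a finitely supported measure on the compact torus. -/
theorem pd_measure0 {C : Wt n → ℝ} (hC : PosDefG C) (h0 : 0 < C 0) (F : Finset (Wt n)) :
    ∃ ν : {q : Torus n // UT q} →₀ ℝ, IsProb ν ∧
      ∀ w ∈ F, (ν.sum fun q z => z * (q.1.ev w : ℂ).re) = C w / C 0 := by
  classical
  obtain ⟨ι, _, u, z, hu, hu1, hz, hzs⟩ := mem_convexHull_iff_exists_fintype.1 (pd_hull hC h0 F)
  choose q hq hqz using hz
  let ν : {q : Torus n // UT q} →₀ ℝ := ∑ i, Finsupp.single ⟨q i, hq i⟩ (u i)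
  have hsum : ∀ g : {q : Torus n // UT q} → ℝ, (ν.sum fun q z => z * g q) =
      ∑ i, u i * g ⟨q i, hq i⟩ := by
    intro g
    have h1 : (ν.sum fun q z => z * g q) =
        ∑ i, ((Finsupp.single ⟨q i, hq i⟩ (u i) : {q : Torus n // UT q} →₀ ℝ).sum
          fun q z => z * g q) :=
      (Finsupp.sum_finsetSum_index (by simp) (by intro a b c; ring)).symm
    rw [h1]
    refine Finset.sum_congr rfl fun i _ => ?_
    rw [Finsupp.sum_single_index (by ring)]
  refine ⟨ν, ⟨fun r => ?_, ?_⟩, fun w hw => ?_⟩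
  · show 0 ≤ (∑ i, Finsupp.single (⟨q i, hq i⟩ : {q : Torus n // UT q}) (u i)) r
    rw [Finsupp.finsetSum_apply]
    refine Finset.sum_nonneg fun i _ => ?_
    rw [Finsupp.single_apply]
    split_ifs
    · exact hu i
    · exact le_rfl
  · have h1 := hsum fun _ => 1
    simp only [mul_one] at h1
    rw [h1, hu1]
  · rw [hsum fun q => (q.1.ev w : ℂ).re]
    have h1 := congrFun hzs ⟨w, hw⟩
    simp only at h1
    rw [← h1, Finset.sum_apply]
    refine Finset.sum_congr rfl fun i _ => ?_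
    rw [Pi.smul_apply, smul_eq_mul, hqz i]

end Pool.Agent.EEAL
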