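import Pool.Agent.W_eea520_L.Pd3

/-!
# Invariant positive definite functions on the weights are the laws of measures on the classes
-/

set_option autoImplicit false

namespace Pool.Agent.EEAL

open Filter Topology Pool.Agent.EEA520 Pool.Agent.EEAN Pool.Agent.EEAG1 Pool.Agent.EEAC

variable {n : ℕ}

theorem pd_support {C : Wt n → ℝ} (h0 : 0 < C 0) (hper : C (2, 1) = C 0)
    {ν : {q : Torus n // UT q} →₀ ℝ} (hν : IsProb ν)
    (h : (ν.sum fun q z => z * (q.1.ev (2, 1) : ℂ).re) = C (2, 1) / C 0) :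
    ∀ q ∈ ν.support, q.1.c ^ 2 * ∏ i, q.1.x i = 1 := by
  have h1 : (ν.sum fun q z => z * (q.1.ev (2, 1) : ℂ).re) = 1 := by
    rw [h, hper, div_self h0.ne']
  have hle : ∀ q : {q : Torus n // UT q}, (q.1.ev (2, 1) : ℂ).re ≤ 1 := by
    intro q
    exact (Complex.re_le_norm _).trans (q.2.norm_ev _).le
  have h2 : ∑ q ∈ ν.support, ν q * (1 - (q.1.ev (2, 1) : ℂ).re) = 0 := by
    have e1 : ∑ q ∈ ν.support, ν q * (1 - (q.1.ev (2, 1) : ℂ).re) =
        (ν.sum fun _ a => a) - ν.sum fun q z => z * (q.1.ev (2, 1) : ℂ).re := by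
      unfold Finsupp.sum
      rw [← Finset.sum_sub_distrib]
      refine Finset.sum_congr rfl fun q _ => ?_
      ring
    rw [e1, hν.2, h1, sub_self]
  have h3 := (Finset.sum_eq_zero_iff_of_nonneg fun q _ =>
    mul_nonneg (hν.1 q) (sub_nonneg.2 (hle q))).1 h2
  intro q hq
  have h4 := h3 q hq
  have h5 : (q.1.ev (2, 1) : ℂ).re = 1 := by
    rcases mul_eq_zero.1 h4 with h6 | h6
    · exact absurd h6 (Finsupp.mem_support_iff.1 hq)
    · linarith
  have h6 : (q.1.ev (2, 1) : ℂ) = 1 := by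
    have h7 := q.2.norm_ev (2, 1)
    have h8 := Complex.sq_norm (q.1.ev (2, 1) : ℂ)
    rw [h7, Complex.normSq_apply, h5] at h8
    have h9 : (q.1.ev (2, 1) : ℂ).im = 0 := by
      have h10 : (q.1.ev (2, 1) : ℂ).im * (q.1.ev (2, 1) : ℂ).im = 0 := by linarith
      exact mul_self_eq_zero.1 h10
    exact Complex.ext h5 h9
  have h7 : q.1.ev (2, 1) = 1 := Units.ext h6
  have h8 : q.1.ev (2, 1) = q.1.c ^ 2 * ∏ i, q.1.x i := by
    unfold Torus.ev
    simp only [Pi.one_apply, zpow_one]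
    rfl
  rw [← h8, h7]

/-- Restriction of a finitely supported measure. -/
theorem pd_restrict {Q : Type} {P : Q → Prop} {R : Type} (f : R → Q) (hf : Function.Injective f)
    {ν : Q →₀ ℝ} (hν : IsProb ν) (hP : ∀ q ∈ ν.support, P q) (hR : ∀ q, P q → ∃ r, f r = q) :
    ∃ μ : R →₀ ℝ, IsProb μ ∧ ∀ g : Q → ℝ, (μ.sum fun r z => z * g (f r)) =
      ν.sum fun q z => z * g q := by
  have hb : Set.BijOn f (f ⁻¹' (ν.support : Set Q)) (ν.support : Set Q) :=
    ⟨fun r hr => hr, hf.injOn, fun q hq => by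
      obtain ⟨r, rfl⟩ := hR q (hP q hq)
      exact ⟨r, hq, rfl⟩⟩
  refine ⟨ν.comapDomain f hb.injOn, ⟨fun r => ?_, ?_⟩, fun g => ?_⟩
  · rw [Finsupp.comapDomain_apply]
    exact hν.1 _
  · exact (Finsupp.sum_comapDomain f ν (fun _ a => a) hb).trans hν.2
  · exact Finsupp.sum_comapDomain f ν (fun q z => z * g q) hb

/-- MEASURES. An invariant positive definite function is the system of the moments of a finitely
supported probability measure on the compact torus (with trivial central character if `ε`), for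
every finite set of weights. -/
theorem exists_measure (ε : Prop) {C : Wt n → ℝ} (hC : PosDefG C)
    (hinv : ∀ (g : WG n) (w : Wt n), C (act g w) = C w) (h0 : C 0 = Fintype.card (WG n))
    (hper : ε → ∀ w : Wt n, C (w + (2, 1)) = C w) (F : Finset (Wt n)) :
    ∃ ν : {q : Torus n // (‖(q.c : ℂ)‖ = 1 ∧ ∀ i, ‖(q.x i : ℂ)‖ = 1) ∧
        (ε → q.c ^ 2 * ∏ i, q.x i = 1)} →₀ ℝ,
      IsProb ν ∧ ∀ w ∈ F, (ν.sum fun q z => z * wre q.1 w) = C w := by
  classical
  have hpos : 0 < C 0 := by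
    rw [h0]
    exact_mod_cast Fintype.card_pos
  obtain ⟨ν₀, hν₀, hm⟩ := pd_measure0 hC hpos
    (insert (2, 1) (F.biUnion fun w => Finset.univ.image fun g : WG n => act g w))
  have hP : ∀ q ∈ ν₀.support, (ε → q.1.c ^ 2 * ∏ i, q.1.x i = 1) := by
    intro q hq hε
    refine pd_support hpos ?_ hν₀ (hm _ (Finset.mem_insert_self _ _)) q hq
    have h1 := hper hε 0
    rwa [zero_add] at h1
  obtain ⟨μ, hμ, hs⟩ := pd_restrict (P := fun q : {q : Torus n // UT q} =>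
      (ε → q.1.c ^ 2 * ∏ i, q.1.x i = 1))
    (fun r : {q : Torus n // (‖(q.c : ℂ)‖ = 1 ∧ ∀ i, ‖(q.x i : ℂ)‖ = 1) ∧
        (ε → q.c ^ 2 * ∏ i, q.x i = 1)} => (⟨r.1, r.2.1⟩ : {q : Torus n // UT q}))
    (fun a b h => Subtype.ext (congrArg (fun r : {q : Torus n // UT q} => r.1) h)) hν₀ hP
    fun q hq => ⟨⟨q.1, q.2, hq⟩, rfl⟩
  refine ⟨μ, hμ, fun w hw => ?_⟩
  have h1 := hs fun q => wre q.1 w
  refine h1.trans ?_
  have h2 : (ν₀.sum fun q z => z * wre q.1 w) =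
      ∑ g : WG n, ν₀.sum fun q z => z * (q.1.ev (act g w) : ℂ).re := by
    unfold Finsupp.sum wre
    rw [Finset.sum_comm]
    exact Finset.sum_congr rfl fun q _ => Finset.mul_sum _ _ _
  have h3 : ∀ g : WG n, (ν₀.sum fun q z => z * (q.1.ev (act g w) : ℂ).re) = C w / C 0 := by
    intro g
    rw [hm (act g w) (Finset.mem_insert_of_mem (Finset.mem_biUnion.2 ⟨w, hw,
      Finset.mem_image_of_mem _ (Finset.mem_univ g)⟩)), hinv]
  rw [h2, Finset.sum_congr rfl fun g _ => h3 g, Finset.sum_const, Finset.card_univ,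
    nsmul_eq_mul, ← h0, mul_div_cancel₀ _ hpos.ne']

/-- The same for `XT n`. -/
theorem exists_measureX {C : Wt n → ℝ} (hC : PosDefG C)
    (hinv : ∀ (g : WG n) (w : Wt n), C (act g w) = C w) (h0 : C 0 = Fintype.card (WG n))
    (hper : ∀ w : Wt n, C (w + (2, 1)) = C w) (F : Finset (Wt n)) :
    ∃ ν : {q : Torus n // IsPt q} →₀ ℝ,
      IsProb ν ∧ ∀ w ∈ F, (ν.sum fun q z => z * wre q.1 w) = C w := by
  obtain ⟨ν, hν, hm⟩ := exists_measure True hC hinv h0 (fun _ => hper) F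
  obtain ⟨μ, hμ, hs⟩ := pd_restrict (P := fun _ => True)
    (fun r : {q : Torus n // IsPt q} =>
      (⟨r.1, r.2.1, fun _ => r.2.2⟩ : {q : Torus n // (‖(q.c : ℂ)‖ = 1 ∧ ∀ i, ‖(q.x i : ℂ)‖ = 1) ∧
        (True → q.c ^ 2 * ∏ i, q.x i = 1)}))
    (fun a b h => Subtype.ext (congrArg (fun r : {q : Torus n // (‖(q.c : ℂ)‖ = 1 ∧
      ∀ i, ‖(q.x i : ℂ)‖ = 1) ∧ (True → q.c ^ 2 * ∏ i, q.x i = 1)} => r.1) h)) hν
    (fun _ _ => trivial) fun q _ => ⟨⟨q.1, q.2.1, q.2.2 trivial⟩, rfl⟩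
  exact ⟨μ, hμ, fun w hw => (hs fun q => wre q.1 w).trans (hm w hw)⟩

end Pool.Agent.EEAL
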