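import Pool.Agent.W_eea520_L.GrpE

/-!
# Tempered systems with prescribed orders on the whole line: the Euler products (MP_eea520_nt)
-/

set_option autoImplicit false

namespace Pool.Agent.EEAL

open Filter Topology Pool.Agent.EEA520 Pool.Agent.EEAN Pool.Agent.EEAG1 LSeries Pool.Agent.EEAC

variable {n : ℕ} {ε : Prop}

/-- The points at all natural numbers. -/
noncomputable def xxE (x : Pr → XE ε n) (N : ℕ) : Torus n :=
  if h : N.Prime then (x ⟨N, h⟩).1 else ⟨1, fun _ => 1⟩

theorem xxE_isPt (x : Pr → XE ε n) (N : ℕ) : IsPtE ε (xxE x N) := by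
  unfold xxE
  split_ifs
  · exact (x _).2
  · exact isPtE_one

theorem xxE_prime (x : Pr → XE ε n) (p : Pr) : xxE x p = (x p).1 := by
  unfold xxE
  rw [dif_pos p.2]
  rfl

/-- The coefficients for one weight. -/
noncomputable def uuE (x : Pr → XE ε n) (w : Wt n) (N : ℕ) : ℂ :=
  (pc N : ℂ) * (orbC (powT (N.factorization N.minFac) (xxE x N.minFac)) w /
    (Fintype.card (WG n) : ℂ))

theorem uuE_summable (x : Pr → XE ε n) (w : Wt n) {s : ℂ} (hs : 1 < s.re) :
    LSeriesSummable (uuE x w) s :=
  LSeriesSummable_of_bounded_of_one_lt_re (m := 1) (fun N _ => by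
    unfold uuE
    rw [norm_mul, Complex.norm_real, Real.norm_of_nonneg (pc_nonneg N), norm_div,
      Complex.norm_natCast]
    refine mul_le_one₀ (pc_le_one N) (by positivity) ?_
    rw [div_le_one card_posE]
    exact norm_orbC_le (isPtE_powT _ (xxE_isPt x _)) w) hs

theorem cfE_summable (x : Pr → XE ε n) (w : Wt n) {s : ℂ} (hs : 1 < s.re) :
    LSeriesSummable (cf (xxE x) w) s :=
  LSeriesSummable_of_bounded_of_one_lt_re
    (fun N _ => cf_le (fun N w => (xxE_isPt x N).norm_ev w) w N) hs

/-- The average over the Weyl group. -/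
theorem trace_avg {m : Wt n →₀ ℤ} (hm : IsCharacter m) (q : Torus n) :
    (m.sum fun w e => (e : ℂ) * (q.ev w : ℂ)) =
      m.sum fun w e => (e : ℂ) * (orbC q w / (Fintype.card (WG n) : ℂ)) := by
  have hc : ((Fintype.card (WG n) : ℕ) : ℂ) ≠ 0 := by
    have := card_ne_zero' (n := n)
    exact_mod_cast this
  have h1 : ∀ g : WG n, (m.sum fun w e => (e : ℂ) * (q.ev (EEA520.act g w) : ℂ)) =
      m.sum fun w e => (e : ℂ) * (q.ev w : ℂ) := by
    intro g
    apply Complex.ext
    · have h2 := sum_act hm g fun w => ((q.ev w : ℂ)).re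
      unfold Finsupp.sum at h2 ⊢
      rw [Complex.re_sum, Complex.re_sum]
      simpa using h2
    · have h2 := sum_act hm g fun w => ((q.ev w : ℂ)).im
      unfold Finsupp.sum at h2 ⊢
      rw [Complex.im_sum, Complex.im_sum]
      simpa using h2
  have h2 : (m.sum fun w e => (e : ℂ) * (orbC q w / (Fintype.card (WG n) : ℂ))) =
      (∑ g : WG n, m.sum fun w e => (e : ℂ) * (q.ev (EEA520.act g w) : ℂ)) /
        (Fintype.card (WG n) : ℂ) := by
    unfold Finsupp.sum orbC
    rw [Finset.sum_comm, Finset.sum_div]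
    refine Finset.sum_congr rfl fun w _ => ?_
    rw [← Finset.mul_sum]
    ring
  rw [h2, Finset.sum_congr rfl fun g _ => h1 g, Finset.sum_const, Finset.card_univ, nsmul_eq_mul,
    mul_div_cancel_left₀ _ hc]

/-- The logarithm of the Euler product of a character in terms of the orbit functions. -/
theorem sum_cfE (x : Pr → XE ε n) {m : Wt n →₀ ℤ} (hm : IsCharacter m) {s : ℂ} (hs : 1 < s.re) :
    (m.sum fun w e => (e : ℂ) * LSeries (cf (xxE x) w) s) =
      m.sum fun w e => (e : ℂ) * LSeries (uuE x w) s := by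
  unfold Finsupp.sum
  rw [LSeries_sum' m.support (fun w => cf (xxE x) w) (fun w _ => cfE_summable x w hs)
      fun w => (m w : ℂ),
    LSeries_sum' m.support (fun w => uuE x w) (fun w _ => uuE_summable x w hs)
      fun w => (m w : ℂ)]
  congr 1
  funext N
  have h1 := trace_avg hm (powT (N.factorization N.minFac) (xxE x N.minFac))
  unfold Finsupp.sum at h1
  have h2 : ∑ w ∈ m.support, (m w : ℂ) * cf (xxE x) w N = (pc N : ℂ) *
      ∑ w ∈ m.support, ((m w : ℤ) : ℂ) *
        (((powT (N.factorization N.minFac) (xxE x N.minFac)).ev w : ℂˣ) : ℂ) := by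
    rw [Finset.mul_sum]
    refine Finset.sum_congr rfl fun w _ => ?_
    rw [ev_powT, Units.val_pow_eq_pow_val]
    unfold cf
    ring
  rw [h2, h1, Finset.mul_sum]
  refine Finset.sum_congr rfl fun w _ => ?_
  unfold uuE
  ring

/-- The targets. -/
noncomputable def aE (c : Wt n → ℝ →₀ ℤ) (i : IE ε n) (N : ℕ) : ℝ :=
  if N = 0 then 0 else tg (fun w => mcC c w N) i

theorem aE_le {c : Wt n → ℝ →₀ ℤ} (hM : ∀ N : ℕ, N ≠ 0 → HasMeas ε fun w => mcC c w N)
    (i : IE ε n) (N : ℕ) : |aE c i N| ≤ 1 := by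
  unfold aE
  split_ifs with h
  · simp
  · exact tg_le (hM N h) i

theorem rrD_summable {c : Wt n → ℝ →₀ ℤ} (hM : ∀ N : ℕ, N ≠ 0 → HasMeas ε fun w => mcC c w N)
    (x : Pr → XE ε n) (i : IE ε n) {s : ℂ} (hs : 1 < s.re) :
    LSeriesSummable (fun N => (rrD pwE (fun j : IE ε n => j.1) (aE c) x i N : ℂ)) s := by
  refine LSeriesSummable_of_bounded_of_one_lt_re (m := 2) (fun N hN => ?_) hs
  rw [Complex.norm_real, Real.norm_eq_abs]
  unfold rrD
  split_ifs with h
  · have h1 : 1 ≤ N.factorization N.minFac := by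
      obtain ⟨p, k, hp, hk, rfl⟩ := (isPrimePow_nat_iff _).1 h
      obtain ⟨j, rfl⟩ := Nat.exists_eq_add_of_lt hk
      rw [zero_add, fac_pow hp]
      omega
    have h2 : (1 : ℝ) ≤ (N.factorization N.minFac : ℝ) := by exact_mod_cast h1
    have h3 : |(1 - (N : ℝ) ^ (-(1 / 4) : ℝ))| ≤ 1 := by
      have h4 : (N : ℝ) ^ (-(1 / 4) : ℝ) ≤ 1 := Real.rpow_le_one_of_one_le_of_nonpos
        (by exact_mod_cast Nat.one_le_iff_ne_zero.2 hN) (by norm_num)
      have h5 : 0 ≤ (N : ℝ) ^ (-(1 / 4) : ℝ) := by positivity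
      rw [abs_le]
      constructor <;> linarith
    rw [abs_div, abs_of_pos (by linarith : (0 : ℝ) < (N.factorization N.minFac : ℝ)),
      div_le_iff₀ (by linarith)]
    refine (abs_sub _ _).trans ?_
    have h4 := IE_le i (pwE (N.factorization N.minFac) (x ⟨N.minFac, Nat.minFac_prime h.ne_one⟩))
    have h5 : |(1 - (N : ℝ) ^ (-(1 / 4) : ℝ)) * aE c i N| ≤ 1 := by
      rw [abs_mul]
      exact mul_le_one₀ h3 (abs_nonneg _) (aE_le hM i N)
    linarith
  · rw [abs_zero]
    norm_num

/-- One nontrivial weight. -/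
theorem one_weight {c : Wt n → ℝ →₀ ℤ} (hM : ∀ N : ℕ, N ≠ 0 → HasMeas ε fun w => mcC c w N)
    {x : Pr → XE ε n} {H : IE ε n → ℂ → ℂ} (hH : ∀ i, Differentiable ℂ (H i))
    (hx : ∀ i s, 1 < s.re →
      LSeries (fun N => (rrD pwE (fun j : IE ε n => j.1) (aE c) x i N : ℂ)) s = H i s)
    (w : Wt n) (hw : ¬ TrivE ε w) :
    ∃ HW : ℂ → ℂ, Differentiable ℂ HW ∧ ∀ s : ℂ, 1 < s.re → LSeries (uuE x w) s = HW s +
      (c w).sum fun t z => (z : ℂ) / (Fintype.card (WG n) : ℂ) *
        (LSeries (fun N => (pc N : ℂ)) (s - t * Complex.I) -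
          LSeries (fun N => (pc N : ℂ)) (s - t * Complex.I + 1 / 4)) := by
  classical
  obtain ⟨α, hα⟩ := exists_exp (f := reF w) ⟨w, hw, Or.inl rfl⟩
  obtain ⟨β, hβ⟩ := exists_exp (f := imF w) ⟨w, hw, Or.inr rfl⟩
  refine ⟨fun s => (∑ i ∈ α.support, (α i : ℂ) * H i s) +
    Complex.I * ∑ i ∈ β.support, (β i : ℂ) * H i s, ?_, fun s hs => ?_⟩
  · exact (Differentiable.fun_sum fun i _ => (hH i).const_mul _).add
      ((Differentiable.fun_sum fun i _ => (hH i).const_mul _).const_mul _)
  · set r : IE ε n → ℕ → ℂ := fun i N =>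
      (rrD pwE (fun j : IE ε n => j.1) (aE c) x i N : ℂ) with hr
    have h1 : ∀ i, LSeriesHasSum (r i) s (H i s) := by
      intro i
      have h2 := (rrD_summable hM x i hs).LSeriesHasSum
      rw [hx i s hs] at h2
      exact h2
    have h2 : LSeriesHasSum (fun N => (∑ i ∈ α.support, (α i : ℂ) * r i N) +
        Complex.I * ∑ i ∈ β.support, (β i : ℂ) * r i N) s
        ((∑ i ∈ α.support, (α i : ℂ) * H i s) +
        Complex.I * ∑ i ∈ β.support, (β i : ℂ) * H i s) := by
      have h3 : ∀ γ : IE ε n →₀ ℝ, HasSum (fun N => ∑ i ∈ γ.support, (γ i : ℂ) * term (r i) s N)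
          (∑ i ∈ γ.support, (γ i : ℂ) * H i s) := fun γ =>
        hasSum_sum fun i _ => (h1 i).mul_left _
      refine ((h3 α).add ((h3 β).mul_left Complex.I)).congr_fun fun N => ?_
      by_cases hN : N = 0
      · simp [hN]
      · simp only [term_of_ne_zero hN]
        rw [add_div, Finset.sum_div, mul_div_assoc, Finset.sum_div]
        congr 1
        · exact Finset.sum_congr rfl fun i _ => by ring
        · congr 1
          exact Finset.sum_congr rfl fun i _ => by ring
    have h3 := h2.add (main_hasSum c w hs)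
    rw [← h3.LSeries_eq]
    refine LSeries_congr (fun {N} hN => ?_) s
    simp only [Pi.add_apply]
    have hc : ((Fintype.card (WG n) : ℕ) : ℂ) ≠ 0 := by
      have := card_ne_zero' (n := n)
      exact_mod_cast this
    by_cases hP : IsPrimePow N
    · have hp := Nat.minFac_prime hP.ne_one
      have h1' : 1 ≤ N.factorization N.minFac :=
        (hp.dvd_iff_one_le_factorization hN).1 (Nat.minFac_dvd N)
      have h2' : ((N.factorization N.minFac : ℕ) : ℂ) ≠ 0 := by
        have : N.factorization N.minFac ≠ 0 := by omega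
        exact_mod_cast this
      set k := N.factorization N.minFac with hk
      set q : XE ε n := pwE k (x ⟨N.minFac, hp⟩) with hq
      have hxx : powT k (xxE x N.minFac) = q.1 := by
        rw [hq]
        unfold xxE pwE
        rw [dif_pos hp]
      have hpc : (pc N : ℂ) = 1 / (k : ℂ) := by
        unfold pc
        rw [if_pos hP]
        push_cast
        rw [hk]
      have hri : ∀ i : IE ε n, r i N = ((i.1 q : ℝ) : ℂ) / (k : ℂ) -
          (1 - (((N : ℝ) ^ (-(1 / 4) : ℝ) : ℝ) : ℂ)) / (k : ℂ) *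
            ((tg (fun w => mcC c w N) i : ℝ) : ℂ) := by
        intro i
        rw [hr]
        simp only
        unfold rrD aE
        rw [dif_pos hP, if_neg hN]
        push_cast
        rw [← hk, ← hq]
        ring
      have hA : ∀ (γ : IE ε n →₀ ℝ) (f : XE ε n → ℝ) (y : ℝ)
          (_ : (γ.sum fun i z => z * i.1 q) = f q)
          (_ : (γ.sum fun i z => z * tg (fun w => mcC c w N) i) = y),
          ∑ i ∈ γ.support, (γ i : ℂ) * r i N = ((f q : ℝ) : ℂ) / (k : ℂ) -
            (1 - (((N : ℝ) ^ (-(1 / 4) : ℝ) : ℝ) : ℂ)) / (k : ℂ) * (y : ℂ) := by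
        intro γ f y hf hy
        rw [← hf, ← hy]
        unfold Finsupp.sum
        push_cast
        rw [Finset.sum_div, Finset.mul_sum, ← Finset.sum_sub_distrib]
        refine Finset.sum_congr rfl fun i _ => ?_
        rw [hri]
        ring
      rw [hA α (reF w) _ (hα q) (tg_comb (hM N hN) w α (reF w) hα _ fun ν h =>
          meas_re (M := fun w => mcC c w N) h),
        hA β (imF w) _ (hβ q) (tg_comb (hM N hN) w β (imF w) hβ _ fun ν h =>
          meas_im (M := fun w => mcC c w N) h)]
      unfold uuE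
      rw [← hk, hxx, hpc]
      have hz1 : orbC q.1 w / (Fintype.card (WG n) : ℂ) =
          ((reF w q : ℝ) : ℂ) + Complex.I * ((imF w q : ℝ) : ℂ) := by
        unfold reF imF
        push_cast
        conv_lhs => rw [← Complex.re_add_im (orbC q.1 w)]
        ring
      have hz2 : mcC c w N / (Fintype.card (WG n) : ℂ) =
          (((mcC c w N).re / Fintype.card (WG n) : ℝ) : ℂ) +
            Complex.I * (((mcC c w N).im / Fintype.card (WG n) : ℝ) : ℂ) := by
        push_cast
        conv_lhs => rw [← Complex.re_add_im (mcC c w N)]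
        ring
      rw [hz1, hz2]
      ring
    · have hpc : (pc N : ℂ) = 0 := by
        unfold pc
        rw [if_neg hP]
        simp
      have hri : ∀ i : IE ε n, r i N = 0 := by
        intro i
        rw [hr]
        simp only
        unfold rrD
        rw [dif_neg hP]
        simp
      unfold uuE
      simp only [hri, hpc, mul_zero, zero_mul, Finset.sum_const_zero, add_zero]

/-- The series at one point of the line. -/
noncomputable def zz (t : ℝ) (s : ℂ) : ℂ :=
  riemannZeta (s - t * Complex.I) / riemannZeta (s - t * Complex.I + 1 / 4)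

/-- GROUP PART. A law `c` on the line is the law of a tempered system, all of whose Euler products are
of the form `∏ (ζ(s - i t) / ζ(s - i t + 1/4)) ^ (a t) * ζ(s + 1/4) ^ Z * exp (H s)`. -/
theorem realize_E {c : Wt n → ℝ →₀ ℤ} (hM : ∀ N : ℕ, N ≠ 0 → HasMeas ε fun w => mcC c w N)
    (hconst : ∀ w, TrivE ε w → c w = Finsupp.single 0 (Fintype.card (WG n) : ℤ))
    (ha : ∀ m : Wt n →₀ ℤ, IsCharacter m → ∀ t : ℝ,
      ∃ a : ℤ, (Fintype.card (WG n) : ℤ) * a = m.sum fun w e => e * c w t) :
    ∃ π : GSys n, Tempered π ∧ (ε → ∀ p, (π p).c ^ 2 * ∏ i, (π p).x i = 1) ∧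
      ∀ m : Wt n →₀ ℤ, IsCharacter m → ∃ (T : Finset ℝ) (a : ℝ → ℤ) (Z : ℤ) (H : ℂ → ℂ),
        (∀ t, (Fintype.card (WG n) : ℤ) * a t = m.sum fun w e => e * c w t) ∧
        (∀ t, t ∉ T → a t = 0) ∧ Differentiable ℂ H ∧ ∀ s : ℂ, 1 < s.re →
          HasProd (fun p : Pr => (π p).factor m (((p : ℕ) : ℂ) ^ (-s)))
            ((∏ t ∈ T, zz t s ^ a t) * riemannZeta (s + 1 / 4) ^ Z * Complex.exp (H s)) := by
  classical
  obtain ⟨x, hx⟩ := coreD (X := XE ε n) pwE pwE_one (ι := IE ε n) (fun i => i.1)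
    (fun i q => IE_le i q) (aE c) (aE_le hM)
    (fun M p => by
      have hp0 : (p : ℕ) ≠ 0 := p.2.ne_zero
      obtain ⟨ν, hν, h1⟩ := hM p hp0 (M.image wtE)
      refine ⟨ν, hν, fun i hi => ?_⟩
      unfold aE
      rw [if_neg hp0]
      exact tg_meas (h1 (wtE i) (Finset.mem_image_of_mem _ hi)))
    gapE
  choose H hH1 hH2 using hx
  refine ⟨fun p => (x p).1, fun p => (x p).2.1, fun h p => (x p).2.2 h, fun m hm => ?_⟩
  choose a ha using ha m hm
  have hc0 : ((Fintype.card (WG n) : ℕ) : ℂ) ≠ 0 := by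
    have := card_ne_zero' (n := n)
    exact_mod_cast this
  have hcz : ((Fintype.card (WG n) : ℕ) : ℤ) ≠ 0 := by
    have := card_ne_zero' (n := n)
    exact_mod_cast this
  -- one weight
  have hone : ∀ w : Wt n, ∃ HW : ℂ → ℂ, Differentiable ℂ HW ∧ ∀ s : ℂ, 1 < s.re →
      LSeries (uuE x w) s = HW s +
      ((c w).sum fun t z => (z : ℂ) / (Fintype.card (WG n) : ℂ) *
        (LSeries (fun N => (pc N : ℂ)) (s - t * Complex.I) -
          LSeries (fun N => (pc N : ℂ)) (s - t * Complex.I + 1 / 4))) +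
      (if TrivE ε w then LSeries (fun N => (pc N : ℂ)) (s + 1 / 4) else 0) := by
    intro w
    by_cases hw : TrivE ε w
    · refine ⟨fun _ => 0, differentiable_const _, fun s hs => ?_⟩
      have h2 : uuE x w = fun N => (pc N : ℂ) := by
        funext N
        unfold uuE orbC
        have h3 : ∀ g : WG n, (((powT (N.factorization N.minFac) (xxE x N.minFac)).ev
            (EEA520.act g w) : ℂˣ) : ℂ) = 1 := by
          intro g
          rw [hw.act g _ (isPtE_powT _ (xxE_isPt x _)), Units.val_one]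
        rw [Finset.sum_congr rfl fun g _ => h3 g, Finset.sum_const, Finset.card_univ, nsmul_eq_mul,
          mul_one, div_self hc0, mul_one]
      rw [h2, hconst w hw, if_pos hw, Finsupp.sum_single_index (by simp)]
      rw [Int.cast_natCast, div_self hc0]
      simp
    · obtain ⟨HW, h1, h2⟩ := one_weight hM hH1 (fun i s hs => hH2 i s hs) w hw
      refine ⟨HW, h1, fun s hs => ?_⟩
      rw [h2 s hs, if_neg hw, add_zero]
  choose HW hHW hHW2 using hone
  set T : Finset ℝ := m.support.biUnion fun w => (c w).support with hT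
  have haT : ∀ t, t ∉ T → a t = 0 := by
    intro t ht
    have h1 : (m.sum fun w e => e * c w t) = 0 := by
      refine Finset.sum_eq_zero fun w hw => ?_
      have h2 : c w t = 0 := by
        by_contra h3
        exact ht (Finset.mem_biUnion.2 ⟨w, hw, Finsupp.mem_support_iff.2 h3⟩)
      simp only [h2, mul_zero]
    have h2 := ha t
    rw [h1] at h2
    exact (mul_eq_zero.1 h2).resolve_left hcz
  let Z : ℤ := ∑ w ∈ m.support, if TrivE ε w then m w else 0
  refine ⟨T, a, Z, fun s => ∑ w ∈ m.support, (m w : ℂ) * HW w s, ha, haT, ?_, fun s hs => ?_⟩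
  · exact Differentiable.fun_sum fun w _ => (hHW w).const_mul _
  · have hs' : 1 < (s + 1 / 4).re := by
      have : (s + 1 / 4).re = s.re + 1 / 4 := by
        rw [Complex.add_re]
        norm_num
      rw [this]
      linarith
    have hst : ∀ t : ℝ, 1 < (s - t * Complex.I).re := by
      intro t
      simpa using hs
    have hst' : ∀ t : ℝ, 1 < (s - t * Complex.I + 1 / 4).re := by
      intro t
      have : (s - t * Complex.I + 1 / 4).re = (s - t * Complex.I).re + 1 / 4 := by
        rw [Complex.add_re]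
        norm_num
      rw [this]
      linarith [hst t]
    have hprod := factor_cf (fun N => (xxE_isPt x N).1) m hs
    rw [sum_cfE x hm hs] at hprod
    have hpi : ∀ p : Pr, (xxE x p).factor m (((p : ℕ) : ℂ) ^ (-s)) =
        ((x p).1).factor m (((p : ℕ) : ℂ) ^ (-s)) := by
      intro p
      rw [xxE_prime]
    simp only [hpi] at hprod
    set LL : ℂ → ℂ := LSeries (fun N => (pc N : ℂ)) with hLL
    have hval : (m.sum fun w e => (e : ℂ) * LSeries (uuE x w) s) =
        (∑ t ∈ T, (a t : ℂ) * (LL (s - t * Complex.I) - LL (s - t * Complex.I + 1 / 4))) +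
          Z * LL (s + 1 / 4) + ∑ w ∈ m.support, (m w : ℂ) * HW w s := by
      have h1 : ∀ t : ℝ, ((a t : ℤ) : ℂ) = ∑ w ∈ m.support, (m w : ℂ) *
          ((c w t : ℂ) / (Fintype.card (WG n) : ℂ)) := by
        intro t
        have h2 : ((Fintype.card (WG n) : ℕ) : ℂ) * a t =
            ∑ w ∈ m.support, (m w : ℂ) * (c w t : ℂ) := by
          have h3 := ha t
          unfold Finsupp.sum at h3
          exact_mod_cast h3
        rw [eq_comm, ← mul_right_inj' hc0, h2, Finset.mul_sum]
        refine Finset.sum_congr rfl fun w _ => ?_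
        field_simp
      have h5 : ((Z : ℤ) : ℂ) = ∑ w ∈ m.support, (m w : ℂ) *
          (if TrivE ε w then (1 : ℂ) else 0) := by
        show ((∑ w ∈ m.support, (if TrivE ε w then m w else 0) : ℤ) : ℂ) = _
        push_cast
        refine Finset.sum_congr rfl fun w _ => ?_
        split_ifs <;> simp
      have h6 : ∀ w ∈ m.support, ((c w).sum fun t z => (z : ℂ) / (Fintype.card (WG n) : ℂ) *
          (LL (s - t * Complex.I) - LL (s - t * Complex.I + 1 / 4))) =
          ∑ t ∈ T, (c w t : ℂ) / (Fintype.card (WG n) : ℂ) *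
            (LL (s - t * Complex.I) - LL (s - t * Complex.I + 1 / 4)) := by
        intro w hw
        unfold Finsupp.sum
        refine Finset.sum_subset (fun t ht => Finset.mem_biUnion.2 ⟨w, hw, ht⟩) fun t _ ht => ?_
        rw [Finsupp.notMem_support_iff.1 ht]
        simp
      have h7 : ∀ w ∈ m.support, (m w : ℂ) * LSeries (uuE x w) s =
          (∑ t ∈ T, (m w : ℂ) * ((c w t : ℂ) / (Fintype.card (WG n) : ℂ)) *
            (LL (s - t * Complex.I) - LL (s - t * Complex.I + 1 / 4))) +
          (m w : ℂ) * (if TrivE ε w then (1 : ℂ) else 0) * LL (s + 1 / 4) +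
          (m w : ℂ) * HW w s := by
        intro w hw
        rw [hHW2 w s hs, h6 w hw, mul_add, mul_add, Finset.mul_sum]
        have h8 : (m w : ℂ) * (if TrivE ε w then LL (s + 1 / 4) else 0) =
            (m w : ℂ) * (if TrivE ε w then (1 : ℂ) else 0) * LL (s + 1 / 4) := by
          split_ifs <;> ring
        rw [h8]
        have h9 : ∑ t ∈ T, (m w : ℂ) * ((c w t : ℂ) / (Fintype.card (WG n) : ℂ) *
            (LL (s - t * Complex.I) - LL (s - t * Complex.I + 1 / 4))) =
            ∑ t ∈ T, (m w : ℂ) * ((c w t : ℂ) / (Fintype.card (WG n) : ℂ)) *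
            (LL (s - t * Complex.I) - LL (s - t * Complex.I + 1 / 4)) :=
          Finset.sum_congr rfl fun t _ => by ring
        rw [h9]
        ring
      unfold Finsupp.sum
      rw [Finset.sum_congr rfl h7, Finset.sum_add_distrib, Finset.sum_add_distrib, Finset.sum_comm,
        ← Finset.sum_mul, ← h5]
      congr 2
      refine Finset.sum_congr rfl fun t _ => ?_
      rw [h1, Finset.sum_mul]
    rw [hval] at hprod
    have hfin : (∏ t ∈ T, zz t s ^ a t) * riemannZeta (s + 1 / 4) ^ Z *
        Complex.exp (∑ w ∈ m.support, (m w : ℂ) * HW w s) =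
        Complex.exp ((∑ t ∈ T, (a t : ℂ) * (LL (s - t * Complex.I) -
          LL (s - t * Complex.I + 1 / 4))) + Z * LL (s + 1 / 4) +
          ∑ w ∈ m.support, (m w : ℂ) * HW w s) := by
      have h1 : ∀ t ∈ T, zz t s ^ a t = Complex.exp ((a t : ℂ) * (LL (s - t * Complex.I) -
          LL (s - t * Complex.I + 1 / 4))) := by
        intro t _
        unfold zz
        rw [← exp_pc (hst t), ← exp_pc (hst' t), ← Complex.exp_sub, ← Complex.exp_int_mul]
      rw [Finset.prod_congr rfl h1, ← Complex.exp_sum, ← exp_pc hs', ← Complex.exp_int_mul,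
        ← Complex.exp_add, ← Complex.exp_add]
    rw [hfin]
    exact hprod

end Pool.Agent.EEAL
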