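import Pool.Agent.W_eea520_L.Stmt

/-!
# The laws of the edge for twists: definitions (MP_eea520_nt)
-/

set_option autoImplicit false

namespace Pool.Agent.EEAL

open Filter Topology Pool.Agent.EEA520 Pool.Agent.EEAN

/-- Near the point `1`, the Euler product of `π` for `m`, twisted by the function `e` on the primes, is, in
the half plane `Re s > 1`, equal to `g`. -/
def IsLT {n : ℕ} (π : GSys n) (m : Wt n →₀ ℤ) (e : Pr → ℂ) (g : ℂ → ℂ) : Prop :=
  ∀ᶠ s in 𝓝[{s | 1 < s.re}] (1 : ℂ),
    HasProd (fun p : Pr => (π p).factor m (e p * ((p : ℕ) : ℂ) ^ (-s))) (g s)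

/-- The twisted Euler product is meromorphic at the point `1`. -/
def MeroT {n : ℕ} (π : GSys n) (m : Wt n →₀ ℤ) (e : Pr → ℂ) : Prop :=
  ∃ g : ℂ → ℂ, MeromorphicAt g 1 ∧ IsLT π m e g

/-- The twisted Euler product is meromorphic at the point `1`, with a pole of order `k`. -/
def PoleOrderT {n : ℕ} (π : GSys n) (m : Wt n →₀ ℤ) (e : Pr → ℂ) (k : ℤ) : Prop :=
  ∃ g : ℂ → ℂ, MeromorphicAt g 1 ∧ meromorphicOrderAt g 1 = ((-k : ℤ) : WithTop ℤ) ∧ IsLT π m e g

/-- `χ` is a homomorphism, up to finitely many primes, from the group `X` to the group of the functions from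
the primes to the unit circle. -/
def IsTwist {X : Type} [AddCommGroup X] (χ : X → Pr → ℂ) : Prop :=
  (∀ a p, ‖χ a p‖ = 1) ∧ ∀ a b, ∀ᶠ p in cofinite, χ (a + b) p = χ a p * χ b p

/-- `c` is the function of the pole orders at `1` of the twists of `π` by `χ a`, `a ∈ X`: the Euler product
for a virtual character `m` is meromorphic, and its pole order is the sum of the `m w * c (w, a)` divided by
`2 ^ n * n !`; for the orbit sum of any weight `w` the pole order is `c (w, a)`, and this is also the mean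
value, in the sense of Dirichlet density, of the sum over `g` of the real parts of `(g w)(A_p) χ a p`. -/
def OrdersT {n : ℕ} {X : Type} (π : GSys n) (χ : X → Pr → ℂ) (c : Wt n × X → ℤ) : Prop :=
  (∀ m, IsCharacter m → ∀ a, ∃ k : ℤ,
    (Fintype.card (Weyl n) : ℤ) * k = (m.sum fun w u => u * c (w, a)) ∧ PoleOrderT π m (χ a) k) ∧
  ∀ (w : Wt n) (a : X), PoleOrderT π (orbitSum w) (χ a) (c (w, a)) ∧
    DirMean (fun p => ∑ g : Weyl n, (((π p).ev (wact g w) : ℂ) * χ a p).re) (c (w, a))

end Pool.Agent.EEAL
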