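import Pool.Agent.W_eea520_L.StmtT
import Pool.Agent.W_eea520_L.LawG

/-!
# The laws of the edge for twists (MP_eea520_nt)
-/

set_option autoImplicit false

namespace Pool.Agent.EEAL

open Filter Topology Pool.Agent.EEA520 Pool.Agent.EEAG1 Pool.Agent.EEAN

variable {n : ℕ}

/-- The twisted system, with one more coordinate. -/
noncomputable def twS (π : GSys n) (e : Pr → ℂ) (he : ∀ p, ‖e p‖ = 1) : GSys (n + 1) := fun p =>
  ⟨(π p).c, Fin.snoc (π p).x (Units.mk0 (e p) (by
    intro h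
    have h1 := he p
    rw [h, norm_zero] at h1
    exact zero_ne_one h1))⟩

/-- The weight with one more coordinate. -/
def upW (w : Wt n) : Wt (n + 1) := (w.1, Fin.snoc w.2 1)

theorem upW_inj : Function.Injective (upW : Wt n → Wt (n + 1)) := by
  intro v w h
  have h1 : v.1 = w.1 := congrArg (fun x : Wt (n + 1) => x.1) h
  have h2 : (Fin.snoc v.2 1 : Fin (n + 1) → ℤ) = Fin.snoc w.2 1 :=
    congrArg (fun x : Wt (n + 1) => x.2) h
  refine Prod.ext h1 ?_
  funext i
  have h3 := congrFun h2 (Fin.castSucc i)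
  rwa [Fin.snoc_castSucc, Fin.snoc_castSucc] at h3

theorem ev_upW (π : GSys n) (e : Pr → ℂ) (he : ∀ p, ‖e p‖ = 1) (w : Wt n) (p : Pr) :
    ((twS π e he p).ev (upW w) : ℂ) = ((π p).ev w : ℂ) * e p := by
  unfold twS upW Torus.ev
  simp only [Fin.prod_univ_castSucc, Fin.snoc_castSucc, Fin.snoc_last, zpow_one]
  push_cast
  simp only [Units.val_mk0]
  ring

theorem twS_tempered {π : GSys n} (hπ : Tempered π) (e : Pr → ℂ) (he : ∀ p, ‖e p‖ = 1) :
    Tempered (twS π e he) := by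
  intro p
  refine ⟨(hπ p).1, fun i => ?_⟩
  refine Fin.lastCases ?_ (fun j => ?_) i
  · show ‖((Fin.snoc (α := fun _ => ℂˣ) (π p).x _ (Fin.last n) : ℂˣ) : ℂ)‖ = 1
    rw [Fin.snoc_last, Units.val_mk0]
    exact he p
  · show ‖((Fin.snoc (α := fun _ => ℂˣ) (π p).x _ (Fin.castSucc j) : ℂˣ) : ℂ)‖ = 1
    rw [Fin.snoc_castSucc]
    exact (hπ p).2 j

theorem factor_upW (π : GSys n) (e : Pr → ℂ) (he : ∀ p, ‖e p‖ = 1) (m : Wt n →₀ ℤ) (p : Pr) (q : ℂ) :
    (twS π e he p).factor (m.mapDomain upW) q = (π p).factor m (e p * q) := by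
  unfold Torus.factor
  rw [Finsupp.prod_mapDomain_index_inj upW_inj]
  refine Finsupp.prod_congr fun w _ => ?_
  rw [ev_upW, mul_assoc]

theorem pt_zero : pt 0 = 1 := by
  unfold pt
  simp

theorem isL_tw (π : GSys n) (e : Pr → ℂ) (he : ∀ p, ‖e p‖ = 1) (m : Wt n →₀ ℤ) (g : ℂ → ℂ) :
    IsL (twS π e he) (m.mapDomain upW) (pt 0) g ↔ IsLT π m e g := by
  unfold IsL IsLT
  rw [pt_zero]
  simp only [factor_upW]

theorem exists_poleOrderT {π : GSys n} (hπ : Tempered π) {e : Pr → ℂ} (he : ∀ p, ‖e p‖ = 1)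
    {m : Wt n →₀ ℤ} (h : MeroT π m e) : ∃ k : ℤ, PoleOrderT π m e k := by
  obtain ⟨g, hg, hL⟩ := h
  obtain ⟨k, g', h1, h2, h3⟩ := exists_poleOrder (twS_tempered hπ e he) (m := m.mapDomain upW)
    (t := 0) ⟨g, by rw [pt_zero]; exact hg, (isL_tw π e he m g).2 hL⟩
  rw [pt_zero] at h1 h2
  exact ⟨k, g', h1, h2, (isL_tw π e he m g').1 h3⟩

/-- The real number `Re (w(π_p) e(p))`. -/
noncomputable def zT (π : GSys n) (e : Pr → ℂ) (w : Wt n) (p : Pr) : ℝ :=
  (((π p).ev w : ℂ) * e p).re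

/-- The real part of the twisted trace. -/
noncomputable def treT (π : GSys n) (m : Wt n →₀ ℤ) (e : Pr → ℂ) (p : Pr) : ℝ :=
  m.sum fun w u => (u : ℝ) * zT π e w p

theorem zT_le {π : GSys n} (hπ : Tempered π) {e : Pr → ℂ} (he : ∀ p, ‖e p‖ = 1) (w : Wt n)
    (p : Pr) : |zT π e w p| ≤ 1 := by
  unfold zT
  refine (Complex.abs_re_le_norm _).trans ?_
  rw [norm_mul, norm_ev hπ, he, one_mul]

theorem bdP_zT {π : GSys n} (hπ : Tempered π) {e : Pr → ℂ} (he : ∀ p, ‖e p‖ = 1) (w : Wt n) :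
    BdP (zT π e w) := ⟨1, zT_le hπ he w⟩

theorem bdP_treT {π : GSys n} (hπ : Tempered π) {e : Pr → ℂ} (he : ∀ p, ‖e p‖ = 1)
    (m : Wt n →₀ ℤ) : BdP (treT π m e) :=
  BdP.sum _ fun w _ => (bdP_zT hπ he w).const_mul _

theorem mean_of_poleOrderT {π : GSys n} (hπ : Tempered π) {e : Pr → ℂ} (he : ∀ p, ‖e p‖ = 1)
    {m : Wt n →₀ ℤ} {k : ℤ} (h : PoleOrderT π m e k) : MeanP (treT π m e) k := by
  obtain ⟨g, hg, hk, hL⟩ := h
  have h1 := mean_of_poleOrder (twS_tempered hπ e he) (m := m.mapDomain upW) (t := 0) (k := k)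
    ⟨g, by rw [pt_zero]; exact hg, by rw [pt_zero]; exact hk, (isL_tw π e he m g).2 hL⟩
  have h2 : tre (twS π e he) (m.mapDomain upW) 0 = treT π m e := by
    funext p
    unfold tre treT
    rw [Finsupp.sum_mapDomain_index_inj upW_inj]
    refine Finsupp.sum_congr fun w _ => ?_
    unfold zre zT
    rw [ev_upW]
    simp
  rwa [h2] at h1

theorem treT_orb (π : GSys n) (e : Pr → ℂ) (w : Wt n) (p : Pr) :
    treT π (orb w) e p = ∑ g : WG n, zT π e (act g w) p := by
  classical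
  unfold treT orb
  rw [← Finsupp.sum_finsetSum_index (by intro a; simp) (by intro a b c; push_cast; ring)]
  refine Finset.sum_congr rfl fun g _ => ?_
  rw [Finsupp.sum_single_index (by simp)]
  simp

theorem sum_treT_orb {m : Wt n →₀ ℤ} (hm : IsCharacter m) (π : GSys n) (e : Pr → ℂ) (p : Pr) :
    (m.sum fun w u => (u : ℝ) * treT π (orb w) e p) = Fintype.card (WG n) * treT π m e p := by
  classical
  simp only [treT_orb, Finset.mul_sum]
  rw [Finsupp.sum_finsetSum_comm]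
  rw [Finset.sum_congr rfl fun g _ => sum_act hm g fun w => zT π e w p]
  rw [Finset.sum_const, Finset.card_univ, nsmul_eq_mul]
  rfl

/-- The complex number `w(π_p) e(p)`. -/
noncomputable def zcT (π : GSys n) (e : Pr → ℂ) (w : Wt n) (p : Pr) : ℂ :=
  ((π p).ev w : ℂ) * e p

theorem norm_zcT {π : GSys n} (hπ : Tempered π) {e : Pr → ℂ} (he : ∀ p, ‖e p‖ = 1) (w : Wt n)
    (p : Pr) : ‖zcT π e w p‖ = 1 := by
  unfold zcT
  rw [norm_mul, norm_ev hπ, he, one_mul]

/-! ### Finitely many primes -/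

theorem meanP_fin {f : Pr → ℝ} (h : ∀ᶠ p in cofinite, f p = 0) : MeanP f 0 := by
  classical
  have hfin : {p | ¬ f p = 0}.Finite := h
  refine meanP_of_log (m := 0) (C := ∑ p ∈ hfin.toFinset, |f p|) ?_
  filter_upwards [self_mem_nhdsWithin] with s hs
  have hs' : (1 : ℝ) < s := hs
  have h1 : psm f s = ∑ p ∈ hfin.toFinset, f p * ((p : ℕ) : ℝ) ^ (-s) := by
    unfold psm
    refine tsum_eq_sum fun p hp => ?_
    rw [Set.Finite.mem_toFinset] at hp
    have h2 : f p = 0 := by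
      by_contra h3
      exact hp h3
    rw [h2, zero_mul]
  rw [zero_mul, add_zero, h1]
  refine (Finset.abs_sum_le_sum_abs _ _).trans (Finset.sum_le_sum fun p _ => ?_)
  rw [abs_mul]
  refine mul_le_of_le_one_right (abs_nonneg _) ?_
  have hp1 : (1 : ℝ) ≤ ((p : ℕ) : ℝ) := by exact_mod_cast p.2.one_lt.le
  rw [abs_of_nonneg (Real.rpow_nonneg (by linarith) _)]
  exact Real.rpow_le_one_of_one_le_of_nonpos hp1 (by linarith)

theorem MeanP.congr_fin {f g : Pr → ℝ} {L : ℝ} (hf : BdP f) (hg : BdP g) (h : MeanP f L)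
    (hfg : ∀ᶠ p in cofinite, f p = g p) : MeanP g L := by
  have h1 : MeanP (fun p => g p + (-1) * f p) 0 := meanP_fin (by
    filter_upwards [hfg] with p hp
    rw [hp]
    ring)
  have h2 := MeanP.add hf (hg.add (hf.const_mul (-1))) h h1
  rw [add_zero] at h2
  have h3 : (fun p => f p + (g p + (-1) * f p)) = g := by
    funext p
    ring
  rwa [h3] at h2

theorem MeanP.nonneg_fin {f : Pr → ℝ} {L : ℝ} (hb : BdP f) (h : MeanP f L)
    (hf : ∀ᶠ p in cofinite, 0 ≤ f p) : 0 ≤ L := by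
  have hb' : BdP fun p => max (f p) 0 := by
    obtain ⟨C, hC⟩ := hb
    refine ⟨C, fun p => le_trans ?_ (hC p)⟩
    rw [abs_of_nonneg (le_max_right _ _)]
    exact max_le (le_abs_self _) (abs_nonneg _)
  have h1 : MeanP (fun p => max (f p) 0) L := MeanP.congr_fin hb hb' h (by
    filter_upwards [hf] with p hp
    exact (max_eq_left hp).symm)
  exact h1.nonneg fun p => le_max_right _ _

section twist

variable {X : Type} [AddCommGroup X] {χ : X → Pr → ℂ}

theorem IsTwist.zero (hχ : IsTwist χ) : ∀ᶠ p in cofinite, χ 0 p = 1 := by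
  filter_upwards [hχ.2 0 0] with p h1
  rw [add_zero] at h1
  have h2 : χ 0 p ≠ 0 := by
    intro h
    have h3 := hχ.1 0 p
    rw [h, norm_zero] at h3
    exact zero_ne_one h3
  have h4 : χ 0 p * 1 = χ 0 p * χ 0 p := by
    rw [mul_one]
    exact h1
  exact (mul_left_cancel₀ h2 h4).symm

theorem IsTwist.neg (hχ : IsTwist χ) (a : X) :
    ∀ᶠ p in cofinite, χ (-a) p = (starRingEnd ℂ) (χ a p) := by
  filter_upwards [hχ.2 a (-a), hχ.zero] with p h1 h0
  rw [add_neg_cancel, h0] at h1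
  have h2 : (starRingEnd ℂ) (χ a p) = (χ a p)⁻¹ := (Complex.inv_eq_conj (hχ.1 a p)).symm
  rw [h2]
  exact eq_inv_of_mul_eq_one_right h1.symm

theorem IsTwist.sub (hχ : IsTwist χ) (a b : X) :
    ∀ᶠ p in cofinite, χ (a - b) p = χ a p * (starRingEnd ℂ) (χ b p) := by
  filter_upwards [hχ.2 a (-b), hχ.neg b] with p h1 h2
  rw [sub_eq_add_neg, h1, h2]

theorem zcT_sub {π : GSys n} (hπ : Tempered π) (v w : Wt n) {a b : X} {p : Pr}
    (h : χ (a - b) p = χ a p * (starRingEnd ℂ) (χ b p)) :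
    zcT π (χ (a - b)) (v - w) p = zcT π (χ a) v p * (starRingEnd ℂ) (zcT π (χ b) w p) := by
  have h1 : (starRingEnd ℂ) ((π p).ev w : ℂ) = ((π p).ev w : ℂ)⁻¹ :=
    (Complex.inv_eq_conj (norm_ev hπ p w)).symm
  unfold zcT
  rw [ev_sub, h, map_mul, h1, Units.val_mul, Units.val_inv_eq_inv_val]
  ring

theorem law_twist {π : GSys n} (hπ : Tempered π) (hχ : IsTwist χ)
    (h : ∀ m, IsCharacter m → ∀ a, MeroT π m (χ a)) :
    ∃ c : Wt n × X → ℤ, OrdersT π χ c ∧ PosDef c ∧ (∀ g w a, c (wact g w, a) = c (w, a)) ∧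
      (∀ w a, ((Finset.univ.filter fun g : Weyl n => wact g w = w).card : ℤ) ∣ c (w, a)) ∧
      ∃ (r : ℕ) (f : Fin r → Wt n × X → ℤ) (H : Fin r → AddSubgroup (Wt n × X)),
        (∀ i, PosDef (f i) ∧ FinMod (f i) (H i)) ∧ ∀ x, c x = ∑ i, f i x := by
  classical
  have h1 : ∀ x : Wt n × X, ∃ k : ℤ, PoleOrderT π (orb x.1) (χ x.2) k := fun x =>
    exists_poleOrderT hπ (hχ.1 x.2) (h _ (orb_isCharacter x.1) _)
  choose c hc using h1
  have hmean : ∀ x : Wt n × X, MeanP (fun p => ∑ g : WG n, zT π (χ x.2) (act g x.1) p) (c x) := by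
    intro x
    have h2 := mean_of_poleOrderT hπ (hχ.1 x.2) (hc x)
    have h3 : treT π (orb x.1) (χ x.2) = fun p => ∑ g : WG n, zT π (χ x.2) (act g x.1) p := by
      funext p
      exact treT_orb π (χ x.2) x.1 p
    rw [h3] at h2
    exact h2
  have hbd : ∀ (w : Wt n) (a : X), BdP fun p => ∑ g : WG n, zT π (χ a) (act g w) p := fun w a =>
    BdP.sum _ fun g _ => bdP_zT hπ (hχ.1 a) _
  have hinv : ∀ (g : WG n) (w : Wt n) (a : X), c (act g w, a) = c (w, a) := by
    intro g w a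
    have h2 := hc (act g w, a)
    have h3 : PoleOrderT π (orb w) (χ a) (c (act g w, a)) := by
      have h4 : orb (act g w) = orb w := orb_act g w
      rw [← h4]
      exact h2
    exact_mod_cast MeanP.unique (mean_of_poleOrderT hπ (hχ.1 a) h3)
      (mean_of_poleOrderT hπ (hχ.1 a) (hc (w, a)))
  have hform : ∀ m, IsCharacter m → ∀ a, ∃ k : ℤ,
      (Fintype.card (WG n) : ℤ) * k = (m.sum fun w u => u * c (w, a)) ∧ PoleOrderT π m (χ a) k := by
    intro m hm a
    obtain ⟨k, hk⟩ := exists_poleOrderT hπ (hχ.1 a) (h m hm a)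
    refine ⟨k, ?_, hk⟩
    have h2 := (mean_of_poleOrderT hπ (hχ.1 a) hk).const_mul (Fintype.card (WG n))
    have h3 : MeanP (fun p => ∑ w ∈ m.support, (m w : ℝ) * treT π (orb w) (χ a) p)
        (∑ w ∈ m.support, (m w : ℝ) * c (w, a)) :=
      MeanP.sum _ (fun w _ => (bdP_treT hπ (hχ.1 a) _).const_mul _)
        (fun w _ => (mean_of_poleOrderT hπ (hχ.1 a) (hc (w, a))).const_mul _)
    have h4 : (fun p => ∑ w ∈ m.support, (m w : ℝ) * treT π (orb w) (χ a) p) =
        fun p => (Fintype.card (WG n) : ℝ) * treT π m (χ a) p := by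
      funext p
      exact sum_treT_orb hm π (χ a) p
    rw [h4] at h3
    have h5 := MeanP.unique h2 h3
    unfold Finsupp.sum
    exact_mod_cast h5
  have hpd : PosDefG fun x => (c x : ℝ) := by
    refine ⟨fun x => ?_, fun a => ?_⟩
    · have h1 := hmean (-x)
      have h2 := hmean x
      have h3 : ∀ᶠ p in cofinite, (fun p => ∑ g : WG n, zT π (χ (-x).2) (act g (-x).1) p) p =
          (fun p => ∑ g : WG n, zT π (χ x.2) (act g x.1) p) p := by
        filter_upwards [hχ.sub 0 x.2, hχ.zero] with p hp hp0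
        refine Finset.sum_congr rfl fun g _ => ?_
        rw [Prod.fst_neg, Prod.snd_neg, map_neg]
        have h4 := zcT_sub hπ 0 (act g x.1) hp
        rw [zero_sub, zero_sub] at h4
        have h5 : zcT π (χ 0) (0 : Wt n) p = 1 := by
          unfold zcT Torus.ev
          rw [hp0]
          simp
        rw [h5, one_mul] at h4
        show (zcT π (χ (-x.2)) (-(act g x.1)) p).re = (zcT π (χ x.2) (act g x.1) p).re
        rw [h4, Complex.conj_re]
      exact MeanP.unique (MeanP.congr_fin (hbd _ _) (hbd _ _) h1 h3) h2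
    · have h1 : MeanP (fun p => ∑ y ∈ a.support ×ˢ a.support,
          a y.1 * a y.2 * ∑ g : WG n, zT π (χ (y.1 - y.2).2) (act g (y.1 - y.2).1) p)
          (∑ y ∈ a.support ×ˢ a.support, a y.1 * a y.2 * c (y.1 - y.2)) :=
        MeanP.sum _ (fun y _ => (hbd _ _).const_mul _)
          (fun y _ => (hmean (y.1 - y.2)).const_mul _)
      have h2 : a.sum (fun i b => a.sum fun j b' => b * b' * (c (i - j) : ℝ)) =
          ∑ y ∈ a.support ×ˢ a.support, a y.1 * a y.2 * c (y.1 - y.2) := by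
        rw [Finset.sum_product]
        rfl
      rw [h2]
      refine MeanP.nonneg_fin (BdP.sum _ fun y _ => (hbd _ _).const_mul _) h1 ?_
      have hall : ∀ᶠ p in cofinite, ∀ y ∈ a.support ×ˢ a.support,
          χ (y.1.2 - y.2.2) p = χ y.1.2 p * (starRingEnd ℂ) (χ y.2.2 p) :=
        (Finset.eventually_all _).2 fun y _ => hχ.sub _ _
      filter_upwards [hall] with p hp
      have h3 : ∀ g : WG n, ∑ y ∈ a.support ×ˢ a.support,
          a y.1 * a y.2 * zT π (χ (y.1 - y.2).2) (act g (y.1 - y.2).1) p =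
          Complex.normSq (∑ y ∈ a.support, (a y : ℂ) * zcT π (χ y.2) (act g y.1) p) := by
        intro g
        have h4 : ((Complex.normSq (∑ y ∈ a.support, (a y : ℂ) * zcT π (χ y.2) (act g y.1) p) : ℝ) :
            ℂ) = ∑ y ∈ a.support ×ˢ a.support,
              ((a y.1 * a y.2 : ℝ) : ℂ) * zcT π (χ (y.1 - y.2).2) (act g (y.1 - y.2).1) p := by
          rw [← Complex.mul_conj, map_sum, Finset.sum_mul_sum, Finset.sum_product]
          refine Finset.sum_congr rfl fun i hi => Finset.sum_congr rfl fun j hj => ?_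
          rw [map_mul, Complex.conj_ofReal, Prod.fst_sub, Prod.snd_sub, map_sub,
            zcT_sub hπ _ _ (hp (i, j) (Finset.mem_product.2 ⟨hi, hj⟩))]
          push_cast
          ring
        rw [← Complex.ofReal_re (Complex.normSq _), h4, Complex.re_sum]
        refine Finset.sum_congr rfl fun y _ => ?_
        rw [Complex.re_ofReal_mul]
        rfl
      have h5 : ∑ y ∈ a.support ×ˢ a.support,
          a y.1 * a y.2 * ∑ g : WG n, zT π (χ (y.1 - y.2).2) (act g (y.1 - y.2).1) p =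
          ∑ g : WG n, ∑ y ∈ a.support ×ˢ a.support,
            a y.1 * a y.2 * zT π (χ (y.1 - y.2).2) (act g (y.1 - y.2).1) p := by
        rw [Finset.sum_comm]
        refine Finset.sum_congr rfl fun y _ => ?_
        rw [Finset.mul_sum]
      rw [h5]
      refine Finset.sum_nonneg fun g _ => ?_
      rw [h3]
      exact Complex.normSq_nonneg _
  refine ⟨c, ⟨hform, fun w a => ⟨hc (w, a), hmean (w, a)⟩⟩, posDef_iff.2 hpd, hinv, fun w a => ?_, ?_⟩
  · exact (int_iff (c := fun w => c (w, a)) fun g w => hinv g w a).1 (fun m hm => by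
      obtain ⟨k, hk, -⟩ := hform m hm a
      exact ⟨k, hk.symm⟩) w
  · obtain ⟨r, f, H, h1, h2⟩ := cohen_pd hpd
    exact ⟨r, f, H, fun i => ⟨posDef_iff.2 (h1 i).1, (h1 i).2⟩, h2⟩

end twist

end Pool.Agent.EEAL
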